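import Pool.Agent.LHB.Defs
import Pool.Agent.LHA.Nb1

/-!
# Types: basic facts

`hd`: `rev` for `(x, y), (x', y')` and then for the reverse darts (whose types are equal).
`star_equiv0`: `star` says that for every `θ` the finite sets `N(x) ∩ {dt x = θ}`, `N(x') ∩ {dt x' = θ}` have
the same cardinality, so the fibres of `z ↦ T.dt x z.1` on `N(x)` and of `z ↦ T.dt x' z.1` on `N(x')` are
equivalent; glue them with `Equiv.ofFiberEquiv` (`Equiv.ofFiberEquiv_map`).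
`star_equiv`: compose with the transposition `Equiv.swap (φ y) y'` of `N(x')`, which preserves types since
`T.dt x' (φ y) = T.dt x y = T.dt x' y'`.
`ext0`: `z' = φ z`. `ext1`: `φ` with `φ y = y'`, `z' = φ z`. `ext2`: take `φ` with `φ y1 = y1'`; then compose with
the transposition of `φ y2` and `y2'` (both are different from `y1'` and have the same type), which keeps
`φ y1 = y1'`; `z' = φ z`.
`rch`: induction on `m` (generalizing `p, q`): `m = 0` clear. `m + 1`: `Rch H m x y z p`, `H.Adj p q`, `q ≠ z`. By induction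
`Rch H m x' y' z' p'` with `T.dt z' p' = T.dt z p` (all are edges: `rch_adj` of `LHA/Nb1.lean`). By `hd`
`T.vt p = T.vt p'` and `T.dt p z = T.dt p' z'`; `ext1` (centre `p`, `y := z`, `z := q`) gives `q'` adjacent to `p'`, `q' ≠ z'`,
`T.dt p' q' = T.dt p q`.
-/

namespace Pool.Agent.LHB

open Pool.Agent.LIH Pool.Agent.LHA

variable {V : Type} {H : SimpleGraph V} (T : Typ H)

theorem Typ.hd {x y x' y' : V} (h : H.Adj x y) (h' : H.Adj x' y') (e : T.dt x y = T.dt x' y') :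
    T.vt y = T.vt y' ∧ T.vt x = T.vt x' ∧ T.dt y x = T.dt y' x' := by
  obtain ⟨h1, h2⟩ := T.rev x y x' y' h h' e
  exact ⟨(T.rev y x y' x' h.symm h'.symm h2).1, h1, h2⟩

theorem Typ.star_equiv0 [Finite V] {x x' : V} (hv : T.vt x = T.vt x') :
    ∃ φ : H.neighborSet x ≃ H.neighborSet x', T.St x x' φ := by
  classical
  have h1 : ∀ θ, Nonempty ({z : H.neighborSet x // T.dt x z.1 = θ} ≃
      {z : H.neighborSet x' // T.dt x' z.1 = θ}) := by
    intro θ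
    have e1 : {z : H.neighborSet x // T.dt x z.1 = θ} ≃ ↥(H.neighborSet x ∩ {y | T.dt x y = θ}) :=
      Equiv.subtypeSubtypeEquivSubtypeInter (fun z => z ∈ H.neighborSet x) (fun z => T.dt x z = θ)
    have e2 : {z : H.neighborSet x' // T.dt x' z.1 = θ} ≃ ↥(H.neighborSet x' ∩ {y | T.dt x' y = θ}) :=
      Equiv.subtypeSubtypeEquivSubtypeInter (fun z => z ∈ H.neighborSet x') (fun z => T.dt x' z = θ)
    have h2 : Nat.card ↥(H.neighborSet x ∩ {y | T.dt x y = θ}) =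
        Nat.card ↥(H.neighborSet x' ∩ {y | T.dt x' y = θ}) := T.star x x' hv θ
    exact ⟨e1.trans ((Finite.card_eq.1 h2).some.trans e2.symm)⟩
  have e := fun θ => (h1 θ).some
  refine ⟨Equiv.ofFiberEquiv (f := fun z : H.neighborSet x => T.dt x z.1)
    (g := fun z : H.neighborSet x' => T.dt x' z.1) e, ?_⟩
  intro z
  exact (Equiv.ofFiberEquiv_map e z).symm

open Classical in
theorem Typ.TBas_swap {x x' : V} {φ : H.neighborSet x ≃ H.neighborSet x'} (hφ : T.St x x' φ)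
    (a b : H.neighborSet x') (hab : T.dt x' a.1 = T.dt x' b.1) :
    T.St x x' (φ.trans (Equiv.swap a b)) := by
  intro z
  rw [hφ z]
  show _ = T.dt x' ((Equiv.swap a b) (φ z)).1
  by_cases h1 : φ z = a
  · rw [h1, Equiv.swap_apply_left, hab]
  · by_cases h2 : φ z = b
    · rw [h2, Equiv.swap_apply_right, hab]
    · rw [Equiv.swap_apply_of_ne_of_ne h1 h2]

theorem Typ.star_equiv [Finite V] {x x' y y' : V} (hv : T.vt x = T.vt x') (h : H.Adj x y)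
    (h' : H.Adj x' y') (e : T.dt x y = T.dt x' y') :
    ∃ φ : H.neighborSet x ≃ H.neighborSet x', T.St x x' φ ∧ (φ ⟨y, h⟩).1 = y' := by
  classical
  obtain ⟨φ, hφ⟩ := T.star_equiv0 hv
  refine ⟨φ.trans (Equiv.swap (φ ⟨y, h⟩) ⟨y', h'⟩), T.TBas_swap hφ _ _ ?_, ?_⟩
  · rw [← hφ ⟨y, h⟩]
    exact e
  · show ((Equiv.swap (φ ⟨y, h⟩) ⟨y', h'⟩) (φ ⟨y, h⟩)).1 = y'
    rw [Equiv.swap_apply_left]

theorem Typ.ext0 [Finite V] {x x' z : V} (hv : T.vt x = T.vt x') (hz : H.Adj x z) :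
    ∃ z', H.Adj x' z' ∧ T.dt x' z' = T.dt x z := by
  obtain ⟨φ, hφ⟩ := T.star_equiv0 hv
  exact ⟨(φ ⟨z, hz⟩).1, (φ ⟨z, hz⟩).2, (hφ ⟨z, hz⟩).symm⟩

theorem Typ.ext1 [Finite V] {x x' y y' z : V} (hv : T.vt x = T.vt x') (hy : H.Adj x y)
    (hz : H.Adj x z) (hyz : y ≠ z) (hy' : H.Adj x' y') (e : T.dt x y = T.dt x' y') :
    ∃ z', H.Adj x' z' ∧ z' ≠ y' ∧ T.dt x' z' = T.dt x z := by
  obtain ⟨φ, hφ, hy1⟩ := T.star_equiv hv hy hy' e
  refine ⟨(φ ⟨z, hz⟩).1, (φ ⟨z, hz⟩).2, ?_, (hφ ⟨z, hz⟩).symm⟩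
  intro h1
  rw [← hy1] at h1
  have h2 := φ.injective (Subtype.ext h1)
  exact hyz (congrArg Subtype.val h2).symm

theorem Typ.ext2 [Finite V] {x x' y1 y1' y2 y2' z : V} (hv : T.vt x = T.vt x') (h1 : H.Adj x y1)
    (h2 : H.Adj x y2) (hz : H.Adj x z) (h12 : y1 ≠ y2) (h1z : y1 ≠ z) (h2z : y2 ≠ z)
    (h1' : H.Adj x' y1') (h2' : H.Adj x' y2') (h12' : y1' ≠ y2') (e1 : T.dt x y1 = T.dt x' y1')
    (e2 : T.dt x y2 = T.dt x' y2') :
    ∃ z', H.Adj x' z' ∧ z' ≠ y1' ∧ z' ≠ y2' ∧ T.dt x' z' = T.dt x z := by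
  classical
  obtain ⟨φ, hφ, hy1⟩ := T.star_equiv hv h1 h1' e1
  set ψ := φ.trans (Equiv.swap (φ ⟨y2, h2⟩) ⟨y2', h2'⟩) with hψ
  have hS : T.St x x' ψ := T.TBas_swap hφ _ _ (by
    rw [← hφ ⟨y2, h2⟩]
    exact e2)
  have k2 : (ψ ⟨y2, h2⟩).1 = y2' := by
    show ((Equiv.swap (φ ⟨y2, h2⟩) ⟨y2', h2'⟩) (φ ⟨y2, h2⟩)).1 = y2'
    rw [Equiv.swap_apply_left]
  have k1 : (ψ ⟨y1, h1⟩).1 = y1' := by
    show ((Equiv.swap (φ ⟨y2, h2⟩) ⟨y2', h2'⟩) (φ ⟨y1, h1⟩)).1 = y1'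
    rw [Equiv.swap_apply_of_ne_of_ne, hy1]
    · intro h3
      exact h12 (congrArg Subtype.val (φ.injective h3))
    · intro h3
      have h4 := congrArg Subtype.val h3
      rw [hy1] at h4
      exact h12' h4
  refine ⟨(ψ ⟨z, hz⟩).1, (ψ ⟨z, hz⟩).2, ?_, ?_, (hS ⟨z, hz⟩).symm⟩
  · intro h3
    rw [← k1] at h3
    exact h1z (congrArg Subtype.val (ψ.injective (Subtype.ext h3))).symm
  · intro h3
    rw [← k2] at h3
    exact h2z (congrArg Subtype.val (ψ.injective (Subtype.ext h3))).symm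

theorem Typ.rch [Finite V] {m : ℕ} {x y x' y' p q : V} (h : H.Adj x y) (h' : H.Adj x' y')
    (e : T.dt x y = T.dt x' y') (hr : Rch H m x y p q) :
    ∃ p' q', Rch H m x' y' p' q' ∧ T.dt p' q' = T.dt p q := by
  induction m generalizing p q with
  | zero =>
    obtain ⟨rfl, rfl⟩ := hr
    exact ⟨x', y', ⟨rfl, rfl⟩, e.symm⟩
  | succ m ih =>
    obtain ⟨z, h1, h2, h3⟩ := hr
    obtain ⟨z', p', h4, h5⟩ := ih h1
    have a1 : H.Adj z p := rch_adj h h1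
    have a2 : H.Adj z' p' := rch_adj h' h4
    obtain ⟨b1, -, b3⟩ := T.hd a1 a2 h5.symm
    obtain ⟨q', c1, c2, c3⟩ := T.ext1 b1 a1.symm h2 (Ne.symm h3) a2.symm b3
    exact ⟨p', q', ⟨z', h4, c1, c2⟩, c3⟩

end Pool.Agent.LHB
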