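import Pool.Agent.LHB.Defs
import Pool.Agent.LHB.TBas
import Pool.Agent.LHA.Nb1
import Pool.Agent.LHA.Nb2

/-!
# Walks from `w true` and `w false` to vertices of the same type

As `meet` in `LHA/Tri.lean`. For `m` let `Hd m b = {T.vt q | ∃ y ∈ A b, ∃ p, Rch H m (w b) y p q}`. There is an `m` such that
`Hd m true ∩ Hd m false ≠ ∅`: let `y b ∈ A b`, `m ≥ M` (`nb_all`); there is a walk of even length `4` from `y true` to `y false`
(`y true, w true, v, w false, y false`); take `p, q` with `Rch H m (w true) (y true) p q` (`rch_succ`); then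
`PWalk H m (y true) q`, so `PWalk H m (y false) q` and (`nb_all`) `Rch H m (w false) (y false) p q`.
Take `m` minimal, and `y b ∈ A b`, `p b, q b` with `Rch H m (w b) (y b) (p b) (q b)`, `T.vt (q true) = T.vt (q false)`; `rch_seq` gives
the sequences `g b` (`g b 0 = w b`, `g b 1 = y b`, `g b m = p b`, `g b (m + 1) = q b`).
Exactness: suppose `y ∈ A b`, `Rch H m (w b) y p q`, `T.dt q p = T.dt (g (!b) (m+1)) (g (!b) m)`. By `hd`
`T.vt p = T.vt (g (!b) m)`. If `m = 0` then `p = w b`, `g (!b) 0 = w (!b)`: contradiction to `hne`. If `m = m' + 1` then, by the definition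
of `Rch`, `p` is the last vertex of a walk `Rch H m' (w b) y z p`, and `g (!b) m` is the last vertex of the walk
`Rch H m' (w (!b)) (g (!b) 1) (g (!b) m') (g (!b) m)` (`rch_seq` with the same `g`), so `Hd m' true ∩ Hd m' false ≠ ∅`:
contradiction to the minimality of `m`.
-/

namespace Pool.Agent.LHB

open Pool.Agent.LIH Pool.Agent.LHA

theorem meetT {V : Type} [Finite V] {H : SimpleGraph V} (T : Typ H)
    (h3 : ∀ v, 3 ≤ (H.neighborSet v).ncard) {v : V} {w : Bool → V} (hw : ∀ b, H.Adj v (w b))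
    (hne : T.vt (w true) ≠ T.vt (w false)) (A : Bool → Set V)
    (hA : ∀ b, ∀ y ∈ A b, H.Adj (w b) y) (hA' : ∀ b, (A b).Nonempty) :
    ∃ (m : ℕ) (g : Bool → ℕ → V), (∀ b, g b 0 = w b) ∧ (∀ b, g b 1 ∈ A b) ∧
      (∀ b j, j ≤ m → H.Adj (g b j) (g b (j + 1))) ∧ (∀ b j, j < m → g b j ≠ g b (j + 2)) ∧
      T.vt (g true (m + 1)) = T.vt (g false (m + 1)) ∧
      ∀ b, ∀ y ∈ A b, ∀ p q, Rch H m (w b) y p q →
        T.dt q p ≠ T.dt (g (!b) (m + 1)) (g (!b) m) := by
  classical
  have hex : ∃ m : ℕ, ∃ y p q : Bool → V, (∀ b, y b ∈ A b) ∧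
      (∀ b, Rch H m (w b) (y b) (p b) (q b)) ∧ T.vt (q true) = T.vt (q false) := by
    obtain ⟨M, hM⟩ := nb_all h3
    choose y hy using hA'
    have h2 : ∀ v, 2 ≤ (H.neighborSet v).ncard := fun v => le_trans (by norm_num) (h3 v)
    have ht : H.Adj (w true) (y true) := hA true _ (hy true)
    have hf : H.Adj (w false) (y false) := hA false _ (hy false)
    obtain ⟨p, q, hpq⟩ := rch_succ h2 M ht
    have hpq' : H.Adj p q := rch_adj ht hpq
    obtain ⟨wk, hwk⟩ := (hM M le_rfl _ _ _ _ ht hpq').1 hpq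
    let w4 : H.Walk (y false) (y true) :=
      SimpleGraph.Walk.cons hf.symm (SimpleGraph.Walk.cons (hw false).symm
        (SimpleGraph.Walk.cons (hw true) (SimpleGraph.Walk.cons ht SimpleGraph.Walk.nil)))
    have h5 : Rch H M (w false) (y false) p q := by
      refine (hM M le_rfl _ _ _ _ hf hpq').2 ⟨w4.append wk, ?_⟩
      rw [SimpleGraph.Walk.length_append]
      have h6 : w4.length = 4 := rfl
      omega
    refine ⟨M, y, fun _ => p, fun _ => q, hy, fun b => ?_, rfl⟩
    cases b
    · exact h5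
    · exact hpq
  obtain ⟨y, p, q, hy, hr, hq⟩ := Nat.find_spec hex
  have hmin := fun m' (h : m' < Nat.find hex) => Nat.find_min hex h
  generalize Nat.find hex = m at hr hmin
  choose g g0 g1 gm gm1 gadj gne using fun b => (rch_seq (hA b _ (hy b))).1 (hr b)
  refine ⟨m, g, g0, fun b => by rw [g1]; exact hy b, fun b j hj => gadj b j hj,
    fun b j hj => gne b j hj, by rw [gm1, gm1]; exact hq, ?_⟩
  intro b y' hy' p' q' hr' he
  have hadj' : H.Adj p' q' := rch_adj (hA b _ hy') hr'
  have hadj2 : H.Adj (g (!b) m) (g (!b) (m + 1)) := gadj _ m le_rfl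
  have hv : T.vt p' = T.vt (g (!b) m) := (T.hd hadj'.symm hadj2.symm he).1
  rcases Nat.eq_zero_or_pos m with h0 | hpos
  · subst h0
    obtain ⟨rfl, rfl⟩ := hr'
    rw [g0] at hv
    cases b
    · exact hne hv.symm
    · exact hne hv
  · obtain ⟨m', rfl⟩ : ∃ m', m = m' + 1 := ⟨m - 1, by omega⟩
    obtain ⟨z, hz, -, -⟩ := hr'
    obtain ⟨z2, hz2, -, -⟩ := hr (!b)
    rw [gm] at hv
    refine hmin m' (by omega) ?_
    cases b
    · refine ⟨fun c => cond c (y true) y', fun c => cond c z2 z, fun c => cond c (p true) p',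
        fun c => ?_, fun c => ?_, ?_⟩
      · cases c
        · exact hy'
        · exact hy true
      · cases c
        · exact hz
        · exact hz2
      · exact hv.symm
    · refine ⟨fun c => cond c y' (y false), fun c => cond c z z2, fun c => cond c p' (p false),
        fun c => ?_, fun c => ?_, ?_⟩
      · cases c
        · exact hy false
        · exact hy'
      · cases c
        · exact hz2
        · exact hz
      · exact hv

end Pool.Agent.LHB
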