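import Pool.Agent.LHB.Defs
import Pool.Agent.LHB.TBas
import Pool.Agent.LHB.MeetT
import Pool.Agent.LHA.Nb1

/-!
# The tripod

As `tri` in `LHA/Tri.lean`. First `meetT` for `A b = {y | H.Adj (w b) y ∧ y ≠ X}` (nonempty, at least two elements): `m1, g`. Write
`θ b = T.dt (g b (m1+1)) (g b m1)`. Let `A' b = {z | H.Adj (w b) z ∧ z ≠ X ∧ ∃ y, H.Adj (w b) y ∧ y ≠ X ∧ y ≠ z ∧
∃ p q, Rch H m1 (w b) y p q ∧ T.dt q p = θ b}`. It is nonempty: `y = g b 1` and `z` another element of `N(w b) \ {X}`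
(degree `≥ 3`). `meetT` for `A'`: `m2, g1`. By the definition of `A'` there is `y0 ≠ g1 b 1` with
`Rch H m1 (w b) y0 p q`, `T.dt q p = θ b`: let `g0 b` be the sequence of this walk (`rch_seq`), `g0 b 1 = y0`; so
`T.dt (g0 b (m1+1)) (g0 b m1) = θ b` and (`hd`) `T.vt (g0 b (m1+1)) = T.vt (g b (m1+1))`: `vt_u`.
`sound0`: given `x, y, z, p, q`; `T.dt x y = T.dt X (w b)`, so `T.dt y x = T.dt (w b) X`, `T.vt y = T.vt (w b)` (`hd`). By `ext1` (centre `y`,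
`y := x`, `z := z`, image of `x` is `X`) there is `z2 ∼ w b`, `z2 ≠ X`, `T.dt (w b) z2 = T.dt y z`; by `Typ.rch`
`Rch H m1 (w b) z2 p2 q2` with `T.dt p2 q2 = T.dt p q`, so `T.dt q2 p2 = T.dt q p = θ c`. If `c = !b` this contradicts the last clause of
`meetT`.
`sound1`: by `sound0` `c = b`. Take a star bijection `φ : N(y) → N(w b)` with `φ x = X` (`star_equiv`), `z2 = φ z`, `z2' = φ z'`: different,
different from `X`, same types. `Typ.rch`: `Rch H m1 (w b) z2 ..` with the last type `θ b`, so `z2' ∈ A' b`; `Rch H m2 (w b) z2' p2 q2` with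
`T.dt q2 p2 = T.dt q' p'`; if `d = !b` this contradicts the last clause of the second `meetT`.
-/

namespace Pool.Agent.LHB

open Pool.Agent.LIH Pool.Agent.LHA

theorem triT {V : Type} [Finite V] {H : SimpleGraph V} (T : Typ H)
    (h3 : ∀ v, 3 ≤ (H.neighborSet v).ncard) {X : V} {w : Bool → V} (hw : ∀ b, H.Adj X (w b))
    (hne : T.vt (w true) ≠ T.vt (w false)) : ∃ K : TK T, K.X = X ∧ K.w = w := by
  classical
  -- two elements of `N(w b) \ {X}`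
  have htwo : ∀ b, ∀ y, ∃ z, H.Adj (w b) z ∧ z ≠ X ∧ y ≠ z := by
    intro b y
    by_contra hcon
    push Not at hcon
    have hsub : H.neighborSet (w b) ⊆ {X, y} := by
      intro z hz
      by_cases hzv : z = X
      · left
        exact hzv
      · right
        exact (hcon z hz hzv).symm
    have h1 := Set.ncard_le_ncard hsub (Set.toFinite _)
    have h2 := Set.ncard_insert_le X {y}
    rw [Set.ncard_singleton] at h2
    have h3' := h3 (w b)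
    omega
  obtain ⟨m1, g, hg0, hg1, hgadj, hgnb, hgvt, hgex⟩ := meetT T h3 hw hne
    (fun b => {y | H.Adj (w b) y ∧ y ≠ X}) (fun b y hy => hy.1) (by
      intro b
      obtain ⟨z, hz, hzv, -⟩ := htwo b X
      exact ⟨z, hz, hzv⟩)
  have hgrch : ∀ b, Rch H m1 (w b) (g b 1) (g b m1) (g b (m1 + 1)) := by
    intro b
    exact (rch_seq (hg1 b).1).2 ⟨g b, hg0 b, rfl, rfl, rfl, fun p hp => hgadj b p hp,
      fun p hp => hgnb b p hp⟩
  obtain ⟨m2, g1, hk0, hk1, hkadj, hknb, hkvt, hkex⟩ := meetT T h3 hw hne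
    (fun b => {z | H.Adj (w b) z ∧ z ≠ X ∧ ∃ y, H.Adj (w b) y ∧ y ≠ X ∧ y ≠ z ∧
      ∃ p q, Rch H m1 (w b) y p q ∧ T.dt q p = T.dt (g b (m1 + 1)) (g b m1)})
    (fun b y hy => hy.1) (by
      intro b
      obtain ⟨z, hz, hzv, hyz⟩ := htwo b (g b 1)
      exact ⟨z, hz, hzv, g b 1, (hg1 b).1, (hg1 b).2, hyz, g b m1, g b (m1 + 1), hgrch b, rfl⟩)
  have hg0ex : ∀ b, ∃ g0 : ℕ → V, g0 0 = w b ∧ g0 1 ≠ X ∧ g0 1 ≠ g1 b 1 ∧
      (∀ j, j ≤ m1 → H.Adj (g0 j) (g0 (j + 1))) ∧ (∀ j, j < m1 → g0 j ≠ g0 (j + 2)) ∧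
      T.dt (g0 (m1 + 1)) (g0 m1) = T.dt (g b (m1 + 1)) (g b m1) := by
    intro b
    obtain ⟨-, -, y, hy, hyX, hyne, p, q, hr, hdt⟩ := hk1 b
    obtain ⟨g0, e0, e1, em, em1, hadj, hnb⟩ := (rch_seq hy).1 hr
    refine ⟨g0, e0, ?_, ?_, fun j hj => hadj j hj, fun j hj => hnb j hj, ?_⟩
    · rw [e1]; exact hyX
    · rw [e1]; exact hyne
    · rw [em, em1]; exact hdt
  choose g0 e0 eX e01 hadj0 hnb0 hdt0 using hg0ex
  have hvt0 : ∀ b, T.vt (g0 b (m1 + 1)) = T.vt (g b (m1 + 1)) := by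
    intro b
    exact (T.hd (hadj0 b m1 le_rfl).symm (hgadj b m1 le_rfl).symm (hdt0 b)).2.1
  have hnot : ∀ b c : Bool, c ≠ b → c = !b := by
    intro b c h
    cases b <;> cases c <;> simp_all
  refine ⟨{ X := X, w := w, m1 := m1, g0 := g0, m2 := m2, g1 := g1, adj_w := hw, vt_w := hne
            g0_0 := e0, g1_0 := hk0, adj0 := hadj0, nb0 := hnb0, adj1 := hkadj, nb1 := hknb
            ne_X0 := eX, ne_X1 := fun b => (hk1 b).2.1, ne_01 := e01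
            vt_u := by rw [hvt0, hvt0]; exact hgvt
            vt_U := hkvt
            sound0 := ?_
            sound1 := ?_ }, rfl, rfl⟩
  · intro b c x y z p q hxy e hyz hzx hr hdt
    by_contra hcb
    obtain ⟨hv1, hv2, hv3⟩ := T.hd hxy (hw b) e
    obtain ⟨z2, hz2, hz2X, hz2dt⟩ := T.ext1 hv1 hxy.symm hyz (Ne.symm hzx) (hw b).symm hv3
    obtain ⟨p2, q2, hr2, hpq2⟩ := T.rch hyz hz2 hz2dt.symm hr
    have hd2 := (T.hd (rch_adj hz2 hr2) (rch_adj hyz hr) hpq2).2.2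
    refine hgex b z2 ⟨hz2, hz2X⟩ p2 q2 hr2 ?_
    rw [hd2, hdt, hdt0, hnot b c hcb]
  · intro b c d x y z z' p q p' q' hxy e hyz hyz' hzx hzx' hzz hr hdt hr' hdt'
    obtain ⟨hv1, hv2, hv3⟩ := T.hd hxy (hw b) e
    obtain ⟨φ, hφ, hφx⟩ := T.star_equiv hv1 hxy.symm (hw b).symm hv3
    -- images
    have hadjφ : ∀ u : H.neighborSet y, H.Adj (w b) (φ u).1 := fun u => (φ u).2
    have hneX : ∀ (u : V) (hu : H.Adj y u), u ≠ x → (φ ⟨u, hu⟩).1 ≠ X := by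
      intro u hu hux he
      apply hux
      have h1 : φ ⟨u, hu⟩ = φ ⟨x, hxy.symm⟩ := by
        apply Subtype.ext
        rw [he]
        exact hφx.symm
      exact congrArg Subtype.val (φ.injective h1)
    have hz2 : H.Adj (w b) (φ ⟨z, hyz⟩).1 := hadjφ _
    have hz2' : H.Adj (w b) (φ ⟨z', hyz'⟩).1 := hadjφ _
    have hzne : (φ ⟨z, hyz⟩).1 ≠ (φ ⟨z', hyz'⟩).1 := by
      intro he
      exact hzz (congrArg Subtype.val (φ.injective (Subtype.ext he)))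
    obtain ⟨p2, q2, hr2, hpq2⟩ := T.rch hyz hz2 (hφ ⟨z, hyz⟩) hr
    have hd2 := (T.hd (rch_adj hz2 hr2) (rch_adj hyz hr) hpq2).2.2
    obtain ⟨p3, q3, hr3, hpq3⟩ := T.rch hyz' hz2' (hφ ⟨z', hyz'⟩) hr'
    have hd3 := (T.hd (rch_adj hz2' hr3) (rch_adj hyz' hr') hpq3).2.2
    have hcb : c = b := by
      by_contra hcb
      refine hgex b _ ⟨hz2, hneX z hyz hzx⟩ p2 q2 hr2 ?_
      rw [hd2, hdt, hdt0, hnot b c hcb]
    subst hcb
    by_contra hdb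
    refine hkex c _ ⟨hz2', hneX z' hyz' hzx', (φ ⟨z, hyz⟩).1, hz2, hneX z hyz hzx, hzne, p2, q2,
      hr2, ?_⟩ p3 q3 hr3 ?_
    · rw [hd2, hdt, hdt0]
    · rw [hd3, hdt', hnot c d hdb]

end Pool.Agent.LHB
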