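import Pool.Agent.LHB.Defs
import Pool.Agent.LHB.TBas
import Pool.Agent.LHB.TriT

/-!
# The combinatorial data exist

`triT` with `w true = Q`, `w false = P1`; `wf = P2`. `free_X`: the degree of `X` is at least 4. `tf`: by `ext0`
(`T.vt (g0 true (m1+1)) = T.vt (g0 false (m1+1))`, the neighbour `g0 false m1` of `g0 false (m1+1)`), `sf` similarly.
-/

namespace Pool.Agent.LHB

open Pool.Agent.LIH Pool.Agent.LHA

theorem ck_exists {V : Type} [Finite V] {H : SimpleGraph V} (T : Typ H)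
    (h3 : ∀ v, 3 ≤ (H.neighborSet v).ncard) {X P1 P2 Q : V} (h4 : 4 ≤ (H.neighborSet X).ncard)
    (h1 : H.Adj X P1) (h2 : H.Adj X P2) (hQ : H.Adj X Q) (hne : P1 ≠ P2)
    (hP : T.dt X P2 = T.dt X P1) (hv : T.vt Q ≠ T.vt P1) : Nonempty (CK T) := by
  obtain ⟨K, hX, hw⟩ := triT T h3 (X := X) (w := fun b => cond b Q P1)
    (fun b => by cases b <;> simp [h1, hQ]) (by simpa using hv)
  have hwt : K.w true = Q := by rw [hw]; rfl
  have hwf : K.w false = P1 := by rw [hw]; rfl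
  obtain ⟨tf, ht1, ht2⟩ := T.ext0 K.vt_u.symm ((K.adj0 false K.m1 le_rfl).symm)
  obtain ⟨sf, hs1, hs2⟩ := T.ext0 K.vt_U.symm ((K.adj1 false K.m2 le_rfl).symm)
  have hc : ∃ c, H.Adj X c ∧ c ≠ Q ∧ c ≠ P1 ∧ c ≠ P2 := by
    by_contra hcon
    have hsub : H.neighborSet X ⊆ {Q, P1, P2} := by
      intro c hc
      by_contra hc'
      simp only [Set.mem_insert_iff, Set.mem_singleton_iff, not_or] at hc'
      exact hcon ⟨c, hc, hc'.1, hc'.2.1, hc'.2.2⟩
    have h5 := Set.ncard_le_ncard hsub (Set.toFinite _)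
    have h6 : ({Q, P1, P2} : Set V).ncard ≤ 3 := by
      refine (Set.ncard_insert_le _ _).trans ?_
      have h7 : ({P1, P2} : Set V).ncard ≤ 2 := by
        refine (Set.ncard_insert_le _ _).trans ?_
        rw [Set.ncard_singleton]
      omega
    omega
  obtain ⟨c, hc1, hc2, hc3, hc4⟩ := hc
  exact ⟨{ K with
    wf := P2
    adj_wf := by rw [hX]; exact h2
    ne_wf := by rw [hwf]; exact hne.symm
    dt_wf := by rw [hX, hwf]; exact hP
    free_X := ⟨c, by rw [hX]; exact hc1, by rw [hwt]; exact hc2, by rw [hwf]; exact hc3, hc4⟩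
    tf := tf
    adj_tf := ht1
    dt_tf := ht2
    sf := sf
    adj_sf := hs1
    dt_sf := hs2 }⟩

end Pool.Agent.LHB
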