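import Pool.Agent.LHB.Defs

/-!
# Adjacency of the free vertices

As `LHA/CellL.lean`. Everything by unfolding `B` (`SimpleGraph.fromRel_adj`), `fv`, `en`, `L`, `len`; note
`(D.fv i p).2.1 = p % len = p` if `p < len`, and `m1 + 1, m2 ≤ len`. `B_cases`: all neighbours of a vertex.
`F_sub`: `adj_w`, `adj_wf`, `adj0 true m1`, `adj_tf`, `adj1 true m2`, `adj_sf`. `F_ssub`: for `i = 0, 1, 2` the set `F i` has at most two
elements and the degree is at least 3; for `i = 3` `free_X`.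
-/

namespace Pool.Agent.LHB

open Pool.Agent.LIH Pool.Agent.LHA

namespace CK

variable {V : Type} {H : SimpleGraph V} {T : Typ H} (D : CK T)

theorem L_le (i : Fin 6) : D.L i ≤ D.len := by
  fin_cases i
  · change D.m1 + 1 ≤ D.m1 + D.m2 + 1
    omega
  · change D.m2 ≤ D.m1 + D.m2 + 1
    omega
  · change D.m1 + 1 ≤ D.m1 + D.m2 + 1
    omega
  · change D.m1 + 1 ≤ D.m1 + D.m2 + 1
    omega
  · change D.m1 + 1 ≤ D.m1 + D.m2 + 1
    omega
  · change D.m1 + 1 ≤ D.m1 + D.m2 + 1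
    omega

theorem CLx_eta (x : Fin 6 × Fin D.len) : D.fv x.1 x.2.1 = x := by
  obtain ⟨i, p⟩ := x
  refine Prod.ext rfl (Fin.ext ?_)
  exact Nat.mod_eq_of_lt p.2

theorem fv_val (i : Fin 6) {p : ℕ} (hp : p < D.L i) : (D.fv i p).2.1 = p :=
  Nat.mod_eq_of_lt (lt_of_lt_of_le hp (D.L_le i))

theorem fv_inj {i i' : Fin 6} {p p' : ℕ} (hp : p < D.L i) (hp' : p' < D.L i')
    (h : D.fv i p = D.fv i' p') : i = i' ∧ p = p' := by
  refine ⟨congrArg Prod.fst h, ?_⟩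
  rw [← D.fv_val i hp, ← D.fv_val i' hp', h]

theorem B_arm (i : Fin 6) {p : ℕ} (hp : p + 1 < D.L i) : D.B.Adj (D.fv i p) (D.fv i (p + 1)) := by
  unfold B
  rw [SimpleGraph.fromRel_adj]
  refine ⟨?_, Or.inl (Or.inl ⟨rfl, ?_, ?_⟩)⟩
  · intro h
    have := (D.fv_inj (by omega) hp h).2
    omega
  · rw [D.fv_val i hp, D.fv_val i (by omega)]
  · rw [D.fv_val i hp]
    exact hp

theorem B_01 (h : 0 < D.m2) : D.B.Adj (D.fv 0 0) (D.fv 1 0) := by
  unfold B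
  rw [SimpleGraph.fromRel_adj]
  refine ⟨?_, Or.inl (Or.inr ⟨rfl, ?_, rfl, ?_, h⟩)⟩
  · intro h
    have := congrArg Prod.fst h
    exact absurd this (by change (0 : Fin 6) ≠ 1; decide)
  · exact Nat.zero_mod _
  · exact Nat.zero_mod _

theorem B_cases {x y : Fin 6 × Fin D.len} (h : D.B.Adj x y) :
    (∃ i p, p + 1 < D.L i ∧ x = D.fv i p ∧ y = D.fv i (p + 1)) ∨
    (∃ i p, p + 1 < D.L i ∧ x = D.fv i (p + 1) ∧ y = D.fv i p) ∨
    (0 < D.m2 ∧ x = D.fv 0 0 ∧ y = D.fv 1 0) ∨ (0 < D.m2 ∧ x = D.fv 1 0 ∧ y = D.fv 0 0) := by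
  unfold B at h
  rw [SimpleGraph.fromRel_adj] at h
  rcases h with ⟨-, (⟨h1, h2, h3⟩ | ⟨h1, h2, h3, h4, h5⟩) | (⟨h1, h2, h3⟩ | ⟨h1, h2, h3, h4, h5⟩)⟩
  · left
    refine ⟨x.1, x.2.1, h2 ▸ h3, (D.CLx_eta x).symm, ?_⟩
    rw [← h2, h1]
    exact (D.CLx_eta y).symm
  · right; right; left
    refine ⟨h5, ?_, ?_⟩
    · rw [← D.CLx_eta x, h1, h2]
    · rw [← D.CLx_eta y, h3, h4]
  · right; left
    refine ⟨y.1, y.2.1, h2 ▸ h3, ?_, (D.CLx_eta y).symm⟩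
    rw [← h2, h1]
    exact (D.CLx_eta x).symm
  · right; right; right
    refine ⟨h5, ?_, ?_⟩
    · rw [← D.CLx_eta x, h3, h4]
    · rw [← D.CLx_eta y, h1, h2]

theorem F_sub (i : Fin 4) : D.F i ⊆ H.neighborSet (D.a i) := by
  fin_cases i
  · rintro z (rfl | rfl)
    · exact D.adj_w true
    · exact D.adj_w false
  · rintro z (rfl | rfl)
    · exact (D.adj0 true D.m1 le_rfl).symm
    · exact D.adj_tf
  · rintro z (rfl | rfl)
    · exact (D.adj1 true D.m2 le_rfl).symm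
    · exact D.adj_sf
  · rintro z (rfl | rfl | rfl)
    · exact D.adj_w true
    · exact D.adj_w false
    · exact D.adj_wf

theorem CLx_two (x y : V) : ({x, y} : Set V).ncard ≤ 2 := by
  refine (Set.ncard_insert_le x {y}).trans ?_
  rw [Set.ncard_singleton]

theorem CLx_aux (h3 : ∀ v, 3 ≤ (H.neighborSet v).ncard) {v x y : V}
    (h : H.neighborSet v ⊆ {x, y}) : False := by
  have h1 := Set.ncard_le_ncard h (Set.toFinite _)
  have h2 := CLx_two x y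
  have := h3 v
  omega

theorem F_ssub (h3 : ∀ v, 3 ≤ (H.neighborSet v).ncard) (i : Fin 4) :
    D.F i ⊂ H.neighborSet (D.a i) := by
  refine ⟨D.F_sub i, fun h => ?_⟩
  fin_cases i
  · exact CLx_aux h3 h
  · exact CLx_aux h3 h
  · exact CLx_aux h3 h
  · obtain ⟨c, hc, h1, h2, h4⟩ := D.free_X
    rcases h hc with h5 | h5 | h5
    · exact h1 h5
    · exact h2 h5
    · exact h4 h5

/-- the value of a start vertex, of an end vertex -/
theorem fv_zero (i : Fin 6) : (D.fv i 0).2.1 = 0 := Nat.zero_mod _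

theorem en_ne_one (q : Fin 6) (hq : q ≠ 1) : D.en q = D.fv q D.m1 ∧ D.L q = D.m1 + 1 := by
  fin_cases q
  · exact ⟨rfl, rfl⟩
  · exact absurd rfl hq
  · exact ⟨rfl, rfl⟩
  · exact ⟨rfl, rfl⟩
  · exact ⟨rfl, rfl⟩
  · exact ⟨rfl, rfl⟩

end CK

end Pool.Agent.LHB
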