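import Pool.Agent.LHB.Defs
import Pool.Agent.LHA.CRStab

/-!
# The coarsest equitable partition

As in `LHA/CRStab.lean` (`CRStab_refl`, `CRStab_symm`, `CRStab_trans` etc. and the argument of `crel_stab`): `crel H k` is an
equivalence relation, `crel H (k+1)` implies `crel H k`, and for some `k` they are equivalent (finiteness of `V × V`). Choose
`κ` with `κ x = κ y ↔ crel H k x y`. `Equit H κ`: if `κ x = κ y` then `crel (k+1) x y`, so there is a bijection `N(x) ≃ N(y)`
which preserves `κ`. Coarsest: let `Equit H κ'`. By induction on `j`: `κ' x = κ' y → crel H j x y`: `j + 1`: the sets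
`N(x) ∩ {κ' = c}` and `N(y) ∩ {κ' = c}` have the same cardinality for all `c`, so there is a bijection `N(x) ≃ N(y)` which preserves
`κ'` (`Equiv.ofFiberEquiv`), and by induction it preserves `crel H j`.
-/

namespace Pool.Agent.LHB

open Pool.Agent.LIH Pool.Agent.LHA

/-- a bijection of the neighbourhoods which preserves `κ'` -/
theorem CRK_equiv {V : Type} [Finite V] (H : SimpleGraph V) (κ' : V → ℕ) (x y : V)
    (h : ∀ c, (H.neighborSet x ∩ {z | κ' z = c}).ncard = (H.neighborSet y ∩ {z | κ' z = c}).ncard) :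
    ∃ φ : H.neighborSet x ≃ H.neighborSet y, ∀ z, κ' z.1 = κ' (φ z).1 := by
  classical
  have hfib : ∀ c : ℕ, Nonempty ({z : H.neighborSet x // κ' z.1 = c} ≃
      {z : H.neighborSet y // κ' z.1 = c}) := by
    intro c
    have e1 : ∀ w : V, Nonempty ({z : H.neighborSet w // κ' z.1 = c} ≃
        ↥(H.neighborSet w ∩ {z | κ' z = c})) := fun w =>
      ⟨{ toFun := fun z => ⟨z.1.1, z.1.2, z.2⟩
         invFun := fun z => ⟨⟨z.1, z.2.1⟩, z.2.2⟩
         left_inv := fun z => rfl
         right_inv := fun z => rfl }⟩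
    obtain ⟨e⟩ := e1 x
    obtain ⟨e'⟩ := e1 y
    have h2 : Nat.card ↥(H.neighborSet x ∩ {z | κ' z = c}) =
        Nat.card ↥(H.neighborSet y ∩ {z | κ' z = c}) := by
      rw [Nat.card_coe_set_eq, Nat.card_coe_set_eq]
      exact h c
    obtain ⟨g⟩ := Finite.card_eq.1 h2
    exact ⟨(e.trans g).trans e'.symm⟩
  let φ : H.neighborSet x ≃ H.neighborSet y :=
    Equiv.ofFiberEquiv (f := fun z : H.neighborSet x => κ' z.1)
      (g := fun z : H.neighborSet y => κ' z.1) (fun c => Classical.choice (hfib c))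
  exact ⟨φ, fun z => (Equiv.ofFiberEquiv_map (f := fun z : H.neighborSet x => κ' z.1)
      (g := fun z : H.neighborSet y => κ' z.1) (fun c => Classical.choice (hfib c)) z).symm⟩

theorem crk {V : Type} [Finite V] (H : SimpleGraph V) :
    ∃ (k : ℕ) (κ : V → ℕ), (∀ x y, κ x = κ y ↔ crel H k x y) ∧ Equit H κ ∧
      ∀ κ' : V → ℕ, Equit H κ' → ∀ x y, κ' x = κ' y → κ x = κ y := by
  classical
  -- stable step
  obtain ⟨k, hk⟩ : ∃ k, ∀ x y, crel H k x y → crel H (k + 1) x y := by
    by_contra hcon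
    push Not at hcon
    let E : ℕ → Set (V × V) := fun k => {q | crel H k q.1 q.2}
    have hE : StrictAnti E := by
      apply strictAnti_nat_of_succ_lt
      intro k
      refine ⟨fun q hq => hq.1, fun hsub => ?_⟩
      obtain ⟨x, y, h1, h2⟩ := hcon k
      exact h2 (hsub (show (x, y) ∈ E k from h1))
    exact not_injective_infinite_finite E hE.injective
  let s : Setoid V := ⟨crel H k, CRStab_refl H k, fun {x y} => CRStab_symm H k x y,
    fun {x y z} => CRStab_trans H k x y z⟩
  obtain ⟨n, ⟨e⟩⟩ := Finite.exists_equiv_fin (Quotient s)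
  let κ : V → ℕ := fun x => (e (Quotient.mk s x)).1
  have hκ : ∀ x y, κ x = κ y ↔ crel H k x y := by
    intro x y
    constructor
    · intro h
      exact Quotient.exact (e.injective (Fin.ext h))
    · intro h
      have h1 : Quotient.mk s x = Quotient.mk s y := Quotient.sound h
      change (e (Quotient.mk s x)).1 = (e (Quotient.mk s y)).1
      rw [h1]
  have hEq : Equit H κ := by
    intro x y hxy c
    obtain ⟨-, φ, hφ⟩ := hk x y ((hκ x y).1 hxy)
    refine Set.ncard_congr (fun z hz => (φ ⟨z, hz.1⟩).1) ?_ ?_ ?_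
    · intro z hz
      refine ⟨(φ ⟨z, hz.1⟩).2, ?_⟩
      have h1 := (hκ _ _).2 (hφ ⟨z, hz.1⟩)
      have h2 : κ z = c := hz.2
      exact h1.symm.trans h2
    · intro z w hz hw h
      have h1 : φ ⟨z, hz.1⟩ = φ ⟨w, hw.1⟩ := Subtype.ext h
      exact congrArg Subtype.val (φ.injective h1)
    · intro w hw
      have h1 := hφ (φ.symm ⟨w, hw.1⟩)
      rw [Equiv.apply_symm_apply] at h1
      have h2 : κ w = c := hw.2
      refine ⟨(φ.symm ⟨w, hw.1⟩).1, ⟨(φ.symm ⟨w, hw.1⟩).2, ?_⟩, ?_⟩
      · exact ((hκ _ _).2 h1).trans h2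
      · rw [Subtype.coe_eta, Equiv.apply_symm_apply]
  refine ⟨k, κ, hκ, hEq, fun κ' hκ' => ?_⟩
  have hall : ∀ j, ∀ x y, κ' x = κ' y → crel H j x y := by
    intro j
    induction j with
    | zero => intro x y _; trivial
    | succ j ih =>
      intro x y hxy
      obtain ⟨φ, hφ⟩ := CRK_equiv H κ' x y (hκ' x y hxy)
      exact ⟨ih x y hxy, φ, fun z => ih _ _ (hφ z)⟩
  exact fun x y hxy => (hκ x y).2 (hall k x y hxy)

end Pool.Agent.LHB
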