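import Pool.Agent.LHB.Defs
import Pool.Agent.LHB.TBas
import Pool.Agent.LHA.Nb1

/-!
# Types of the free slots

`dt_w`: equal types of the darts `(X, w true)`, `(X, w false)` give `T.vt (w true) = T.vt (w false)` (`hd`). `dt_wf'`:
`wf ≠ w true`, since `T.vt wf = T.vt (w false)` (`hd`).
`dt_g0`: otherwise `sound0` with `b = true`, `c = false`, `x = X`, `y = w true`, `z = g0 true 1`, and the walk
`Rch H m1 (w true) (g0 true 1) (g0 true m1) (g0 true (m1+1))` (`rch_seq` with the sequence `g0 true`) gives `false = true`.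
`dt_g1`: the same with `sound1` (`c = true`, `d = false`, `z = g0 true 1`, `z' = g1 true 1`). The versions for `b ≠ b'`: by cases on
`b, b'`.
`cp0`, `cp1`, `cp2`: `F i = {s, t}` with `s, t` of different types `θ1, θ2` seen from `a i` (`dt_tf`, `dt_sf`): `cp` is the number of
elements of type `θ`: 1 for `θ1, θ2` and 0 otherwise. `cp3`: `F 3 = {w true, w false, wf}`, three different elements, the
first one of type `T.dt X (w true)`, the others of type `T.dt X (w false)`.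
-/

namespace Pool.Agent.LHB

open Pool.Agent.LIH Pool.Agent.LHA

namespace CK

variable {V : Type} {H : SimpleGraph V} {T : Typ H} (D : CK T)

theorem dt_w {b b' : Bool} (h : T.dt D.X (D.w b) = T.dt D.X (D.w b')) : b = b' := by
  have h1 := (T.hd (D.adj_w b) (D.adj_w b') h).1
  rcases b <;> rcases b'
  · rfl
  · exact absurd h1.symm D.vt_w
  · exact absurd h1 D.vt_w
  · rfl

theorem wf_ne : D.wf ≠ D.w true ∧ D.w true ≠ D.w false := by
  constructor
  · intro h
    have h1 := (T.hd D.adj_wf (D.adj_w false) D.dt_wf).1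
    rw [h] at h1
    exact D.vt_w h1
  · intro h
    exact D.vt_w (congrArg T.vt h)

theorem CTy_r0 (b : Bool) : Rch H D.m1 (D.w b) (D.g0 b 1) (D.g0 b D.m1) (D.g0 b (D.m1 + 1)) := by
  have h : H.Adj (D.w b) (D.g0 b 1) := by
    have := D.adj0 b 0 (Nat.zero_le _)
    rwa [D.g0_0] at this
  exact (rch_seq h).2 ⟨D.g0 b, D.g0_0 b, rfl, rfl, rfl, D.adj0 b, D.nb0 b⟩

theorem CTy_r1 (b : Bool) : Rch H D.m2 (D.w b) (D.g1 b 1) (D.g1 b D.m2) (D.g1 b (D.m2 + 1)) := by
  have h : H.Adj (D.w b) (D.g1 b 1) := by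
    have := D.adj1 b 0 (Nat.zero_le _)
    rwa [D.g1_0] at this
  exact (rch_seq h).2 ⟨D.g1 b, D.g1_0 b, rfl, rfl, rfl, D.adj1 b, D.nb1 b⟩

theorem CTy_a0 (b : Bool) : H.Adj (D.w b) (D.g0 b 1) := by
  have := D.adj0 b 0 (Nat.zero_le _)
  rwa [D.g0_0] at this

theorem CTy_a1 (b : Bool) : H.Adj (D.w b) (D.g1 b 1) := by
  have := D.adj1 b 0 (Nat.zero_le _)
  rwa [D.g1_0] at this

theorem dt_g0 {b b' : Bool} (h : T.dt (D.g0 b (D.m1 + 1)) (D.g0 b D.m1) =
    T.dt (D.g0 b' (D.m1 + 1)) (D.g0 b' D.m1)) : b = b' :=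
  (D.sound0 b b' D.X (D.w b) (D.g0 b 1) _ _ (D.adj_w b) rfl (D.CTy_a0 b) (D.ne_X0 b)
    (D.CTy_r0 b) h).symm

theorem dt_g1 {b b' : Bool} (h : T.dt (D.g1 b (D.m2 + 1)) (D.g1 b D.m2) =
    T.dt (D.g1 b' (D.m2 + 1)) (D.g1 b' D.m2)) : b = b' :=
  (D.sound1 b b b' D.X (D.w b) (D.g0 b 1) (D.g1 b 1) _ _ _ _ (D.adj_w b) rfl (D.CTy_a0 b)
    (D.CTy_a1 b) (D.ne_X0 b) (D.ne_X1 b) (D.ne_01 b) (D.CTy_r0 b) rfl (D.CTy_r1 b) h).symm

theorem CTy_pair {x s t : V} (hst : T.dt x s ≠ T.dt x t) (θ : ℕ) :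
    T.cp x {s, t} θ ≤ 1 ∧ (0 < T.cp x {s, t} θ ↔ θ = T.dt x s ∨ θ = T.dt x t) := by
  unfold Typ.cp
  by_cases h1 : θ = T.dt x s
  · have e : ({s, t} : Set V) ∩ {y | T.dt x y = θ} = {s} := by
      ext y
      simp only [Set.mem_inter_iff, Set.mem_insert_iff, Set.mem_singleton_iff, Set.mem_ofPred_eq]
      constructor
      · rintro ⟨rfl | rfl, h2⟩
        · rfl
        · exact absurd (h1.symm.trans h2.symm) hst
      · rintro rfl
        exact ⟨Or.inl rfl, h1.symm⟩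
    rw [e, Set.ncard_singleton]
    exact ⟨le_rfl, fun _ => Or.inl h1, fun _ => Nat.one_pos⟩
  · by_cases h2 : θ = T.dt x t
    · have e : ({s, t} : Set V) ∩ {y | T.dt x y = θ} = {t} := by
        ext y
        simp only [Set.mem_inter_iff, Set.mem_insert_iff, Set.mem_singleton_iff, Set.mem_ofPred_eq]
        constructor
        · rintro ⟨rfl | rfl, h3⟩
          · exact absurd h3.symm h1
          · rfl
        · rintro rfl
          exact ⟨Or.inr rfl, h2.symm⟩
      rw [e, Set.ncard_singleton]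
      exact ⟨le_rfl, fun _ => Or.inr h2, fun _ => Nat.one_pos⟩
    · have e : ({s, t} : Set V) ∩ {y | T.dt x y = θ} = ∅ := by
        ext y
        simp only [Set.mem_inter_iff, Set.mem_insert_iff, Set.mem_singleton_iff, Set.mem_ofPred_eq,
          Set.mem_empty_iff_false, iff_false]
        rintro ⟨rfl | rfl, h3⟩
        · exact h1 h3.symm
        · exact h2 h3.symm
      rw [e, Set.ncard_empty]
      refine ⟨Nat.zero_le _, fun h => absurd h (lt_irrefl _), ?_⟩
      rintro (h | h)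
      · exact absurd h h1
      · exact absurd h h2

theorem cp0 (θ : ℕ) : T.cp (D.a 0) (D.F 0) θ ≤ 1 ∧
    (0 < T.cp (D.a 0) (D.F 0) θ ↔ ∃ b, θ = T.dt D.X (D.w b)) := by
  have h := CTy_pair (T := T) (x := D.X) (s := D.w true) (t := D.w false)
    (fun e => absurd (D.dt_w e) (by decide)) θ
  refine ⟨h.1, h.2.trans ?_⟩
  constructor
  · rintro (e | e)
    · exact ⟨true, e⟩
    · exact ⟨false, e⟩
  · rintro ⟨b, e⟩
    rcases b
    · exact Or.inr e
    · exact Or.inl e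

theorem cp1 (θ : ℕ) : T.cp (D.a 1) (D.F 1) θ ≤ 1 ∧
    (0 < T.cp (D.a 1) (D.F 1) θ ↔ ∃ b, θ = T.dt (D.g0 b (D.m1 + 1)) (D.g0 b D.m1)) := by
  have h := CTy_pair (T := T) (x := D.g0 true (D.m1 + 1)) (s := D.g0 true D.m1) (t := D.tf)
    (fun e => absurd (D.dt_g0 (b := true) (b' := false) (e.trans D.dt_tf)) (by decide)) θ
  refine ⟨h.1, h.2.trans ?_⟩
  rw [D.dt_tf]
  constructor
  · rintro (e | e)
    · exact ⟨true, e⟩
    · exact ⟨false, e⟩
  · rintro ⟨b, e⟩
    rcases b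
    · exact Or.inr e
    · exact Or.inl e

theorem cp2 (θ : ℕ) : T.cp (D.a 2) (D.F 2) θ ≤ 1 ∧
    (0 < T.cp (D.a 2) (D.F 2) θ ↔ ∃ b, θ = T.dt (D.g1 b (D.m2 + 1)) (D.g1 b D.m2)) := by
  have h := CTy_pair (T := T) (x := D.g1 true (D.m2 + 1)) (s := D.g1 true D.m2) (t := D.sf)
    (fun e => absurd (D.dt_g1 (b := true) (b' := false) (e.trans D.dt_sf)) (by decide)) θ
  refine ⟨h.1, h.2.trans ?_⟩
  rw [D.dt_sf]
  constructor
  · rintro (e | e)
    · exact ⟨true, e⟩
    · exact ⟨false, e⟩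
  · rintro ⟨b, e⟩
    rcases b
    · exact Or.inr e
    · exact Or.inl e

theorem cp3 : T.cp (D.a 3) (D.F 3) (T.dt D.X (D.w true)) = 1 ∧
    T.cp (D.a 3) (D.F 3) (T.dt D.X (D.w false)) = 2 ∧
    ∀ θ, 0 < T.cp (D.a 3) (D.F 3) θ → ∃ b, θ = T.dt D.X (D.w b) := by
  have hne : T.dt D.X (D.w true) ≠ T.dt D.X (D.w false) :=
    fun e => absurd (D.dt_w e) (by decide)
  have ha : D.a 3 = D.X := rfl
  have hF : D.F 3 = {D.w true, D.w false, D.wf} := rfl
  rw [ha, hF]
  unfold Typ.cp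
  refine ⟨?_, ?_, ?_⟩
  · have e : ({D.w true, D.w false, D.wf} : Set V) ∩ {y | T.dt D.X y = T.dt D.X (D.w true)} =
        {D.w true} := by
      ext y
      simp only [Set.mem_inter_iff, Set.mem_insert_iff, Set.mem_singleton_iff, Set.mem_ofPred_eq]
      constructor
      · rintro ⟨rfl | rfl | rfl, h2⟩
        · rfl
        · exact absurd h2.symm hne
        · rw [D.dt_wf] at h2
          exact absurd h2.symm hne
      · rintro rfl
        exact ⟨Or.inl rfl, rfl⟩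
    rw [e, Set.ncard_singleton]
  · have e : ({D.w true, D.w false, D.wf} : Set V) ∩ {y | T.dt D.X y = T.dt D.X (D.w false)} =
        {D.w false, D.wf} := by
      ext y
      simp only [Set.mem_inter_iff, Set.mem_insert_iff, Set.mem_singleton_iff, Set.mem_ofPred_eq]
      constructor
      · rintro ⟨rfl | rfl | rfl, h2⟩
        · exact absurd h2 hne
        · exact Or.inl rfl
        · exact Or.inr rfl
      · rintro (rfl | rfl)
        · exact ⟨Or.inr (Or.inl rfl), rfl⟩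
        · exact ⟨Or.inr (Or.inr rfl), D.dt_wf⟩
    rw [e, Set.ncard_pair D.ne_wf.symm]
  · intro θ h
    have h1 : (({D.w true, D.w false, D.wf} : Set V) ∩ {y | T.dt D.X y = θ}).Nonempty := by
      by_contra hcon
      rw [Set.not_nonempty_iff_eq_empty] at hcon
      rw [hcon, Set.ncard_empty] at h
      exact lt_irrefl _ h
    obtain ⟨y, hy, h2⟩ := h1
    rcases hy with rfl | rfl | rfl
    · exact ⟨true, h2.symm⟩
    · exact ⟨false, h2.symm⟩
    · exact ⟨false, h2.symm.trans D.dt_wf⟩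

end CK

end Pool.Agent.LHB
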