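import Pool.Agent.LHB.Defs
import Pool.Agent.LIH.Dfn
import Pool.Agent.LIH.DfnNet
import Pool.Agent.LHA.DefLit

/-!
# The variables of the positive triples are definable

Unfold `ltP`; `DefF.divmod` (divisor 3) gives `q = o / 3`, `r = o % 3`. `Np`, `L = J.eval n0 * m` are terms. `DefF.ite` on
`q < 2 L + 1`: `def_lit3 0` (with the term `F`); `DefF.ite` on `q < 2 L + 1 + Np`; `DefF.ite` on `r = 2`; the equation
`2 * (q - (2 L + 1)) + r = G` with the truncated subtraction (here `q ≥ 2 L + 1`): `2 * q + r = G + 2 * (2 L + 1)`. Compare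
`LHA/DefLit.lean`.
-/

namespace Pool.Agent.LHB

open Pool.Agent.LIH Pool.Agent.LHA

theorem DefLt_L (J : Polynomial ℕ) (m : ℕ) {k : ℕ} :
    DefT k (fun _ n0 _ => J.eval n0 * m) :=
  (DefT.polyLen J).mul (DefT.const m)

theorem DefLt_Np (Nv J : Polynomial ℕ) (m : ℕ) {k : ℕ} :
    DefT k (fun _ n0 _ => Np (Nv.eval n0) (J.eval n0 * m)) := by
  unfold Np
  exact ((DefT.polyLen Nv).add ((DefT.const 3).mul (DefLt_L J m))).add (DefT.const 1)

theorem DefLt_A (J : Polynomial ℕ) (m : ℕ) {k : ℕ} :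
    DefT k (fun _ n0 _ => 2 * (J.eval n0 * m) + 1) :=
  ((DefT.const 2).mul (DefLt_L J m)).add (DefT.const 1)

theorem def_ltP (Nv J : Polynomial ℕ) {m : ℕ} (hm : 0 < m)
    {lit : List Bool → ℕ → ℕ → ℕ} (hlit : Unif lit) {k : ℕ} {F G : CT k} (hF : DefT k F)
    (hG : DefT k G) :
    DefF k (fun y n0 w => ltP (Nv.eval n0) (J.eval n0 * m) m (lit y n0) (F y n0 w) =
      G y n0 w) := by
  refine DefF.congr (P := fun y n0 w =>
    if F y n0 w / 3 < 2 * (J.eval n0 * m) + 1 then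
      lit3 0 (Nv.eval n0) (J.eval n0 * m) m (lit y n0) (F y n0 w) = G y n0 w
    else if F y n0 w / 3 < 2 * (J.eval n0 * m) + 1 + Np (Nv.eval n0) (J.eval n0 * m) then
      (if F y n0 w % 3 = 2 then 2 * Np (Nv.eval n0) (J.eval n0 * m) = G y n0 w
        else 2 * (F y n0 w / 3) + F y n0 w % 3 = G y n0 w + 2 * (2 * (J.eval n0 * m) + 1))
    else (if F y n0 w % 3 = 2 then 2 * Np (Nv.eval n0) (J.eval n0 * m) + 1 = G y n0 w
        else 2 * Np (Nv.eval n0) (J.eval n0 * m) = G y n0 w)) ?_ ?_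
  · refine DefF.divmod (P := fun y n0 w q r =>
      if q < 2 * (J.eval n0 * m) + 1 then
        lit3 0 (Nv.eval n0) (J.eval n0 * m) m (lit y n0) (F y n0 w) = G y n0 w
      else if q < 2 * (J.eval n0 * m) + 1 + Np (Nv.eval n0) (J.eval n0 * m) then
        (if r = 2 then 2 * Np (Nv.eval n0) (J.eval n0 * m) = G y n0 w
          else 2 * q + r = G y n0 w + 2 * (2 * (J.eval n0 * m) + 1))
      else (if r = 2 then 2 * Np (Nv.eval n0) (J.eval n0 * m) + 1 = G y n0 w
          else 2 * Np (Nv.eval n0) (J.eval n0 * m) = G y n0 w)) hF (DefT.const 3)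
      (fun _ _ _ => by norm_num) ?_
    have hq : DefT (k + 2) (fun _ _ w => (Fin.init w : Fin (k + 1) → ℕ) (Fin.last k)) :=
      DefT.last.init
    have hr : DefT (k + 2) (fun _ _ w => w (Fin.last (k + 1))) := DefT.last
    have hA : DefT (k + 2) (fun _ n0 _ => 2 * (J.eval n0 * m) + 1) := DefLt_A J m
    have hN : DefT (k + 2) (fun _ n0 _ => Np (Nv.eval n0) (J.eval n0 * m)) := DefLt_Np Nv J m
    have h2 : DefT (k + 2) (fun _ n0 _ => 2 * Np (Nv.eval n0) (J.eval n0 * m)) :=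
      (DefT.const 2).mul hN
    have hG2 := hG.init.init
    refine DefF.ite (DefF.lt hq hA) (def_lit3 0 Nv J hm hlit hF.init.init hG2) ?_
    refine DefF.ite (DefF.lt hq (hA.add hN)) ?_ ?_
    · exact DefF.ite (DefF.eq hr (DefT.const 2)) (DefF.eq h2 hG2)
        (DefF.eq (((DefT.const 2).mul hq).add hr) (hG2.add ((DefT.const 2).mul hA)))
    · exact DefF.ite (DefF.eq hr (DefT.const 2)) (DefF.eq (h2.add (DefT.const 1)) hG2)
        (DefF.eq h2 hG2)
  · intro y n0 w
    unfold ltP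
    split_ifs with h1 h2 h3 h4
    · exact Iff.rfl
    · exact Iff.rfl
    · omega
    · exact Iff.rfl
    · exact Iff.rfl

end Pool.Agent.LHB
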