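import Pool.Agent.LHB.Defs
import Pool.Agent.LIH.Dfn
import Pool.Agent.LIH.DfnNet
import Pool.Agent.LHB.DefLt

/-!
# The links are definable

`NV = 2 Np + 2`, `Θ = Tp`, `KN` are terms (polynomials in `n0`); `Bk K1 K2` is a constant, positive. By cases on `q : Fin 6`.
`k % Bk`, `k / Bk`: `DefF.divmod` with the constant `Bk`; `r % 2`: `def_mod`; `k / Bk % (3Θ)`: `DefF.divmod` with the term `3Θ > 0`
(`Tp ≥ 2`). `lkC`: `l + 1 = (lt (e + i) * (3Θ) + (e + i) + 1) * Bk` with `e = k / Bk`: write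
`∃ v < l + 2, lt (e + i) = v ∧ l + 1 = (v * (3Θ) + (e + i) + 1) * Bk` (`DefF.ex`, `def_ltP`; `v ≤ l + 1` because `3Θ ≥ 1`, `Bk ≥ 1`).
Compare `def_lk` in `LHA/DefAdj.lean`.
-/

namespace Pool.Agent.LHB

open Pool.Agent.LIH Pool.Agent.LHA

theorem DefLk_Bk {K1 K2 : ℕ} (hK1 : 0 < K1) : 0 < Bk K1 K2 := by
  unfold Bk
  omega

theorem DefLk_Tp (N L : ℕ) : 0 < Tp N L := by
  unfold Tp
  omega

theorem DefLk_NpT (Nv J : Polynomial ℕ) (m : ℕ) {k : ℕ} :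
    DefT k (fun _ n0 _ => Np (Nv.eval n0) (J.eval n0 * m)) := by
  unfold Np
  exact ((DefT.polyLen Nv).add ((DefT.const 3).mul ((DefT.polyLen J).mul (DefT.const m)))).add (DefT.const 1)

theorem DefLk_TpT (Nv J : Polynomial ℕ) (m : ℕ) {k : ℕ} :
    DefT k (fun _ n0 _ => Tp (Nv.eval n0) (J.eval n0 * m)) := by
  have h := DefLk_NpT Nv J m (k := k)
  unfold Tp
  exact ((((DefT.const 2).mul ((DefT.polyLen J).mul (DefT.const m))).add (DefT.const 1)).add h).add (DefT.const 1)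

theorem DefLk_T3 (Nv J : Polynomial ℕ) (m : ℕ) {k : ℕ} :
    DefT k (fun _ n0 _ => 3 * Tp (Nv.eval n0) (J.eval n0 * m)) :=
  (DefT.const 3).mul (DefLk_TpT Nv J m)

theorem DefLk_mod {k : ℕ} {F M : CT k} (hF : DefT k F) (hM : DefT k M) (h0 : ∀ y n0 w, 0 < M y n0 w) (c : ℕ) :
    DefF k (fun y n0 w => F y n0 w % M y n0 w = c) :=
  DefF.divmod (P := fun _ _ _ _ r' => r' = c) hF hM h0 (DefF.eq DefT.last (DefT.const c))

theorem def_KN (K1 K2 : ℕ) (Nv J : Polynomial ℕ) (m : ℕ) {k : ℕ} :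
    DefT k (fun _ n0 _ => KN K1 K2 (2 * Np (Nv.eval n0) (J.eval n0 * m) + 2)
      (Tp (Nv.eval n0) (J.eval n0 * m))) := by
  have h1 := DefLk_NpT Nv J m (k := k)
  have h2 := DefLk_T3 Nv J m (k := k)
  unfold KN
  exact ((((DefT.const 2).mul h1).add (DefT.const 2)).mul h2).mul (DefT.const _)

theorem DefLk_C (K1 K2 : ℕ) (hB : 0 < Bk K1 K2) (Nv J : Polynomial ℕ) {m : ℕ} (hm : 0 < m)
    {lit : List Bool → ℕ → ℕ → ℕ} (hlit : Unif lit) (i : ℕ) {k : ℕ} {E B : CT k}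
    (hE : DefT k E) (hBt : DefT k B) :
    DefF k (fun y n0 w => B y n0 w + 1 = (ltP (Nv.eval n0) (J.eval n0 * m) m (lit y n0) (E y n0 w + i) *
      (3 * Tp (Nv.eval n0) (J.eval n0 * m)) + (E y n0 w + i) + 1) * Bk K1 K2) := by
  have h : DefF k (fun y n0 w => ∃ v < B y n0 w + 1,
      ltP (Nv.eval n0) (J.eval n0 * m) m (lit y n0) (E y n0 w + i) = v ∧
      B y n0 w + 1 = (v * (3 * Tp (Nv.eval n0) (J.eval n0 * m)) + (E y n0 w + i) + 1) * Bk K1 K2) := by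
    refine DefF.ex (P := fun y n0 w v => ltP (Nv.eval n0) (J.eval n0 * m) m (lit y n0) (E y n0 w + i) = v ∧
      B y n0 w + 1 = (v * (3 * Tp (Nv.eval n0) (J.eval n0 * m)) + (E y n0 w + i) + 1) * Bk K1 K2)
      (hBt.add (DefT.const 1)) ?_
    refine DefF.and ?_ ?_
    · exact def_ltP Nv J hm hlit (hE.init.add (DefT.const i)) DefT.last
    · exact DefF.eq (hBt.init.add (DefT.const 1))
        ((((DefT.last.mul (DefLk_T3 Nv J m)).add (hE.init.add (DefT.const i))).add (DefT.const 1)).mul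
          (DefT.const (Bk K1 K2)))
  refine h.congr (fun y n0 w => ?_)
  constructor
  · rintro ⟨v, -, rfl, h2⟩
    exact h2
  · intro h1
    refine ⟨ltP (Nv.eval n0) (J.eval n0 * m) m (lit y n0) (E y n0 w + i), ?_, rfl, h1⟩
    have hT := DefLk_Tp (Nv.eval n0) (J.eval n0 * m)
    rw [h1]
    have e1 : ltP (Nv.eval n0) (J.eval n0 * m) m (lit y n0) (E y n0 w + i) ≤
        ltP (Nv.eval n0) (J.eval n0 * m) m (lit y n0) (E y n0 w + i) *
          (3 * Tp (Nv.eval n0) (J.eval n0 * m)) := Nat.le_mul_of_pos_right _ (by omega)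
    have e2 := Nat.le_mul_of_pos_right (ltP (Nv.eval n0) (J.eval n0 * m) m (lit y n0) (E y n0 w + i) *
      (3 * Tp (Nv.eval n0) (J.eval n0 * m)) + (E y n0 w + i) + 1) hB
    omega

theorem DefLk_clause {K1 K2 : ℕ} (hB : 0 < Bk K1 K2) (Nv J : Polynomial ℕ) {m : ℕ} (hm : 0 < m)
    {lit : List Bool → ℕ → ℕ → ℕ} (hlit : Unif lit) (i : ℕ) {k : ℕ} {A B : CT k}
    (hA : DefT k A) (hBt : DefT k B) :
    DefF k (fun y n0 w => A y n0 w < KN K1 K2 (2 * Np (Nv.eval n0) (J.eval n0 * m) + 2)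
      (Tp (Nv.eval n0) (J.eval n0 * m)) ∧ lkC K1 K2 (Tp (Nv.eval n0) (J.eval n0 * m))
      (ltP (Nv.eval n0) (J.eval n0 * m) m (lit y n0)) i (A y n0 w) (B y n0 w)) := by
  refine (DefF.lt hA (def_KN K1 K2 Nv J m)).and ?_
  unfold lkC
  refine DefF.divmod (P := fun y n0 w e r => r = 0 ∧ e < 3 * Tp (Nv.eval n0) (J.eval n0 * m) ∧ e % 3 = 0 ∧
    B y n0 w + 1 = (ltP (Nv.eval n0) (J.eval n0 * m) m (lit y n0) (e + i) *
      (3 * Tp (Nv.eval n0) (J.eval n0 * m)) + (e + i) + 1) * Bk K1 K2) hA (DefT.const (Bk K1 K2))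
    (fun _ _ _ => hB) ?_
  exact (DefF.eq DefT.last (DefT.const 0)).and ((DefF.lt DefT.last.init (DefLk_T3 Nv J m)).and
    ((def_mod DefT.last.init (by norm_num : 0 < 3) 0).and
      (DefLk_C K1 K2 hB Nv J hm hlit i DefT.last.init hBt.init.init)))

theorem DefLk_0 {K1 K2 : ℕ} (hB : 0 < Bk K1 K2) (Nv J : Polynomial ℕ) (m : ℕ) {k : ℕ} {A B : CT k}
    (hA : DefT k A) (hBt : DefT k B) :
    DefF k (fun y n0 w => A y n0 w < KN K1 K2 (2 * Np (Nv.eval n0) (J.eval n0 * m) + 2)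
      (Tp (Nv.eval n0) (J.eval n0 * m)) ∧ ((A y n0 w % Bk K1 K2 < 2 * K2 ∧
        B y n0 w + A y n0 w % Bk K1 K2 % 2 = A y n0 w) ∨
      (2 * K2 ≤ A y n0 w % Bk K1 K2 ∧ A y n0 w % Bk K1 K2 + 1 < Bk K1 K2 ∧ B y n0 w = A y n0 w))) := by
  refine (DefF.lt hA (def_KN K1 K2 Nv J m)).and ?_
  refine DefF.divmod (P := fun y n0 w _ r => (r < 2 * K2 ∧ B y n0 w + r % 2 = A y n0 w) ∨
    (2 * K2 ≤ r ∧ r + 1 < Bk K1 K2 ∧ B y n0 w = A y n0 w)) hA (DefT.const (Bk K1 K2)) (fun _ _ _ => hB) ?_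
  refine DefF.or ((DefF.lt DefT.last (DefT.const (2 * K2))).and ?_)
    ((DefF.le (DefT.const (2 * K2)) DefT.last).and
      ((DefF.lt (DefT.last.add (DefT.const 1)) (DefT.const (Bk K1 K2))).and
        (DefF.eq hBt.init.init hA.init.init)))
  refine (DefF.or ((def_mod (k := k + 2) DefT.last (by norm_num : 0 < 2) 0).and
      (DefF.eq hBt.init.init hA.init.init))
    ((def_mod (k := k + 2) DefT.last (by norm_num : 0 < 2) 1).and
      (DefF.eq (hBt.init.init.add (DefT.const 1)) hA.init.init))).congr (fun y n0 w => ?_)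
  omega

theorem DefLk_1 {K1 K2 : ℕ} (hB : 0 < Bk K1 K2) (Nv J : Polynomial ℕ) (m : ℕ) {k : ℕ} {A B : CT k}
    (hA : DefT k A) (hBt : DefT k B) :
    DefF k (fun y n0 w => A y n0 w < KN K1 K2 (2 * Np (Nv.eval n0) (J.eval n0 * m) + 2)
      (Tp (Nv.eval n0) (J.eval n0 * m)) ∧ A y n0 w % Bk K1 K2 < 2 * K2 ∧
      ((A y n0 w % Bk K1 K2 % 2 = 1 ∧ B y n0 w = A y n0 w) ∨
        (A y n0 w % Bk K1 K2 % 2 = 0 ∧ 0 < A y n0 w % Bk K1 K2 ∧ B y n0 w + 1 = A y n0 w) ∨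
        (A y n0 w % Bk K1 K2 = 0 ∧ 0 < A y n0 w / Bk K1 K2 % (3 * Tp (Nv.eval n0) (J.eval n0 * m)) ∧
          B y n0 w + Bk K1 K2 + 1 = A y n0 w + 2 * K2) ∨
        (A y n0 w % Bk K1 K2 = 0 ∧ A y n0 w / Bk K1 K2 % (3 * Tp (Nv.eval n0) (J.eval n0 * m)) = 0 ∧
          B y n0 w = A y n0 w))) := by
  refine (DefF.lt hA (def_KN K1 K2 Nv J m)).and ?_
  refine DefF.divmod (P := fun y n0 w e r => r < 2 * K2 ∧ ((r % 2 = 1 ∧ B y n0 w = A y n0 w) ∨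
        (r % 2 = 0 ∧ 0 < r ∧ B y n0 w + 1 = A y n0 w) ∨
        (r = 0 ∧ 0 < e % (3 * Tp (Nv.eval n0) (J.eval n0 * m)) ∧
          B y n0 w + Bk K1 K2 + 1 = A y n0 w + 2 * K2) ∨
        (r = 0 ∧ e % (3 * Tp (Nv.eval n0) (J.eval n0 * m)) = 0 ∧
          B y n0 w = A y n0 w))) hA (DefT.const (Bk K1 K2)) (fun _ _ _ => hB) ?_
  have hT0 : ∀ (y : List Bool) (n0 : ℕ) (w : Fin (k + 2) → ℕ),
      0 < 3 * Tp (Nv.eval n0) (J.eval n0 * m) := fun _ n0 _ => by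
    have := DefLk_Tp (Nv.eval n0) (J.eval n0 * m)
    omega
  have hmod : DefF (k + 2) (fun _ n0 w => (Fin.init w : Fin (k + 1) → ℕ) (Fin.last k) %
      (3 * Tp (Nv.eval n0) (J.eval n0 * m)) = 0) :=
    DefLk_mod (M := fun _ n0 _ => 3 * Tp (Nv.eval n0) (J.eval n0 * m)) DefT.last.init (DefLk_T3 Nv J m) hT0 0
  have hmod' : DefF (k + 2) (fun _ n0 w => 0 < (Fin.init w : Fin (k + 1) → ℕ) (Fin.last k) %
      (3 * Tp (Nv.eval n0) (J.eval n0 * m))) :=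
    hmod.neg.congr (fun y n0 w => by omega)
  have r1 : DefF (k + 2) (fun _ _ w => w (Fin.last (k + 1)) % 2 = 1) :=
    def_mod DefT.last (by norm_num : 0 < 2) 1
  have r0 : DefF (k + 2) (fun _ _ w => w (Fin.last (k + 1)) % 2 = 0) :=
    def_mod DefT.last (by norm_num : 0 < 2) 0
  have rz : DefF (k + 2) (fun _ _ w => w (Fin.last (k + 1)) = 0) := DefF.eq DefT.last (DefT.const 0)
  have rp : DefF (k + 2) (fun _ _ w => 0 < w (Fin.last (k + 1))) := DefF.lt (DefT.const 0) DefT.last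
  have eAB : DefF (k + 2) (fun y n0 w => B y n0 (Fin.init (Fin.init w)) = A y n0 (Fin.init (Fin.init w))) :=
    DefF.eq hBt.init.init hA.init.init
  have eAB1 : DefF (k + 2) (fun y n0 w => B y n0 (Fin.init (Fin.init w)) + 1 = A y n0 (Fin.init (Fin.init w))) :=
    DefF.eq (hBt.init.init.add (DefT.const 1)) hA.init.init
  have eAB2 : DefF (k + 2) (fun y n0 w => B y n0 (Fin.init (Fin.init w)) + Bk K1 K2 + 1 =
      A y n0 (Fin.init (Fin.init w)) + 2 * K2) :=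
    DefF.eq ((hBt.init.init.add (DefT.const (Bk K1 K2))).add (DefT.const 1)) (hA.init.init.add (DefT.const (2 * K2)))
  exact (DefF.lt DefT.last (DefT.const (2 * K2))).and ((r1.and eAB).or ((r0.and (rp.and eAB1)).or
    ((rz.and (hmod'.and eAB2)).or (rz.and (hmod.and eAB)))))

theorem DefLk_2 {K1 K2 : ℕ} (hB : 0 < Bk K1 K2) (Nv J : Polynomial ℕ) (m : ℕ) {k : ℕ} {A B : CT k}
    (hA : DefT k A) (hBt : DefT k B) :
    DefF k (fun y n0 w => A y n0 w < KN K1 K2 (2 * Np (Nv.eval n0) (J.eval n0 * m) + 2)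
      (Tp (Nv.eval n0) (J.eval n0 * m)) ∧ ((A y n0 w % Bk K1 K2 = 0 ∧ B y n0 w = A y n0 w + 2 * K2) ∨
      (2 * K2 ≤ A y n0 w % Bk K1 K2 ∧ A y n0 w % Bk K1 K2 + 1 < Bk K1 K2 ∧ B y n0 w = A y n0 w + 1))) := by
  refine (DefF.lt hA (def_KN K1 K2 Nv J m)).and ?_
  refine DefF.divmod (P := fun y n0 w _ r => (r = 0 ∧ B y n0 w = A y n0 w + 2 * K2) ∨
    (2 * K2 ≤ r ∧ r + 1 < Bk K1 K2 ∧ B y n0 w = A y n0 w + 1)) hA (DefT.const (Bk K1 K2)) (fun _ _ _ => hB) ?_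
  exact DefF.or ((DefF.eq DefT.last (DefT.const 0)).and
      (DefF.eq hBt.init.init (hA.init.init.add (DefT.const (2 * K2)))))
    ((DefF.le (DefT.const (2 * K2)) DefT.last).and
      ((DefF.lt (DefT.last.add (DefT.const 1)) (DefT.const (Bk K1 K2))).and
        (DefF.eq hBt.init.init (hA.init.init.add (DefT.const 1)))))

theorem def_lkN {K1 K2 : ℕ} (hK1 : 0 < K1) (Nv J : Polynomial ℕ) {m : ℕ} (hm : 0 < m)
    {lit : List Bool → ℕ → ℕ → ℕ} (hlit : Unif lit) (q : Fin 6) {k : ℕ} {A B : CT k}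
    (hA : DefT k A) (hB : DefT k B) :
    DefF k (fun y n0 w => lkN K1 K2 (2 * Np (Nv.eval n0) (J.eval n0 * m) + 2)
      (Tp (Nv.eval n0) (J.eval n0 * m)) (ltP (Nv.eval n0) (J.eval n0 * m) m (lit y n0)) q
      (A y n0 w) (B y n0 w)) := by
  have hBk := DefLk_Bk (K2 := K2) hK1
  match q with
  | 0 => exact DefLk_0 hBk Nv J m hA hB
  | 1 => exact DefLk_1 hBk Nv J m hA hB
  | 2 => exact DefLk_2 hBk Nv J m hA hB
  | 3 => exact DefLk_clause hBk Nv J hm hlit 0 hA hB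
  | 4 => exact DefLk_clause hBk Nv J hm hlit 1 hA hB
  | 5 => exact DefLk_clause hBk Nv J hm hlit 2 hA hB

end Pool.Agent.LHB
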