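import Pool.Agent.LHB.Defs
import Pool.Agent.LIH.Dfn
import Pool.Agent.LIH.DfnNet
import Pool.Agent.LHB.DefLk

/-!
# The adjacency relation is definable

The same as `def_adjM` in `LHA/DefAdj.lean` with `def_lkN`, `def_KN`.
-/

namespace Pool.Agent.LHB

open Pool.Agent.LIH Pool.Agent.LHA

theorem DefAdjB_at {V : Type} {H : SimpleGraph V} {T : Typ H} (D : CK T) {K1 K2 : ℕ}
    (hK1 : 0 < K1) (Nv J : Polynomial ℕ)
    {m : ℕ} (hm : 0 < m) {lit : List Bool → ℕ → ℕ → ℕ} (hlit : Unif lit)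
    (z : Fin 6 × Fin D.len) (i : Fin 4) {k : ℕ} {A B : CT k} (hA : DefT k A) (hB : DefT k B) :
    DefF k (fun y n0 w => atZ D (lkN K1 K2 (2 * Np (Nv.eval n0) (J.eval n0 * m) + 2)
      (Tp (Nv.eval n0) (J.eval n0 * m)) (ltP (Nv.eval n0) (J.eval n0 * m) m (lit y n0)))
      (A y n0 w) z (B y n0 w) i) := by
  unfold atZ
  exact ((DefF.prop _).and ((DefF.eq hA hB).and (DefF.prop _))).or
    (((DefF.prop _).and ((DefF.eq hA hB).and (DefF.prop _))).or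
    (DefF.exF (fun q => (DefF.prop _).and ((DefF.prop _).and
      (def_lkN hK1 Nv J hm hlit q hA hB)))))

theorem DefAdjB_adjZ {V : Type} {H : SimpleGraph V} {T : Typ H} (D : Gd T) {K1 K2 : ℕ}
    (hK1 : 0 < K1) (Nv J : Polynomial ℕ) {m : ℕ} (hm : 0 < m) {lit : List Bool → ℕ → ℕ → ℕ}
    (hlit : Unif lit) (x z : D.Z) {k : ℕ} {A B : CT k} (hA : DefT k A) (hB : DefT k B) :
    DefF k (fun y n0 w => adjZ D (lkN K1 K2 (2 * Np (Nv.eval n0) (J.eval n0 * m) + 2)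
      (Tp (Nv.eval n0) (J.eval n0 * m)) (ltP (Nv.eval n0) (J.eval n0 * m) m (lit y n0)))
      (A y n0 w) (B y n0 w) x z) := by
  rcases x with x | x <;> rcases z with z | z
  · exact (DefF.eq hA hB).and (DefF.prop _)
  · exact DefF.exF (fun i => (DefF.prop _).and
      (DefAdjB_at D.toCK hK1 Nv J hm hlit z i hB hA))
  · exact DefF.exF (fun i => (DefF.prop _).and
      (DefAdjB_at D.toCK hK1 Nv J hm hlit x i hA hB))
  · exact (DefF.eq hA hB).and (DefF.prop _)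

theorem def_adjM {V : Type} {H : SimpleGraph V} {T : Typ H} (D : Gd T) {K1 K2 : ℕ}
    (hK1 : 0 < K1) (Nv J : Polynomial ℕ) {m : ℕ} (hm : 0 < m)
    {lit : List Bool → ℕ → ℕ → ℕ} (hlit : Unif lit) :
    DefF 2 (fun y n0 w => adjM D (KN K1 K2 (2 * Np (Nv.eval n0) (J.eval n0 * m) + 2)
      (Tp (Nv.eval n0) (J.eval n0 * m))) (lkN K1 K2 (2 * Np (Nv.eval n0) (J.eval n0 * m) + 2)
      (Tp (Nv.eval n0) (J.eval n0 * m)) (ltP (Nv.eval n0) (J.eval n0 * m) m (lit y n0)))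
      (w 0) (w 1)) := by
  unfold adjM
  refine DefF.exF (fun s => DefF.exF (fun t => ?_))
  have hk : DefT 4 (fun _ _ w => (Fin.init w : Fin 3 → ℕ) (Fin.last 2)) := DefT.last.init
  have hl : DefT 4 (fun _ _ w => w (Fin.last 3)) := DefT.last
  have h0 : DefT 4 (fun _ _ w => (Fin.init (Fin.init w : Fin 3 → ℕ) : Fin 2 → ℕ) 0) :=
    (DefT.var 0).init.init
  have h1 : DefT 4 (fun _ _ w => (Fin.init (Fin.init w : Fin 3 → ℕ) : Fin 2 → ℕ) 1) :=
    (DefT.var 1).init.init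
  refine DefF.ex (P := fun y n0 w a => ∃ b < KN K1 K2 (2 * Np (Nv.eval n0) (J.eval n0 * m) + 2)
      (Tp (Nv.eval n0) (J.eval n0 * m)),
    w 0 = (D.num s).1 + D.M * a ∧ w 1 = (D.num t).1 + D.M * b ∧
      adjZ D (lkN K1 K2 (2 * Np (Nv.eval n0) (J.eval n0 * m) + 2)
      (Tp (Nv.eval n0) (J.eval n0 * m)) (ltP (Nv.eval n0) (J.eval n0 * m) m (lit y n0))) a b s t)
    (def_KN K1 K2 Nv J m) ?_
  refine DefF.ex (P := fun y n0 w b =>
    (Fin.init w : Fin 2 → ℕ) 0 = (D.num s).1 + D.M * w (Fin.last 2) ∧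
    (Fin.init w : Fin 2 → ℕ) 1 = (D.num t).1 + D.M * b ∧
      adjZ D (lkN K1 K2 (2 * Np (Nv.eval n0) (J.eval n0 * m) + 2)
      (Tp (Nv.eval n0) (J.eval n0 * m)) (ltP (Nv.eval n0) (J.eval n0 * m) m (lit y n0)))
        (w (Fin.last 2)) b s t)
    (def_KN K1 K2 Nv J m) ?_
  exact (DefF.eq h0 ((DefT.const _).add ((DefT.const _).mul hk))).and
    ((DefF.eq h1 ((DefT.const _).add ((DefT.const _).mul hl))).and
      (DefAdjB_adjZ D hK1 Nv J hm hlit s t hk hl))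

end Pool.Agent.LHB
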