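import Mathlib
import Pool.Agent.LHA.Defs

/-!
# `H`-LIHOM and colour refinement: definitions
-/

namespace Pool.Agent.LHB

open Pool.Agent.LIH Pool.Agent.LHA

/-! ## Types -/

/-- Types of vertices (`vt`) and of darts (`dt`): the type of a dart determines the type of its first
vertex and the type of the reverse dart; vertices of the same type have the same numbers of darts of
every type. -/
structure Typ {V : Type} (H : SimpleGraph V) where
  vt : V → ℕ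
  dt : V → V → ℕ
  rev : ∀ x y x' y', H.Adj x y → H.Adj x' y' → dt x y = dt x' y' →
    vt x = vt x' ∧ dt y x = dt y' x'
  star : ∀ x x', vt x = vt x' → ∀ θ, (H.neighborSet x ∩ {y | dt x y = θ}).ncard =
    (H.neighborSet x' ∩ {y | dt x' y = θ}).ncard

/-- number of elements of `E` whose type seen from `x` is `θ` -/
noncomputable def Typ.cp {V : Type} {H : SimpleGraph V} (T : Typ H) (x : V) (E : Set V) (θ : ℕ) : ℕ :=
  (E ∩ {y | T.dt x y = θ}).ncard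

/-- coverings: locally bijective homomorphisms -/
def Cov {W V : Type} (G : SimpleGraph W) (H : SimpleGraph V) (f : W → V) : Prop :=
  LocInj G H f ∧ ∀ u, Srj H G f u

/-- a bijection between the neighbours of `a` and of `x` which preserves types -/
def Typ.St {V : Type} {H : SimpleGraph V} (T : Typ H) (a x : V)
    (σ : H.neighborSet a ≃ H.neighborSet x) : Prop := ∀ z, T.dt a z.1 = T.dt x (σ z).1

/-- There is a finite covering `p : G → H` and a vertex `r` over `a` such that all type preserving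
bijections `σ : N(a) → N(x)` come from coverings `f : G → H`. -/
def MCov {V : Type} {H : SimpleGraph V} (T : Typ H) (a : V) : Prop :=
  ∃ (n : ℕ) (G : SimpleGraph (Fin n)) (r : Fin n) (p : Fin n → V), Cov G H p ∧ p r = a ∧
    ∀ (x : V) (σ : H.neighborSet a ≃ H.neighborSet x), T.vt a = T.vt x → T.St a x σ →
      ∃ f : Fin n → V, Cov G H f ∧ f r = x ∧
        ∀ q (h : H.Adj a (p q)), G.Adj r q → f q = (σ ⟨p q, h⟩).1

/-- Locally injective homomorphisms preserve types deep inside a cover with a depth. -/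
def TOut {V : Type} {H : SimpleGraph V} (T : Typ H) : Prop :=
  ∃ R0 : ℕ, ∀ (W : Type) (_ : Finite W) (P : SimpleGraph W) (p : W → V) (δ : W → ℕ),
    Dp H P p δ → ∀ f : W → V, LocInj P H f → ∀ u, R0 ≤ δ u → T.vt (f u) = T.vt (p u) ∧
      ∀ v, P.Adj u v → T.dt (f u) (f v) = T.dt (p u) (p v)

/-- A flexible pin: a finite graph with a root `r`. Every locally injective homomorphism maps `r` to a
vertex of the type of `a`, and the set of the free neighbours has at most the types of `F`. All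
vertices of this type and all such sets of free neighbours are possible. -/
def FPin {V : Type} {H : SimpleGraph V} (T : Typ H) (a : V) (F : Set V) : Prop :=
  ∃ (n : ℕ) (P : SimpleGraph (Fin n)) (r : Fin n),
    (∀ (x : V) (E : Set V), T.vt x = T.vt a → E ⊆ H.neighborSet x →
      (∀ θ, T.cp x E θ ≤ T.cp a F θ) →
      ∃ p : Fin n → V, LocInj P H p ∧ p r = x ∧ ∀ q, P.Adj r q → p q ∉ E) ∧
    ∀ f : Fin n → V, LocInj P H f → T.vt (f r) = T.vt a ∧
      ∀ E ⊆ H.neighborSet (f r), (∀ q, P.Adj r q → f q ∉ E) → ∀ θ, T.cp (f r) E θ ≤ T.cp a F θ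

/-! ## The cover given by the ball of the universal cover of a graph `G` -/

section KG

variable {W : Type} {G : SimpleGraph W} {r : W} {R : ℕ} (B : Ball G r R)

/-- vertices -/
abbrev KV {W : Type} {G : SimpleGraph W} {r : W} {R : ℕ} (B : Ball G r R) : Type := W × B.I

/-- the root -/
def kro : KV B := (r, B.root)

/-- adjacency in the cover: the edge over `{q, q'}` at `(q, l)` leads to `(q', sw q q' l)` -/
def kAdj (u v : KV B) : Prop := G.Adj u.1 v.1 ∧ v.2 = B.sw u.1 v.1 u.2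

/-- the edges from the root to its neighbours over `F` -/
def kcut (F : Set W) (u v : KV B) : Prop := (u = kro B ∧ v.1 ∈ F) ∨ (v = kro B ∧ u.1 ∈ F)

/-- the cover without the edges from the root to its neighbours over `F` -/
def KP (F : Set W) : SimpleGraph (KV B) :=
  SimpleGraph.fromRel (fun u v => kAdj B u v ∧ ¬ kcut B F u v)

open Classical in
/-- depth -/
noncomputable def kdep (u : KV B) : ℕ := if B.e u.2 = u.1 then B.d u.2 else R

end KG

/-! ## The reference walks -/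

/-- The combinatorial data, first part. `X` has the neighbours `w true`, `w false` of different types.
`g0 b` and `g1 b` are non-backtracking walks `w b, ...` with `m1 + 1` and `m2 + 1` steps; the last
vertices of `g0 true`, `g0 false` have the same type, those of `g1 true`, `g1 false` too. -/
structure TK {V : Type} {H : SimpleGraph V} (T : Typ H) where
  X : V
  w : Bool → V
  m1 : ℕ
  g0 : Bool → ℕ → V
  m2 : ℕ
  g1 : Bool → ℕ → V
  adj_w : ∀ b, H.Adj X (w b)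
  vt_w : T.vt (w true) ≠ T.vt (w false)
  g0_0 : ∀ b, g0 b 0 = w b
  g1_0 : ∀ b, g1 b 0 = w b
  adj0 : ∀ b j, j ≤ m1 → H.Adj (g0 b j) (g0 b (j + 1))
  nb0 : ∀ b j, j < m1 → g0 b j ≠ g0 b (j + 2)
  adj1 : ∀ b j, j ≤ m2 → H.Adj (g1 b j) (g1 b (j + 1))
  nb1 : ∀ b j, j < m2 → g1 b j ≠ g1 b (j + 2)
  ne_X0 : ∀ b, g0 b 1 ≠ X
  ne_X1 : ∀ b, g1 b 1 ≠ X
  ne_01 : ∀ b, g0 b 1 ≠ g1 b 1
  vt_u : T.vt (g0 true (m1 + 1)) = T.vt (g0 false (m1 + 1))
  vt_U : T.vt (g1 true (m2 + 1)) = T.vt (g1 false (m2 + 1))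
  sound0 : ∀ b c x y z p q, H.Adj x y → T.dt x y = T.dt X (w b) → H.Adj y z → z ≠ x →
    Rch H m1 y z p q → T.dt q p = T.dt (g0 c (m1 + 1)) (g0 c m1) → c = b
  sound1 : ∀ b c d x y z z' p q p' q', H.Adj x y → T.dt x y = T.dt X (w b) → H.Adj y z →
    H.Adj y z' → z ≠ x → z' ≠ x → z ≠ z' → Rch H m1 y z p q →
    T.dt q p = T.dt (g0 c (m1 + 1)) (g0 c m1) → Rch H m2 y z' p' q' →
    T.dt q' p' = T.dt (g1 d (m2 + 1)) (g1 d m2) → d = b

/-- The combinatorial data: moreover `X` has a neighbour `wf` different from `w false`, of the same type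
as `w false`, and a further neighbour; `tf` is a neighbour of `u = g0 true (m1 + 1)` of the type of the
last step of `g0 false` (backwards); `sf` similarly. -/
structure CK {V : Type} {H : SimpleGraph V} (T : Typ H) extends TK T where
  wf : V
  adj_wf : H.Adj X wf
  ne_wf : wf ≠ w false
  dt_wf : T.dt X wf = T.dt X (w false)
  free_X : ∃ c, H.Adj X c ∧ c ≠ w true ∧ c ≠ w false ∧ c ≠ wf
  tf : V
  adj_tf : H.Adj (g0 true (m1 + 1)) tf
  dt_tf : T.dt (g0 true (m1 + 1)) tf = T.dt (g0 false (m1 + 1)) (g0 false m1)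
  sf : V
  adj_sf : H.Adj (g1 true (m2 + 1)) sf
  dt_sf : T.dt (g1 true (m2 + 1)) sf = T.dt (g1 false (m2 + 1)) (g1 false m2)

namespace CK

variable {V : Type} {H : SimpleGraph V} {T : Typ H} (D : CK T)

/-- the values of the four roots -/
def a : Fin 4 → V := ![D.X, D.g0 true (D.m1 + 1), D.g1 true (D.m2 + 1), D.X]

/-- the free slots of the four roots -/
def F : Fin 4 → Set V := ![{D.w true, D.w false}, {D.g0 true D.m1, D.tf}, {D.g1 true D.m2, D.sf},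
  {D.w true, D.w false, D.wf}]

/-- bound for the number of free vertices of an arm -/
def len : ℕ := D.m1 + D.m2 + 1

/-- number of free vertices of the six arms -/
def L : Fin 6 → ℕ := ![D.m1 + 1, D.m2, D.m1 + 1, D.m1 + 1, D.m1 + 1, D.m1 + 1]

theorem len_pos : 0 < D.len := by unfold len; omega

/-- the free vertex number `p` of the arm `i` (`p < L i`) -/
def fv (i : Fin 6) (p : ℕ) : Fin 6 × Fin D.len := (i, ⟨p % D.len, Nat.mod_lt _ D.len_pos⟩)

/-- The graph of the free vertices: six paths; the first vertices of the arms `0` and `1` are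
adjacent; the vertices `(i, p)` with `L i ≤ p` are isolated. -/
def B : SimpleGraph (Fin 6 × Fin D.len) :=
  SimpleGraph.fromRel (fun x y => (x.1 = y.1 ∧ y.2.1 = x.2.1 + 1 ∧ y.2.1 < D.L x.1) ∨
    (x.1 = 0 ∧ x.2.1 = 0 ∧ y.1 = 1 ∧ y.2.1 = 0 ∧ 0 < D.m2))

/-- the last vertices of the arms -/
def en : Fin 6 → Fin 6 × Fin D.len :=
  ![D.fv 0 D.m1, if D.m2 = 0 then D.fv 0 0 else D.fv 1 (D.m2 - 1), D.fv 2 D.m1, D.fv 3 D.m1,
    D.fv 4 D.m1, D.fv 5 D.m1]

end CK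

/-- the root at which an arm ends -/
def sink : Fin 6 → Fin 4 := ![1, 2, 1, 1, 1, 1]

/-- Colourings `c` of the free vertices, with values `x` of the roots, which extend. -/
structure GoodW {V κ Y : Type} {H : SimpleGraph V} (T : Typ H) (a : Fin 4 → V) (F : Fin 4 → Set V)
    (B : SimpleGraph Y) (att : κ → Y → κ → Fin 4 → Prop) (c : κ → Y → V) (x : κ → Fin 4 → V) :
    Prop where
  hom : ∀ k y y', B.Adj y y' → H.Adj (c k y) (c k y')
  inj : ∀ k y y1 y2, B.Adj y y1 → B.Adj y y2 → c k y1 = c k y2 → y1 = y2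
  vt : ∀ l i, T.vt (x l i) = T.vt (a i)
  adj : ∀ k y l i, att k y l i → H.Adj (x l i) (c k y)
  cap : ∀ l i θ, T.cp (x l i) {z | ∃ k y, att k y l i ∧ c k y = z} θ ≤ T.cp (a i) (F i) θ
  ne : ∀ k y y' l i, B.Adj y y' → att k y l i → c k y' ≠ x l i
  ne' : ∀ k y l i l' i', att k y l i → att k y l' i' → x l i = x l' i' → l = l' ∧ i = i'
  dis : ∀ l i k y k' y', att k y l i → att k' y' l i → c k y = c k' y' → k = k' ∧ y = y'

/-- one finite graph containing four flexible pins -/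
structure Gd {V : Type} {H : SimpleGraph V} (T : Typ H) extends CK T where
  n : ℕ
  P : SimpleGraph (Fin n)
  r : Fin 4 → Fin n
  r_inj : Function.Injective r
  flex : ∀ (x : Fin 4 → V) (E : Fin 4 → Set V), (∀ i, T.vt (x i) = T.vt (toCK.a i)) →
    (∀ i, E i ⊆ H.neighborSet (x i)) → (∀ i θ, T.cp (x i) (E i) θ ≤ T.cp (toCK.a i) (toCK.F i) θ) →
    ∃ p : Fin n → V, LocInj P H p ∧ ∀ i, p (r i) = x i ∧ ∀ q, P.Adj (r i) q → p q ∉ E i
  force : ∀ f : Fin n → V, LocInj P H f → ∀ i, T.vt (f (r i)) = T.vt (toCK.a i) ∧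
    ∀ E ⊆ H.neighborSet (f (r i)), (∀ q, P.Adj (r i) q → f q ∉ E) →
      ∀ θ, T.cp (f (r i)) E θ ≤ T.cp (toCK.a i) (toCK.F i) θ

/-! ## Networks -/

/-- the free vertex `y` of the cell `k` is attached to the root `i` of the cell `l`; `lk q k l`: the end of
the arm `q` of the cell `k` is attached to the root number `sink q` of the cell `l` -/
def atZ {V : Type} {H : SimpleGraph V} {T : Typ H} (D : CK T) (lk : Fin 6 → ℕ → ℕ → Prop) (k : ℕ)
    (y : Fin 6 × Fin D.len) (l : ℕ) (i : Fin 4) : Prop :=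
  (i = 0 ∧ k = l ∧ (y = D.fv 0 0 ∨ y = D.fv 2 0)) ∨
    (i = 3 ∧ k = l ∧ (y = D.fv 3 0 ∨ y = D.fv 4 0 ∨ y = D.fv 5 0)) ∨
    ∃ q : Fin 6, i = sink q ∧ y = D.en q ∧ lk q k l

/-- the attachments of a network with `K` cells -/
def atN {V : Type} {H : SimpleGraph V} {T : Typ H} (D : CK T) (K : ℕ)
    (lk : Fin 6 → ℕ → ℕ → Prop) (k : Fin K) (y : Fin 6 × Fin D.len) (l : Fin K) (i : Fin 4) :
    Prop := atZ D lk k.1 y l.1 i

/-- the bits of the arms of a network -/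
def BSol (lk : Fin 6 → ℕ → ℕ → Prop) (K : ℕ) : Prop :=
  ∃ bt : Fin 6 → ℕ → Bool,
    (∀ k < K, bt 2 k = !bt 0 k ∧ modeOK 0 ![bt 3 k, bt 4 k, bt 5 k]) ∧
    (∀ q q' k k' l, q ≠ 1 → q' ≠ 1 → lk q k l → lk q' k' l → (q ≠ q' ∨ k ≠ k') →
      bt q k ≠ bt q' k') ∧
    ∀ k k' l, lk 1 k l → lk 1 k' l → k ≠ k' → (∃ l0, lk 0 k l0) → (∃ l0, lk 0 k' l0) →
      bt 0 k ≠ bt 0 k'

/-- The data of a colouring of a network: `W q k j` is the value of the vertex number `j` of the arm `q` of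
the cell `k` (`j = 0`: the vertex where it starts, `j = 1, ..., L q` its free vertices, `j = L q + 1` the root
where it ends), `R l i` the value of the root `i` of the cell `l`. -/
structure Lay {V : Type} {H : SimpleGraph V} {T : Typ H} (D : CK T) (K : ℕ)
    (lk : Fin 6 → ℕ → ℕ → Prop) (W : Fin 6 → ℕ → ℕ → V) (R : ℕ → Fin 4 → V)
    (bt : Fin 6 → ℕ → Bool) : Prop where
  dom : ∀ q k l, lk q k l → k < K ∧ l < K
  fn : ∀ q k l l', lk q k l → lk q k l' → l = l'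
  adj : ∀ q k j, k < K → H.Adj (W q k j) (W q k (j + 1))
  nb : ∀ q k j, k < K → W q k j ≠ W q k (j + 2)
  st0 : ∀ k < K, W 0 k 0 = R k 0 ∧ W 2 k 0 = R k 0
  st1 : ∀ k < K, W 1 k 0 = W 0 k 1 ∧ W 1 k 1 ≠ W 0 k 0 ∧ W 1 k 1 ≠ W 0 k 2
  st3 : ∀ k < K, R k 3 = D.X ∧ W 3 k 0 = D.X ∧ W 4 k 0 = D.X ∧ W 5 k 0 = D.X
  ty0 : ∀ k < K, ∃ s, T.dt (R k 0) (W 0 k 1) = T.dt D.X (D.w s) ∧
    T.dt (R k 0) (W 2 k 1) = T.dt D.X (D.w (!s))
  ty3 : ∀ k < K, W 3 k 1 ≠ W 4 k 1 ∧ W 3 k 1 ≠ W 5 k 1 ∧ W 4 k 1 ≠ W 5 k 1 ∧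
    W 3 k 1 ∈ D.F 3 ∧ W 4 k 1 ∈ D.F 3 ∧ W 5 k 1 ∈ D.F 3
  vt1 : ∀ l < K, T.vt (R l 1) = T.vt (D.g0 true (D.m1 + 1))
  vt2 : ∀ l < K, T.vt (R l 2) = T.vt (D.g1 true (D.m2 + 1))
  en : ∀ q k l, lk q k l → W q k (D.L q + 1) = R l (sink q)
  et : ∀ q k l, q ≠ 1 → lk q k l → T.dt (R l 1) (W q k (D.m1 + 1)) =
    T.dt (D.g0 (bt q k) (D.m1 + 1)) (D.g0 (bt q k) D.m1)
  et1 : ∀ k l, lk 1 k l → T.dt (R l 2) (W 1 k D.m2) =
    T.dt (D.g1 (bt 1 k) (D.m2 + 1)) (D.g1 (bt 1 k) D.m2)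
  dif : ∀ q q' k k' l, sink q = sink q' → lk q k l → lk q' k' l → (q ≠ q' ∨ k ≠ k') →
    bt q k ≠ bt q' k'

/-! ## The network of a positive system of triples -/

/-- number of cells of a block -/
def Bk (K1 K2 : ℕ) : ℕ := 2 * K2 + K1

/-- number of cells: `NV` variables, `3 Θ` blocks per variable -/
def KN (K1 K2 NV Θ : ℕ) : ℕ := NV * (3 * Θ) * Bk K1 K2

/-- the cell `r` of the block `(x, o)` -/
def nod (K1 K2 Θ x o r : ℕ) : ℕ := (x * (3 * Θ) + o) * Bk K1 K2 + r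

/-- links of the arm `3 + i` -/
def lkC (K1 K2 Θ : ℕ) (lt : ℕ → ℕ) (i k l : ℕ) : Prop :=
  k % Bk K1 K2 = 0 ∧ k / Bk K1 K2 < 3 * Θ ∧ k / Bk K1 K2 % 3 = 0 ∧
    l + 1 = (lt (k / Bk K1 K2 + i) * (3 * Θ) + (k / Bk K1 K2 + i) + 1) * Bk K1 K2

/-- The links. The cells `r < 2 K2` of a block form a chain, which continues the chain of the preceding
block of the same variable; the cells `2 K2 ≤ r` are relays; the cells `(0, 3 θ, 0)` are also the cells of
the triples `θ`. -/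
def lkN (K1 K2 NV Θ : ℕ) (lt : ℕ → ℕ) : Fin 6 → ℕ → ℕ → Prop
  | 0, k, l => k < KN K1 K2 NV Θ ∧ ((k % Bk K1 K2 < 2 * K2 ∧ l + k % Bk K1 K2 % 2 = k) ∨
      (2 * K2 ≤ k % Bk K1 K2 ∧ k % Bk K1 K2 + 1 < Bk K1 K2 ∧ l = k))
  | 1, k, l => k < KN K1 K2 NV Θ ∧ k % Bk K1 K2 < 2 * K2 ∧
      ((k % Bk K1 K2 % 2 = 1 ∧ l = k) ∨
        (k % Bk K1 K2 % 2 = 0 ∧ 0 < k % Bk K1 K2 ∧ l + 1 = k) ∨
        (k % Bk K1 K2 = 0 ∧ 0 < k / Bk K1 K2 % (3 * Θ) ∧ l + Bk K1 K2 + 1 = k + 2 * K2) ∨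
        (k % Bk K1 K2 = 0 ∧ k / Bk K1 K2 % (3 * Θ) = 0 ∧ l = k))
  | 2, k, l => k < KN K1 K2 NV Θ ∧ ((k % Bk K1 K2 = 0 ∧ l = k + 2 * K2) ∨
      (2 * K2 ≤ k % Bk K1 K2 ∧ k % Bk K1 K2 + 1 < Bk K1 K2 ∧ l = k + 1))
  | 3, k, l => k < KN K1 K2 NV Θ ∧ lkC K1 K2 Θ lt 0 k l
  | 4, k, l => k < KN K1 K2 NV Θ ∧ lkC K1 K2 Θ lt 1 k l
  | 5, k, l => k < KN K1 K2 NV Θ ∧ lkC K1 K2 Θ lt 2 k l

/-- a positive system of triples: in every triple exactly one variable is true -/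
def PSol (Θ : ℕ) (lt : ℕ → ℕ) : Prop :=
  ∃ a : ℕ → Bool, ∀ θ < Θ, modeOK 0 (fun i => a (lt (3 * θ + i.1)))

/-! ## Numbering -/

/-- the vertices of a cell -/
abbrev Gd.Z {V : Type} {H : SimpleGraph V} {T : Typ H} (D : Gd T) : Type :=
  Fin D.n ⊕ (Fin 6 × Fin D.toCK.len)

/-- number of vertices of a cell -/
noncomputable def Gd.M {V : Type} {H : SimpleGraph V} {T : Typ H} (D : Gd T) : ℕ :=
  Fintype.card D.Z

/-- numbering of the vertices of a cell -/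
noncomputable def Gd.num {V : Type} {H : SimpleGraph V} {T : Typ H} (D : Gd T) : D.Z ≃ Fin D.M :=
  Fintype.equivFin _

/-- the graph of a network -/
def netG {V : Type} {H : SimpleGraph V} {T : Typ H} (D : Gd T) (K : ℕ)
    (lk : Fin 6 → ℕ → ℕ → Prop) : SimpleGraph (Fin K × D.Z) :=
  glue D.P D.r D.toCK.B (atN D.toCK K lk)

/-- adjacency of the vertex `x` of the cell `k` and the vertex `y` of the cell `l` -/
def adjZ {V : Type} {H : SimpleGraph V} {T : Typ H} (D : Gd T) (lk : Fin 6 → ℕ → ℕ → Prop)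
    (k l : ℕ) : D.Z → D.Z → Prop
  | .inl x, .inl y => k = l ∧ D.P.Adj x y
  | .inr x, .inr y => k = l ∧ D.toCK.B.Adj x y
  | .inr y, .inl x => ∃ i, x = D.r i ∧ atZ D.toCK lk k y l i
  | .inl x, .inr y => ∃ i, x = D.r i ∧ atZ D.toCK lk l y k i

/-- adjacency in terms of the numbers of the vertices -/
def adjM {V : Type} {H : SimpleGraph V} {T : Typ H} (D : Gd T) (K : ℕ)
    (lk : Fin 6 → ℕ → ℕ → Prop) (a b : ℕ) : Prop :=
  ∃ x y : D.Z, ∃ k < K, ∃ l < K, a = (D.num x).1 + D.M * k ∧ b = (D.num y).1 + D.M * l ∧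
    adjZ D lk k l x y

/-! ## Positive triples from triples of literals -/

/-- number of variables of the system of triples of literals -/
def Np (Nv L : ℕ) : ℕ := Nv + 3 * L + 1

/-- number of positive triples -/
def Tp (Nv L : ℕ) : ℕ := 2 * L + 1 + Np Nv L + 1

/-- The variable number `o < 3 Tp` of the positive system. Variables: the literals `l < 2 Np`, a variable
`2 Np` which must be false and a variable `2 Np + 1` which must be true. Triples: those of `lit3 0`, the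
triples `(2 v, 2 v + 1, 2 Np)`, and `(2 Np, 2 Np, 2 Np + 1)`. -/
def ltP (Nv L m : ℕ) (lit : ℕ → ℕ) (o : ℕ) : ℕ :=
  if o / 3 < 2 * L + 1 then lit3 0 Nv L m lit o
  else if o / 3 < 2 * L + 1 + Np Nv L then
    (if o % 3 = 2 then 2 * Np Nv L else 2 * (o / 3 - (2 * L + 1)) + o % 3)
  else (if o % 3 = 2 then 2 * Np Nv L + 1 else 2 * Np Nv L)

/-! ## Patterns and periodic walks -/

/-- A closed pattern of length `L`: at the position `j` a path `x j, y j, z j`; the types of consecutive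
positions fit together. -/
structure Pat {V : Type} {H : SimpleGraph V} (T : Typ H) (L : ℕ) (x y z : ℕ → V) : Prop where
  pos : 0 < L
  per : ∀ j, x (j + L) = x j ∧ y (j + L) = y j ∧ z (j + L) = z j
  adj1 : ∀ j, H.Adj (x j) (y j)
  adj2 : ∀ j, H.Adj (y j) (z j)
  ne : ∀ j, x j ≠ z j
  dt : ∀ j, T.dt (y j) (z j) = T.dt (x (j + 1)) (y (j + 1))

/-- length of the pattern of the relays -/
def CK.L0 {V : Type} {H : SimpleGraph V} {T : Typ H} (D : CK T) : ℕ := 2 * (D.m1 + 2)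

/-- length of the pattern of the chains -/
def CK.Lc {V : Type} {H : SimpleGraph V} {T : Typ H} (D : CK T) : ℕ := 2 * (D.m1 + D.m2 + 2)

/-- A line of relays: a walk through `X` at the positions `0` and `K1 L0`, with the prescribed types at the
positions `i L0` and `i L0 + m1 + 2`. -/
structure RD {V : Type} {H : SimpleGraph V} {T : Typ H} (D : CK T) (K1 : ℕ) (b : Bool) (wl : V)
    (g : ℤ → V) : Prop where
  adj : ∀ j, H.Adj (g j) (g (j + 1))
  nb : ∀ j, g j ≠ g (j + 2)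
  zero : g 0 = D.X
  last : g (K1 * D.L0) = D.X
  slot : g (K1 * D.L0 - 1) = wl
  ty0 : ∀ i : ℤ, T.dt (g (i * D.L0)) (g (i * D.L0 - 1)) = T.dt D.X (D.w b)
  ty1 : ∀ i : ℤ, T.dt (g (i * D.L0)) (g (i * D.L0 + 1)) = T.dt D.X (D.w (!b))
  ty2 : ∀ i : ℤ, T.dt (g (i * D.L0 + (D.m1 + 2))) (g (i * D.L0 + (D.m1 + 2) + 1)) =
    T.dt (D.g0 b (D.m1 + 1)) (D.g0 b D.m1)
  ty3 : ∀ i : ℤ, T.dt (g (i * D.L0 + (D.m1 + 2))) (g (i * D.L0 + (D.m1 + 2) - 1)) =
    T.dt (D.g0 (!b) (D.m1 + 1)) (D.g0 (!b) D.m1)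

/-- A chain: a periodic walk with the prescribed types at the positions `i Lc`, `i Lc + m1 + 1`,
`i Lc + 2 m1 + 2`, `i Lc + 2 m1 + m2 + 3`. -/
structure LD {V : Type} {H : SimpleGraph V} {T : Typ H} (D : CK T) (K2 : ℕ) (b : Bool)
    (g : ℤ → V) : Prop where
  adj : ∀ j, H.Adj (g j) (g (j + 1))
  nb : ∀ j, g j ≠ g (j + 2)
  per : ∀ j, g (j + K2 * D.Lc) = g j
  zero : g 0 = D.w b
  one : g 1 = D.g0 b 1
  neg : g (-1) = D.g1 b 1
  t0 : ∀ i : ℤ, T.dt (g (i * D.Lc)) (g (i * D.Lc + 1)) = T.dt (D.w b) (D.g0 b 1)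
  t0' : ∀ i : ℤ, T.dt (g (i * D.Lc)) (g (i * D.Lc - 1)) = T.dt (D.w b) (D.g1 b 1)
  t1 : ∀ i : ℤ, T.dt (g (i * D.Lc + (D.m1 + 1))) (g (i * D.Lc + (D.m1 + 1) - 1)) =
    T.dt (D.g0 b (D.m1 + 1)) (D.g0 b D.m1)
  t1' : ∀ i : ℤ, T.dt (g (i * D.Lc + (D.m1 + 1))) (g (i * D.Lc + (D.m1 + 1) + 1)) =
    T.dt (D.g0 (!b) (D.m1 + 1)) (D.g0 (!b) D.m1)
  t2 : ∀ i : ℤ, T.dt (g (i * D.Lc + (2 * D.m1 + 2))) (g (i * D.Lc + (2 * D.m1 + 2) - 1)) =
    T.dt (D.w (!b)) (D.g0 (!b) 1)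
  t2' : ∀ i : ℤ, T.dt (g (i * D.Lc + (2 * D.m1 + 2))) (g (i * D.Lc + (2 * D.m1 + 2) + 1)) =
    T.dt (D.w (!b)) (D.g1 (!b) 1)
  t3 : ∀ i : ℤ, T.dt (g (i * D.Lc + (2 * D.m1 + D.m2 + 3)))
    (g (i * D.Lc + (2 * D.m1 + D.m2 + 3) - 1)) = T.dt (D.g1 (!b) (D.m2 + 1)) (D.g1 (!b) D.m2)
  t3' : ∀ i : ℤ, T.dt (g (i * D.Lc + (2 * D.m1 + D.m2 + 3)))
    (g (i * D.Lc + (2 * D.m1 + D.m2 + 3) + 1)) = T.dt (D.g1 b (D.m2 + 1)) (D.g1 b D.m2)

/-! ## The colouring of the network -/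

/-- `h`, `h1`, `h2` are the values along the arms `0`, `1`, `2` of the cell `k` with the state `s`; `e1 l`, `e2 l`
the values of the roots `1`, `2` of the cell `l`. -/
structure ArmA {V : Type} {H : SimpleGraph V} {T : Typ H} (D : CK T)
    (lk : Fin 6 → ℕ → ℕ → Prop) (e1 e2 : ℕ → V) (s : Bool) (k : ℕ) (h h1 h2 : ℕ → V) : Prop where
  adj : ∀ j, H.Adj (h j) (h (j + 1)) ∧ H.Adj (h1 j) (h1 (j + 1)) ∧ H.Adj (h2 j) (h2 (j + 1))
  nb : ∀ j, h j ≠ h (j + 2) ∧ h1 j ≠ h1 (j + 2) ∧ h2 j ≠ h2 (j + 2)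
  st0 : h2 0 = h 0
  st1 : h1 0 = h 1 ∧ h1 1 ≠ h 0 ∧ h1 1 ≠ h 2
  ty : T.dt (h 0) (h 1) = T.dt D.X (D.w s) ∧ T.dt (h 0) (h2 1) = T.dt D.X (D.w (!s))
  en0 : ∀ l, lk 0 k l → h (D.m1 + 2) = e1 l ∧ T.dt (e1 l) (h (D.m1 + 1)) =
    T.dt (D.g0 s (D.m1 + 1)) (D.g0 s D.m1)
  en1 : ∀ l, lk 1 k l → h1 (D.m2 + 1) = e2 l ∧ T.dt (e2 l) (h1 D.m2) =
    T.dt (D.g1 s (D.m2 + 1)) (D.g1 s D.m2)
  en2 : ∀ l, lk 2 k l → h2 (D.m1 + 2) = e1 l ∧ T.dt (e1 l) (h2 (D.m1 + 1)) =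
    T.dt (D.g0 (!s) (D.m1 + 1)) (D.g0 (!s) D.m1)

/-- the number of the clause arm `i` -/
def ca : Fin 3 → Fin 6 := ![3, 4, 5]

/-- `h i` are the values along the arms `3 + i` of the cell `k`; `cb i` the states of these arms -/
structure ArmB {V : Type} {H : SimpleGraph V} {T : Typ H} (D : CK T)
    (lk : Fin 6 → ℕ → ℕ → Prop) (e1 : ℕ → V) (cb : Fin 3 → Bool) (k : ℕ) (h : Fin 3 → ℕ → V) :
    Prop where
  adj : ∀ i j, H.Adj (h i j) (h i (j + 1))
  nb : ∀ i j, h i j ≠ h i (j + 2)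
  st : ∀ i, h i 0 = D.X
  inj : Function.Injective (fun i => h i 1)
  mem : ∀ i, h i 1 ∈ D.F 3
  en : ∀ i l, lk (ca i) k l → h i (D.m1 + 2) = e1 l ∧ T.dt (e1 l) (h i (D.m1 + 1)) =
    T.dt (D.g0 (cb i) (D.m1 + 1)) (D.g0 (cb i) D.m1)

section colouring

variable {V : Type} {H : SimpleGraph V} {T : Typ H} (D : CK T) (K1 K2 Θ : ℕ) (a : ℕ → Bool)
  (lam : Bool → ℤ → V) (rd : ℕ → ℕ → ℤ → V)

/-- the state of the cell `(x, o, r)` -/
def stN (x r : ℕ) : Bool := if r < 2 * K2 then xor (a x) (decide (r % 2 = 1)) else a x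

/-- the value of the root `1` of the cell `(x, o, r)` -/
def e1N (x o r : ℕ) : V :=
  if r < 2 * K2 then lam (a x) (((r / 2 : ℕ) : ℤ) * D.Lc + (D.m1 + 1))
  else rd x o (((r - 2 * K2 : ℕ) : ℤ) * D.L0 + (D.m1 + 2))

/-- the value of the root `2` of the cell `(x, o, r)` -/
def e2N (x r : ℕ) : V :=
  if r < 2 * K2 then
    (if r % 2 = 0 then lam (a x) (((r / 2 : ℕ) : ℤ) * D.Lc - (D.m2 + 1))
    else lam (a x) (((r / 2 : ℕ) : ℤ) * D.Lc + (2 * D.m1 + D.m2 + 3)))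
  else D.g1 true (D.m2 + 1)

/-- `e1N` as a function of the number of the cell -/
def e1K (k : ℕ) : V := e1N D K2 a lam rd (k / Bk K1 K2 / (3 * Θ)) (k / Bk K1 K2 % (3 * Θ))
  (k % Bk K1 K2)

/-- `e2N` as a function of the number of the cell -/
def e2K (k : ℕ) : V := e2N D K2 a lam (k / Bk K1 K2 / (3 * Θ)) (k % Bk K1 K2)

/-- `stN` as a function of the number of the cell -/
def stK (k : ℕ) : Bool := stN K2 a (k / Bk K1 K2 / (3 * Θ)) (k % Bk K1 K2)

/-- the states of the clause arms -/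
def cbK (lt : ℕ → ℕ) (k : ℕ) (i : Fin 3) : Bool := a (lt (k / Bk K1 K2 + i.1))

/-- the bits of all arms -/
def btK (lt : ℕ → ℕ) (q : Fin 6) (k : ℕ) : Bool :=
  ![stK K1 K2 Θ a k, stK K1 K2 Θ a k, !stK K1 K2 Θ a k, cbK K1 K2 a lt k 0, cbK K1 K2 a lt k 1,
    cbK K1 K2 a lt k 2] q

end colouring

/-- the possible slots of the clause arms with the state `b` -/
def OKs {V : Type} {H : SimpleGraph V} {T : Typ H} (D : CK T) (b : Bool) (v : V) : Prop :=
  (b = true ∧ v = D.w true) ∨ (b = false ∧ (v = D.w false ∨ v = D.wf))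

/-- the colouring of the free vertices given by a layout -/
def cW {V : Type} {H : SimpleGraph V} {T : Typ H} (D : CK T) (W : Fin 6 → ℕ → ℕ → V) {K : ℕ}
    (k : Fin K) (y : Fin 6 × Fin D.len) : V := W y.1 k.1 (y.2.1 + 1)

/-- the values of the roots -/
def xR {V : Type} (R : ℕ → Fin 4 → V) {K : ℕ} (l : Fin K) (i : Fin 4) : V := R l.1 i

/-- Colour refinement does not distinguish `x` and `y`: they are in the same class of some equitable
partition. -/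
def SameCol {V : Type} (H : SimpleGraph V) (x y : V) : Prop := ∃ κ : V → ℕ, Equit H κ ∧ κ x = κ y

end Pool.Agent.LHB
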