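import Pool.Agent.LHB.Defs
import Pool.Agent.LHA.TreeBall

/-!
# The cover given by the ball
-/

namespace Pool.Agent.LHB

open Pool.Agent.LIH Pool.Agent.LHA

variable {W : Type} {G : SimpleGraph W} {r : W} {R : ℕ} (B : Ball G r R)

theorem KGr_kAdj_symm (u v : KV B) (h : kAdj B u v) : kAdj B v u := by
  obtain ⟨h1, h2⟩ := h
  refine ⟨h1.symm, ?_⟩
  rw [B.sw_comm, h2, B.sw_sw _ _ _ h1]

theorem KGr_kcut_symm (F : Set W) (u v : KV B) (h : kcut B F u v) : kcut B F v u := by
  rcases h with h | h
  · exact Or.inr h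
  · exact Or.inl h

theorem KP_adj (F : Set W) (u v : KV B) : (KP B F).Adj u v ↔ kAdj B u v ∧ ¬ kcut B F u v := by
  unfold KP
  rw [SimpleGraph.fromRel_adj]
  constructor
  · rintro ⟨-, h | ⟨h1, h2⟩⟩
    · exact h
    · exact ⟨KGr_kAdj_symm B _ _ h1, fun h => h2 (KGr_kcut_symm B F _ _ h)⟩
  · intro h
    refine ⟨?_, Or.inl h⟩
    rintro rfl
    exact G.irrefl h.1.1

theorem KG_li {V : Type} {H : SimpleGraph V} {f : W → V} (hf : LocInj G H f) (F : Set W) :
    LocInj (KP B F) H (fun u => f u.1) := by
  constructor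
  · intro u v h
    exact hf.1 _ _ ((KP_adj B F u v).1 h).1.1
  · intro u v hv v' hv' hvv
    have h1 := ((KP_adj B F u v).1 hv).1
    have h2 := ((KP_adj B F u v').1 hv').1
    have h3 : v.1 = v'.1 := hf.2 u.1 h1.1 h2.1 hvv
    refine Prod.ext h3 ?_
    rw [h1.2, h2.2, h3]

theorem KG_ro (F : Set W) (v : KV B) :
    (KP B F).Adj (kro B) v ↔ G.Adj r v.1 ∧ v.1 ∉ F ∧ v.2 = B.sw r v.1 B.root := by
  rw [KP_adj]
  constructor
  · rintro ⟨⟨h1, h2⟩, h3⟩
    exact ⟨h1, fun h => h3 (Or.inl ⟨rfl, h⟩), h2⟩
  · rintro ⟨h1, h2, h3⟩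
    refine ⟨⟨h1, h3⟩, ?_⟩
    rintro (⟨-, h⟩ | ⟨h, -⟩)
    · exact h2 h
    · rw [h] at h1
      exact G.irrefl h1

theorem KG_dp {V : Type} {H : SimpleGraph V} {p : W → V} (hR : 2 ≤ R) (hp : Cov G H p)
    (F : Set W) : Dp H (KP B F) (fun u => p u.1) (kdep B) := by
  classical
  refine ⟨KG_li B hp.1 F, ?_, ?_⟩
  · rintro ⟨q, l⟩ hu y hy
    obtain ⟨q', hq', rfl⟩ := hp.2 q y hy
    refine ⟨(q', B.sw q q' l), (KP_adj B F _ _).2 ⟨⟨hq', rfl⟩, ?_⟩, rfl⟩
    rintro (⟨h, -⟩ | ⟨h, -⟩)
    · rw [h] at hu
      have h1 : kdep B (kro B) = 0 := by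
        unfold kdep kro
        rw [if_pos B.e_root, B.d_root]
      rw [h1] at hu
      omega
    · have e1 : q' = r := congrArg Prod.fst h
      have e2 : B.sw q q' l = B.root := congrArg Prod.snd h
      subst e1
      have e3 : l = B.sw q q' B.root := by rw [← e2, B.sw_sw _ _ _ hq']
      have e4 : B.d l = 1 := by rw [e3, B.sw_comm, B.root_child q hq'.symm]
      have e5 : B.sw q q' B.root ≠ B.root := by
        intro h0
        rw [e3, h0, B.d_root] at e4
        exact zero_ne_one e4
      have e6 : B.e l = q := by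
        rcases B.sw_e q q' B.root hq' e5 with ⟨h1, -⟩ | ⟨-, h1⟩
        · rw [B.e_root] at h1
          exact absurd h1.symm hq'.ne
        · rw [e3]; exact h1
      have e7 : kdep B (q, l) = 1 := by
        unfold kdep
        rw [if_pos e6, e4]
      rw [e7] at hu
      omega
  · rintro ⟨q, l⟩ ⟨q', l'⟩ h
    obtain ⟨⟨h1, h2⟩, -⟩ := (KP_adj B F _ _).1 h
    have hqq : G.Adj q q' := h1
    have hl' : l' = B.sw q q' l := h2
    have hl : l = B.sw q q' l' := by rw [hl', B.sw_sw _ _ _ hqq]
    unfold kdep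
    by_cases hA : B.e l = q
    · have g1 : (if B.e (q, l).2 = (q, l).1 then B.d (q, l).2 else R) = B.d l := if_pos hA
      rw [g1]
      by_cases hA1 : l' = l
      · have hd : ¬ B.d l < R := by
          intro hlt
          have := B.full q' l (by rw [hA]; exact hqq) hlt
          rw [hA, ← hl'] at this
          exact this hA1
        have g2 : (if B.e (q', l').2 = (q', l').1 then B.d (q', l').2 else R) = R := by
          refine if_neg ?_
          change B.e l' ≠ q'
          rw [hA1, hA]
          exact hqq.ne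
        rw [g2]
        have := B.d_le l
        omega
      · have hne : B.sw q q' l ≠ l := by rw [← hl']; exact hA1
        have he : B.e l' = q' := by
          rcases B.sw_e q q' l hqq hne with ⟨-, h3⟩ | ⟨h3, -⟩
          · rw [hl']; exact h3
          · rw [hA] at h3
            exact absurd h3 hqq.ne
        have g2 : (if B.e (q', l').2 = (q', l').1 then B.d (q', l').2 else R) = B.d l' := if_pos he
        rw [g2, hl]
        exact B.d_sw q q' l' hqq
    · have g1 : (if B.e (q, l).2 = (q, l).1 then B.d (q, l).2 else R) = R := if_neg hA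
      rw [g1]
      by_cases hB : B.e l' = q'
      · have g2 : (if B.e (q', l').2 = (q', l').1 then B.d (q', l').2 else R) = B.d l' := if_pos hB
        rw [g2]
        have hll : l' = l := by
          by_contra hne0
          have hne : B.sw q q' l ≠ l := by rw [← hl']; exact hne0
          rcases B.sw_e q q' l hqq hne with ⟨h3, -⟩ | ⟨-, h3⟩
          · exact hA h3
          · rw [← hl', hB] at h3
            exact hqq.ne h3.symm
        have hel : B.e l = q' := by rw [← hll]; exact hB
        have hd : ¬ B.d l < R := by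
          intro hlt
          have := B.full q l (by rw [hel]; exact hqq.symm) hlt
          rw [hel, B.sw_comm, ← hl'] at this
          exact this hll
        rw [hll]
        omega
      · have g2 : (if B.e (q', l').2 = (q', l').1 then B.d (q', l').2 else R) = R := if_neg hB
        rw [g2]
        omega

end Pool.Agent.LHB
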