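import Pool.Agent.LHB.Defs
import Pool.Agent.LHB.TBas

/-!
# Types: counting

`choose`: for every `θ` let `Na = N(a) ∩ {dt a = θ}`, `Nx = N(x) ∩ {dt x = θ}` (same cardinality by `star`). The hypothesis
says `|E ∩ Nx| ≤ |F ∩ Na|`, so `|Na \ F| ≤ |Nx \ E|`: there is an injection `Na \ F → Nx \ E`, and it extends to a
bijection `Na → Nx` (finite sets of the same cardinality: the complements of the domain and of the image have
the same cardinality, `Equiv.sumCompl`/`Equiv.Set.sumCompl`; or: take any bijection `Na → Nx` and correct it with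
`Equiv.extendSubtype`). Glue over all `θ` with `Equiv.ofFiberEquiv`.
`star_last`: `N(x)` and `N(x')` have the same number of elements (take `φ0` of `star_equiv0`), so the injective map
`φ` is bijective. Let `θ0 = T.dt x z0`. The number of `z ∈ N(x)` with `T.dt x z = θ0` equals the number of `z' ∈ N(x')` with
`T.dt x' z' = θ0` (`star`), i.e. (bijection `φ`) the number of `z ∈ N(x)` with `T.dt x' (φ z) = θ0`. The two sets of `z`
agree outside `z0`, and `z0` is in the first one; so it is in the second one.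
-/

namespace Pool.Agent.LHB

open Pool.Agent.LIH Pool.Agent.LHA

variable {V : Type} {H : SimpleGraph V} (T : Typ H)

theorem TCnt_ext {α β : Type} [Finite α] [Finite β] (P : α → Prop) (Q : β → Prop)
    (hαβ : Nat.card α = Nat.card β) (h : Nat.card {b // Q b} ≤ Nat.card {a // P a}) :
    ∃ e : α ≃ β, ∀ a, ¬ P a → ¬ Q (e a) := by
  classical
  have : Fintype α := Fintype.ofFinite α
  have : Fintype β := Fintype.ofFinite β
  have e0 : β ≃ α := (Finite.card_eq.1 hαβ.symm).some
  rw [Nat.card_eq_fintype_card, Nat.card_eq_fintype_card] at h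
  obtain ⟨g⟩ := Function.Embedding.nonempty_of_card_le h
  obtain ⟨G, hG⟩ := Finset.exists_equiv_extend_of_card_eq (α := β) (β := α)
    (t := (Finset.univ : Finset α)) (by
      rw [Finset.card_univ, ← Nat.card_eq_fintype_card, ← Nat.card_eq_fintype_card, hαβ])
    (s := Finset.univ.filter Q) (f := fun b => if h : Q b then (g ⟨b, h⟩).1 else e0 b)
    (Finset.subset_univ _) (by
      intro b hb c hc hbc
      have hb' : Q b := by simpa using hb
      have hc' : Q c := by simpa using hc
      simp only [dif_pos hb', dif_pos hc'] at hbc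
      exact congrArg Subtype.val (g.injective (Subtype.ext hbc)))
  let G' : β ≃ α := G.trans (Equiv.subtypeUnivEquiv (fun x => Finset.mem_univ x))
  refine ⟨G'.symm, ?_⟩
  intro a hP hQ
  apply hP
  have h1 := hG (G'.symm a) (by simpa using hQ)
  have h2 : ((G (G'.symm a) : (Finset.univ : Finset α)) : α) = a := G'.apply_symm_apply a
  rw [h2, dif_pos hQ] at h1
  rw [h1]
  exact (g _).2

theorem Typ.TCnt_card (x : V) (E : Set V) (hE : E ⊆ H.neighborSet x) (θ : ℕ) :
    Nat.card {z : {z : H.neighborSet x // T.dt x z.1 = θ} // z.1.1 ∈ E} = T.cp x E θ := by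
  unfold Typ.cp Set.ncard
  exact Nat.card_congr ⟨fun z => ⟨z.1.1.1, z.2, z.1.2⟩, fun y => ⟨⟨⟨y.1, hE y.2.1⟩, y.2.2⟩, y.2.1⟩,
    fun z => rfl, fun y => rfl⟩

theorem Typ.choose [Finite V] {a x : V} {E F : Set V} (hv : T.vt a = T.vt x)
    (hE : E ⊆ H.neighborSet x) (hF : F ⊆ H.neighborSet a)
    (hc : ∀ θ, T.cp x E θ ≤ T.cp a F θ) :
    ∃ σ : H.neighborSet a ≃ H.neighborSet x, T.St a x σ ∧
      ∀ c (h : H.Adj a c), c ∉ F → (σ ⟨c, h⟩).1 ∉ E := by
  classical
  have key : ∀ θ, ∃ e : {z : H.neighborSet a // T.dt a z.1 = θ} ≃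
      {z : H.neighborSet x // T.dt x z.1 = θ}, ∀ z, z.1.1 ∉ F → (e z).1.1 ∉ E := by
    intro θ
    refine TCnt_ext (fun z : {z : H.neighborSet a // T.dt a z.1 = θ} => z.1.1 ∈ F)
      (fun z : {z : H.neighborSet x // T.dt x z.1 = θ} => z.1.1 ∈ E) ?_ ?_
    · have e1 : {z : H.neighborSet a // T.dt a z.1 = θ} ≃ ↥(H.neighborSet a ∩ {y | T.dt a y = θ}) :=
        Equiv.subtypeSubtypeEquivSubtypeInter (fun z => z ∈ H.neighborSet a) (fun z => T.dt a z = θ)
      have e2 : {z : H.neighborSet x // T.dt x z.1 = θ} ≃ ↥(H.neighborSet x ∩ {y | T.dt x y = θ}) :=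
        Equiv.subtypeSubtypeEquivSubtypeInter (fun z => z ∈ H.neighborSet x) (fun z => T.dt x z = θ)
      rw [Nat.card_congr e1, Nat.card_congr e2]
      exact T.star a x hv θ
    · rw [T.TCnt_card x E hE θ, T.TCnt_card a F hF θ]
      exact hc θ
  choose e he using key
  refine ⟨Equiv.ofFiberEquiv (f := fun z : H.neighborSet a => T.dt a z.1)
    (g := fun z : H.neighborSet x => T.dt x z.1) e, ?_, ?_⟩
  · intro z
    exact (Equiv.ofFiberEquiv_map e z).symm
  · intro c h hcF
    exact he (T.dt a c) ⟨⟨c, h⟩, rfl⟩ hcF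

theorem Typ.star_last [Finite V] {x x' : V} (hv : T.vt x = T.vt x')
    (φ : H.neighborSet x → H.neighborSet x') (hφ : Function.Injective φ) (z0 : H.neighborSet x)
    (h : ∀ z, z ≠ z0 → T.dt x z.1 = T.dt x' (φ z).1) : T.dt x z0.1 = T.dt x' (φ z0).1 := by
  classical
  obtain ⟨φ0, hφ0⟩ := T.star_equiv0 hv
  by_contra hne
  set ψ : H.neighborSet x → H.neighborSet x := fun z => φ0.symm (φ z) with hψ
  have hψi : Function.Injective ψ := φ0.symm.injective.comp hφ
  have hψs : Function.Surjective ψ := Finite.injective_iff_surjective.1 hψi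
  set S : Set (H.neighborSet x) := {z | T.dt x z.1 = T.dt x z0.1} with hS
  have hd : ∀ z, T.dt x (ψ z).1 = T.dt x' (φ z).1 := by
    intro z
    rw [hφ0 (ψ z)]
    simp only [hψ, Equiv.apply_symm_apply]
  have h1 : (ψ ⁻¹' S).ncard = S.ncard :=
    Set.ncard_preimage_of_injective_subset_range hψi (by
      rw [hψs.range_eq]
      exact Set.subset_univ _)
  have h2 : ψ ⁻¹' S = S \ {z0} := by
    ext z
    simp only [hS, Set.mem_preimage, Set.mem_setOf_eq, Set.mem_diff, Set.mem_singleton_iff]
    rw [hd]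
    constructor
    · intro h3
      have h4 : z ≠ z0 := by
        rintro rfl
        exact hne h3.symm
      exact ⟨by rw [h z h4, h3], h4⟩
    · rintro ⟨h3, h4⟩
      rw [← h z h4, h3]
  have h3 : z0 ∈ S := rfl
  have h4 := Set.ncard_diff_singleton_add_one h3 (Set.toFinite S)
  rw [← h2, h1] at h4
  omega

end Pool.Agent.LHB
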