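import Pool.Agent.LHB.Defs
import Pool.Agent.LHB.TBas
import Pool.Agent.LHB.TCnt
import Pool.Agent.LHB.KGr
import Pool.Agent.LHA.TreeBall

/-!
# Types are preserved at the root

Write `S(u)`: `T.vt (f u) = T.vt (p u.1)` and `T.dt (f u) (f v) = T.dt (p u.1) (p v.1)` for all `v` adjacent to `u` in `KP B F`.
A node `l` of the ball has the parent `l0` if `G.Adj (e l0) (e l)`, `sw (e l0) (e l) l0 = l`, `d l = d l0 + 1`.
Claim: `S (e l, l)` for all `l` which are the root or have a parent. Induction on `R - d l`. If `d l = R`: `kdep (e l, l) = R`, use `ho`.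
Let `d l < R`, `u = (e l, l)`.
(1) If `c ∼ e l` and `l' = sw (e l) c l` satisfies `d l' = d l + 1` then `l' ≠ l`, `e l' = c` (`sw_e`), `l'` has the parent `l`,
so `S (c, l')`. If `v = (c, l')` is adjacent to `u` in `KP B F` this gives `T.dt (f v) (f u) = T.dt (p c) (p u.1)` and by `rev`
(all are edges) `T.vt (f u) = T.vt (p u.1)` and `T.dt (f u) (f v) = T.dt (p u.1) (p v.1)`. Call such `v` a child.
(2) `l = root`: every `v` adjacent to `u = kro B` is a child: `KG_ro` and `root_child`; there is at least one by `hF`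
(with `v = (q, sw r q root)`). So `S (kro B)`.
(3) `l` has a parent `l0`: `field child` gives a `c` with `d (sw (e l) c l) = d l + 1`; this `v = (c, sw (e l) c l)` is adjacent to `u`:
not cut because `u ≠ kro B` (`d l ≥ 1`), `v ≠ kro B` (`d v.2 = d l + 1 ≥ 1`). So `T.vt (f u) = T.vt (p u.1)`. For `c' ∼ e l`,
`c' ≠ e l0`: by `up` (for `l0`, `c := e l`; rewrite `sw (e l0) (e l) l0 = l`) `sw (e l) c' l = l` or `d (sw (e l) c' l) = d l0 + 2 = d l + 1`;
the first is excluded by `full`. So all neighbours over `c' ≠ e l0` are children (and present). Let `v0` be adjacent to `u` with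
`v0.1 = e l0`. Then all the neighbours `(c', sw (e l) c' l)`, `c' ∼ e l`, are present; apply `Typ.star_last` with
`x = p u.1`, `x' = f u`: for `z ∈ N(p u.1)` let `c' ∼ e l` be the vertex with `p c' = z` (`hp`: unique) and `φ z = f (c', sw (e l) c' l)`
(injective by `hf`), `z0 = p v0.1`.
-/

namespace Pool.Agent.LHB

open Pool.Agent.LIH Pool.Agent.LHA

/-- types are preserved at `u` -/
def TInw_S {V W : Type} {H : SimpleGraph V} (T : Typ H) {G : SimpleGraph W} {r : W} {R : ℕ}
    (B : Ball G r R) (p : W → V) (F : Set W) (f : KV B → V) (u : KV B) : Prop :=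
  T.vt (f u) = T.vt (p u.1) ∧ ∀ v, (KP B F).Adj u v → T.dt (f u) (f v) = T.dt (p u.1) (p v.1)

/-- `l` is the root or has a parent -/
def TInw_P {W : Type} {G : SimpleGraph W} {r : W} {R : ℕ} (B : Ball G r R) (l : B.I) : Prop :=
  l = B.root ∨ ∃ l0, G.Adj (B.e l0) (B.e l) ∧ B.sw (B.e l0) (B.e l) l0 = l ∧ B.d l = B.d l0 + 1

theorem TInw_child_e {W : Type} {G : SimpleGraph W} {r : W} {R : ℕ} (B : Ball G r R) {l : B.I} {c : W}
    (hc : G.Adj (B.e l) c) (hd : B.d (B.sw (B.e l) c l) = B.d l + 1) : B.e (B.sw (B.e l) c l) = c := by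
  have hne : B.sw (B.e l) c l ≠ l := by
    intro h
    rw [h] at hd
    omega
  rcases B.sw_e (B.e l) c l hc hne with ⟨-, h⟩ | ⟨h, -⟩
  · exact h
  · exact absurd h hc.ne

theorem TInw_step {V W : Type} {H : SimpleGraph V} (T : Typ H) {G : SimpleGraph W} {r : W}
    {R : ℕ} (B : Ball G r R) (p : W → V) (hp : LocInj G H p) (F : Set W)
    (f : KV B → V) (hf : LocInj (KP B F) H f) {u v : KV B} (huv : (KP B F).Adj u v)
    (hS : TInw_S T B p F f v) : T.vt (f u) = T.vt (p u.1) ∧ T.dt (f u) (f v) = T.dt (p u.1) (p v.1) := by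
  have h1 : H.Adj (f v) (f u) := hf.1 v u huv.symm
  have h0 : G.Adj v.1 u.1 := by
    have := ((KP_adj B F u v).1 huv).1.1
    exact this.symm
  have h2 : H.Adj (p v.1) (p u.1) := hp.1 _ _ h0
  have h3 := hS.2 u huv.symm
  obtain ⟨-, h4⟩ := T.rev _ _ _ _ h1 h2 h3
  obtain ⟨h5, -⟩ := T.rev _ _ _ _ h1.symm h2.symm h4
  exact ⟨h5, h4⟩

theorem TInw_main {V W : Type} [Finite V] {H : SimpleGraph V} (T : Typ H) {G : SimpleGraph W} {r : W}
    {R : ℕ} (B : Ball G r R) (hR : 2 ≤ R) (p : W → V) (hp : Cov G H p) (F : Set W)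
    (hF : ∃ q, G.Adj r q ∧ q ∉ F) (f : KV B → V) (hf : LocInj (KP B F) H f)
    (ho : ∀ u, kdep B u = R → TInw_S T B p F f u) :
    ∀ k l, TInw_P B l → R - B.d l = k → TInw_S T B p F f (B.e l, l) := by
  intro k
  induction k with
  | zero =>
    intro l _ hk
    apply ho
    unfold kdep
    rw [if_pos rfl]
    have := B.d_le l
    show B.d l = R
    omega
  | succ k ih =>
    intro l hl hk
    have hdl : B.d l < R := by omega
    -- children
    have hch : ∀ c, G.Adj (B.e l) c → B.d (B.sw (B.e l) c l) = B.d l + 1 →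
        TInw_S T B p F f (c, B.sw (B.e l) c l) := by
      intro c hc hd
      have he := TInw_child_e B hc hd
      have h1 := ih (B.sw (B.e l) c l) (Or.inr ⟨l, by rw [he]; exact hc, by rw [he], hd⟩) (by omega)
      rw [he] at h1
      exact h1
    rcases hl with hl | ⟨l0, h01, h02, h03⟩
    · subst hl
      have hr : B.e B.root = r := B.e_root
      have hk0 : (B.e B.root, B.root) = kro B := by
        unfold kro
        rw [hr]
      have hkey : ∀ v, (KP B F).Adj (kro B) v →
          T.vt (f (kro B)) = T.vt (p (kro B).1) ∧ T.dt (f (kro B)) (f v) = T.dt (p (kro B).1) (p v.1) := by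
        intro v hv
        obtain ⟨h1, h2, h3⟩ := (KG_ro B F v).1 hv
        have h4 : B.d (B.sw (B.e B.root) v.1 B.root) = B.d B.root + 1 := by
          rw [hr, B.root_child v.1 h1, B.d_root]
        have h5 := hch v.1 (by rw [hr]; exact h1) h4
        rw [hr, ← h3] at h5
        exact TInw_step T B p hp.1 F f hf hv h5
      rw [hk0]
      obtain ⟨q, hq1, hq2⟩ := hF
      have hq : (KP B F).Adj (kro B) (q, B.sw r q B.root) := (KG_ro B F _).2 ⟨hq1, hq2, rfl⟩
      exact ⟨(hkey _ hq).1, fun v hv => (hkey v hv).2⟩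
    · -- `l` has the parent `l0`
      have hu : (B.e l, l) ≠ kro B := by
        intro h
        have h1 : l = B.root := congrArg Prod.snd h
        rw [h1, B.d_root] at h03
        omega
      have hadj : ∀ c, G.Adj (B.e l) c → B.d (B.sw (B.e l) c l) = B.d l + 1 →
          (KP B F).Adj (B.e l, l) (c, B.sw (B.e l) c l) := by
        intro c hc hd
        rw [KP_adj]
        refine ⟨⟨hc, rfl⟩, ?_⟩
        rintro (⟨h, -⟩ | ⟨h, -⟩)
        · exact hu h
        · have h1 : B.sw (B.e l) c l = B.root := congrArg Prod.snd h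
          rw [h1, B.d_root] at hd
          omega
      have hfact : ∀ c, G.Adj (B.e l) c → B.d (B.sw (B.e l) c l) = B.d l + 1 →
          T.vt (f (B.e l, l)) = T.vt (p (B.e l)) ∧
          T.dt (f (B.e l, l)) (f (c, B.sw (B.e l) c l)) = T.dt (p (B.e l)) (p c) := by
        intro c hc hd
        exact TInw_step T B p hp.1 F f hf (hadj c hc hd) (hch c hc hd)
      have hother : ∀ c, G.Adj (B.e l) c → c ≠ B.e l0 → B.d (B.sw (B.e l) c l) = B.d l + 1 := by
        intro c hc hne
        have h1 := B.up (B.e l) l0 h01 (by rw [h02]; exact h03) c hc hne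
        rw [h02] at h1
        rcases h1 with h1 | h1
        · exact absurd h1 (B.full c l hc hdl)
        · omega
      obtain ⟨c0, hc0, hd0⟩ := B.child l hdl
      have hvt := (hfact c0 hc0 hd0).1
      refine ⟨hvt, ?_⟩
      intro v hv
      obtain ⟨hv1, hv2⟩ := ((KP_adj B F _ _).1 hv).1
      have hv1' : G.Adj (B.e l) v.1 := hv1
      have hv2' : v.2 = B.sw (B.e l) v.1 l := hv2
      have hvv : v = (v.1, B.sw (B.e l) v.1 l) := Prod.ext rfl hv2'
      show T.dt (f (B.e l, l)) (f v) = T.dt (p (B.e l)) (p v.1)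
      by_cases hc : v.1 = B.e l0
      · -- the parent
        have hg : ∀ z : H.neighborSet (p (B.e l)), ∃ c, G.Adj (B.e l) c ∧ p c = z.1 :=
          fun z => hp.2 (B.e l) z.1 z.2
        choose g hg1 hg2 using hg
        have hga : ∀ z, (KP B F).Adj (B.e l, l) (g z, B.sw (B.e l) (g z) l) := by
          intro z
          by_cases hz : g z = B.e l0
          · rw [hz, ← hc, ← hvv]
            exact hv
          · exact hadj _ (hg1 z) (hother _ (hg1 z) hz)
        have h := T.star_last (x := p (B.e l)) (x' := f (B.e l, l)) hvt.symm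
          (fun z => ⟨f (g z, B.sw (B.e l) (g z) l), hf.1 _ _ (hga z)⟩) ?_
          ⟨p v.1, hp.1.1 _ _ hv1'⟩ ?_
        · have hz0 : g ⟨p v.1, hp.1.1 _ _ hv1'⟩ = v.1 :=
            hp.1.2 (B.e l) (hg1 _) hv1' (hg2 _)
          have h' : T.dt (p (B.e l)) (p v.1) = T.dt (f (B.e l, l))
              (f (g ⟨p v.1, hp.1.1 _ _ hv1'⟩, B.sw (B.e l) (g ⟨p v.1, hp.1.1 _ _ hv1'⟩) l)) := h
          rw [hz0, ← hvv] at h'
          exact h'.symm
        · intro z z' hzz
          have h1 : f (g z, B.sw (B.e l) (g z) l) = f (g z', B.sw (B.e l) (g z') l) := congrArg Subtype.val hzz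
          have h2 := hf.2 (B.e l, l) (hga z) (hga z') h1
          have h3 : g z = g z' := congrArg Prod.fst h2
          apply Subtype.ext
          rw [← hg2 z, ← hg2 z', h3]
        · intro z hz
          have hz1 : g z ≠ B.e l0 := by
            intro h1
            apply hz
            apply Subtype.ext
            show z.1 = p v.1
            rw [← hg2 z, h1, hc]
          have h2 := (hfact (g z) (hg1 z) (hother _ (hg1 z) hz1)).2
          rw [hg2 z] at h2
          exact h2.symm
      · have h1 := (hfact v.1 hv1' (hother _ hv1' hc)).2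
        rw [← hvv] at h1
        exact h1

theorem tinw {V W : Type} [Finite V] {H : SimpleGraph V} (T : Typ H) {G : SimpleGraph W} {r : W}
    {R : ℕ} (B : Ball G r R) (hR : 2 ≤ R) (p : W → V) (hp : Cov G H p) (F : Set W)
    (hF : ∃ q, G.Adj r q ∧ q ∉ F) (f : KV B → V) (hf : LocInj (KP B F) H f)
    (ho : ∀ u, kdep B u = R → T.vt (f u) = T.vt (p u.1) ∧
      ∀ v, (KP B F).Adj u v → T.dt (f u) (f v) = T.dt (p u.1) (p v.1)) :
    T.vt (f (kro B)) = T.vt (p r) ∧
      ∀ v, (KP B F).Adj (kro B) v → T.dt (f (kro B)) (f v) = T.dt (p r) (p v.1) := by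
  have h := TInw_main T B hR p hp F hF f hf ho (R - B.d B.root) B.root (Or.inl rfl) rfl
  have hk0 : (B.e B.root, B.root) = kro B := by
    unfold kro
    rw [B.e_root]
  rw [hk0] at h
  exact h

end Pool.Agent.LHB
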