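import Pool.Agent.LHB.Defs
import Pool.Agent.LHB.TBas
import Pool.Agent.LHB.TCnt
import Pool.Agent.LHB.KGr
import Pool.Agent.LHB.TInw
import Pool.Agent.LHA.TreeBall

/-!
# Flexible pins exist

Let `n, G, r, p` be as in `hm`, `R0` as in `ho`, `R = max R0 2`. `G` has all degrees at least 2 (`p` maps the neighbours of `q`
bijectively onto those of `p q`). `B` from `ball_exists` (for `G`, `r`, `R`). `F' = {q | p q ∈ F}`, `P = KP B F'` on the finite type
`KV B` (`B.fin`), transported to `Fin n'` (`Finite.exists_equiv_fin`, `SimpleGraph.comap`), root `kro B`. There is `c ∈ N(a) \ F`, and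
`q ∼ r` with `p q = c`: `hF` of `tinw`.
Flexibility: given `x, E`: `Typ.choose` gives `σ` (note `F ⊆ N(a)`) and `hm` gives `f` with `Cov G H f`, `f r = x`. The map
`u ↦ f u.1` is locally injective (`KG_li`). If `v` is adjacent to `kro B` then (`KG_ro`) `G.Adj r v.1`, `p v.1 ∉ F`, so
`f v.1 = σ (p v.1) ∉ E`.
Force: let `f` be locally injective on `P`. `KG_dp`, `ho` (with `W = KV B`, `R0 ≤ R`) and `tinw` give `T.vt (f (kro B)) = T.vt a` and
`T.dt (f (kro B)) (f v) = T.dt a (p v.1)` for the neighbours `v`. Let `E ⊆ N(f (kro B))` be avoided by the values of the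
neighbours, `x = f (kro B)`. For `θ` the sets `E ∩ {dt x = θ}` and `I = {f v | v ∼ kro B, T.dt x (f v) = θ}` are disjoint
subsets of `N(x) ∩ {dt x = θ}`, which has `|N(a) ∩ {dt a = θ}|` elements (`star`), and `|I|` = number of neighbours `v` with
`T.dt a (p v.1) = θ` (`f` injective on the neighbours) `= |(N(a) \ F) ∩ {dt a = θ}|` (`v ↦ p v.1` is a bijection from the
neighbours of `kro B` to `N(a) \ F`). So `|E ∩ ..| ≤ |F ∩ {dt a = θ}|`.
-/

namespace Pool.Agent.LHB

open Pool.Agent.LIH Pool.Agent.LHA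

theorem FPinM_comap {V W W' : Type} {H : SimpleGraph V} {P : SimpleGraph W} (e : W' ≃ W)
    {f : W → V} (hf : LocInj P H f) : LocInj (P.comap e) H (f ∘ e) := by
  constructor
  · intro u v h
    exact hf.1 _ _ h
  · intro v x hx y hy hxy
    exact e.injective (hf.2 (e v) hx hy hxy)

theorem FPinM_comap' {V W W' : Type} {H : SimpleGraph V} {P : SimpleGraph W} (e : W' ≃ W)
    {f : W' → V} (hf : LocInj (P.comap e) H f) : LocInj P H (f ∘ e.symm) := by
  constructor
  · intro u v h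
    refine hf.1 _ _ ?_
    rw [SimpleGraph.comap_adj, e.apply_symm_apply, e.apply_symm_apply]
    exact h
  · intro v x hx y hy hxy
    refine e.symm.injective (hf.2 (e.symm v) ?_ ?_ hxy)
    · rw [SimpleGraph.mem_neighborSet, SimpleGraph.comap_adj, e.apply_symm_apply,
        e.apply_symm_apply]
      exact hx
    · rw [SimpleGraph.mem_neighborSet, SimpleGraph.comap_adj, e.apply_symm_apply,
        e.apply_symm_apply]
      exact hy

theorem FPinM_deg {V W : Type} [Finite V] [Finite W] {H : SimpleGraph V}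
    (h2 : ∀ v, 2 ≤ (H.neighborSet v).ncard) {G : SimpleGraph W} {p : W → V} (hp : Cov G H p)
    (q : W) : 2 ≤ (G.neighborSet q).ncard := by
  have h1 : H.neighborSet (p q) ⊆ p '' G.neighborSet q := by
    intro y hy
    obtain ⟨v, hv, e⟩ := hp.2 q y hy
    exact ⟨v, hv, e⟩
  calc 2 ≤ (H.neighborSet (p q)).ncard := h2 _
    _ ≤ (p '' G.neighborSet q).ncard := Set.ncard_le_ncard h1 (Set.toFinite _)
    _ ≤ (G.neighborSet q).ncard := Set.ncard_image_le (Set.toFinite _)

theorem fpin_exists {V : Type} [Finite V] {H : SimpleGraph V}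
    (h2 : ∀ v, 2 ≤ (H.neighborSet v).ncard) (T : Typ H) (ho : TOut T) {a : V} (hm : MCov T a)
    {F : Set V} (hF : F ⊂ H.neighborSet a) : FPin T a F := by
  obtain ⟨n, G, r, p, hp, hpr, hfl⟩ := hm
  obtain ⟨R0, ho⟩ := ho
  have hR1 : 1 ≤ max R0 2 := le_trans (by norm_num) (le_max_right R0 2)
  have hR2 : 2 ≤ max R0 2 := le_max_right R0 2
  obtain ⟨B⟩ := ball_exists (FPinM_deg h2 hp) r (max R0 2) hR1
  haveI := B.fin
  set F' : Set (Fin n) := {q | p q ∈ F} with hF'
  obtain ⟨c, hc, hcF⟩ := Set.exists_of_ssubset hF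
  have hex : ∃ q, G.Adj r q ∧ q ∉ F' := by
    obtain ⟨q, hq, e⟩ := hp.2 r c (by rw [hpr]; exact hc)
    refine ⟨q, hq, ?_⟩
    rw [hF', Set.mem_setOf_eq, e]
    exact hcF
  -- flexibility
  have hflex : ∀ (x : V) (E : Set V), T.vt x = T.vt a → E ⊆ H.neighborSet x →
      (∀ θ, T.cp x E θ ≤ T.cp a F θ) →
      ∃ f : KV B → V, LocInj (KP B F') H f ∧ f (kro B) = x ∧
        ∀ v, (KP B F').Adj (kro B) v → f v ∉ E := by
    intro x E hv hE hcp
    obtain ⟨σ, hσ, hσE⟩ := T.choose hv.symm hE hF.subset hcp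
    obtain ⟨f, hf, hfr, hfq⟩ := hfl x σ hv.symm hσ
    refine ⟨fun u => f u.1, KG_li B hf.1 F', hfr, ?_⟩
    intro v hv
    obtain ⟨h1, h3, -⟩ := (KG_ro B F' v).1 hv
    have h4 : H.Adj a (p v.1) := by
      rw [← hpr]
      exact hp.1.1 _ _ h1
    change f v.1 ∉ E
    rw [hfq v.1 h4 h1]
    exact hσE _ h4 h3
  have hforce : ∀ f : KV B → V, LocInj (KP B F') H f → T.vt (f (kro B)) = T.vt a ∧
      ∀ E ⊆ H.neighborSet (f (kro B)), (∀ q, (KP B F').Adj (kro B) q → f q ∉ E) →
        ∀ θ, T.cp (f (kro B)) E θ ≤ T.cp a F θ := by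
    intro f hf
    have D := KG_dp B hR2 hp F'
    have key := tinw T B hR2 p hp F' hex f hf (fun u hu => by
      refine ho (KV B) inferInstance (KP B F') (fun u => p u.1) (kdep B) D f hf u ?_
      rw [hu]
      exact le_max_left _ _)
    rw [hpr] at key
    obtain ⟨k1, k2⟩ := key
    refine ⟨k1, ?_⟩
    intro E hE hav θ
    unfold Typ.cp
    have hst := T.star (f (kro B)) a k1 θ
    set A : Set V := H.neighborSet (f (kro B)) ∩ {y | T.dt (f (kro B)) y = θ} with hA
    set A' : Set V := H.neighborSet a ∩ {y | T.dt a y = θ} with hA'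
    set E1 : Set V := E ∩ {y | T.dt (f (kro B)) y = θ} with hE1
    set F1 : Set V := F ∩ {y | T.dt a y = θ} with hF1
    have s1 : E1 ⊆ A := fun y hy => ⟨hE hy.1, hy.2⟩
    have s2 : F1 ⊆ A' := fun y hy => ⟨hF.subset hy.1, hy.2⟩
    set N : Set (KV B) := (KP B F').neighborSet (kro B) ∩ {v | T.dt a (p v.1) = θ} with hN
    have i1 : (A' \ F1) ⊆ (fun v : KV B => p v.1) '' N := by
      rintro y ⟨hy1, hy2⟩
      have hyF : y ∉ F := fun h => hy2 ⟨h, hy1.2⟩
      obtain ⟨q, hq, e⟩ := hp.2 r y (by rw [hpr]; exact hy1.1)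
      refine ⟨(q, B.sw r q B.root), ⟨?_, ?_⟩, e⟩
      · rw [SimpleGraph.mem_neighborSet, KG_ro]
        refine ⟨hq, ?_, rfl⟩
        rw [hF', Set.mem_setOf_eq, e]
        exact hyF
      · change T.dt a (p q) = θ
        rw [e]
        exact hy1.2
    have i2 : f '' N ⊆ A \ E1 := by
      rintro y ⟨v, ⟨hv1, hv2⟩, rfl⟩
      refine ⟨⟨hf.1 _ _ hv1, ?_⟩, ?_⟩
      · change T.dt (f (kro B)) (f v) = θ
        rw [k2 v hv1]
        exact hv2
      · intro h
        exact hav v hv1 h.1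
    have i3 : (A' \ F1).ncard ≤ (A \ E1).ncard := by
      calc (A' \ F1).ncard ≤ ((fun v : KV B => p v.1) '' N).ncard :=
            Set.ncard_le_ncard i1 (Set.toFinite _)
        _ ≤ N.ncard := Set.ncard_image_le (Set.toFinite _)
        _ = (f '' N).ncard := (Set.ncard_image_of_injOn (fun x hx y hy h =>
            hf.2 (kro B) hx.1 hy.1 h)).symm
        _ ≤ (A \ E1).ncard := Set.ncard_le_ncard i2 (Set.toFinite _)
    have j1 := Set.ncard_sdiff_add_ncard_of_subset s1 (Set.toFinite _)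
    have j2 := Set.ncard_sdiff_add_ncard_of_subset s2 (Set.toFinite _)
    omega
  obtain ⟨n', ⟨e⟩⟩ := Finite.exists_equiv_fin (KV B)
  refine ⟨n', (KP B F').comap e.symm, e (kro B), ?_, ?_⟩
  · intro x E hv hE hcp
    obtain ⟨f, hf, hfx, hfE⟩ := hflex x E hv hE hcp
    refine ⟨f ∘ e.symm, FPinM_comap e.symm hf, ?_, ?_⟩
    · change f (e.symm (e (kro B))) = x
      rw [e.symm_apply_apply, hfx]
    · intro q hq
      rw [SimpleGraph.comap_adj, e.symm_apply_apply] at hq
      exact hfE _ hq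
  · intro f hf
    have hf' := FPinM_comap' e.symm hf
    rw [Equiv.symm_symm] at hf'
    obtain ⟨h1, h3⟩ := hforce _ hf'
    refine ⟨h1, ?_⟩
    intro E hE hav
    refine h3 E hE ?_
    intro q hq
    refine hav (e q) ?_
    rw [SimpleGraph.comap_adj, e.symm_apply_apply, e.symm_apply_apply]
    exact hq

end Pool.Agent.LHB
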