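import Pool.Agent.LHB.Defs

/-!
# Gluing

Compare `LHA/Glue.lean` (`glue_iff`).
(→) Let `f` be locally injective on `glue D.P D.r B att`, `c k y = f (k, inr y)`, `x l i = f (l, inl (r i))`. For every `l` the map
`z ↦ f (l, inl z)` is locally injective on `D.P`; `D.force` gives `vt`, and `cap` with
`E = {z | ∃ k y, att k y l i ∧ c k y = z}`: `E ⊆ N(x l i)` (edges), and the values of the neighbours `(l, inl q)`,
`D.P.Adj (r i) q`, are not in `E` (local injectivity at `(l, inl (r i))`). `hom`, `inj`, `adj` clear. `ne`: local injectivity at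
`(k, inr y)`. `ne'`: the same, with `r_inj`. `dis`: local injectivity at `(l, inl (r i))`.
(←) For every `l` take `p_l` from `D.flex` with `x l` and `E i = {z | ∃ k y, att k y l i ∧ c k y = z}` (`vt`, `adj`, `cap`).
`f (l, inl z) = p_l z`, `f (k, inr y) = c k y`. Edges: clear (`p_l (r i) = x l i`). Local injectivity at `(l, inl z)`: two neighbours
`inl`: `p_l`. One `inl q`, one `inr y`: `z = r i`, `p_l q ∉ E i`, `c k y ∈ E i`. Two `inr`: `z = r i = r i'`, `i = i'`, `dis`. At
`(k, inr y)`: two `inr`: `inj`; one `inr`, one `inl`: `ne`; two `inl`: `ne'`.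
-/

namespace Pool.Agent.LHB

open Pool.Agent.LIH Pool.Agent.LHA

theorem GlueW_inj {V W' : Type} {H : SimpleGraph V} {G : SimpleGraph W'} {f : W' → V}
    (hf : LocInj G H f) {v x y : W'} (hx : G.Adj v x) (hy : G.Adj v y) (h : f x = f y) : x = y :=
  hf.2 v (by simpa using hx) (by simpa using hy) h

theorem glueW_iff {V κ Y : Type} {H : SimpleGraph V} {T : Typ H} (D : Gd T) (B : SimpleGraph Y)
    (att : κ → Y → κ → Fin 4 → Prop) :
    (∃ f, LocInj (glue D.P D.r B att) H f) ↔
      ∃ (c : κ → Y → V) (x : κ → Fin 4 → V), GoodW T D.toCK.a D.toCK.F B att c x := by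
  constructor
  · rintro ⟨f, hf⟩
    have hP : ∀ l, LocInj D.P H (fun x => f (l, .inl x)) := by
      intro l
      refine ⟨fun u v huv => hf.1 _ _ ?_, ?_⟩
      · rw [glue_adj]; exact ⟨rfl, huv⟩
      · intro v x hx y hy hxy
        have hx' : (glue D.P D.r B att).Adj (l, .inl v) (l, .inl x) := by
          rw [glue_adj]; exact ⟨rfl, hx⟩
        have hy' : (glue D.P D.r B att).Adj (l, .inl v) (l, .inl y) := by
          rw [glue_adj]; exact ⟨rfl, hy⟩
        have := GlueW_inj hf hx' hy' hxy
        simpa using this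
    have hatt : ∀ {k y l i}, att k y l i →
        (glue D.P D.r B att).Adj (k, .inr y) (l, .inl (D.r i)) := by
      intro k y l i h
      rw [glue_adj]
      exact ⟨i, rfl, h⟩
    have hB : ∀ {k y y'}, B.Adj y y' → (glue D.P D.r B att).Adj (k, .inr y) (k, .inr y') := by
      intro k y y' h
      rw [glue_adj]
      exact ⟨rfl, h⟩
    refine ⟨fun k y => f (k, .inr y), fun l i => f (l, .inl (D.r i)), ?_, ?_, ?_, ?_, ?_, ?_, ?_,
      ?_⟩
    · intro k y y' h
      exact hf.1 _ _ (hB h)
    · intro k y y1 y2 h1 h2 h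
      have := GlueW_inj hf (hB h1) (hB h2) h
      simpa using this
    · intro l i
      exact (D.force _ (hP l) i).1
    · intro k y l i h
      exact (hf.1 _ _ (hatt h)).symm
    · intro l i θ
      refine (D.force _ (hP l) i).2 {z | ∃ k y, att k y l i ∧ f (k, .inr y) = z} ?_ ?_ θ
      · rintro z ⟨k, y, h, rfl⟩
        exact (hf.1 _ _ (hatt h)).symm
      · rintro q hq ⟨k, y, h, he⟩
        have hq2 : (glue D.P D.r B att).Adj (l, .inl (D.r i)) (l, .inl q) := by
          rw [glue_adj]; exact ⟨rfl, hq⟩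
        have := GlueW_inj hf hq2 (hatt h).symm he.symm
        simp at this
    · intro k y y' l i h h' he
      have := GlueW_inj hf (hB h) (hatt h') he
      simp at this
    · intro k y l i l' i' h h' he
      have := GlueW_inj hf (hatt h) (hatt h') he
      simp only [Prod.mk.injEq, Sum.inl.injEq] at this
      exact ⟨this.1, D.r_inj this.2⟩
    · intro l i k y k' y' h h' he
      have := GlueW_inj hf (hatt h).symm (hatt h').symm he
      simpa using this
  · rintro ⟨c, x, hc⟩
    have hflex : ∀ l, ∃ p : Fin D.n → V, LocInj D.P H p ∧ ∀ i, p (D.r i) = x l i ∧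
        ∀ q, D.P.Adj (D.r i) q → p q ∉ {z | ∃ k y, att k y l i ∧ c k y = z} := by
      intro l
      refine D.flex (x l) (fun i => {z | ∃ k y, att k y l i ∧ c k y = z}) (fun i => hc.vt l i) ?_
        (fun i θ => hc.cap l i θ)
      rintro i z ⟨k, y, h, rfl⟩
      exact hc.adj k y l i h
    choose p hp hpr using hflex
    refine ⟨fun z => match z with
      | (l, .inl x) => p l x
      | (k, .inr y) => c k y, ?_, ?_⟩
    · rintro ⟨k, x1 | x1⟩ ⟨l, y | y⟩ h <;> rw [glue_adj] at h
      · obtain ⟨h1, h2⟩ := h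
        subst h1
        exact (hp k).1 _ _ h2
      · obtain ⟨i, rfl, h⟩ := h
        show H.Adj (p k (D.r i)) (c l y)
        rw [(hpr k i).1]
        exact hc.adj _ _ _ _ h
      · obtain ⟨i, rfl, h⟩ := h
        show H.Adj (c k x1) (p l (D.r i))
        rw [(hpr l i).1]
        exact (hc.adj _ _ _ _ h).symm
      · obtain ⟨h1, h2⟩ := h
        subst h1
        exact hc.hom _ _ _ h2
    · rintro ⟨k, v | v⟩ ⟨k1, x1 | x1⟩ hx ⟨k2, y | y⟩ hy he
      · rw [SimpleGraph.mem_neighborSet, glue_adj] at hx hy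
        obtain ⟨hx1, hx2⟩ := hx
        obtain ⟨hy1, hy2⟩ := hy
        subst hx1 hy1
        have e := GlueW_inj (hp k) hx2 hy2 he
        subst e
        rfl
      · rw [SimpleGraph.mem_neighborSet, glue_adj] at hx hy
        obtain ⟨hx1, hx2⟩ := hx
        obtain ⟨i, hi, hi'⟩ := hy
        subst hi hx1
        exact ((hpr k i).2 x1 hx2 ⟨k2, y, hi', he.symm⟩).elim
      · rw [SimpleGraph.mem_neighborSet, glue_adj] at hx hy
        obtain ⟨hy1, hy2⟩ := hy
        obtain ⟨i, hi, hi'⟩ := hx
        subst hi hy1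
        exact ((hpr k i).2 y hy2 ⟨k1, x1, hi', he⟩).elim
      · rw [SimpleGraph.mem_neighborSet, glue_adj] at hx hy
        obtain ⟨i, hi, hi1⟩ := hx
        obtain ⟨j, hj, hj1⟩ := hy
        subst hi
        have e := D.r_inj hj
        subst e
        obtain ⟨e1, e2⟩ := hc.dis _ _ _ _ _ _ hi1 hj1 he
        subst e1 e2
        rfl
      · rw [SimpleGraph.mem_neighborSet, glue_adj] at hx hy
        obtain ⟨i, hi, hi1⟩ := hx
        obtain ⟨j, hj, hj1⟩ := hy
        subst hi hj
        change p k1 (D.r i) = p k2 (D.r j) at he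
        rw [(hpr k1 i).1, (hpr k2 j).1] at he
        obtain ⟨e1, e2⟩ := hc.ne' _ _ _ _ _ _ hi1 hj1 he
        subst e1 e2
        rfl
      · rw [SimpleGraph.mem_neighborSet, glue_adj] at hx hy
        obtain ⟨i, hi, hi1⟩ := hx
        obtain ⟨hy1, hy2⟩ := hy
        subst hi hy1
        change p k1 (D.r i) = c k y at he
        rw [(hpr k1 i).1] at he
        exact (hc.ne _ _ _ _ _ hy2 hi1 he.symm).elim
      · rw [SimpleGraph.mem_neighborSet, glue_adj] at hx hy
        obtain ⟨i, hi, hi1⟩ := hy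
        obtain ⟨hx1, hx2⟩ := hx
        subst hi hx1
        change c k x1 = p k2 (D.r i) at he
        rw [(hpr k2 i).1] at he
        exact (hc.ne _ _ _ _ _ hx2 hi1 he).elim
      · rw [SimpleGraph.mem_neighborSet, glue_adj] at hx hy
        obtain ⟨hx1, hx2⟩ := hx
        obtain ⟨hy1, hy2⟩ := hy
        subst hx1 hy1
        have e := hc.inj _ _ _ _ hx2 hy2 he
        subst e
        rfl

end Pool.Agent.LHB
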