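import Pool.Agent.LHB.Defs

/-!
# Indices

Elementary: `Bk K1 K2 > 0`; for `r < Bk`: `nod x o r % Bk = r`, `nod x o r / Bk = x (3Θ) + o` (`Nat.add_mul_mod_self_right`,
`Nat.add_mul_div_right`, commute), and for `o < 3Θ`: `(x (3Θ) + o) % (3Θ) = o`, `/ (3Θ) = x`. `nod_lt`:
`(x (3Θ) + o) Bk + r < (x (3Θ) + o + 1) Bk ≤ NV (3Θ) Bk`. `nod_ex`: `r = k % Bk`, `o = k / Bk % (3Θ)`, `x = k / Bk / (3Θ)`.
`lk0` ... `lkc`: unfold `lkN`, `lkC`, rewrite with the facts above (`k = nod x o r`); equations: `l + r % 2 = k` iff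
`l = nod x o (r - r % 2)`; `l + 1 = k` iff `l = nod x o (r - 1)` (`r > 0`); `l + Bk + 1 = k + 2 K2` with `r = 0`, `o > 0`:
`nod x o 0 = nod x (o-1) 0 + Bk`, so `l = nod x (o-1) (2 K2 - 1)`. `lkc`: `k / Bk < 3Θ` iff `x = 0` (`3Θ > 0` because `o < 3Θ`).
`lk_dom`: write `k = nod x o r`; use the iff lemmas and `nod_lt` (for `lkc`: `lt (o + i) < NV` since `o % 3 = 0`, `o < 3Θ`, so
`o + i < 3Θ`). `lk_fn`: each iff determines `l`.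
-/

namespace Pool.Agent.LHB

open Pool.Agent.LIH Pool.Agent.LHA

variable {K1 K2 NV Θ : ℕ}

theorem nod_mod (x o : ℕ) {r : ℕ} (hr : r < Bk K1 K2) : nod K1 K2 Θ x o r % Bk K1 K2 = r := by
  unfold nod
  rw [Nat.mul_add_mod', Nat.mod_eq_of_lt hr]

theorem nod_div (x o : ℕ) {r : ℕ} (hr : r < Bk K1 K2) :
    nod K1 K2 Θ x o r / Bk K1 K2 = x * (3 * Θ) + o := by
  unfold nod
  rw [Nat.mul_comm (x * (3 * Θ) + o), Nat.mul_add_div (by omega), Nat.div_eq_of_lt hr, Nat.add_zero]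

theorem nod_o (x : ℕ) {o r : ℕ} (ho : o < 3 * Θ) (hr : r < Bk K1 K2) :
    nod K1 K2 Θ x o r / Bk K1 K2 % (3 * Θ) = o := by
  rw [nod_div x o hr, Nat.mul_add_mod', Nat.mod_eq_of_lt ho]

theorem nod_x (x : ℕ) {o r : ℕ} (ho : o < 3 * Θ) (hr : r < Bk K1 K2) :
    nod K1 K2 Θ x o r / Bk K1 K2 / (3 * Θ) = x := by
  rw [nod_div x o hr, Nat.mul_comm x, Nat.mul_add_div (by omega), Nat.div_eq_of_lt ho, Nat.add_zero]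

theorem nod_inj {x o r x' o' r' : ℕ} (ho : o < 3 * Θ) (hr : r < Bk K1 K2) (ho' : o' < 3 * Θ)
    (hr' : r' < Bk K1 K2) (h : nod K1 K2 Θ x o r = nod K1 K2 Θ x' o' r') :
    x = x' ∧ o = o' ∧ r = r' := by
  refine ⟨?_, ?_, ?_⟩
  · rw [← nod_x x ho hr, h, nod_x x' ho' hr']
  · rw [← nod_o x ho hr, h, nod_o x' ho' hr']
  · rw [← nod_mod (Θ := Θ) x o hr, h, nod_mod x' o' hr']

theorem Idx_add (x o r : ℕ) : nod K1 K2 Θ x o r = nod K1 K2 Θ x o 0 + r := by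
  unfold nod; omega

theorem Idx_lt_aux {a N B r : ℕ} (ha : a < N) (hr : r < B) : a * B + r < N * B := by
  calc a * B + r < a * B + B := by omega
    _ = (a + 1) * B := by ring
    _ ≤ N * B := Nat.mul_le_mul_right _ ha

theorem nod_lt {x o r : ℕ} (hx : x < NV) (ho : o < 3 * Θ) (hr : r < Bk K1 K2) :
    nod K1 K2 Θ x o r < KN K1 K2 NV Θ :=
  Idx_lt_aux (Idx_lt_aux hx ho) hr

theorem nod_ex (hK : 0 < Bk K1 K2) {k : ℕ} (hk : k < KN K1 K2 NV Θ) :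
    ∃ x o r, x < NV ∧ o < 3 * Θ ∧ r < Bk K1 K2 ∧ k = nod K1 K2 Θ x o r := by
  unfold KN at hk
  have hΘ : 0 < 3 * Θ := by
    rcases Nat.eq_zero_or_pos (3 * Θ) with h | h
    · rw [h] at hk; simp at hk
    · exact h
  refine ⟨k / Bk K1 K2 / (3 * Θ), k / Bk K1 K2 % (3 * Θ), k % Bk K1 K2, ?_, Nat.mod_lt _ hΘ,
    Nat.mod_lt _ hK, ?_⟩
  · rw [Nat.div_lt_iff_lt_mul hΘ, Nat.div_lt_iff_lt_mul hK]
    exact hk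
  · unfold nod
    rw [Nat.div_add_mod', Nat.div_add_mod']

variable {lt : ℕ → ℕ} {x o r : ℕ}

theorem lk0_iff (hx : x < NV) (ho : o < 3 * Θ) (hr : r < Bk K1 K2) (l : ℕ) :
    lkN K1 K2 NV Θ lt 0 (nod K1 K2 Θ x o r) l ↔
      (r < 2 * K2 ∧ l = nod K1 K2 Θ x o (r - r % 2)) ∨
      (2 * K2 ≤ r ∧ r + 1 < Bk K1 K2 ∧ l = nod K1 K2 Θ x o r) := by
  have h1 := nod_lt hx ho hr
  show (nod K1 K2 Θ x o r < KN K1 K2 NV Θ ∧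
    ((nod K1 K2 Θ x o r % Bk K1 K2 < 2 * K2 ∧
      l + nod K1 K2 Θ x o r % Bk K1 K2 % 2 = nod K1 K2 Θ x o r) ∨
      (2 * K2 ≤ nod K1 K2 Θ x o r % Bk K1 K2 ∧ nod K1 K2 Θ x o r % Bk K1 K2 + 1 < Bk K1 K2 ∧
        l = nod K1 K2 Θ x o r))) ↔ _
  rw [nod_mod x o hr]
  have h2 : r % 2 ≤ r := Nat.mod_le _ _
  have e1 := Idx_add (K1 := K1) (K2 := K2) (Θ := Θ) x o r
  have e2 := Idx_add (K1 := K1) (K2 := K2) (Θ := Θ) x o (r - r % 2)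
  constructor
  · rintro ⟨-, ⟨h3, h4⟩ | ⟨h3, h4, h5⟩⟩
    · exact Or.inl ⟨h3, by omega⟩
    · exact Or.inr ⟨h3, h4, h5⟩
  · rintro (⟨h3, h4⟩ | ⟨h3, h4, h5⟩)
    · exact ⟨h1, Or.inl ⟨h3, by omega⟩⟩
    · exact ⟨h1, Or.inr ⟨h3, h4, h5⟩⟩

theorem Idx_pred {x o : ℕ} (ho : 0 < o) :
    nod K1 K2 Θ x o 0 = nod K1 K2 Θ x (o - 1) 0 + Bk K1 K2 := by
  obtain ⟨o, rfl⟩ : ∃ o', o = o' + 1 := ⟨o - 1, by omega⟩
  unfold nod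
  rw [Nat.add_sub_cancel]
  ring

theorem lk1_iff (hK2 : 0 < K2) (hx : x < NV) (ho : o < 3 * Θ) (hr : r < Bk K1 K2) (l : ℕ) :
    lkN K1 K2 NV Θ lt 1 (nod K1 K2 Θ x o r) l ↔ r < 2 * K2 ∧
      ((r % 2 = 1 ∧ l = nod K1 K2 Θ x o r) ∨ (r % 2 = 0 ∧ 0 < r ∧ l = nod K1 K2 Θ x o (r - 1)) ∨
        (r = 0 ∧ 0 < o ∧ l = nod K1 K2 Θ x (o - 1) (2 * K2 - 1)) ∨
        (r = 0 ∧ o = 0 ∧ l = nod K1 K2 Θ x o r)) := by
  have h1 := nod_lt hx ho hr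
  show (nod K1 K2 Θ x o r < KN K1 K2 NV Θ ∧ nod K1 K2 Θ x o r % Bk K1 K2 < 2 * K2 ∧
      ((nod K1 K2 Θ x o r % Bk K1 K2 % 2 = 1 ∧ l = nod K1 K2 Θ x o r) ∨
        (nod K1 K2 Θ x o r % Bk K1 K2 % 2 = 0 ∧ 0 < nod K1 K2 Θ x o r % Bk K1 K2 ∧
          l + 1 = nod K1 K2 Θ x o r) ∨
        (nod K1 K2 Θ x o r % Bk K1 K2 = 0 ∧ 0 < nod K1 K2 Θ x o r / Bk K1 K2 % (3 * Θ) ∧
          l + Bk K1 K2 + 1 = nod K1 K2 Θ x o r + 2 * K2) ∨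
        (nod K1 K2 Θ x o r % Bk K1 K2 = 0 ∧ nod K1 K2 Θ x o r / Bk K1 K2 % (3 * Θ) = 0 ∧
          l = nod K1 K2 Θ x o r))) ↔ _
  rw [nod_mod x o hr, nod_o x ho hr]
  have e1 := Idx_add (K1 := K1) (K2 := K2) (Θ := Θ) x o r
  have e2 := Idx_add (K1 := K1) (K2 := K2) (Θ := Θ) x o (r - 1)
  have e3 := Idx_add (K1 := K1) (K2 := K2) (Θ := Θ) x (o - 1) (2 * K2 - 1)
  constructor
  · rintro ⟨-, h3, h4⟩
    refine ⟨h3, ?_⟩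
    rcases h4 with h4 | ⟨h4, h5, h6⟩ | ⟨h4, h5, h6⟩ | h4
    · exact Or.inl h4
    · exact Or.inr (Or.inl ⟨h4, h5, by omega⟩)
    · have e4 := Idx_pred (K1 := K1) (K2 := K2) (Θ := Θ) (x := x) h5
      exact Or.inr (Or.inr (Or.inl ⟨h4, h5, by omega⟩))
    · exact Or.inr (Or.inr (Or.inr h4))
  · rintro ⟨h3, h4⟩
    refine ⟨h1, h3, ?_⟩
    rcases h4 with h4 | ⟨h4, h5, h6⟩ | ⟨h4, h5, h6⟩ | h4
    · exact Or.inl h4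
    · exact Or.inr (Or.inl ⟨h4, h5, by omega⟩)
    · have e4 := Idx_pred (K1 := K1) (K2 := K2) (Θ := Θ) (x := x) h5
      exact Or.inr (Or.inr (Or.inl ⟨h4, h5, by omega⟩))
    · exact Or.inr (Or.inr (Or.inr h4))

theorem lk2_iff (hx : x < NV) (ho : o < 3 * Θ) (hr : r < Bk K1 K2) (l : ℕ) :
    lkN K1 K2 NV Θ lt 2 (nod K1 K2 Θ x o r) l ↔ (r = 0 ∧ l = nod K1 K2 Θ x o (2 * K2)) ∨
      (2 * K2 ≤ r ∧ r + 1 < Bk K1 K2 ∧ l = nod K1 K2 Θ x o (r + 1)) := by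
  have h1 := nod_lt hx ho hr
  show (nod K1 K2 Θ x o r < KN K1 K2 NV Θ ∧
      ((nod K1 K2 Θ x o r % Bk K1 K2 = 0 ∧ l = nod K1 K2 Θ x o r + 2 * K2) ∨
      (2 * K2 ≤ nod K1 K2 Θ x o r % Bk K1 K2 ∧ nod K1 K2 Θ x o r % Bk K1 K2 + 1 < Bk K1 K2 ∧
        l = nod K1 K2 Θ x o r + 1))) ↔ _
  rw [nod_mod x o hr]
  have e1 := Idx_add (K1 := K1) (K2 := K2) (Θ := Θ) x o r
  have e2 := Idx_add (K1 := K1) (K2 := K2) (Θ := Θ) x o (r + 1)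
  have e3 := Idx_add (K1 := K1) (K2 := K2) (Θ := Θ) x o (2 * K2)
  constructor
  · rintro ⟨-, ⟨h3, h4⟩ | ⟨h3, h4, h5⟩⟩
    · exact Or.inl ⟨h3, by omega⟩
    · exact Or.inr ⟨h3, h4, by omega⟩
  · rintro (⟨h3, h4⟩ | ⟨h3, h4, h5⟩)
    · exact ⟨h1, Or.inl ⟨h3, by omega⟩⟩
    · exact ⟨h1, Or.inr ⟨h3, h4, by omega⟩⟩

theorem Idx_c (i : Fin 3) (k l : ℕ) : lkN K1 K2 NV Θ lt (ca i) k l ↔
    (k < KN K1 K2 NV Θ ∧ lkC K1 K2 Θ lt i.1 k l) := by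
  fin_cases i <;> exact Iff.rfl

theorem lkc_iff (i : Fin 3) (hx : x < NV) (ho : o < 3 * Θ) (hr : r < Bk K1 K2) (l : ℕ) :
    lkN K1 K2 NV Θ lt (ca i) (nod K1 K2 Θ x o r) l ↔ x = 0 ∧ r = 0 ∧ o % 3 = 0 ∧
      l = nod K1 K2 Θ (lt (o + i.1)) (o + i.1) (Bk K1 K2 - 1) := by
  have h1 := nod_lt hx ho hr
  rw [Idx_c]
  unfold lkC
  rw [nod_mod x o hr, nod_div x o hr]
  have hBk : 0 < Bk K1 K2 := by omega
  have key : ∀ a : ℕ, l + 1 = (a + 1) * Bk K1 K2 ↔ l = a * Bk K1 K2 + (Bk K1 K2 - 1) := by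
    intro a
    rw [Nat.add_mul, Nat.one_mul]
    omega
  constructor
  · rintro ⟨-, h3, h4, h5, h6⟩
    have hx0 : x = 0 := by
      by_contra hne
      have : 1 * (3 * Θ) ≤ x * (3 * Θ) := Nat.mul_le_mul_right _ (by omega)
      omega
    subst hx0
    rw [Nat.zero_mul, Nat.zero_add] at h5 h6
    exact ⟨rfl, h3, h5, (key _).1 h6⟩
  · rintro ⟨rfl, h3, h5, h6⟩
    rw [Nat.zero_mul, Nat.zero_add]
    exact ⟨h1, h3, ho, h5, (key _).2 h6⟩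

theorem Idx_q (q : Fin 6) : q = 0 ∨ q = 1 ∨ q = 2 ∨ ∃ i, q = ca i := by
  fin_cases q
  · exact Or.inl rfl
  · exact Or.inr (Or.inl rfl)
  · exact Or.inr (Or.inr (Or.inl rfl))
  · exact Or.inr (Or.inr (Or.inr ⟨0, rfl⟩))
  · exact Or.inr (Or.inr (Or.inr ⟨1, rfl⟩))
  · exact Or.inr (Or.inr (Or.inr ⟨2, rfl⟩))

theorem Idx_lt (q : Fin 6) (k l : ℕ) (h : lkN K1 K2 NV Θ lt q k l) : k < KN K1 K2 NV Θ := by
  rcases Idx_q q with rfl | rfl | rfl | ⟨i, rfl⟩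
  · exact h.1
  · exact h.1
  · exact h.1
  · exact ((Idx_c i k l).1 h).1

theorem lk_dom (hK1 : 0 < K1) (hK2 : 0 < K2) (hlt : ∀ o < 3 * Θ, lt o < NV) (q : Fin 6)
    (k l : ℕ) (h : lkN K1 K2 NV Θ lt q k l) : k < KN K1 K2 NV Θ ∧ l < KN K1 K2 NV Θ := by
  have hk := Idx_lt q k l h
  refine ⟨hk, ?_⟩
  have hB : Bk K1 K2 = 2 * K2 + K1 := rfl
  obtain ⟨x, o, r, hx, ho, hr, rfl⟩ := nod_ex (by omega) hk
  rcases Idx_q q with rfl | rfl | rfl | ⟨i, rfl⟩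
  · rcases (lk0_iff hx ho hr l).1 h with ⟨-, rfl⟩ | ⟨-, -, rfl⟩
    · exact nod_lt hx ho (by omega)
    · exact nod_lt hx ho hr
  · rcases (lk1_iff hK2 hx ho hr l).1 h with ⟨h1, ⟨-, rfl⟩ | ⟨-, -, rfl⟩ | ⟨-, -, rfl⟩ | ⟨-, -, rfl⟩⟩
    · exact nod_lt hx ho hr
    · exact nod_lt hx ho (by omega)
    · exact nod_lt hx (by omega) (by omega)
    · exact nod_lt hx ho hr
  · rcases (lk2_iff hx ho hr l).1 h with ⟨-, rfl⟩ | ⟨-, h2, rfl⟩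
    · exact nod_lt hx ho (by omega)
    · exact nod_lt hx ho h2
  · obtain ⟨-, -, h3, rfl⟩ := (lkc_iff i hx ho hr l).1 h
    have hi := i.2
    have ho' : o + i.1 < 3 * Θ := by omega
    exact nod_lt (hlt _ ho') ho' (by omega)

theorem lk_fn (hK1 : 0 < K1) (hK2 : 0 < K2) (q : Fin 6) (k l l' : ℕ)
    (h : lkN K1 K2 NV Θ lt q k l) (h' : lkN K1 K2 NV Θ lt q k l') : l = l' := by
  have hk := Idx_lt q k l h
  have hB : Bk K1 K2 = 2 * K2 + K1 := rfl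
  obtain ⟨x, o, r, hx, ho, hr, rfl⟩ := nod_ex (by omega) hk
  rcases Idx_q q with rfl | rfl | rfl | ⟨i, rfl⟩
  · rcases (lk0_iff hx ho hr l).1 h with ⟨h1, rfl⟩ | ⟨h1, h2, rfl⟩ <;>
      rcases (lk0_iff hx ho hr l').1 h' with ⟨h1', rfl⟩ | ⟨h1', h2', rfl⟩ <;>
      first | rfl | (exfalso; omega)
  · rcases (lk1_iff hK2 hx ho hr l).1 h with
      ⟨h1, ⟨h2, rfl⟩ | ⟨h2, h3, rfl⟩ | ⟨h2, h3, rfl⟩ | ⟨h2, h3, rfl⟩⟩ <;>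
      rcases (lk1_iff hK2 hx ho hr l').1 h' with
        ⟨h1', ⟨h2', rfl⟩ | ⟨h2', h3', rfl⟩ | ⟨h2', h3', rfl⟩ | ⟨h2', h3', rfl⟩⟩ <;>
      first | rfl | (exfalso; omega)
  · rcases (lk2_iff hx ho hr l).1 h with ⟨h1, rfl⟩ | ⟨h1, h2, rfl⟩ <;>
      rcases (lk2_iff hx ho hr l').1 h' with ⟨h1', rfl⟩ | ⟨h1', h2', rfl⟩ <;>
      first | rfl | (exfalso; omega)
  · obtain ⟨-, -, -, rfl⟩ := (lkc_iff i hx ho hr l).1 h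
    obtain ⟨-, -, -, rfl⟩ := (lkc_iff i hx ho hr l').1 h'
    rfl

end Pool.Agent.LHB
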