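import Pool.Agent.LHB.Defs
import Pool.Agent.LHB.CLx

/-!
# The colouring of a layout: edges

`c k y = W y.1 k (y.2.1 + 1)` (`cW`), `x l i = R l i` (`xR`). For `p < L q`: `c k (fv q p) = W q k (p + 1)`. `lay_en`:
`c k (en q) = W q k (L q)`: for `q ≠ 1` `en q = fv q m1`, `L q = m1 + 1`; for `q = 1`, `m2 > 0`: `fv 1 (m2 - 1)`; for `m2 = 0`: `fv 0 0`, value
`W 0 k 1 = W 1 k 0` (`st1`).
`lay_hom`: `B_cases`: consecutive vertices: `adj`; `(0,0), (1,0)`: `W 0 k 1 = W 1 k 0`, `adj 1 k 0`.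
`lay_inj`: two neighbours of `y` (`B_cases`): predecessor and successor: `nb`; for `(0,0)`: `(0,1)` with the value `W 0 k 2` and `(1,0)` with
the value `W 1 k 1`: `st1`; for `(1,0)`: `(0,0)` with the value `W 0 k 1 = W 1 k 0` and `(1,1)` with `W 1 k 2`: `nb`.
`lay_vt`: `i = 0`: `ty0` and `rev` (adjacent by `st0`, `adj`); `i = 3`: `R = X`; `vt1`, `vt2`.
`lay_adj`: starts: `R k 0 = W 0 k 0 = W 2 k 0`, `R k 3 = X = W q k 0`; ends: `lay_en` and `R l (sink q) = W q k (L q + 1)` (`en`).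
`lay_ne`: `B.Adj y y'`, `y` attached to `(l, i)`: start `y = fv q 0` (value of the root: `W q k 0`), `y' = fv q 1`: `nb`; `y = fv 0 0`, `y' = fv 1 0`: `st1`. End
`y = en q` (root: `W q k (L q + 1)`), `y'` the predecessor: `nb`; for `q ≠ 1`, `m1 = 0`, `q = 0`: `y = fv 0 0`, `y' = fv 1 0`: `W 1 k 1 ≠ W 0 k 2`
(`st1`); for `q = 1`, `m2 = 1`: `y = fv 1 0`, `y' = fv 0 0`: `W 1 k 0 ≠ W 1 k 2`; for `q = 1`, `m2 = 0`: `y = fv 0 0`, `y' = fv 0 1`: `W 0 k 2 ≠ W 1 k 1`.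
`lay_ne'`: `y` attached to `(l, i)` and `(l', i')` with the same root value: both starts: same (the two kinds of starts have
different `y`). Start and end: then `y = fv q 0`, `L q = 1` (or `y = fv 0 0 = en 1`, `m2 = 0`), values `W q k 0` and `W q k 2`: `nb` (or
`W 0 k 0` and `W 1 k 1`: `st1`). Two ends `en q = en q'`: `q = q'`: `fn`; `{q, q'} = {0, 1}` (`m1 = m2 = 0`): values `W 0 k 2`, `W 1 k 1`: `st1`.
-/

namespace Pool.Agent.LHB

open Pool.Agent.LIH Pool.Agent.LHA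

section LayBaux

variable {V : Type} {H : SimpleGraph V} {T : Typ H} (D : CK T)

theorem LayB_L0 : 0 < D.L 0 := by
  show 0 < D.m1 + 1
  omega

theorem LayB_Lp (q : Fin 6) (hq : q ≠ 1) : 0 < D.L q := by
  rw [(D.en_ne_one q hq).2]
  omega

theorem LayB_enc (q : Fin 6) :
    (q ≠ 1 ∧ D.en q = D.fv q D.m1 ∧ D.L q = D.m1 + 1 ∧ D.m1 < D.L q) ∨
    (q = 1 ∧ 0 < D.m2 ∧ D.en q = D.fv 1 (D.m2 - 1) ∧ D.L q = D.m2 ∧ D.m2 - 1 < D.L 1) ∨
    (q = 1 ∧ D.m2 = 0 ∧ D.en q = D.fv 0 0 ∧ D.L q = 0) := by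
  by_cases hq : q = 1
  · subst hq
    have e1 : D.en 1 = if D.m2 = 0 then D.fv 0 0 else D.fv 1 (D.m2 - 1) := rfl
    have e2 : D.L 1 = D.m2 := rfl
    rcases Nat.eq_zero_or_pos D.m2 with h | h
    · exact Or.inr (Or.inr ⟨rfl, h, by rw [e1, if_pos h], by rw [e2, h]⟩)
    · exact Or.inr (Or.inl ⟨rfl, h, by rw [e1, if_neg (by omega)], e2, by rw [e2]; omega⟩)
  · obtain ⟨h1, h2⟩ := D.en_ne_one q hq
    exact Or.inl ⟨hq, h1, h2, by omega⟩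

theorem LayB_cW (W : Fin 6 → ℕ → ℕ → V) {K : ℕ} (k : Fin K) (q : Fin 6) {p : ℕ}
    (hp : p < D.L q) : cW D W k (D.fv q p) = W q k.1 (p + 1) := by
  unfold cW
  rw [D.fv_val q hp]
  rfl

end LayBaux

variable {V : Type} {H : SimpleGraph V} {T : Typ H} {D : CK T} {K : ℕ}
  {lk : Fin 6 → ℕ → ℕ → Prop} {W : Fin 6 → ℕ → ℕ → V} {R : ℕ → Fin 4 → V} {bt : Fin 6 → ℕ → Bool}
  (hL : Lay D K lk W R bt)

include hL

theorem lay_en (k : Fin K) (q : Fin 6) : cW D W k (D.en q) = W q k.1 (D.L q) := by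
  rcases LayB_enc D q with ⟨-, h1, h2, h3⟩ | ⟨rfl, h0, h1, h2, h3⟩ | ⟨rfl, h0, h1, h2⟩
  · rw [h1, LayB_cW D W k q h3, h2]
  · rw [h1, LayB_cW D W k 1 h3, h2]
    congr 1
    omega
  · rw [h1, LayB_cW D W k 0 (LayB_L0 D), h2, (hL.st1 k.1 k.2).1]

theorem lay_hom (k : Fin K) (y y' : Fin 6 × Fin D.len) (h : D.B.Adj y y') :
    H.Adj (cW D W k y) (cW D W k y') := by
  rcases D.B_cases h with ⟨i, p, hp, rfl, rfl⟩ | ⟨i, p, hp, rfl, rfl⟩ | ⟨hm, rfl, rfl⟩ |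
    ⟨hm, rfl, rfl⟩
  · rw [LayB_cW D W k i hp, LayB_cW D W k i (by omega)]
    exact hL.adj i k.1 (p + 1) k.2
  · rw [LayB_cW D W k i hp, LayB_cW D W k i (by omega)]
    exact (hL.adj i k.1 (p + 1) k.2).symm
  · rw [LayB_cW D W k 0 (LayB_L0 D), LayB_cW D W k 1 (show 0 < D.L 1 from hm),
      ← (hL.st1 k.1 k.2).1]
    exact hL.adj 1 k.1 0 k.2
  · rw [LayB_cW D W k 0 (LayB_L0 D), LayB_cW D W k 1 (show 0 < D.L 1 from hm),
      ← (hL.st1 k.1 k.2).1]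
    exact (hL.adj 1 k.1 0 k.2).symm

/-- the neighbours of `y`: predecessor or successor -/
theorem LayB_inj1 (k : Fin K) (y y1 y2 : Fin 6 × Fin D.len) (h1 : D.B.Adj y y1)
    (h2 : D.B.Adj y y2) (h : cW D W k y1 = cW D W k y2)
    (hs : (∃ i p, p + 1 < D.L i ∧ y = D.fv i p ∧ y1 = D.fv i (p + 1))) : y1 = y2 := by
  obtain ⟨i, p, hp, rfl, rfl⟩ := hs
  have hp0 : p < D.L i := by omega
  rcases D.B_cases h2 with ⟨i', p', hp', e, rfl⟩ | ⟨i', p', hp', e, rfl⟩ | ⟨hm, e, rfl⟩ |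
    ⟨hm, e, rfl⟩
  · obtain ⟨rfl, rfl⟩ := D.fv_inj hp0 (show p' < D.L i' by omega) e
    rfl
  · obtain ⟨rfl, rfl⟩ := D.fv_inj hp0 hp' e
    rw [LayB_cW D W k i hp, LayB_cW D W k i (show p' < D.L i by omega)] at h
    exact absurd h.symm (hL.nb i k.1 (p' + 1) k.2)
  · obtain ⟨rfl, rfl⟩ := D.fv_inj hp0 (LayB_L0 D) e
    rw [LayB_cW D W k 0 hp, LayB_cW D W k 1 (show 0 < D.L 1 from hm)] at h
    exact absurd h.symm (hL.st1 k.1 k.2).2.2
  · obtain ⟨rfl, rfl⟩ := D.fv_inj hp0 (show 0 < D.L 1 from hm) e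
    rw [LayB_cW D W k 1 hp, LayB_cW D W k 0 (LayB_L0 D), ← (hL.st1 k.1 k.2).1] at h
    exact absurd h.symm (hL.nb 1 k.1 0 k.2)

theorem lay_inj (k : Fin K) (y y1 y2 : Fin 6 × Fin D.len) (h1 : D.B.Adj y y1)
    (h2 : D.B.Adj y y2) (h : cW D W k y1 = cW D W k y2) : y1 = y2 := by
  rcases D.B_cases h1 with hs | ⟨i, p, hp, e1, rfl⟩ | ⟨hm, e1, rfl⟩ | ⟨hm, e1, rfl⟩
  · exact LayB_inj1 hL k y y1 y2 h1 h2 h hs
  · rcases D.B_cases h2 with hs | ⟨i', p', hp', e2, rfl⟩ | ⟨hm, e2, rfl⟩ | ⟨hm, e2, rfl⟩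
    · exact (LayB_inj1 hL k y _ _ h2 h1 h.symm hs).symm
    · obtain ⟨rfl, e3⟩ := D.fv_inj hp hp' (e1.symm.trans e2)
      obtain rfl : p = p' := by omega
      rfl
    · obtain ⟨rfl, e3⟩ := D.fv_inj hp (LayB_L0 D) (e1.symm.trans e2)
      omega
    · obtain ⟨rfl, e3⟩ := D.fv_inj hp (show 0 < D.L 1 from hm) (e1.symm.trans e2)
      omega
  · rcases D.B_cases h2 with hs | ⟨i', p', hp', e2, rfl⟩ | ⟨hm, e2, rfl⟩ | ⟨hm, e2, rfl⟩
    · exact (LayB_inj1 hL k y _ _ h2 h1 h.symm hs).symm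
    · obtain ⟨rfl, e3⟩ := D.fv_inj (LayB_L0 D) hp' (e1.symm.trans e2)
      omega
    · rfl
    · obtain ⟨e3, -⟩ := D.fv_inj (LayB_L0 D) (show 0 < D.L 1 from hm) (e1.symm.trans e2)
      exact absurd e3 (by decide)
  · rcases D.B_cases h2 with hs | ⟨i', p', hp', e2, rfl⟩ | ⟨hm', e2, rfl⟩ | ⟨hm', e2, rfl⟩
    · exact (LayB_inj1 hL k y _ _ h2 h1 h.symm hs).symm
    · obtain ⟨rfl, e3⟩ := D.fv_inj (show 0 < D.L 1 from hm) hp' (e1.symm.trans e2)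
      omega
    · obtain ⟨e3, -⟩ := D.fv_inj (show 0 < D.L 1 from hm) (LayB_L0 D) (e1.symm.trans e2)
      exact absurd e3 (by decide)
    · rfl

theorem lay_vt (l : Fin K) (i : Fin 4) : T.vt (xR R l i) = T.vt (D.a i) := by
  unfold xR
  fin_cases i
  · show T.vt (R l.1 0) = T.vt D.X
    obtain ⟨s, h1, -⟩ := hL.ty0 l.1 l.2
    refine (T.rev _ _ _ _ ?_ (D.adj_w s) h1).1
    rw [← (hL.st0 l.1 l.2).1]
    exact hL.adj 0 l.1 0 l.2
  · exact hL.vt1 l.1 l.2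
  · exact hL.vt2 l.1 l.2
  · show T.vt (R l.1 3) = T.vt D.X
    rw [(hL.st3 l.1 l.2).1]

/-- the attachments: starts and ends -/
theorem LayB_att (k : Fin K) (y : Fin 6 × Fin D.len) (l : Fin K) (i : Fin 4)
    (h : atN D K lk k y l i) :
    (∃ q : Fin 6, q ≠ 1 ∧ k = l ∧ y = D.fv q 0 ∧ xR R l i = W q k.1 0 ∧
      i = (![0, 0, 0, 3, 3, 3] : Fin 6 → Fin 4) q) ∨
    ∃ q : Fin 6, i = sink q ∧ y = D.en q ∧ lk q k.1 l.1 ∧ xR R l i = W q k.1 (D.L q + 1) := by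
  rcases h with ⟨rfl, h1, h2⟩ | ⟨rfl, h1, h2⟩ | ⟨q, rfl, rfl, h1⟩
  · obtain rfl : k = l := Fin.ext h1
    rcases h2 with rfl | rfl
    · exact Or.inl ⟨0, by decide, rfl, rfl, (hL.st0 k.1 k.2).1.symm, rfl⟩
    · exact Or.inl ⟨2, by decide, rfl, rfl, (hL.st0 k.1 k.2).2.symm, rfl⟩
  · obtain rfl : k = l := Fin.ext h1
    obtain ⟨a1, a2, a3, a4⟩ := hL.st3 k.1 k.2
    rcases h2 with rfl | rfl | rfl
    · exact Or.inl ⟨3, by decide, rfl, rfl, a1.trans a2.symm, rfl⟩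
    · exact Or.inl ⟨4, by decide, rfl, rfl, a1.trans a3.symm, rfl⟩
    · exact Or.inl ⟨5, by decide, rfl, rfl, a1.trans a4.symm, rfl⟩
  · exact Or.inr ⟨q, rfl, rfl, h1, (hL.en q k.1 l.1 h1).symm⟩

theorem lay_adj (k : Fin K) (y : Fin 6 × Fin D.len) (l : Fin K) (i : Fin 4)
    (h : atN D K lk k y l i) : H.Adj (xR R l i) (cW D W k y) := by
  rcases LayB_att hL k y l i h with ⟨q, hq, rfl, rfl, e, -⟩ | ⟨q, -, rfl, -, e⟩
  · rw [e, LayB_cW D W k q (LayB_Lp D q hq)]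
    exact hL.adj q k.1 0 k.2
  · rw [e, lay_en hL k q]
    exact (hL.adj q k.1 _ k.2).symm

theorem lay_ne (k : Fin K) (y y' : Fin 6 × Fin D.len) (l : Fin K) (i : Fin 4)
    (h : D.B.Adj y y') (h' : atN D K lk k y l i) : cW D W k y' ≠ xR R l i := by
  rcases LayB_att hL k y l i h' with ⟨q, hq, rfl, e0, e, -⟩ | ⟨q, -, e0, -, e⟩
  · rw [e]
    rcases D.B_cases h with ⟨i', p', hp', e2, rfl⟩ | ⟨i', p', hp', e2, rfl⟩ | ⟨hm, e2, rfl⟩ |
      ⟨hm, e2, rfl⟩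
    · obtain ⟨rfl, rfl⟩ := D.fv_inj (LayB_Lp D q hq) (show p' < D.L i' by omega)
        (e0.symm.trans e2)
      rw [LayB_cW D W k q hp']
      exact (hL.nb q k.1 0 k.2).symm
    · obtain ⟨rfl, e3⟩ := D.fv_inj (LayB_Lp D q hq) hp' (e0.symm.trans e2)
      omega
    · obtain ⟨rfl, -⟩ := D.fv_inj (LayB_Lp D q hq) (LayB_L0 D) (e0.symm.trans e2)
      rw [LayB_cW D W k 1 (show 0 < D.L 1 from hm)]
      exact (hL.st1 k.1 k.2).2.1
    · exact absurd (D.fv_inj (LayB_Lp D q hq) (show 0 < D.L 1 from hm) (e0.symm.trans e2)).1 hq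
  · rw [e]
    rcases LayB_enc D q with ⟨hq, h1, h2, h3⟩ | ⟨rfl, h0, h1, h2, h3⟩ | ⟨rfl, h0, h1, h2⟩
    · rw [h1] at e0
      rw [h2]
      rcases D.B_cases h with ⟨i', p', hp', e2, rfl⟩ | ⟨i', p', hp', e2, rfl⟩ | ⟨hm, e2, rfl⟩ |
        ⟨hm, e2, rfl⟩
      · obtain ⟨rfl, e3⟩ := D.fv_inj h3 (show p' < D.L i' by omega) (e0.symm.trans e2)
        omega
      · obtain ⟨rfl, e3⟩ := D.fv_inj h3 hp' (e0.symm.trans e2)
        rw [LayB_cW D W k q (show p' < D.L q by omega), e3]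
        exact hL.nb q k.1 (p' + 1) k.2
      · obtain ⟨rfl, e3⟩ := D.fv_inj h3 (LayB_L0 D) (e0.symm.trans e2)
        rw [LayB_cW D W k 1 (show 0 < D.L 1 from hm), e3]
        exact (hL.st1 k.1 k.2).2.2
      · exact absurd (D.fv_inj h3 (show 0 < D.L 1 from hm) (e0.symm.trans e2)).1 hq
    · rw [h1] at e0
      rw [h2]
      rcases D.B_cases h with ⟨i', p', hp', e2, rfl⟩ | ⟨i', p', hp', e2, rfl⟩ | ⟨hm, e2, rfl⟩ |
        ⟨hm, e2, rfl⟩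
      · obtain ⟨rfl, e3⟩ := D.fv_inj h3 (show p' < D.L i' by omega) (e0.symm.trans e2)
        omega
      · obtain ⟨rfl, e3⟩ := D.fv_inj h3 hp' (e0.symm.trans e2)
        rw [LayB_cW D W k 1 (show p' < D.L 1 by omega), show D.m2 + 1 = p' + 1 + 2 by omega]
        exact hL.nb 1 k.1 (p' + 1) k.2
      · exact absurd (D.fv_inj h3 (LayB_L0 D) (e0.symm.trans e2)).1 (by decide)
      · obtain ⟨-, e3⟩ := D.fv_inj h3 (show 0 < D.L 1 from hm) (e0.symm.trans e2)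
        rw [LayB_cW D W k 0 (LayB_L0 D), show D.m2 + 1 = 0 + 2 by omega,
          ← (hL.st1 k.1 k.2).1]
        exact hL.nb 1 k.1 0 k.2
    · rw [h1] at e0
      rw [h2]
      rcases D.B_cases h with ⟨i', p', hp', e2, rfl⟩ | ⟨i', p', hp', e2, rfl⟩ | ⟨hm, e2, rfl⟩ |
        ⟨hm, e2, rfl⟩
      · obtain ⟨rfl, rfl⟩ := D.fv_inj (LayB_L0 D) (show p' < D.L i' by omega)
          (e0.symm.trans e2)
        rw [LayB_cW D W k 0 hp']
        exact fun e5 => (hL.st1 k.1 k.2).2.2 e5.symm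
      · obtain ⟨rfl, e3⟩ := D.fv_inj (LayB_L0 D) hp' (e0.symm.trans e2)
        omega
      · omega
      · omega

/-- a start and an end -/
theorem LayB_se (k : Fin K) (q q' : Fin 6) (hq : q ≠ 1) (e : D.fv q 0 = D.en q')
    (h : W q k.1 0 = W q' k.1 (D.L q' + 1)) : False := by
  rcases LayB_enc D q' with ⟨hq', h1, h2, h3⟩ | ⟨rfl, h0, h1, h2, h3⟩ | ⟨rfl, h0, h1, h2⟩
  · rw [h1] at e
    obtain ⟨rfl, e3⟩ := D.fv_inj (LayB_Lp D q hq) h3 e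
    rw [h2, ← e3] at h
    exact hL.nb q k.1 0 k.2 h
  · rw [h1] at e
    exact hq (D.fv_inj (LayB_Lp D q hq) h3 e).1
  · rw [h1] at e
    obtain ⟨rfl, -⟩ := D.fv_inj (LayB_Lp D q hq) (LayB_L0 D) e
    rw [h2] at h
    exact (hL.st1 k.1 k.2).2.1 h.symm

/-- two ends -/
theorem LayB_ee (k : Fin K) (q q' : Fin 6) (hq : q ≠ 1) (hq' : q' = 1) (e : D.en q = D.en q')
    (h : W q k.1 (D.L q + 1) = W q' k.1 (D.L q' + 1)) : False := by
  obtain ⟨h1, h2⟩ := D.en_ne_one q hq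
  have h4 : D.m1 < D.L q := by omega
  rw [h1] at e
  rcases LayB_enc D q' with ⟨hq2, -⟩ | ⟨-, h0', h1', h2', h3'⟩ | ⟨-, h0', h1', h2'⟩
  · exact hq2 hq'
  · rw [h1'] at e
    exact hq (D.fv_inj h4 h3' e).1
  · rw [h1'] at e
    obtain ⟨rfl, e3⟩ := D.fv_inj h4 (LayB_L0 D) e
    rw [h2, h2', hq', e3] at h
    exact (hL.st1 k.1 k.2).2.2 h.symm

theorem lay_ne' (k : Fin K) (y : Fin 6 × Fin D.len) (l : Fin K) (i : Fin 4) (l' : Fin K)
    (i' : Fin 4) (h : atN D K lk k y l i) (h' : atN D K lk k y l' i')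
    (e : xR R l i = xR R l' i') : l = l' ∧ i = i' := by
  rcases LayB_att hL k y l i h with ⟨q, hq, e1, e2, e3, e4⟩ | ⟨q, e1, e2, e3, e4⟩
  · rcases LayB_att hL k y l' i' h' with ⟨q', hq', e1', e2', e3', e4'⟩ | ⟨q', e1', e2', e3', e4'⟩
    · obtain ⟨rfl, -⟩ := D.fv_inj (LayB_Lp D q hq) (LayB_Lp D q' hq') (e2.symm.trans e2')
      exact ⟨e1.symm.trans e1', e4.trans e4'.symm⟩
    · exact (LayB_se hL k q q' hq (e2.symm.trans e2') (e3.symm.trans (e.trans e4'))).elim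
  · rcases LayB_att hL k y l' i' h' with ⟨q', hq', e1', e2', e3', e4'⟩ | ⟨q', e1', e2', e3', e4'⟩
    · exact (LayB_se hL k q' q hq' (e2'.symm.trans e2)
        (e3'.symm.trans (e.symm.trans e4))).elim
    · by_cases hqq : q = q'
      · subst hqq
        exact ⟨Fin.ext (hL.fn q k.1 l.1 l'.1 e3 e3'), e1.trans e1'.symm⟩
      · by_cases hq : q = 1
        · by_cases hq' : q' = 1
          · exact absurd (hq.trans hq'.symm) hqq
          · exact (LayB_ee hL k q' q hq' hq (e2'.symm.trans e2)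
              (e4'.symm.trans (e.symm.trans e4))).elim
        · by_cases hq' : q' = 1
          · exact (LayB_ee hL k q q' hq hq' (e2.symm.trans e2')
              (e4.symm.trans (e.trans e4'))).elim
          · obtain ⟨h1, h2⟩ := D.en_ne_one q hq
            obtain ⟨h1', h2'⟩ := D.en_ne_one q' hq'
            have h5 := e2.symm.trans e2'
            rw [h1, h1'] at h5
            exact absurd (D.fv_inj (by omega) (by omega) h5).1 hqq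

end Pool.Agent.LHB
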