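import Pool.Agent.LHB.Defs
import Pool.Agent.LHB.CLx
import Pool.Agent.LHB.CTy
import Pool.Agent.LHB.LayB

/-!
# The colouring of a layout: types

Let `(k, y)` be attached to `(l, i)`.
`i = 0`: `l = k`, `y = fv 0 0` or `fv 2 0`, values `W 0 k 1`, `W 2 k 1` of types `T.dt X (w s)`, `T.dt X (w (!s))` (`ty0`), different by `CK.dt_w`.
`i = 3`: `l = k`, values `W 3 k 1, W 4 k 1, W 5 k 1`, different elements of `F 3`, `R k 3 = X`. (`sink q` is never `0` or `3`.)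
`i = 1`: `y = en q`, `q ≠ 1`, `lk q k l`, value `W q k (m1 + 1)` (`lay_en`) of type `T.dt (g0 β (m1+1)) (g0 β m1)`, `β = bt q k` (`et`). `i = 2`: `y = en 1`,
`lk 1 k l`, value `W 1 k m2`, type `T.dt (g1 β (m2+1)) (g1 β m2)`.
`lay_dis`: for `i = 1, 2`: if `(q, k) ≠ (q', k')` then the bits differ (`dif`), so the types differ (`CK.dt_g0`, `CK.dt_g1`), so the values
differ. If `(q, k) = (q', k')` then `y = y'`.
`lay_cap`: for `i = 3`: `E ⊆ F 3`, monotonicity of `ncard` (finite). For `i = 0, 1, 2`: `E ∩ {dt = θ}` has at most one element (two attached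
vertices of the same type are equal, by the same arguments), and if it is nonempty then `0 < T.cp (a i) (F i) θ` by `cp0`, `cp1`, `cp2`.
-/

namespace Pool.Agent.LHB

open Pool.Agent.LIH Pool.Agent.LHA

variable {V : Type} {H : SimpleGraph V} {T : Typ H} {D : CK T} {K : ℕ}
  {lk : Fin 6 → ℕ → ℕ → Prop} {W : Fin 6 → ℕ → ℕ → V} {R : ℕ → Fin 4 → V} {bt : Fin 6 → ℕ → Bool}
  (hL : Lay D K lk W R bt)

theorem LayD_fv (W : Fin 6 → ℕ → ℕ → V) (k : Fin K) (q : Fin 6) : cW D W k (D.fv q 0) = W q k.1 1 := by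
  unfold cW
  rw [CK.fv_zero]
  rfl

theorem LayD_at0 {k : Fin K} {y : Fin 6 × Fin D.len} {l : Fin K} (h : atN D K lk k y l 0) :
    k = l ∧ (y = D.fv 0 0 ∨ y = D.fv 2 0) := by
  rcases h with ⟨-, h1, h2⟩ | ⟨h1, -⟩ | ⟨q, hq, -⟩
  · exact ⟨Fin.ext h1, h2⟩
  · exact absurd h1 (by decide)
  · exfalso
    revert hq
    fin_cases q <;> decide

theorem LayD_at3 {k : Fin K} {y : Fin 6 × Fin D.len} {l : Fin K} (h : atN D K lk k y l 3) :
    k = l ∧ (y = D.fv 3 0 ∨ y = D.fv 4 0 ∨ y = D.fv 5 0) := by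
  rcases h with ⟨h1, -⟩ | ⟨-, h1, h2⟩ | ⟨q, hq, -⟩
  · exact absurd h1 (by decide)
  · exact ⟨Fin.ext h1, h2⟩
  · exfalso
    revert hq
    fin_cases q <;> decide

theorem LayD_at1 {k : Fin K} {y : Fin 6 × Fin D.len} {l : Fin K} (h : atN D K lk k y l 1) :
    ∃ q : Fin 6, q ≠ 1 ∧ sink q = 1 ∧ y = D.en q ∧ lk q k.1 l.1 := by
  rcases h with ⟨h1, -⟩ | ⟨h1, -⟩ | ⟨q, hq, hy, hl⟩
  · exact absurd h1 (by decide)
  · exact absurd h1 (by decide)
  · refine ⟨q, ?_, hq.symm, hy, hl⟩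
    rintro rfl
    exact absurd hq (by decide)

theorem LayD_at2 {k : Fin K} {y : Fin 6 × Fin D.len} {l : Fin K} (h : atN D K lk k y l 2) :
    y = D.en 1 ∧ lk 1 k.1 l.1 := by
  rcases h with ⟨h1, -⟩ | ⟨h1, -⟩ | ⟨q, hq, hy, hl⟩
  · exact absurd h1 (by decide)
  · exact absurd h1 (by decide)
  · have : q = 1 := by
      revert hq
      fin_cases q <;> decide
    subst this
    exact ⟨hy, hl⟩

include hL

theorem LayD_ty1 {k l : Fin K} {q : Fin 6} (hq : q ≠ 1) (hl : lk q k.1 l.1) :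
    T.dt (xR R l 1) (cW D W k (D.en q)) =
      T.dt (D.g0 (bt q k.1) (D.m1 + 1)) (D.g0 (bt q k.1) D.m1) := by
  rw [lay_en hL, (CK.en_ne_one D q hq).2]
  exact hL.et q _ _ hq hl

theorem LayD_ty2 {k l : Fin K} (hl : lk 1 k.1 l.1) :
    T.dt (xR R l 2) (cW D W k (D.en 1)) =
      T.dt (D.g1 (bt 1 k.1) (D.m2 + 1)) (D.g1 (bt 1 k.1) D.m2) := by
  rw [lay_en hL]
  exact hL.et1 _ _ hl

theorem LayD_eq (l : Fin K) (i : Fin 4) (hi : i ≠ 3) (k : Fin K) (y : Fin 6 × Fin D.len) (k' : Fin K)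
    (y' : Fin 6 × Fin D.len) (h : atN D K lk k y l i) (h' : atN D K lk k' y' l i)
    (e : T.dt (xR R l i) (cW D W k y) = T.dt (xR R l i) (cW D W k' y')) : k = k' ∧ y = y' := by
  have hi' : i = 0 ∨ i = 1 ∨ i = 2 := by
    revert hi
    fin_cases i <;> decide
  rcases hi' with rfl | rfl | rfl
  · obtain ⟨rfl, hy⟩ := LayD_at0 h
    obtain ⟨rfl, hy'⟩ := LayD_at0 h'
    refine ⟨rfl, ?_⟩
    obtain ⟨s, hs1, hs2⟩ := hL.ty0 _ k'.2
    rcases hy with rfl | rfl <;> rcases hy' with rfl | rfl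
    · rfl
    · exfalso
      rw [LayD_fv, LayD_fv] at e
      have e' : T.dt (R k'.1 0) (W 0 k'.1 1) = T.dt (R k'.1 0) (W 2 k'.1 1) := e
      rw [hs1, hs2] at e'
      have := CK.dt_w D e'
      revert this
      cases s <;> decide
    · exfalso
      rw [LayD_fv, LayD_fv] at e
      have e' : T.dt (R k'.1 0) (W 2 k'.1 1) = T.dt (R k'.1 0) (W 0 k'.1 1) := e
      rw [hs1, hs2] at e'
      have := CK.dt_w D e'
      revert this
      cases s <;> decide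
    · rfl
  · obtain ⟨q, hq, hs, rfl, hl⟩ := LayD_at1 h
    obtain ⟨q', hq', hs', rfl, hl'⟩ := LayD_at1 h'
    rw [LayD_ty1 hL hq hl, LayD_ty1 hL hq' hl'] at e
    have hb := CK.dt_g0 D e
    by_contra hne
    refine hL.dif q q' k.1 k'.1 l.1 (by rw [hs, hs']) hl hl' ?_ hb
    by_contra hc
    push Not at hc
    obtain ⟨rfl, hk⟩ := hc
    exact hne ⟨Fin.ext hk, rfl⟩
  · obtain ⟨rfl, hl⟩ := LayD_at2 h
    obtain ⟨rfl, hl'⟩ := LayD_at2 h'
    rw [LayD_ty2 hL hl, LayD_ty2 hL hl'] at e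
    have hb := CK.dt_g1 D e
    refine ⟨?_, rfl⟩
    by_contra hne
    refine hL.dif 1 1 k.1 k'.1 l.1 rfl hl hl' (Or.inr ?_) hb
    exact fun hk => hne (Fin.ext hk)

theorem LayD_pos (l : Fin K) (i : Fin 4) (hi : i ≠ 3) (k : Fin K) (y : Fin 6 × Fin D.len)
    (h : atN D K lk k y l i) :
    0 < T.cp (D.a i) (D.F i) (T.dt (xR R l i) (cW D W k y)) := by
  have hi' : i = 0 ∨ i = 1 ∨ i = 2 := by
    revert hi
    fin_cases i <;> decide
  rcases hi' with rfl | rfl | rfl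
  · obtain ⟨rfl, hy⟩ := LayD_at0 h
    rw [(CK.cp0 D _).2]
    obtain ⟨s, hs1, hs2⟩ := hL.ty0 _ k.2
    rcases hy with rfl | rfl
    · rw [LayD_fv]
      exact ⟨s, hs1⟩
    · rw [LayD_fv]
      exact ⟨!s, hs2⟩
  · obtain ⟨q, hq, hs, rfl, hl⟩ := LayD_at1 h
    rw [(CK.cp1 D _).2]
    exact ⟨_, LayD_ty1 hL hq hl⟩
  · obtain ⟨rfl, hl⟩ := LayD_at2 h
    rw [(CK.cp2 D _).2]
    exact ⟨_, LayD_ty2 hL hl⟩

theorem lay_dis (l : Fin K) (i : Fin 4) (k : Fin K) (y : Fin 6 × Fin D.len) (k' : Fin K)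
    (y' : Fin 6 × Fin D.len) (h : atN D K lk k y l i) (h' : atN D K lk k' y' l i)
    (e : cW D W k y = cW D W k' y') : k = k' ∧ y = y' := by
  by_cases hi : i = 3
  · subst hi
    obtain ⟨rfl, hy⟩ := LayD_at3 h
    obtain ⟨rfl, hy'⟩ := LayD_at3 h'
    refine ⟨rfl, ?_⟩
    obtain ⟨h1, h2, h3, -⟩ := hL.ty3 _ k'.2
    rcases hy with rfl | rfl | rfl <;> rcases hy' with rfl | rfl | rfl <;>
      simp only [LayD_fv] at e
    · rfl
    · exact absurd e h1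
    · exact absurd e h2
    · exact absurd e.symm h1
    · rfl
    · exact absurd e h3
    · exact absurd e.symm h2
    · exact absurd e.symm h3
    · rfl
  · exact LayD_eq hL l i hi k y k' y' h h' (by rw [e])

theorem lay_cap [Finite V] (l : Fin K) (i : Fin 4) (θ : ℕ) :
    T.cp (xR R l i) {z | ∃ k y, atN D K lk k y l i ∧ cW D W k y = z} θ ≤
      T.cp (D.a i) (D.F i) θ := by
  by_cases hi : i = 3
  · subst hi
    unfold Typ.cp
    apply Set.ncard_le_ncard _ (Set.toFinite _)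
    rintro z ⟨⟨k, y, h, rfl⟩, hz⟩
    obtain ⟨rfl, hy⟩ := LayD_at3 h
    obtain ⟨-, -, -, h4, h5, h6⟩ := hL.ty3 _ k.2
    have hR : xR R k 3 = D.a 3 := (hL.st3 _ k.2).1
    rw [hR] at hz
    refine ⟨?_, hz⟩
    rcases hy with rfl | rfl | rfl
    · rw [LayD_fv]; exact h4
    · rw [LayD_fv]; exact h5
    · rw [LayD_fv]; exact h6
  · rcases Set.eq_empty_or_nonempty ({z | ∃ k y, atN D K lk k y l i ∧ cW D W k y = z} ∩
      {y | T.dt (xR R l i) y = θ}) with h0 | ⟨z, ⟨k, y, h, rfl⟩, hz⟩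
    · have : T.cp (xR R l i) {z | ∃ k y, atN D K lk k y l i ∧ cW D W k y = z} θ = 0 := by
        unfold Typ.cp
        rw [h0, Set.ncard_empty]
      rw [this]
      exact Nat.zero_le _
    · have h1 : T.cp (xR R l i) {z | ∃ k y, atN D K lk k y l i ∧ cW D W k y = z} θ ≤ 1 := by
        unfold Typ.cp
        rw [Set.ncard_le_one (Set.toFinite _)]
        rintro z1 ⟨⟨k1, y1, a1, rfl⟩, b1⟩ z2 ⟨⟨k2, y2, a2, rfl⟩, b2⟩
        have b1' : T.dt (xR R l i) (cW D W k1 y1) = θ := b1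
        have b2' : T.dt (xR R l i) (cW D W k2 y2) = θ := b2
        obtain ⟨rfl, rfl⟩ := LayD_eq hL l i hi k1 y1 k2 y2 a1 a2 (by rw [b1', b2'])
        rfl
      have h2 := LayD_pos hL l i hi k y h
      have hz' : T.dt (xR R l i) (cW D W k y) = θ := hz
      rw [hz'] at h2
      exact h1.trans h2

end Pool.Agent.LHB
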