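import Pool.Agent.LHB.Defs
import Pool.Agent.LHB.Idx

/-!
# The bits of the network

By `nod_ex` `k = nod x o r`, `k' = nod x' o' r'` (`lk_dom`); use `lk0_iff`, ..., `lkc_iff`, `nod_inj`, `nod_x`, `nod_mod`, `nod_div`. `sink q = sink q'`: both
`q, q' ≠ 1` or both `= 1`.
Values: `btK 0 (nod x o r) = stN x r`, which is `a x` for `r ≥ 2 K2` or `r` even, `!(a x)` for `r` odd `< 2 K2`; `btK 2` its negation;
`btK 1 = btK 0`; `btK (ca i) (nod 0 o 0) = a (lt (o + i))` (`o < 3Θ`).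
-/

namespace Pool.Agent.LHB

open Pool.Agent.LIH Pool.Agent.LHA

section

variable {K1 K2 NV Θ : ℕ} {lt : ℕ → ℕ} {a : ℕ → Bool}

theorem NcBits_st {x o r : ℕ} (ho : o < 3 * Θ) (hr : r < Bk K1 K2) :
    stK K1 K2 Θ a (nod K1 K2 Θ x o r) = stN K2 a x r := by
  unfold stK
  rw [nod_x x ho hr, nod_mod x o hr]

theorem NcBits_even {x r : ℕ} (h : r % 2 = 0) : stN K2 a x r = a x := by
  unfold stN
  by_cases h2 : r < 2 * K2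
  · rw [if_pos h2]
    have : ¬ (r % 2 = 1) := by omega
    simp [this]
  · rw [if_neg h2]

theorem NcBits_big {x r : ℕ} (h : 2 * K2 ≤ r) : stN K2 a x r = a x := by
  unfold stN
  rw [if_neg (by omega)]

theorem NcBits_odd {x r : ℕ} (h2 : r < 2 * K2) (h : r % 2 = 1) : stN K2 a x r = !a x := by
  unfold stN
  rw [if_pos h2]
  simp [h]

theorem NcBits_cb {o : ℕ} (i : Fin 3) (hB : 0 < Bk K1 K2) :
    cbK K1 K2 a lt (nod K1 K2 Θ 0 o 0) i = a (lt (o + i.1)) := by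
  unfold cbK
  rw [nod_div 0 o hB]
  simp

theorem NcBits_q6 : ∀ q : Fin 6, q ≠ 1 → q = 0 ∨ q = 2 ∨ q = ca 0 ∨ q = ca 1 ∨ q = ca 2 := by
  decide

theorem NcBits_b0 (k : ℕ) : btK K1 K2 Θ a lt 0 k = stK K1 K2 Θ a k := rfl

theorem NcBits_b1 (k : ℕ) : btK K1 K2 Θ a lt 1 k = stK K1 K2 Θ a k := rfl

theorem NcBits_b2 (k : ℕ) : btK K1 K2 Θ a lt 2 k = !stK K1 K2 Θ a k := rfl

theorem NcBits_bc (i : Fin 3) (k : ℕ) : btK K1 K2 Θ a lt (ca i) k = cbK K1 K2 a lt k i := by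
  fin_cases i <;> rfl

/-- the links with sink `1` -/
def NcBits_C (K1 K2 Θ : ℕ) (a : ℕ → Bool) (q : Fin 6) (b : Bool) (k x o ρ : ℕ) : Prop :=
  (q = 0 ∧ ρ < 2 * K2 ∧ k = nod K1 K2 Θ x o ρ ∧ b = a x) ∨
  (q = 0 ∧ ρ < 2 * K2 ∧ k = nod K1 K2 Θ x o (ρ + 1) ∧ b = !a x) ∨
  (q = 0 ∧ 2 * K2 ≤ ρ ∧ ρ + 1 < Bk K1 K2 ∧ k = nod K1 K2 Θ x o ρ ∧ b = a x) ∨
  (q = 2 ∧ 2 * K2 = ρ ∧ k = nod K1 K2 Θ x o 0 ∧ b = !a x) ∨
  (q = 2 ∧ 2 * K2 < ρ ∧ k = nod K1 K2 Θ x o (ρ - 1) ∧ b = !a x) ∨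
  (q.1 = 3 + o % 3 ∧ ρ + 1 = Bk K1 K2 ∧ k = nod K1 K2 Θ 0 (o - o % 3) 0 ∧ b = a x)

theorem NcBits_cls1 (hK1 : 0 < K1) (hK2 : 0 < K2) (hlt : ∀ o < 3 * Θ, lt o < NV) {q : Fin 6}
    (hq : q ≠ 1) {k l : ℕ} (h : lkN K1 K2 NV Θ lt q k l) :
    ∃ x o ρ, o < 3 * Θ ∧ ρ < Bk K1 K2 ∧ l = nod K1 K2 Θ x o ρ ∧
      NcBits_C K1 K2 Θ a q (btK K1 K2 Θ a lt q k) k x o ρ := by
  have hBk : Bk K1 K2 = 2 * K2 + K1 := rfl
  have hB : 0 < Bk K1 K2 := by omega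
  obtain ⟨hk, hl⟩ := lk_dom hK1 hK2 hlt q k l h
  obtain ⟨x, o, r, hx, ho, hr, rfl⟩ := nod_ex hB hk
  have hcl : ∀ i : Fin 3, q = ca i → ∃ x' o' ρ, o' < 3 * Θ ∧ ρ < Bk K1 K2 ∧
      l = nod K1 K2 Θ x' o' ρ ∧ NcBits_C K1 K2 Θ a q (btK K1 K2 Θ a lt q (nod K1 K2 Θ x o r))
        (nod K1 K2 Θ x o r) x' o' ρ := by
    intro i hi
    subst hi
    rw [lkc_iff i hx ho hr] at h
    obtain ⟨rfl, rfl, ho3, rfl⟩ := h
    have hi3 := i.2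
    have h1 : (o + i.1) % 3 = i.1 := by omega
    refine ⟨lt (o + i.1), o + i.1, Bk K1 K2 - 1, by omega, by omega, rfl, ?_⟩
    refine Or.inr (Or.inr (Or.inr (Or.inr (Or.inr ⟨?_, by omega, ?_, ?_⟩))))
    · rw [h1]
      fin_cases i <;> rfl
    · rw [h1]
      congr 1
      omega
    · rw [NcBits_bc, NcBits_cb i hB]
  have hq6 : q = 0 ∨ q = 2 ∨ q = ca 0 ∨ q = ca 1 ∨ q = ca 2 := NcBits_q6 q hq
  rcases hq6 with rfl | rfl | hq | hq | hq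
  · rw [lk0_iff hx ho hr] at h
    rcases h with ⟨hr2, rfl⟩ | ⟨hr2, hr3, rfl⟩
    · refine ⟨x, o, r - r % 2, ho, by omega, rfl, ?_⟩
      rcases Nat.mod_two_eq_zero_or_one r with h0 | h0
      · refine Or.inl ⟨rfl, by omega, ?_, ?_⟩
        · rw [h0, Nat.sub_zero]
        · rw [NcBits_b0, NcBits_st ho hr, NcBits_even h0]
      · refine Or.inr (Or.inl ⟨rfl, by omega, ?_, ?_⟩)
        · congr 1
          omega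
        · rw [NcBits_b0, NcBits_st ho hr, NcBits_odd hr2 h0]
    · refine ⟨x, o, r, ho, by omega, rfl, ?_⟩
      refine Or.inr (Or.inr (Or.inl ⟨rfl, hr2, hr3, rfl, ?_⟩))
      rw [NcBits_b0, NcBits_st ho hr, NcBits_big hr2]
  · rw [lk2_iff hx ho hr] at h
    rcases h with ⟨rfl, rfl⟩ | ⟨hr2, hr3, rfl⟩
    · refine ⟨x, o, 2 * K2, ho, by omega, rfl, ?_⟩
      refine Or.inr (Or.inr (Or.inr (Or.inl ⟨rfl, rfl, rfl, ?_⟩)))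
      rw [NcBits_b2, NcBits_st ho hr, NcBits_even rfl]
    · refine ⟨x, o, r + 1, ho, by omega, rfl, ?_⟩
      refine Or.inr (Or.inr (Or.inr (Or.inr (Or.inl ⟨rfl, by omega, rfl, ?_⟩))))
      rw [NcBits_b2, NcBits_st ho hr, NcBits_big hr2]
  · exact hcl 0 hq
  · exact hcl 1 hq
  · exact hcl 2 hq

/-- the links with sink `2` -/
def NcBits_D (K1 K2 Θ : ℕ) (a : ℕ → Bool) (b : Bool) (k x o ρ : ℕ) : Prop :=
  (ρ % 2 = 1 ∧ k = nod K1 K2 Θ x o ρ ∧ b = !a x) ∨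
  (ρ % 2 = 1 ∧ ρ + 1 < 2 * K2 ∧ k = nod K1 K2 Θ x o (ρ + 1) ∧ b = a x) ∨
  (ρ + 1 = 2 * K2 ∧ k = nod K1 K2 Θ x (o + 1) 0 ∧ b = a x) ∨
  (ρ = 0 ∧ k = nod K1 K2 Θ x o 0 ∧ b = a x)

theorem NcBits_cls2 (hK1 : 0 < K1) (hK2 : 0 < K2) (hlt : ∀ o < 3 * Θ, lt o < NV)
    {k l : ℕ} (h : lkN K1 K2 NV Θ lt 1 k l) :
    ∃ x o ρ, o < 3 * Θ ∧ ρ < Bk K1 K2 ∧ l = nod K1 K2 Θ x o ρ ∧
      NcBits_D K1 K2 Θ a (btK K1 K2 Θ a lt 1 k) k x o ρ := by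
  have hBk : Bk K1 K2 = 2 * K2 + K1 := rfl
  have hB : 0 < Bk K1 K2 := by omega
  obtain ⟨hk, hl⟩ := lk_dom hK1 hK2 hlt 1 k l h
  obtain ⟨x, o, r, hx, ho, hr, rfl⟩ := nod_ex hB hk
  rw [lk1_iff hK2 hx ho hr] at h
  obtain ⟨hr2, h | h | h | h⟩ := h
  · obtain ⟨h1, rfl⟩ := h
    refine ⟨x, o, r, ho, hr, rfl, Or.inl ⟨h1, rfl, ?_⟩⟩
    rw [NcBits_b1, NcBits_st ho hr, NcBits_odd hr2 h1]
  · obtain ⟨h1, h2, rfl⟩ := h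
    refine ⟨x, o, r - 1, ho, by omega, rfl, Or.inr (Or.inl ⟨by omega, by omega, ?_, ?_⟩)⟩
    · congr 1
      omega
    · rw [NcBits_b1, NcBits_st ho hr, NcBits_even h1]
  · obtain ⟨rfl, h2, rfl⟩ := h
    refine ⟨x, o - 1, 2 * K2 - 1, by omega, by omega, rfl,
      Or.inr (Or.inr (Or.inl ⟨by omega, ?_, ?_⟩))⟩
    · congr 1
      omega
    · rw [NcBits_b1, NcBits_st ho hr, NcBits_even rfl]
  · obtain ⟨rfl, rfl, rfl⟩ := h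
    refine ⟨x, 0, 0, by omega, by omega, rfl, Or.inr (Or.inr (Or.inr ⟨rfl, rfl, ?_⟩))⟩
    rw [NcBits_b1, NcBits_st ho hr, NcBits_even rfl]

theorem NcBits_sink {q q' : Fin 6} (h : sink q = sink q') : (q = 1 ∧ q' = 1) ∨ (q ≠ 1 ∧ q' ≠ 1) := by
  revert h
  revert q q'
  decide

end

theorem bits_dif {K1 K2 NV Θ : ℕ} {lt : ℕ → ℕ} (hK1 : 0 < K1) (hK2 : 0 < K2)
    (hlt : ∀ o < 3 * Θ, lt o < NV) (a : ℕ → Bool) (q q' : Fin 6) (k k' l : ℕ)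
    (hs : sink q = sink q') (h : lkN K1 K2 NV Θ lt q k l) (h' : lkN K1 K2 NV Θ lt q' k' l)
    (hne : q ≠ q' ∨ k ≠ k') : btK K1 K2 Θ a lt q k ≠ btK K1 K2 Θ a lt q' k' := by
  have hBk : Bk K1 K2 = 2 * K2 + K1 := rfl
  intro hb
  rcases NcBits_sink hs with ⟨rfl, rfl⟩ | ⟨hq, hq'⟩
  · obtain ⟨x, o, ρ, ho, hρ, rfl, hc⟩ := NcBits_cls2 (a := a) hK1 hK2 hlt h
    obtain ⟨x', o', ρ', ho', hρ', hl, hc'⟩ := NcBits_cls2 (a := a) hK1 hK2 hlt h'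
    obtain ⟨rfl, rfl, rfl⟩ := nod_inj ho hρ ho' hρ' hl
    rw [← hb] at hc'
    rcases hne with hne | hne
    · exact hne rfl
    unfold NcBits_D at hc hc'
    rcases hc with ⟨h1, h2, h3⟩ | ⟨h1, h2, h3, h4⟩ | ⟨h1, h2, h3⟩ | ⟨h1, h2, h3⟩ <;>
    rcases hc' with ⟨g1, g2, g3⟩ | ⟨g1, g2, g3, g4⟩ | ⟨g1, g2, g3⟩ | ⟨g1, g2, g3⟩ <;>
    first
      | (exfalso; omega)
      | (rw [g3] at h3; simp at h3; done)
      | (rw [g4] at h3; simp at h3; done)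
      | (rw [g3] at h4; simp at h4; done)
      | (rw [g4] at h4; simp at h4; done)
      | (exact hne (h2.trans g2.symm))
      | (exact hne (h3.trans g3.symm))
  · obtain ⟨x, o, ρ, ho, hρ, rfl, hc⟩ := NcBits_cls1 (a := a) hK1 hK2 hlt hq h
    obtain ⟨x', o', ρ', ho', hρ', hl, hc'⟩ := NcBits_cls1 (a := a) hK1 hK2 hlt hq' h'
    obtain ⟨rfl, rfl, rfl⟩ := nod_inj ho hρ ho' hρ' hl
    rw [← hb] at hc'
    generalize btK K1 K2 Θ a lt q k = b at hc hc'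
    have hcon : ∀ {c : Bool}, c = a x → c = !a x → False := by
      intro c h1 h2
      rw [h1] at h2
      simp at h2
    unfold NcBits_C at hc hc'
    rcases hc with ⟨h0, h1, h2, h3⟩ | ⟨h0, h1, h2, h3⟩ | ⟨h0, h1, h1', h2, h3⟩ | ⟨h0, h1, h2, h3⟩ |
      ⟨h0, h1, h2, h3⟩ | ⟨h0, h1, h2, h3⟩ <;>
    rcases hc' with ⟨g0, g1, g2, g3⟩ | ⟨g0, g1, g2, g3⟩ | ⟨g0, g1, g1', g2, g3⟩ |
      ⟨g0, g1, g2, g3⟩ | ⟨g0, g1, g2, g3⟩ | ⟨g0, g1, g2, g3⟩ <;>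
    first
      | exact hcon h3 g3
      | exact hcon g3 h3
      | (exfalso; omega)
      | (rcases hne with hne | hne
         · exact hne (Fin.ext (by omega))
         · exact hne (h2.trans g2.symm))

end Pool.Agent.LHB
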