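import Pool.Agent.LHB.Defs

/-!
# Extending walks, third neighbours

`xt`: choose for every dart `(x, y)` a neighbour `nx x y ≠ x` of `y` (degree at least 2) and iterate
`(x, y) ↦ (y, nx x y)`. `third`: the degree is at least 3.
-/

namespace Pool.Agent.LHB

open Pool.Agent.LIH Pool.Agent.LHA

variable {V : Type} {H : SimpleGraph V}

theorem xt (h3 : ∀ v, 3 ≤ (H.neighborSet v).ncard) {x y : V} (h : H.Adj x y) :
    ∃ g : ℕ → V, g 0 = x ∧ g 1 = y ∧ (∀ j, H.Adj (g j) (g (j + 1))) ∧
      ∀ j, g j ≠ g (j + 2) := by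
  classical
  have hth : ∀ p : V × V, ∃ z, H.Adj p.2 z ∧ z ≠ p.1 := by
    intro p
    by_contra hc
    push Not at hc
    have hsub : H.neighborSet p.2 ⊆ {p.1} := by
      intro z hz
      exact hc z hz
    have h1 := Set.ncard_le_ncard hsub (Set.finite_singleton _)
    rw [Set.ncard_singleton] at h1
    have h2 := h3 p.2
    omega
  choose nx hn1 hn2 using hth
  obtain ⟨d, hd⟩ : ∃ d : ℕ → V × V, d = fun n => Nat.rec (x, y) (fun _ p => (p.2, nx p)) n := ⟨_, rfl⟩
  have d0 : d 0 = (x, y) := by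
    rw [hd]
    rfl
  have ds : ∀ n, d (n + 1) = ((d n).2, nx (d n)) := by
    intro n
    rw [hd]
  have hadj : ∀ j, H.Adj (d j).1 (d j).2 := by
    intro j
    cases j with
    | zero =>
      rw [d0]
      exact h
    | succ j =>
      rw [ds]
      exact hn1 (d j)
  refine ⟨fun j => (d j).1, ?_, ?_, ?_, ?_⟩
  · show (d 0).1 = x
    rw [d0]
  · show (d (0 + 1)).1 = y
    rw [ds, d0]
  · intro j
    show H.Adj (d j).1 (d (j + 1)).1
    rw [ds]
    exact hadj j
  · intro j
    show (d j).1 ≠ (d (j + 1 + 1)).1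
    rw [ds (j + 1), ds j]
    exact (hn2 (d j)).symm

theorem third (h3 : ∀ v, 3 ≤ (H.neighborSet v).ncard) (x s t : V) :
    ∃ z, H.Adj x z ∧ z ≠ s ∧ z ≠ t := by
  by_contra hc
  push Not at hc
  have hsub : H.neighborSet x ⊆ {s, t} := by
    intro z hz
    by_cases h : z = s
    · exact Or.inl h
    · exact Or.inr (hc z hz h)
  have h1 := Set.ncard_le_ncard hsub (Set.toFinite _)
  have h2 := Set.ncard_insert_le s {t}
  rw [Set.ncard_singleton] at h2
  have h4 := h3 x
  omega

end Pool.Agent.LHB
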