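import Pool.Agent.LHB.Defs
import Pool.Agent.LHB.TBas
import Pool.Agent.LHB.Idx
import Pool.Agent.LHB.Xt
import Pool.Agent.LHB.CTy

/-!
# The cells of the chain, `0 < r < 2 K2`

`k = nod x o r`; by `nod_x`, `nod_o`, `nod_mod`: `stK k = stN x r`, `e1K (nod x o ρ) = e1N x o ρ`, `e2K (nod x o ρ) = e2N x ρ`. Let `b = a x`, `g = lam b`,
`q = r / 2`, `i = (q : ℤ)`, `s = stN x r`.
`r` even (`s = b`): `P = i Lc`, `h0 j = g (P + j)`, `h1 j = g (P - j)`. `r` odd (`s = !b`): `P = i Lc + (2 m1 + 2)`, `h0 j = g (P - j)`,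
`h1 j = g (P + j)`. In both cases `T.dt (h0 0) (h0 1) = T.dt (w s) (g0 s 1)`, `T.dt (h0 0) (h1 1) = T.dt (w s) (g1 s 1)` (`t0, t0'`, `t2, t2'`), so
`T.vt (h0 0) = T.vt (w s)` (`rev`). `Typ.ext2` (centre `w s`, `y1 = g0 s 1`, `y2 = g1 s 1`, `z = X`; `ne_01`, `ne_X0`, `ne_X1`, `adj0 s 0`, ...; images `h0 1`, `h1 1`,
different by `nb`) gives `X'` adjacent to `h0 0`, `X' ≠ h0 1, h1 1`, `T.dt (h0 0) X' = T.dt (w s) X`; so `T.dt X' (h0 0) = T.dt X (w s)`,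
`T.vt X' = T.vt X`. `Typ.ext0` (centre `X`, neighbour `w (!s)`) gives `y'` adjacent to `X'`, `T.dt X' y' = T.dt X (w (!s))`; `h2` from `xt` with
`(X', y')`. `h 0 = X'`, `h (j+1) = h0 j`.
`en0`: `lk0_iff`: `l = nod x o (r - r % 2)`, `e1K l = g (i Lc + (m1 + 1))` (`(r - r % 2) / 2 = q`), `h (m1 + 2) = h0 (m1 + 1)`: equal in both cases
(`P - (m1+1) = i Lc + m1 + 1` for `r` odd); `h (m1 + 1) = h0 m1 = g (i Lc + (m1+1) ∓ 1)`: `t1` (`r` even), `t1'` (`r` odd).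
`en1`: `lk1_iff`. `r` odd: `l = nod x o r`, `e2K l = g (i Lc + (2 m1 + m2 + 3)) = h1 (m2 + 1)`, `t3`. `r` even: `l = nod x o (r-1)`, `(r-1) / 2 = q - 1`, `r - 1` odd,
`e2K l = g ((q-1) Lc + (2 m1 + m2 + 3)) = g (i Lc - (m2 + 1)) = h1 (m2+1)`, and `h1 m2 = g (that + 1)`: `t3'` with `i - 1`.
`en2`: impossible by `lk2_iff`.
-/

namespace Pool.Agent.LHB

open Pool.Agent.LIH Pool.Agent.LHA

section

variable {V : Type} {H : SimpleGraph V} {T : Typ H}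

theorem NcCh_core [Finite V] (h3 : ∀ v, 3 ≤ (H.neighborSet v).ncard) (D : CK T) (s : Bool)
    (h0 h1 : ℕ → V) (adj0 : ∀ j, H.Adj (h0 j) (h0 (j + 1))) (nb0 : ∀ j, h0 j ≠ h0 (j + 2))
    (adj1 : ∀ j, H.Adj (h1 j) (h1 (j + 1))) (nb1 : ∀ j, h1 j ≠ h1 (j + 2)) (h00 : h1 0 = h0 0)
    (hne : h1 1 ≠ h0 1) (e0 : T.dt (h0 0) (h0 1) = T.dt (D.w s) (D.g0 s 1))
    (e1 : T.dt (h0 0) (h1 1) = T.dt (D.w s) (D.g1 s 1)) :
    ∃ h h2 : ℕ → V, (∀ j, h (j + 1) = h0 j) ∧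
      (∀ j, H.Adj (h j) (h (j + 1)) ∧ H.Adj (h1 j) (h1 (j + 1)) ∧ H.Adj (h2 j) (h2 (j + 1))) ∧
      (∀ j, h j ≠ h (j + 2) ∧ h1 j ≠ h1 (j + 2) ∧ h2 j ≠ h2 (j + 2)) ∧ h2 0 = h 0 ∧
      (h1 0 = h 1 ∧ h1 1 ≠ h 0 ∧ h1 1 ≠ h 2) ∧
      (T.dt (h 0) (h 1) = T.dt D.X (D.w s) ∧ T.dt (h 0) (h2 1) = T.dt D.X (D.w (!s))) := by
  have a1 : H.Adj (D.w s) (D.g0 s 1) := by
    have := D.adj0 s 0 (Nat.zero_le _)
    rwa [D.g0_0] at this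
  have a2 : H.Adj (D.w s) (D.g1 s 1) := by
    have := D.adj1 s 0 (Nat.zero_le _)
    rwa [D.g1_0] at this
  have a3 : H.Adj (D.w s) D.X := (D.adj_w s).symm
  have b1 : H.Adj (h0 0) (h0 1) := adj0 0
  have b2 : H.Adj (h0 0) (h1 1) := by
    have := adj1 0
    rwa [h00] at this
  obtain ⟨-, hv, -⟩ := T.hd a1 b1 e0.symm
  obtain ⟨X', c1, c2, c3, c4⟩ := T.ext2 hv a1 a2 a3 (D.ne_01 s) (D.ne_X0 s) (D.ne_X1 s) b1 b2
    (fun h => hne h.symm) e0.symm e1.symm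
  obtain ⟨d1, -, d2⟩ := T.hd c1 a3 c4
  obtain ⟨y', f1, f2⟩ := T.ext0 d1.symm (D.adj_w (!s))
  obtain ⟨h2, k0, k1, k2, k3⟩ := xt h3 f1
  refine ⟨fun j => Nat.casesOn j X' h0, h2, fun j => rfl, ?_, ?_, k0, ?_, ?_⟩
  · intro j
    refine ⟨?_, adj1 j, k2 j⟩
    rcases j with _ | j
    · exact c1.symm
    · exact adj0 j
  · intro j
    refine ⟨?_, nb1 j, k3 j⟩
    rcases j with _ | j
    · exact c2
    · exact nb0 j
  · exact ⟨h00, fun h => c3 h.symm, hne⟩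
  · refine ⟨d2, ?_⟩
    change T.dt X' (h2 1) = _
    rw [k1]
    exact f2

theorem NcCh_adjU {g : ℤ → V} (ha : ∀ j, H.Adj (g j) (g (j + 1))) (P : ℤ) (j : ℕ) :
    H.Adj (g (P + (j : ℤ))) (g (P + ((j + 1 : ℕ) : ℤ))) := by
  have := ha (P + j)
  rwa [show P + (j : ℤ) + 1 = P + ((j + 1 : ℕ) : ℤ) by push_cast; ring] at this

theorem NcCh_adjD {g : ℤ → V} (ha : ∀ j, H.Adj (g j) (g (j + 1))) (P : ℤ) (j : ℕ) :
    H.Adj (g (P - (j : ℤ))) (g (P - ((j + 1 : ℕ) : ℤ))) := by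
  have := ha (P - ((j + 1 : ℕ) : ℤ))
  rw [show P - ((j + 1 : ℕ) : ℤ) + 1 = P - (j : ℤ) by push_cast; ring] at this
  exact this.symm

theorem NcCh_nbU {g : ℤ → V} (hn : ∀ j, g j ≠ g (j + 2)) (P : ℤ) (j : ℕ) :
    g (P + (j : ℤ)) ≠ g (P + ((j + 2 : ℕ) : ℤ)) := by
  have := hn (P + j)
  rwa [show P + (j : ℤ) + 2 = P + ((j + 2 : ℕ) : ℤ) by push_cast; ring] at this

theorem NcCh_nbD {g : ℤ → V} (hn : ∀ j, g j ≠ g (j + 2)) (P : ℤ) (j : ℕ) :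
    g (P - (j : ℤ)) ≠ g (P - ((j + 2 : ℕ) : ℤ)) := by
  have := hn (P - ((j + 2 : ℕ) : ℤ))
  rw [show P - ((j + 2 : ℕ) : ℤ) + 2 = P - (j : ℤ) by push_cast; ring] at this
  exact this.symm

end

theorem arm_chain {V : Type} [Finite V] {H : SimpleGraph V} {T : Typ H}
    (h3 : ∀ v, 3 ≤ (H.neighborSet v).ncard) (D : CK T) {K1 K2 NV Θ : ℕ} {lt : ℕ → ℕ}
    (hK1 : 0 < K1) (hK2 : 0 < K2) (a : ℕ → Bool) (lam : Bool → ℤ → V) (rd : ℕ → ℕ → ℤ → V)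
    (hlam : ∀ b, LD D K2 b (lam b)) {x o r : ℕ} (hx : x < NV) (ho : o < 3 * Θ) (hr0 : 0 < r)
    (hr : r < 2 * K2) :
    ∃ h h1 h2, ArmA D (lkN K1 K2 NV Θ lt) (e1K D K1 K2 Θ a lam rd) (e2K D K1 K2 Θ a lam)
      (stK K1 K2 Θ a (nod K1 K2 Θ x o r)) (nod K1 K2 Θ x o r) h h1 h2 := by
  have hBk : Bk K1 K2 = 2 * K2 + K1 := rfl
  have hrB : r < Bk K1 K2 := by omega
  have hst : stK K1 K2 Θ a (nod K1 K2 Θ x o r) = xor (a x) (decide (r % 2 = 1)) := by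
    unfold stK
    rw [nod_x x ho hrB, nod_mod x o hrB]
    unfold stN
    rw [if_pos hr]
  have he1 : ∀ ρ, ρ < 2 * K2 → e1K D K1 K2 Θ a lam rd (nod K1 K2 Θ x o ρ) =
      lam (a x) (((ρ / 2 : ℕ) : ℤ) * D.Lc + (D.m1 + 1)) := by
    intro ρ hρ
    have hρB : ρ < Bk K1 K2 := by omega
    unfold e1K
    rw [nod_x x ho hρB, nod_mod x o hρB, nod_o x ho hρB]
    unfold e1N
    rw [if_pos hρ]
  have he2 : ∀ ρ, ρ < 2 * K2 → ρ % 2 = 1 → e2K D K1 K2 Θ a lam (nod K1 K2 Θ x o ρ) =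
      lam (a x) (((ρ / 2 : ℕ) : ℤ) * D.Lc + (2 * D.m1 + D.m2 + 3)) := by
    intro ρ hρ hρ2
    have hρB : ρ < Bk K1 K2 := by omega
    unfold e2K
    rw [nod_x x ho hρB, nod_mod x o hρB]
    unfold e2N
    rw [if_pos hρ, if_neg (by omega)]
  have hLD := hlam (a x)
  have hLc : (D.Lc : ℤ) = 2 * D.m1 + 2 * D.m2 + 4 := by
    have : D.Lc = 2 * (D.m1 + D.m2 + 2) := rfl
    rw [this]
    push_cast
    ring
  have hen2 : ∀ l, ¬ lkN K1 K2 NV Θ lt 2 (nod K1 K2 Θ x o r) l := by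
    intro l hl
    rw [lk2_iff hx ho hrB] at hl
    rcases hl with ⟨h1, -⟩ | ⟨h1, -⟩ <;> omega
  generalize hb : a x = b at *
  generalize hg : lam b = g at *
  rcases Nat.mod_two_eq_zero_or_one r with h2 | h2
  · -- even
    have hst' : stK K1 K2 Θ a (nod K1 K2 Θ x o r) = b := by
      rw [hst]
      simp [h2]
    rw [hst']
    obtain ⟨h, hh2, z1, z2, z3, z4, z5, z6⟩ := NcCh_core h3 D b
      (fun j : ℕ => g (((r / 2 : ℕ) : ℤ) * D.Lc + (j : ℤ)))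
      (fun j : ℕ => g (((r / 2 : ℕ) : ℤ) * D.Lc - (j : ℤ)))
      (NcCh_adjU hLD.adj _) (NcCh_nbU hLD.nb _) (NcCh_adjD hLD.adj _) (NcCh_nbD hLD.nb _)
      (by simp) (by
        have := hLD.nb (((r / 2 : ℕ) : ℤ) * D.Lc - 1)
        rw [show ((r / 2 : ℕ) : ℤ) * D.Lc - 1 + 2 = ((r / 2 : ℕ) : ℤ) * D.Lc + ((1 : ℕ) : ℤ) by
          push_cast; ring] at this
        simpa using this)
      (by simpa using hLD.t0 ((r / 2 : ℕ) : ℤ)) (by simpa using hLD.t0' ((r / 2 : ℕ) : ℤ))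
    refine ⟨h, _, hh2, z2, z3, z4, z5, z6, ?_, ?_, fun l hl => absurd hl (hen2 l)⟩
    · intro l hl
      rw [lk0_iff hx ho hrB] at hl
      rcases hl with ⟨-, rfl⟩ | ⟨hl, -⟩
      swap
      · omega
      rw [he1 _ (by omega), h2, Nat.sub_zero]
      rw [show D.m1 + 2 = (D.m1 + 1) + 1 from rfl, z1, z1]
      refine ⟨?_, ?_⟩
      · congr 1
      · have := hLD.t1 ((r / 2 : ℕ) : ℤ)
        rwa [show ((r / 2 : ℕ) : ℤ) * D.Lc + ((D.m1 : ℤ) + 1) - 1 =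
          ((r / 2 : ℕ) : ℤ) * D.Lc + (D.m1 : ℤ) by ring] at this
    · intro l hl
      rw [lk1_iff hK2 hx ho hrB] at hl
      obtain ⟨-, ⟨q1, -⟩ | ⟨-, -, rfl⟩ | ⟨q1, -⟩ | ⟨q1, -⟩⟩ := hl
      · omega
      swap
      · omega
      swap
      · omega
      rw [he2 _ (by omega) (by omega)]
      have hi : (((r - 1) / 2 : ℕ) : ℤ) = ((r / 2 : ℕ) : ℤ) - 1 := by
        omega
      rw [hi]
      refine ⟨?_, ?_⟩
      · change g _ = g _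
        congr 1
        push_cast
        rw [hLc]
        ring
      · have := hLD.t3' (((r / 2 : ℕ) : ℤ) - 1)
        rwa [show (((r / 2 : ℕ) : ℤ) - 1) * D.Lc + (2 * (D.m1 : ℤ) + D.m2 + 3) + 1 =
          ((r / 2 : ℕ) : ℤ) * D.Lc - (D.m2 : ℤ) by rw [hLc]; ring] at this
  · -- odd
    have hst' : stK K1 K2 Θ a (nod K1 K2 Θ x o r) = !b := by
      rw [hst]
      simp [h2]
    rw [hst']
    obtain ⟨h, hh2, z1, z2, z3, z4, z5, z6⟩ := NcCh_core h3 D (!b)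
      (fun j : ℕ => g (((r / 2 : ℕ) : ℤ) * D.Lc + (2 * D.m1 + 2) - (j : ℤ)))
      (fun j : ℕ => g (((r / 2 : ℕ) : ℤ) * D.Lc + (2 * D.m1 + 2) + (j : ℤ)))
      (NcCh_adjD hLD.adj _) (NcCh_nbD hLD.nb _) (NcCh_adjU hLD.adj _) (NcCh_nbU hLD.nb _)
      (by simp) (by
        have := hLD.nb (((r / 2 : ℕ) : ℤ) * D.Lc + (2 * D.m1 + 2) - 1)
        rw [show ((r / 2 : ℕ) : ℤ) * D.Lc + (2 * (D.m1 : ℤ) + 2) - 1 + 2 =
          ((r / 2 : ℕ) : ℤ) * D.Lc + (2 * D.m1 + 2) + ((1 : ℕ) : ℤ) by push_cast; ring] at this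
        simpa using this.symm)
      (by simpa using hLD.t2 ((r / 2 : ℕ) : ℤ)) (by simpa using hLD.t2' ((r / 2 : ℕ) : ℤ))
    refine ⟨h, _, hh2, z2, z3, z4, z5, z6, ?_, ?_, fun l hl => absurd hl (hen2 l)⟩
    · intro l hl
      rw [lk0_iff hx ho hrB] at hl
      rcases hl with ⟨-, rfl⟩ | ⟨hl, -⟩
      swap
      · omega
      rw [he1 _ (by omega), h2, show (r - 1) / 2 = r / 2 by omega]
      rw [show D.m1 + 2 = (D.m1 + 1) + 1 from rfl, z1, z1]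
      refine ⟨?_, ?_⟩
      · congr 1
        push_cast
        ring
      · have := hLD.t1' ((r / 2 : ℕ) : ℤ)
        rwa [show ((r / 2 : ℕ) : ℤ) * D.Lc + ((D.m1 : ℤ) + 1) + 1 =
          ((r / 2 : ℕ) : ℤ) * D.Lc + (2 * D.m1 + 2) - (D.m1 : ℤ) by ring] at this
    · intro l hl
      rw [lk1_iff hK2 hx ho hrB] at hl
      obtain ⟨-, ⟨-, rfl⟩ | ⟨q1, -⟩ | ⟨q1, -⟩ | ⟨q1, -⟩⟩ := hl
      swap
      · omega
      swap
      · omega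
      swap
      · omega
      rw [he2 _ (by omega) (by omega)]
      refine ⟨?_, ?_⟩
      · change g _ = g _
        congr 1
        push_cast
        ring
      · have := hLD.t3 ((r / 2 : ℕ) : ℤ)
        rwa [show ((r / 2 : ℕ) : ℤ) * D.Lc + (2 * (D.m1 : ℤ) + D.m2 + 3) - 1 =
          ((r / 2 : ℕ) : ℤ) * D.Lc + (2 * D.m1 + 2) + (D.m2 : ℤ) by ring] at this

end Pool.Agent.LHB
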