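import Pool.Agent.LHB.Defs
import Pool.Agent.LHB.Idx
import Pool.Agent.LHB.Xt
import Pool.Agent.LHB.CTy

/-!
# The clause arms; the slots
-/

namespace Pool.Agent.LHB

open Pool.Agent.LIH Pool.Agent.LHA

theorem NcCl_inj {V : Type} {a b c : V} (h1 : a ≠ b) (h2 : a ≠ c) (h3 : b ≠ c) :
    Function.Injective (![a, b, c] : Fin 3 → V) := by
  intro i j hij
  fin_cases i <;> fin_cases j
  · rfl
  · exact absurd hij h1
  · exact absurd hij h2
  · exact absurd hij.symm h1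
  · rfl
  · exact absurd hij h3
  · exact absurd hij.symm h2
  · exact absurd hij.symm h3
  · rfl

theorem slot {V : Type} {H : SimpleGraph V} {T : Typ H} (D : CK T) {Θ : ℕ} {lt : ℕ → ℕ}
    {a : ℕ → Bool} (h : ∀ θ < Θ, modeOK 0 (fun i => a (lt (3 * θ + i.1)))) :
    ∃ wl : ℕ → V, (∀ o < 3 * Θ, OKs D (a (lt o)) (wl o)) ∧
      ∀ θ < Θ, Function.Injective (fun i : Fin 3 => wl (3 * θ + i.1)) := by
  have hw := CK.wf_ne D
  have key : ∀ θ, ∃ f : Fin 3 → V, θ < Θ → (∀ i : Fin 3, OKs D (a (lt (3 * θ + i.1))) (f i)) ∧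
      Function.Injective f := by
    intro θ
    by_cases hθ : θ < Θ
    · have h' : (a (lt (3 * θ + 0)) = true ∧ a (lt (3 * θ + 1)) = false ∧
          a (lt (3 * θ + 2)) = false) ∨
        (a (lt (3 * θ + 0)) = false ∧ a (lt (3 * θ + 1)) = true ∧ a (lt (3 * θ + 2)) = false) ∨
        (a (lt (3 * θ + 0)) = false ∧ a (lt (3 * θ + 1)) = false ∧ a (lt (3 * θ + 2)) = true) :=
        h θ hθ
      rcases h' with ⟨h0, h1, h2⟩ | ⟨h0, h1, h2⟩ | ⟨h0, h1, h2⟩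
      · refine ⟨![D.w true, D.w false, D.wf], fun _ => ⟨?_, NcCl_inj hw.2 hw.1.symm D.ne_wf.symm⟩⟩
        intro i
        fin_cases i
        · exact Or.inl ⟨h0, rfl⟩
        · exact Or.inr ⟨h1, Or.inl rfl⟩
        · exact Or.inr ⟨h2, Or.inr rfl⟩
      · refine ⟨![D.w false, D.w true, D.wf], fun _ => ⟨?_, NcCl_inj hw.2.symm D.ne_wf.symm hw.1.symm⟩⟩
        intro i
        fin_cases i
        · exact Or.inr ⟨h0, Or.inl rfl⟩
        · exact Or.inl ⟨h1, rfl⟩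
        · exact Or.inr ⟨h2, Or.inr rfl⟩
      · refine ⟨![D.w false, D.wf, D.w true], fun _ => ⟨?_, NcCl_inj D.ne_wf.symm hw.2.symm hw.1⟩⟩
        intro i
        fin_cases i
        · exact Or.inr ⟨h0, Or.inl rfl⟩
        · exact Or.inr ⟨h1, Or.inr rfl⟩
        · exact Or.inl ⟨h2, rfl⟩
    · exact ⟨fun _ => D.X, fun h => absurd h hθ⟩
  choose f hf using key
  refine ⟨fun o => f (o / 3) ⟨o % 3, Nat.mod_lt _ (by norm_num)⟩, ?_, ?_⟩
  · intro o ho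
    have h1 := (hf (o / 3) (by omega)).1 ⟨o % 3, Nat.mod_lt _ (by norm_num)⟩
    have h2 : 3 * (o / 3) + o % 3 = o := Nat.div_add_mod o 3
    have h3 : 3 * (o / 3) + (⟨o % 3, Nat.mod_lt _ (by norm_num)⟩ : Fin 3).1 = o := h2
    rw [h3] at h1
    exact h1
  · intro θ hθ
    have h1 := (hf θ hθ).2
    have h2 : (fun i : Fin 3 => f ((3 * θ + i.1) / 3)
        ⟨(3 * θ + i.1) % 3, Nat.mod_lt _ (by norm_num)⟩) = f θ := by
      funext i
      have hi := i.2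
      have e1 : (3 * θ + i.1) / 3 = θ := by omega
      have e2 : (3 * θ + i.1) % 3 = i.1 := by omega
      have e3 : (⟨(3 * θ + i.1) % 3, Nat.mod_lt _ (by norm_num)⟩ : Fin 3) = i := Fin.ext e2
      rw [e3, e1]
    rw [← h2] at h1
    exact h1

theorem arm_clause {V : Type} [Finite V] {H : SimpleGraph V} {T : Typ H}
    (h3 : ∀ v, 3 ≤ (H.neighborSet v).ncard) (D : CK T) {K1 K2 NV Θ : ℕ} {lt : ℕ → ℕ}
    (hK1 : 0 < K1) (hK2 : 0 < K2) (hlt : ∀ o < 3 * Θ, lt o < NV) (a : ℕ → Bool)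
    (lam : Bool → ℤ → V) (rd : ℕ → ℕ → ℤ → V) (wl : ℕ → V)
    (hwl : ∀ o < 3 * Θ, OKs D (a (lt o)) (wl o))
    (hwl' : ∀ θ < Θ, Function.Injective (fun i : Fin 3 => wl (3 * θ + i.1)))
    (hrd : ∀ o < 3 * Θ, RD D K1 (a (lt o)) (wl o) (rd (lt o) o)) {k : ℕ}
    (hk : k < KN K1 K2 NV Θ) :
    ∃ h, ArmB D (lkN K1 K2 NV Θ lt) (e1K D K1 K2 Θ a lam rd) (cbK K1 K2 a lt k) k h := by
  have hBk : 0 < Bk K1 K2 := by unfold Bk; omega
  have hw := CK.wf_ne D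
  have hL : (D.L0 : ℤ) = 2 * ((D.m1 : ℤ) + 2) := by
    unfold CK.L0
    push_cast
    ring
  obtain ⟨x, o, r, hx, ho, hr, rfl⟩ := nod_ex hBk hk
  by_cases hc : x = 0 ∧ r = 0 ∧ o % 3 = 0
  · obtain ⟨rfl, rfl, ho3⟩ := hc
    have hoi : ∀ i : Fin 3, o + i.1 < 3 * Θ := by
      intro i
      have := i.2
      omega
    obtain ⟨θ, rfl⟩ : ∃ θ, o = 3 * θ := ⟨o / 3, by omega⟩
    have hθ : θ < Θ := by omega
    have hsl : ∀ i : Fin 3, rd (lt (3 * θ + i.1)) (3 * θ + i.1) ((K1 : ℤ) * D.L0 - ((1 : ℕ) : ℤ)) =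
        wl (3 * θ + i.1) := by
      intro i
      rw [Nat.cast_one]
      exact (hrd _ (hoi i)).slot
    refine ⟨fun i j => rd (lt (3 * θ + i.1)) (3 * θ + i.1) ((K1 : ℤ) * D.L0 - j), ?_⟩
    constructor
    · intro i j
      have h := (hrd _ (hoi i)).adj ((K1 : ℤ) * D.L0 - ((j + 1 : ℕ) : ℤ))
      have e : (K1 : ℤ) * D.L0 - ((j + 1 : ℕ) : ℤ) + 1 = (K1 : ℤ) * D.L0 - (j : ℤ) := by
        push_cast; ring
      rw [e] at h
      exact h.symm
    · intro i j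
      have h := (hrd _ (hoi i)).nb ((K1 : ℤ) * D.L0 - ((j + 2 : ℕ) : ℤ))
      have e : (K1 : ℤ) * D.L0 - ((j + 2 : ℕ) : ℤ) + 2 = (K1 : ℤ) * D.L0 - (j : ℤ) := by
        push_cast; ring
      rw [e] at h
      exact h.symm
    · intro i
      show rd (lt (3 * θ + i.1)) (3 * θ + i.1) ((K1 : ℤ) * D.L0 - ((0 : ℕ) : ℤ)) = D.X
      rw [Nat.cast_zero, sub_zero]
      exact (hrd _ (hoi i)).last
    · have h1 : (fun i : Fin 3 => (fun (i : Fin 3) (j : ℕ) => rd (lt (3 * θ + i.1)) (3 * θ + i.1)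
          ((K1 : ℤ) * D.L0 - j)) i 1) = fun i : Fin 3 => wl (3 * θ + i.1) := by
        funext i
        exact hsl i
      rw [h1]
      exact hwl' θ hθ
    · intro i
      show rd (lt (3 * θ + i.1)) (3 * θ + i.1) ((K1 : ℤ) * D.L0 - ((1 : ℕ) : ℤ)) ∈
        ({D.w true, D.w false, D.wf} : Set V)
      rw [hsl i]
      rcases hwl _ (hoi i) with ⟨-, h⟩ | ⟨-, h | h⟩
      · rw [h]; exact Or.inl rfl
      · rw [h]; exact Or.inr (Or.inl rfl)
      · rw [h]; exact Or.inr (Or.inr rfl)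
    · intro i l hl
      rw [lkc_iff i hx ho hr] at hl
      obtain ⟨-, -, -, rfl⟩ := hl
      have hr' : Bk K1 K2 - 1 < Bk K1 K2 := by omega
      have he : e1K D K1 K2 Θ a lam rd
          (nod K1 K2 Θ (lt (3 * θ + i.1)) (3 * θ + i.1) (Bk K1 K2 - 1)) =
          rd (lt (3 * θ + i.1)) (3 * θ + i.1) (((K1 - 1 : ℕ) : ℤ) * D.L0 + (D.m1 + 2)) := by
        unfold e1K
        rw [nod_x _ (hoi i) hr', nod_o _ (hoi i) hr', nod_mod _ _ hr']
        unfold e1N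
        rw [if_neg (by unfold Bk; omega)]
        have : Bk K1 K2 - 1 - 2 * K2 = K1 - 1 := by unfold Bk; omega
        rw [this]
      have hcb : cbK K1 K2 a lt (nod K1 K2 Θ 0 (3 * θ) 0) i = a (lt (3 * θ + i.1)) := by
        unfold cbK
        rw [nod_div 0 (3 * θ) hr, zero_mul, zero_add]
      rw [he, hcb]
      have hK : (((K1 - 1 : ℕ) : ℤ)) = (K1 : ℤ) - 1 := by
        have : 1 ≤ K1 := hK1
        push_cast [this]
        ring
      have e1 : (K1 : ℤ) * D.L0 - ((D.m1 + 2 : ℕ) : ℤ) =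
          (((K1 - 1 : ℕ) : ℤ)) * D.L0 + (D.m1 + 2) := by
        rw [hK, hL]; push_cast; ring
      have e2 : (K1 : ℤ) * D.L0 - ((D.m1 + 1 : ℕ) : ℤ) =
          (((K1 - 1 : ℕ) : ℤ)) * D.L0 + (D.m1 + 2) + 1 := by
        rw [hK, hL]; push_cast; ring
      refine ⟨?_, ?_⟩
      · show rd (lt (3 * θ + i.1)) (3 * θ + i.1) ((K1 : ℤ) * D.L0 - ((D.m1 + 2 : ℕ) : ℤ)) = _
        rw [e1]
      · show T.dt _ (rd (lt (3 * θ + i.1)) (3 * θ + i.1)
          ((K1 : ℤ) * D.L0 - ((D.m1 + 1 : ℕ) : ℤ))) = _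
        rw [e2]
        exact (hrd _ (hoi i)).ty2 _
  · have hadj : ∀ i : Fin 3, H.Adj D.X ((![D.w true, D.w false, D.wf] : Fin 3 → V) i) := by
      intro i
      fin_cases i
      · exact D.adj_w true
      · exact D.adj_w false
      · exact D.adj_wf
    have hg : ∀ i : Fin 3, ∃ g : ℕ → V, g 0 = D.X ∧
        g 1 = (![D.w true, D.w false, D.wf] : Fin 3 → V) i ∧
        (∀ j, H.Adj (g j) (g (j + 1))) ∧ ∀ j, g j ≠ g (j + 2) := fun i => xt h3 (hadj i)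
    choose g hg0 hg1 hgadj hgnb using hg
    refine ⟨g, hgadj, hgnb, hg0, ?_, ?_, ?_⟩
    · have h1 : (fun i => g i 1) = (![D.w true, D.w false, D.wf] : Fin 3 → V) := funext hg1
      rw [h1]
      exact NcCl_inj hw.2 hw.1.symm D.ne_wf.symm
    · intro i
      rw [hg1]
      show _ ∈ ({D.w true, D.w false, D.wf} : Set V)
      fin_cases i
      · exact Or.inl rfl
      · exact Or.inr (Or.inl rfl)
      · exact Or.inr (Or.inr rfl)
    · intro i l hl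
      rw [lkc_iff i hx ho hr] at hl
      exact absurd ⟨hl.1, hl.2.1, hl.2.2.1⟩ hc

end Pool.Agent.LHB
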