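import Pool.Agent.LHB.Defs
import Pool.Agent.LHB.TBas
import Pool.Agent.LHB.Idx
import Pool.Agent.LHB.Xt
import Pool.Agent.LHB.CTy

/-!
# The relays, `2 K2 ≤ r < Bk`
-/

namespace Pool.Agent.LHB

open Pool.Agent.LIH Pool.Agent.LHA

theorem arm_relay {V : Type} [Finite V] {H : SimpleGraph V} {T : Typ H}
    (h3 : ∀ v, 3 ≤ (H.neighborSet v).ncard) (D : CK T) {K1 K2 NV Θ : ℕ} {lt : ℕ → ℕ}
    (hK1 : 0 < K1) (hK2 : 0 < K2) (a : ℕ → Bool) (lam : Bool → ℤ → V) (rd : ℕ → ℕ → ℤ → V)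
    {x o r : ℕ} (hx : x < NV) (ho : o < 3 * Θ) (hr0 : 2 * K2 ≤ r) (hr : r < Bk K1 K2) {wl : V}
    (hrd : RD D K1 (a x) wl (rd x o)) :
    ∃ h h1 h2, ArmA D (lkN K1 K2 NV Θ lt) (e1K D K1 K2 Θ a lam rd) (e2K D K1 K2 Θ a lam)
      (stK K1 K2 Θ a (nod K1 K2 Θ x o r)) (nod K1 K2 Θ x o r) h h1 h2 := by
  obtain ⟨i, rfl⟩ : ∃ i, r = 2 * K2 + i := ⟨r - 2 * K2, by omega⟩
  have hL : (D.L0 : ℤ) = 2 * ((D.m1 : ℤ) + 2) := by
    unfold CK.L0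
    push_cast
    ring
  have hst : stK K1 K2 Θ a (nod K1 K2 Θ x o (2 * K2 + i)) = a x := by
    unfold stK
    rw [nod_x x ho hr, nod_mod x o hr]
    unfold stN
    rw [if_neg (by omega)]
  have he1 : ∀ i', 2 * K2 + i' < Bk K1 K2 →
      e1K D K1 K2 Θ a lam rd (nod K1 K2 Θ x o (2 * K2 + i')) =
      rd x o ((i' : ℤ) * D.L0 + (D.m1 + 2)) := by
    intro i' hi'
    unfold e1K
    rw [nod_x x ho hi', nod_o x ho hi', nod_mod x o hi']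
    unfold e1N
    rw [if_neg (by omega)]
    have : 2 * K2 + i' - 2 * K2 = i' := by omega
    rw [this]
  rw [hst]
  obtain ⟨z', hz1, hz2, hz3⟩ := third h3 (rd x o (((i : ℤ) + 1) * D.L0 - 1))
    (rd x o (((i : ℤ) + 1) * D.L0)) (rd x o (((i : ℤ) + 1) * D.L0 - 2))
  obtain ⟨g, hg0, hg1, hgadj, hgnb⟩ := xt h3 hz1
  refine ⟨fun j => rd x o (((i : ℤ) + 1) * D.L0 - j), g,
    fun j => rd x o (((i : ℤ) + 1) * D.L0 + j), ?_⟩
  constructor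
  · -- adj
    intro j
    refine ⟨?_, hgadj j, ?_⟩
    · have h := hrd.adj (((i : ℤ) + 1) * D.L0 - ((j + 1 : ℕ) : ℤ))
      have e : ((i : ℤ) + 1) * D.L0 - ((j + 1 : ℕ) : ℤ) + 1 = ((i : ℤ) + 1) * D.L0 - (j : ℤ) := by
        push_cast; ring
      rw [e] at h
      exact h.symm
    · have h := hrd.adj (((i : ℤ) + 1) * D.L0 + (j : ℤ))
      have e : ((i : ℤ) + 1) * D.L0 + (j : ℤ) + 1 = ((i : ℤ) + 1) * D.L0 + ((j + 1 : ℕ) : ℤ) := by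
        push_cast; ring
      rw [e] at h
      exact h
  · -- nb
    intro j
    refine ⟨?_, hgnb j, ?_⟩
    · have h := hrd.nb (((i : ℤ) + 1) * D.L0 - ((j + 2 : ℕ) : ℤ))
      have e : ((i : ℤ) + 1) * D.L0 - ((j + 2 : ℕ) : ℤ) + 2 = ((i : ℤ) + 1) * D.L0 - (j : ℤ) := by
        push_cast; ring
      rw [e] at h
      exact h.symm
    · have h := hrd.nb (((i : ℤ) + 1) * D.L0 + (j : ℤ))
      have e : ((i : ℤ) + 1) * D.L0 + (j : ℤ) + 2 = ((i : ℤ) + 1) * D.L0 + ((j + 2 : ℕ) : ℤ) := by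
        push_cast; ring
      rw [e] at h
      exact h
  · -- st0
    show rd x o (((i : ℤ) + 1) * D.L0 + ((0 : ℕ) : ℤ)) = rd x o (((i : ℤ) + 1) * D.L0 - ((0 : ℕ) : ℤ))
    rw [Nat.cast_zero, add_zero, sub_zero]
  · -- st1
    refine ⟨?_, ?_, ?_⟩
    · show g 0 = rd x o (((i : ℤ) + 1) * D.L0 - ((1 : ℕ) : ℤ))
      rw [hg0, Nat.cast_one]
    · show g 1 ≠ rd x o (((i : ℤ) + 1) * D.L0 - ((0 : ℕ) : ℤ))
      rw [hg1, Nat.cast_zero, sub_zero]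
      exact hz2
    · show g 1 ≠ rd x o (((i : ℤ) + 1) * D.L0 - ((2 : ℕ) : ℤ))
      rw [hg1]
      exact hz3
  · -- ty
    constructor
    · have h := hrd.ty0 ((i : ℤ) + 1)
      show T.dt (rd x o (((i : ℤ) + 1) * D.L0 - ((0 : ℕ) : ℤ)))
        (rd x o (((i : ℤ) + 1) * D.L0 - ((1 : ℕ) : ℤ))) = _
      rw [Nat.cast_zero, sub_zero, Nat.cast_one]
      exact h
    · have h := hrd.ty1 ((i : ℤ) + 1)
      show T.dt (rd x o (((i : ℤ) + 1) * D.L0 - ((0 : ℕ) : ℤ)))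
        (rd x o (((i : ℤ) + 1) * D.L0 + ((1 : ℕ) : ℤ))) = _
      rw [Nat.cast_zero, sub_zero, Nat.cast_one]
      exact h
  · -- en0
    intro l hl
    rw [lk0_iff hx ho hr] at hl
    rcases hl with ⟨h, -⟩ | ⟨-, -, rfl⟩
    · omega
    · rw [he1 i hr]
      have e1 : ((i : ℤ) + 1) * D.L0 - ((D.m1 + 2 : ℕ) : ℤ) = (i : ℤ) * D.L0 + (D.m1 + 2) := by
        rw [hL]; push_cast; ring
      have e2 : ((i : ℤ) + 1) * D.L0 - ((D.m1 + 1 : ℕ) : ℤ) =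
          (i : ℤ) * D.L0 + (D.m1 + 2) + 1 := by
        rw [hL]; push_cast; ring
      refine ⟨?_, ?_⟩
      · show rd x o (((i : ℤ) + 1) * D.L0 - ((D.m1 + 2 : ℕ) : ℤ)) = _
        rw [e1]
      · show T.dt _ (rd x o (((i : ℤ) + 1) * D.L0 - ((D.m1 + 1 : ℕ) : ℤ))) = _
        rw [e2]
        exact hrd.ty2 i
  · -- en1
    intro l hl
    rw [lk1_iff hK2 hx ho hr] at hl
    exact absurd hl.1 (by omega)
  · -- en2
    intro l hl
    rw [lk2_iff hx ho hr] at hl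
    rcases hl with ⟨h, -⟩ | ⟨-, h, rfl⟩
    · omega
    · have h5 := he1 (i + 1) (by omega)
      have h6 : 2 * K2 + (i + 1) = 2 * K2 + i + 1 := by omega
      rw [h6] at h5
      rw [h5]
      have e1 : ((i : ℤ) + 1) * D.L0 + ((D.m1 + 2 : ℕ) : ℤ) =
          (((i + 1 : ℕ) : ℤ)) * D.L0 + (D.m1 + 2) := by
        push_cast; ring
      have e2 : ((i : ℤ) + 1) * D.L0 + ((D.m1 + 1 : ℕ) : ℤ) =
          (((i + 1 : ℕ) : ℤ)) * D.L0 + (D.m1 + 2) - 1 := by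
        push_cast; ring
      refine ⟨?_, ?_⟩
      · show rd x o (((i : ℤ) + 1) * D.L0 + ((D.m1 + 2 : ℕ) : ℤ)) = _
        rw [e1]
      · show T.dt _ (rd x o (((i : ℤ) + 1) * D.L0 + ((D.m1 + 1 : ℕ) : ℤ))) = _
        rw [e2]
        exact hrd.ty3 _

end Pool.Agent.LHB
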