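import Pool.Agent.LHB.Defs
import Pool.Agent.LHB.TBas
import Pool.Agent.LHB.Idx
import Pool.Agent.LHB.Xt
import Pool.Agent.LHB.CTy

/-!
# The cells `r = 0`

`k = nod x o 0`, `b = a x = stK k`, `g = lam b`, `ρ = rd x o`. `h 0 = X`, `h (j+1) = g j`; `h1 j = g (-j)`; `h2 j = ρ j`. `h2 0 = X` (`zero`), `h 1 = w b = h1 0`,
`h 2 = g0 b 1 ≠ X` (`ne_X0`), `h1 1 = g1 b 1 ≠ X` (`ne_X1`), `h1 1 ≠ h 2` (`ne_01`). Types: `T.dt X (w b)`, and `ty1` with `i = 0`.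
`en0`: `l = nod x o 0`, `e1K l = g (0 + (m1+1)) = h (m1+2)`; `t1` with `i = 0`. `en1`: if `o > 0`: `l = nod x (o-1) (2 K2 - 1)`, `(2 K2 - 1) / 2 = K2 - 1`,
`e2K l = g ((K2 - 1) Lc + (2 m1 + m2 + 3)) = g (K2 Lc - (m2+1)) = g (-(m2+1))` (`per`; `Lc = 2 (m1 + m2 + 2)`) `= h1 (m2+1)`; if `o = 0`: `l = k`,
`e2K l = g (0 - (m2+1))`. The type: `-(m2+1) = (-1) Lc + (2 m1 + m2 + 3)`, `h1 m2 = g (-(m2+1) + 1)`: `t3'` with `i = -1`.
`en2`: `l = nod x o (2 K2)`, `e1K l = ρ (0 + (m1+2)) = h2 (m1+2)`, `ty3` with `i = 0`.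
-/

namespace Pool.Agent.LHB

open Pool.Agent.LIH Pool.Agent.LHA

theorem NcZe_e1K {V : Type} {H : SimpleGraph V} {T : Typ H} (D : CK T)
    {K1 K2 Θ : ℕ} (a : ℕ → Bool) (lam : Bool → ℤ → V) (rd : ℕ → ℕ → ℤ → V) {x o r : ℕ}
    (ho : o < 3 * Θ) (hr : r < Bk K1 K2) :
    e1K D K1 K2 Θ a lam rd (nod K1 K2 Θ x o r) = e1N D K2 a lam rd x o r := by
  unfold e1K
  rw [nod_x x ho hr, nod_o x ho hr, nod_mod x o hr]

theorem NcZe_e2K {V : Type} {H : SimpleGraph V} {T : Typ H} (D : CK T)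
    {K1 K2 Θ : ℕ} (a : ℕ → Bool) (lam : Bool → ℤ → V) {x o r : ℕ}
    (ho : o < 3 * Θ) (hr : r < Bk K1 K2) :
    e2K D K1 K2 Θ a lam (nod K1 K2 Θ x o r) = e2N D K2 a lam x r := by
  unfold e2K
  rw [nod_x x ho hr, nod_mod x o hr]

theorem NcZe_stK {K1 K2 Θ : ℕ} (a : ℕ → Bool) {x o r : ℕ}
    (ho : o < 3 * Θ) (hr : r < Bk K1 K2) :
    stK K1 K2 Θ a (nod K1 K2 Θ x o r) = stN K2 a x r := by
  unfold stK
  rw [nod_x x ho hr, nod_mod x o hr]

theorem arm_zero {V : Type} [Finite V] {H : SimpleGraph V} {T : Typ H} (D : CK T)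
    {K1 K2 NV Θ : ℕ} {lt : ℕ → ℕ} (hK1 : 0 < K1) (hK2 : 0 < K2) (a : ℕ → Bool)
    (lam : Bool → ℤ → V) (rd : ℕ → ℕ → ℤ → V) (hlam : ∀ b, LD D K2 b (lam b)) {x o : ℕ}
    (hx : x < NV) (ho : o < 3 * Θ) {wl : V} (hrd : RD D K1 (a x) wl (rd x o)) :
    ∃ h h1 h2, ArmA D (lkN K1 K2 NV Θ lt) (e1K D K1 K2 Θ a lam rd) (e2K D K1 K2 Θ a lam)
      (stK K1 K2 Θ a (nod K1 K2 Θ x o 0)) (nod K1 K2 Θ x o 0) h h1 h2 := by
  have hB : 0 < Bk K1 K2 := by unfold Bk; omega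
  have hst : stK K1 K2 Θ a (nod K1 K2 Θ x o 0) = a x := by
    rw [NcZe_stK a ho hB]
    unfold stN
    rw [if_pos (by omega)]
    simp
  have hL := hlam (a x)
  refine ⟨fun j => Nat.casesOn j D.X (fun j => lam (a x) (j : ℤ)),
    fun j => lam (a x) (-(j : ℤ)), fun j => rd x o (j : ℤ), ?_⟩
  rw [hst]
  refine ⟨?_, ?_, ?_, ?_, ?_, ?_, ?_, ?_⟩
  · intro j
    refine ⟨?_, ?_, ?_⟩
    · rcases j with _ | j
      · show H.Adj D.X (lam (a x) ((0 : ℕ) : ℤ))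
        have := hL.zero
        rw [Nat.cast_zero, this]
        exact D.adj_w _
      · show H.Adj (lam (a x) (j : ℤ)) (lam (a x) ((j + 1 : ℕ) : ℤ))
        have := hL.adj (j : ℤ)
        rw [Nat.cast_add, Nat.cast_one]
        exact this
    · show H.Adj (lam (a x) (-(j : ℤ))) (lam (a x) (-((j + 1 : ℕ) : ℤ)))
      have := (hL.adj (-((j + 1 : ℕ) : ℤ))).symm
      rw [show -((j + 1 : ℕ) : ℤ) + 1 = -(j : ℤ) by push_cast; ring] at this
      exact this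
    · show H.Adj (rd x o (j : ℤ)) (rd x o ((j + 1 : ℕ) : ℤ))
      have := hrd.adj (j : ℤ)
      rw [Nat.cast_add, Nat.cast_one]
      exact this
  · intro j
    refine ⟨?_, ?_, ?_⟩
    · rcases j with _ | j
      · show D.X ≠ lam (a x) ((1 : ℕ) : ℤ)
        rw [Nat.cast_one, hL.one]
        exact (D.ne_X0 _).symm
      · show (lam (a x) (j : ℤ)) ≠ (lam (a x) ((j + 2 : ℕ) : ℤ))
        have := hL.nb (j : ℤ)
        rw [Nat.cast_add, Nat.cast_ofNat]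
        exact this
    · show (lam (a x) (-(j : ℤ))) ≠ (lam (a x) (-((j + 2 : ℕ) : ℤ)))
      have := (hL.nb (-((j + 2 : ℕ) : ℤ))).symm
      rw [show -((j + 2 : ℕ) : ℤ) + 2 = -(j : ℤ) by push_cast; ring] at this
      exact this
    · show (rd x o (j : ℤ)) ≠ (rd x o ((j + 2 : ℕ) : ℤ))
      have := hrd.nb (j : ℤ)
      rw [Nat.cast_add, Nat.cast_ofNat]
      exact this
  · show rd x o ((0 : ℕ) : ℤ) = D.X
    rw [Nat.cast_zero]
    exact hrd.zero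
  · refine ⟨?_, ?_, ?_⟩
    · show lam (a x) (-((0 : ℕ) : ℤ)) = lam (a x) ((0 : ℕ) : ℤ)
      rw [Nat.cast_zero, neg_zero]
    · show lam (a x) (-((1 : ℕ) : ℤ)) ≠ D.X
      rw [Nat.cast_one, hL.neg]
      exact D.ne_X1 _
    · show lam (a x) (-((1 : ℕ) : ℤ)) ≠ lam (a x) ((1 : ℕ) : ℤ)
      rw [Nat.cast_one, hL.neg, hL.one]
      exact (D.ne_01 _).symm
  · refine ⟨?_, ?_⟩
    · show T.dt D.X (lam (a x) ((0 : ℕ) : ℤ)) = T.dt D.X (D.w (a x))
      rw [Nat.cast_zero, hL.zero]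
    · show T.dt D.X (rd x o ((1 : ℕ) : ℤ)) = T.dt D.X (D.w (!(a x)))
      have := hrd.ty1 0
      rw [zero_mul, zero_add, hrd.zero] at this
      rw [Nat.cast_one]
      exact this
  · intro l hl
    rw [lk0_iff hx ho hB] at hl
    have hl' : l = nod K1 K2 Θ x o 0 := by
      rcases hl with ⟨-, h⟩ | ⟨h, -⟩
      · simpa using h
      · omega
    subst hl'
    rw [NcZe_e1K D a lam rd ho hB]
    have he : e1N D K2 a lam rd x o 0 = lam (a x) ((D.m1 : ℤ) + 1) := by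
      unfold e1N
      rw [if_pos (by omega)]
      simp
    rw [he]
    refine ⟨?_, ?_⟩
    · show lam (a x) ((D.m1 + 1 : ℕ) : ℤ) = _
      push_cast
      rfl
    · show T.dt _ (lam (a x) ((D.m1 : ℕ) : ℤ)) = _
      have := hL.t1 0
      rw [zero_mul, zero_add, add_sub_cancel_right] at this
      exact this
  · intro l hl
    rw [lk1_iff hK2 hx ho hB] at hl
    have key : e2K D K1 K2 Θ a lam l = lam (a x) (-((D.m2 : ℤ) + 1)) := by
      rcases hl with ⟨-, ⟨h, -⟩ | ⟨-, h, -⟩ | ⟨-, hoo, h⟩ | ⟨-, hoo, h⟩⟩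
      · omega
      · omega
      · subst h
        rw [NcZe_e2K D a lam (by omega) (by unfold Bk; omega)]
        unfold e2N
        rw [if_pos (by omega), if_neg (by omega)]
        have e1 : (2 * K2 - 1) / 2 = K2 - 1 := by omega
        rw [e1]
        have := hL.per (-((D.m2 : ℤ) + 1))
        rw [← this]
        congr 1
        have : ((K2 - 1 : ℕ) : ℤ) = (K2 : ℤ) - 1 := by
          rw [Nat.cast_sub (by omega)]; simp
        rw [this]
        unfold CK.Lc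
        push_cast
        ring
      · subst h
        rw [NcZe_e2K D a lam ho hB]
        unfold e2N
        rw [if_pos (by omega), if_pos (by omega)]
        congr 1
        simp
    rw [key]
    refine ⟨?_, ?_⟩
    · show lam (a x) (-((D.m2 + 1 : ℕ) : ℤ)) = _
      push_cast
      rfl
    · show T.dt _ (lam (a x) (-((D.m2 : ℕ) : ℤ))) = _
      have := hL.t3' (-1)
      have e1 : (-1 : ℤ) * D.Lc + (2 * D.m1 + D.m2 + 3) = -((D.m2 : ℤ) + 1) := by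
        unfold CK.Lc
        push_cast
        ring
      rw [e1, show -((D.m2 : ℤ) + 1) + 1 = -(D.m2 : ℤ) by ring] at this
      exact this
  · intro l hl
    rw [lk2_iff hx ho hB] at hl
    have hl' : l = nod K1 K2 Θ x o (2 * K2) := by
      rcases hl with ⟨-, h⟩ | ⟨h, -⟩
      · exact h
      · omega
    subst hl'
    rw [NcZe_e1K D a lam rd ho (by unfold Bk; omega)]
    have he : e1N D K2 a lam rd x o (2 * K2) = rd x o ((D.m1 : ℤ) + 2) := by
      unfold e1N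
      rw [if_neg (by omega)]
      simp
    rw [he]
    refine ⟨?_, ?_⟩
    · show rd x o ((D.m1 + 2 : ℕ) : ℤ) = _
      push_cast
      rfl
    · show T.dt _ (rd x o ((D.m1 + 1 : ℕ) : ℤ)) = _
      have := hrd.ty3 0
      rw [zero_mul, zero_add, show (D.m1 : ℤ) + 2 - 1 = ((D.m1 + 1 : ℕ) : ℤ) by push_cast; ring]
        at this
      exact this

end Pool.Agent.LHB
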