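import Pool.Agent.LHB.Defs
import Pool.Agent.LHB.TBas
import Pool.Agent.LHB.CTy
import Pool.Agent.LHB.Idx
import Pool.Agent.LHB.LayB
import Pool.Agent.LHB.LayD
import Pool.Agent.LHB.NcBits
import Pool.Agent.LHB.NcCh
import Pool.Agent.LHB.NcZe
import Pool.Agent.LHB.NcRe
import Pool.Agent.LHB.NcCl

/-!
# Completeness

Let `a` be a solution, `wl` from `slot`, `lam b` from `hLD`, `rd x o` from `hRD`: if `x = lt o` and `o < 3Θ` with `wl o`, otherwise with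
`w true` (`a x = true`) or `w false` (`a x = false`). By `arm_chain`, `arm_zero`, `arm_relay` (`nod_ex`) there are for every
`k < KN` sequences `h k, h1 k, h2 k` with `ArmA`, by `arm_clause` `h' k` with `ArmB`. `W q k = ![h k, h1 k, h2 k, h' k 0, h' k 1, h' k 2] q`,
`R k = ![h k 0, e1K k, e2K k, X]`, `bt = btK`. `Lay`: `dom`, `fn` from `Idx`; `adj`, `nb`, `st0`, `st1`, `st3`, `ty0`, `ty3` from `ArmA`, `ArmB`;
`en`: `L 0 = m1 + 1` etc., `L 1 = m2`; `et`, `et1`; `dif` from `bits_dif`. `vt1`: `e1K k` (`k = nod x o r`) is at a position with the types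
`t1` of `LD` (`rev`: `T.vt = T.vt (g0 b (m1+1))`) or `ty2` of `RD`; for `b = false` use `vt_u`. `vt2`: `t3`, `t3'`, or `g1 true (m2+1)`;
`(r/2) Lc - (m2+1) = (r/2 - 1) Lc + (2 m1 + m2 + 3)`; `vt_U`.
Finally `lay_hom`, ..., `lay_dis`, `lay_cap` are the fields of `GoodW`.
-/

namespace Pool.Agent.LHB

open Pool.Agent.LIH Pool.Agent.LHA

theorem NcAll_adj' {V : Type} {H : SimpleGraph V} {g : ℤ → V}
    (hg : ∀ j, H.Adj (g j) (g (j + 1))) (j : ℤ) : H.Adj (g j) (g (j - 1)) := by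
  have h := hg (j - 1)
  rw [sub_add_cancel] at h
  exact h.symm

theorem NcAll_vtg0 {V : Type} {H : SimpleGraph V} {T : Typ H} (D : CK T) {x y : V} {b : Bool}
    (hxy : H.Adj x y) (e : T.dt x y = T.dt (D.g0 b (D.m1 + 1)) (D.g0 b D.m1)) :
    T.vt x = T.vt (D.g0 true (D.m1 + 1)) := by
  have h := (T.rev _ _ _ _ hxy (D.adj0 b D.m1 le_rfl).symm e).1
  cases b
  · rw [h, D.vt_u]
  · exact h

theorem NcAll_vtg1 {V : Type} {H : SimpleGraph V} {T : Typ H} (D : CK T) {x y : V} {b : Bool}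
    (hxy : H.Adj x y) (e : T.dt x y = T.dt (D.g1 b (D.m2 + 1)) (D.g1 b D.m2)) :
    T.vt x = T.vt (D.g1 true (D.m2 + 1)) := by
  have h := (T.rev _ _ _ _ hxy (D.adj1 b D.m2 le_rfl).symm e).1
  cases b
  · rw [h, D.vt_U]
  · exact h

theorem NcAll_vt1 {V : Type} {H : SimpleGraph V} {T : Typ H} (D : CK T) {K1 K2 NV Θ : ℕ}
    (hK2 : 0 < K2) (a : ℕ → Bool) (lam : Bool → ℤ → V) (rd : ℕ → ℕ → ℤ → V)
    (hlam : ∀ b, LD D K2 b (lam b)) (hrd : ∀ x o, ∃ wl, RD D K1 (a x) wl (rd x o)) {k : ℕ}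
    (hk : k < KN K1 K2 NV Θ) :
    T.vt (e1K D K1 K2 Θ a lam rd k) = T.vt (D.g0 true (D.m1 + 1)) := by
  have hBk : 0 < Bk K1 K2 := by unfold Bk; omega
  obtain ⟨x, o, r, hx, ho, hr, rfl⟩ := nod_ex hBk hk
  unfold e1K
  rw [nod_x x ho hr, nod_o x ho hr, nod_mod x o hr]
  unfold e1N
  split_ifs with h
  · exact NcAll_vtg0 D (NcAll_adj' (hlam (a x)).adj _) ((hlam (a x)).t1 _)
  · obtain ⟨wl, hw⟩ := hrd x o
    exact NcAll_vtg0 D (hw.adj _) (hw.ty2 _)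

theorem NcAll_vt2 {V : Type} {H : SimpleGraph V} {T : Typ H} (D : CK T) {K1 K2 NV Θ : ℕ}
    (hK2 : 0 < K2) (a : ℕ → Bool) (lam : Bool → ℤ → V)
    (hlam : ∀ b, LD D K2 b (lam b)) {k : ℕ}
    (hk : k < KN K1 K2 NV Θ) :
    T.vt (e2K D K1 K2 Θ a lam k) = T.vt (D.g1 true (D.m2 + 1)) := by
  have hBk : 0 < Bk K1 K2 := by unfold Bk; omega
  obtain ⟨x, o, r, hx, ho, hr, rfl⟩ := nod_ex hBk hk
  unfold e2K
  rw [nod_x x ho hr, nod_mod x o hr]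
  unfold e2N
  split_ifs with h h2
  · have e : ((r / 2 : ℕ) : ℤ) * (D.Lc : ℤ) - ((D.m2 : ℤ) + 1) =
        (((r / 2 : ℕ) : ℤ) - 1) * (D.Lc : ℤ) + (2 * (D.m1 : ℤ) + (D.m2 : ℤ) + 3) := by
      unfold CK.Lc
      push_cast
      ring
    rw [e]
    exact NcAll_vtg1 D (NcAll_adj' (hlam (a x)).adj _) ((hlam (a x)).t3 _)
  · exact NcAll_vtg1 D (NcAll_adj' (hlam (a x)).adj _) ((hlam (a x)).t3 _)
  · rfl

theorem NcAll_rd {V : Type} {H : SimpleGraph V} {T : Typ H} (D : CK T) {K1 Θ : ℕ}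
    {lt : ℕ → ℕ} (hRD : ∀ b wl, OKs D b wl → ∃ g, RD D K1 b wl g) (a : ℕ → Bool) (wl : ℕ → V)
    (hwl : ∀ o < 3 * Θ, OKs D (a (lt o)) (wl o)) :
    ∃ rd : ℕ → ℕ → ℤ → V, (∀ x o, ∃ w', RD D K1 (a x) w' (rd x o)) ∧
      ∀ o < 3 * Θ, RD D K1 (a (lt o)) (wl o) (rd (lt o) o) := by
  have key : ∀ x o, ∃ g, (∃ w', RD D K1 (a x) w' g) ∧
      (o < 3 * Θ → x = lt o → RD D K1 (a x) (wl o) g) := by
    intro x o
    by_cases h : o < 3 * Θ ∧ x = lt o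
    · obtain ⟨h1, rfl⟩ := h
      obtain ⟨g, hg⟩ := hRD _ _ (hwl o h1)
      exact ⟨g, ⟨_, hg⟩, fun _ _ => hg⟩
    · have hOK : OKs D (a x) (D.w (a x)) := by
        unfold OKs
        cases a x
        · exact Or.inr ⟨rfl, Or.inl rfl⟩
        · exact Or.inl ⟨rfl, rfl⟩
      obtain ⟨g, hg⟩ := hRD _ _ hOK
      exact ⟨g, ⟨_, hg⟩, fun h1 h2 => absurd ⟨h1, h2⟩ h⟩
  choose rd h1 h2 using key
  exact ⟨rd, h1, fun o ho => h2 (lt o) o ho rfl⟩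

theorem NcAll_arm {V : Type} [Finite V] {H : SimpleGraph V} {T : Typ H}
    (h3 : ∀ v, 3 ≤ (H.neighborSet v).ncard) (D : CK T) {K1 K2 NV Θ : ℕ} {lt : ℕ → ℕ}
    (hK1 : 0 < K1) (hK2 : 0 < K2) (a : ℕ → Bool) (lam : Bool → ℤ → V) (rd : ℕ → ℕ → ℤ → V)
    (hlam : ∀ b, LD D K2 b (lam b)) (hrd : ∀ x o, ∃ wl, RD D K1 (a x) wl (rd x o)) {k : ℕ}
    (hk : k < KN K1 K2 NV Θ) :
    ∃ h h1 h2, ArmA D (lkN K1 K2 NV Θ lt) (e1K D K1 K2 Θ a lam rd) (e2K D K1 K2 Θ a lam)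
      (stK K1 K2 Θ a k) k h h1 h2 := by
  have hBk : 0 < Bk K1 K2 := by unfold Bk; omega
  obtain ⟨x, o, r, hx, ho, hr, rfl⟩ := nod_ex hBk hk
  obtain ⟨wl, hw⟩ := hrd x o
  by_cases h1 : r < 2 * K2
  · by_cases h2 : 0 < r
    · exact arm_chain h3 D hK1 hK2 a lam rd hlam hx ho h2 h1
    · obtain rfl : r = 0 := by omega
      exact arm_zero D hK1 hK2 a lam rd hlam hx ho hw
  · exact arm_relay h3 D hK1 hK2 a lam rd hx ho (by omega) hr hw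

/-- the walks -/
def NcAll_W {V : Type} (h h1 h2 : ℕ → ℕ → V) (h' : ℕ → Fin 3 → ℕ → V) : Fin 6 → ℕ → ℕ → V
  | 0, k => h k
  | 1, k => h1 k
  | 2, k => h2 k
  | 3, k => h' k 0
  | 4, k => h' k 1
  | 5, k => h' k 2

/-- the roots -/
def NcAll_R {V : Type} (h : ℕ → ℕ → V) (e1 e2 : ℕ → V) (X : V) (k : ℕ) : Fin 4 → V
  | 0 => h k 0
  | 1 => e1 k
  | 2 => e2 k
  | 3 => X

theorem NcAll_lay {V : Type} {H : SimpleGraph V} {T : Typ H} (D : CK T) {K1 K2 NV Θ : ℕ}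
    {lt : ℕ → ℕ} (hK1 : 0 < K1) (hK2 : 0 < K2) (hlt : ∀ o < 3 * Θ, lt o < NV) (a : ℕ → Bool)
    (e1 e2 : ℕ → V) (h h1 h2 : ℕ → ℕ → V) (h' : ℕ → Fin 3 → ℕ → V)
    (hA : ∀ k < KN K1 K2 NV Θ, ArmA D (lkN K1 K2 NV Θ lt) e1 e2 (stK K1 K2 Θ a k) k (h k)
      (h1 k) (h2 k))
    (hB : ∀ k < KN K1 K2 NV Θ, ArmB D (lkN K1 K2 NV Θ lt) e1 (cbK K1 K2 a lt k) k (h' k))
    (v1 : ∀ k < KN K1 K2 NV Θ, T.vt (e1 k) = T.vt (D.g0 true (D.m1 + 1)))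
    (v2 : ∀ k < KN K1 K2 NV Θ, T.vt (e2 k) = T.vt (D.g1 true (D.m2 + 1))) :
    Lay D (KN K1 K2 NV Θ) (lkN K1 K2 NV Θ lt) (NcAll_W h h1 h2 h') (NcAll_R h e1 e2 D.X)
      (btK K1 K2 Θ a lt) where
  dom := lk_dom hK1 hK2 hlt
  fn := lk_fn hK1 hK2
  adj := by
    intro q k j hk
    match q with
    | 0 => exact ((hA k hk).adj j).1
    | 1 => exact ((hA k hk).adj j).2.1
    | 2 => exact ((hA k hk).adj j).2.2
    | 3 => exact (hB k hk).adj 0 j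
    | 4 => exact (hB k hk).adj 1 j
    | 5 => exact (hB k hk).adj 2 j
  nb := by
    intro q k j hk
    match q with
    | 0 => exact ((hA k hk).nb j).1
    | 1 => exact ((hA k hk).nb j).2.1
    | 2 => exact ((hA k hk).nb j).2.2
    | 3 => exact (hB k hk).nb 0 j
    | 4 => exact (hB k hk).nb 1 j
    | 5 => exact (hB k hk).nb 2 j
  st0 := fun k hk => ⟨rfl, (hA k hk).st0⟩
  st1 := fun k hk => (hA k hk).st1
  st3 := fun k hk => ⟨rfl, (hB k hk).st 0, (hB k hk).st 1, (hB k hk).st 2⟩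
  ty0 := fun k hk => ⟨_, (hA k hk).ty⟩
  ty3 := by
    intro k hk
    have hi := (hB k hk).inj
    refine ⟨?_, ?_, ?_, (hB k hk).mem 0, (hB k hk).mem 1, (hB k hk).mem 2⟩
    · exact fun e => absurd (@hi 0 1 e) (by decide)
    · exact fun e => absurd (@hi 0 2 e) (by decide)
    · exact fun e => absurd (@hi 1 2 e) (by decide)
  vt1 := v1
  vt2 := v2
  en := by
    intro q k l hl
    have hk := (lk_dom hK1 hK2 hlt q k l hl).1
    match q with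
    | 0 => exact ((hA k hk).en0 l hl).1
    | 1 => exact ((hA k hk).en1 l hl).1
    | 2 => exact ((hA k hk).en2 l hl).1
    | 3 => exact ((hB k hk).en 0 l hl).1
    | 4 => exact ((hB k hk).en 1 l hl).1
    | 5 => exact ((hB k hk).en 2 l hl).1
  et := by
    intro q k l hq hl
    have hk := (lk_dom hK1 hK2 hlt q k l hl).1
    match q with
    | 0 => exact ((hA k hk).en0 l hl).2
    | 1 => exact absurd rfl hq
    | 2 => exact ((hA k hk).en2 l hl).2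
    | 3 => exact ((hB k hk).en 0 l hl).2
    | 4 => exact ((hB k hk).en 1 l hl).2
    | 5 => exact ((hB k hk).en 2 l hl).2
  et1 := by
    intro k l hl
    have hk := (lk_dom hK1 hK2 hlt 1 k l hl).1
    exact ((hA k hk).en1 l hl).2
  dif := bits_dif hK1 hK2 hlt a

theorem nc_all {V : Type} [Finite V] {H : SimpleGraph V} {T : Typ H}
    (h3 : ∀ v, 3 ≤ (H.neighborSet v).ncard) (D : CK T) {K1 K2 NV Θ : ℕ} {lt : ℕ → ℕ}
    (hK1 : 0 < K1) (hK2 : 0 < K2) (hRD : ∀ b wl, OKs D b wl → ∃ g, RD D K1 b wl g)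
    (hLD : ∀ b, ∃ g, LD D K2 b g) (hlt : ∀ o < 3 * Θ, lt o < NV) (h : PSol Θ lt) :
    ∃ (c : Fin (KN K1 K2 NV Θ) → (Fin 6 × Fin D.len) → V)
      (x : Fin (KN K1 K2 NV Θ) → Fin 4 → V),
      GoodW T D.a D.F D.B (atN D (KN K1 K2 NV Θ) (lkN K1 K2 NV Θ lt)) c x := by
  obtain ⟨a, ha⟩ := h
  obtain ⟨wl, hwl, hwl'⟩ := slot D ha
  choose lam hlam using hLD
  obtain ⟨rd, hrd, hrd'⟩ := NcAll_rd D hRD a wl hwl
  have kA : ∀ k, ∃ h h1 h2, k < KN K1 K2 NV Θ →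
      ArmA D (lkN K1 K2 NV Θ lt) (e1K D K1 K2 Θ a lam rd) (e2K D K1 K2 Θ a lam)
      (stK K1 K2 Θ a k) k h h1 h2 := by
    intro k
    by_cases hk : k < KN K1 K2 NV Θ
    · obtain ⟨h, h1, h2, hh⟩ := NcAll_arm (lt := lt) h3 D hK1 hK2 a lam rd hlam hrd hk
      exact ⟨h, h1, h2, fun _ => hh⟩
    · exact ⟨fun _ => D.X, fun _ => D.X, fun _ => D.X, fun hk' => absurd hk' hk⟩
  have kB : ∀ k, ∃ h, k < KN K1 K2 NV Θ →
      ArmB D (lkN K1 K2 NV Θ lt) (e1K D K1 K2 Θ a lam rd) (cbK K1 K2 a lt k) k h := by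
    intro k
    by_cases hk : k < KN K1 K2 NV Θ
    · obtain ⟨h, hh⟩ := arm_clause h3 D hK1 hK2 hlt a lam rd wl hwl hwl' hrd' hk
      exact ⟨h, fun _ => hh⟩
    · exact ⟨fun _ _ => D.X, fun hk' => absurd hk' hk⟩
  choose h h1 h2 hA using kA
  choose h' hB using kB
  have L := NcAll_lay D hK1 hK2 hlt a _ _ h h1 h2 h' hA hB
    (fun k hk => NcAll_vt1 D hK2 a lam rd hlam hrd hk) (fun k hk => NcAll_vt2 D hK2 a lam hlam hk)
  refine ⟨cW D (NcAll_W h h1 h2 h'), xR (NcAll_R h (e1K D K1 K2 Θ a lam rd)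
    (e2K D K1 K2 Θ a lam) D.X), ?_⟩
  exact ⟨lay_hom L, lay_inj L, lay_vt L, fun k y l i => lay_adj L k y l i, lay_cap L,
    lay_ne L, lay_ne' L, lay_dis L⟩

end Pool.Agent.LHB
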