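import Pool.Agent.LHB.Defs
import Pool.Agent.LHB.Idx

/-!
# Soundness of the network

Let `bt` be as in `BSol`, `a x = bt 0 (nod x 0 0)`. Let `x < NV`, `o < 3Θ`.
(1) `bt 0 (nod x o r) = xor (bt 0 (nod x o 0)) (r odd)` for `r < 2 K2`: induction. `r` even, `r + 1 < 2 K2`: both `nod x o r` and
`nod x o (r+1)` are linked by `lk 0` to `nod x o r`; `r` odd, `r + 1 < 2 K2`: both are linked by `lk 1` to `nod x o r` (`lk 0` exists
for both, as `lk0_iff` shows).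
(2) `bt 0 (nod x o 0) = a x`: induction on `o`: `nod x (o+1) 0` and `nod x o (2 K2 - 1)` are linked by `lk 1` to
`nod x o (2 K2 - 1)`, and `2 K2 - 1` is odd.
(3) relays: for `j < K1`: the vertex `nod x o (2 K2 + j)` receives by `lk 2` a link from a cell `k` with `bt 2 k = !(a x)`:
`j = 0`: `k = nod x o 0`. `j + 1`: `k = nod x o (2 K2 + j)`: `lk 0 k k` (`2 K2 + j + 1 < Bk`), so by induction (the two different links
`(0, k)` and `(2, k')` to `k`) `bt 0 k ≠ bt 2 k' = !(a x)`, i.e. `bt 0 k = a x`, `bt 2 k = !(a x)`.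
(4) triple `θ < Θ`, `k = nod 0 (3θ) 0`, `NV > 0`: `lkc_iff`: the arm `ca i` of `k` is linked to `nod (lt (3θ+i)) (3θ+i) (Bk - 1)`, and by (3)
(`j = K1 - 1`) some cell `k'` with `bt 2 k' = !(a (lt (3θ+i)))` is linked to it by `lk 2`; so `bt (ca i) k = a (lt (3θ + i))`. The
`modeOK 0` of `k` is the claim.
-/

namespace Pool.Agent.LHB

open Pool.Agent.LIH Pool.Agent.LHA

section aux

variable {K1 K2 NV Θ : ℕ} {lt : ℕ → ℕ} {bt : Fin 6 → ℕ → Bool}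

/-- step in a chain -/
theorem NetS_step (hK2 : 0 < K2)
    (h2 : ∀ q q' k k' l, q ≠ 1 → q' ≠ 1 → lkN K1 K2 NV Θ lt q k l → lkN K1 K2 NV Θ lt q' k' l →
      (q ≠ q' ∨ k ≠ k') → bt q k ≠ bt q' k')
    (h3 : ∀ k k' l, lkN K1 K2 NV Θ lt 1 k l → lkN K1 K2 NV Θ lt 1 k' l → k ≠ k' →
      (∃ l0, lkN K1 K2 NV Θ lt 0 k l0) → (∃ l0, lkN K1 K2 NV Θ lt 0 k' l0) → bt 0 k ≠ bt 0 k')
    {x o r : ℕ} (hx : x < NV) (ho : o < 3 * Θ) (hr : r + 1 < 2 * K2) :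
    bt 0 (nod K1 K2 Θ x o (r + 1)) = !bt 0 (nod K1 K2 Θ x o r) := by
  have hB : Bk K1 K2 = 2 * K2 + K1 := rfl
  have hr1 : r < Bk K1 K2 := by omega
  have hr2 : r + 1 < Bk K1 K2 := by omega
  have hne : nod K1 K2 Θ x o (r + 1) ≠ nod K1 K2 Θ x o r := by
    intro h
    have := (nod_inj ho hr2 ho hr1 h).2.2
    omega
  have key : bt 0 (nod K1 K2 Θ x o (r + 1)) ≠ bt 0 (nod K1 K2 Θ x o r) := by
    rcases Nat.mod_two_eq_zero_or_one r with h0 | h0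
    · refine h2 0 0 _ _ (nod K1 K2 Θ x o r) (by decide) (by decide) ?_ ?_ (Or.inr hne)
      · rw [lk0_iff hx ho hr2]
        left
        refine ⟨hr, ?_⟩
        congr 1
        omega
      · rw [lk0_iff hx ho hr1]
        left
        refine ⟨by omega, ?_⟩
        congr 1
        omega
    · refine h3 _ _ (nod K1 K2 Θ x o r) ?_ ?_ hne ?_ ?_
      · rw [lk1_iff hK2 hx ho hr2]
        refine ⟨hr, ?_⟩
        right; left
        refine ⟨by omega, by omega, ?_⟩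
        congr 1
      · rw [lk1_iff hK2 hx ho hr1]
        exact ⟨by omega, Or.inl ⟨h0, rfl⟩⟩
      · refine ⟨nod K1 K2 Θ x o (r + 1 - (r + 1) % 2), ?_⟩
        rw [lk0_iff hx ho hr2]
        exact Or.inl ⟨hr, rfl⟩
      · refine ⟨nod K1 K2 Θ x o (r - r % 2), ?_⟩
        rw [lk0_iff hx ho hr1]
        exact Or.inl ⟨by omega, rfl⟩
  revert key
  cases bt 0 (nod K1 K2 Θ x o (r + 1)) <;> cases bt 0 (nod K1 K2 Θ x o r) <;> simp

theorem NetS_chain (hK2 : 0 < K2)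
    (h2 : ∀ q q' k k' l, q ≠ 1 → q' ≠ 1 → lkN K1 K2 NV Θ lt q k l → lkN K1 K2 NV Θ lt q' k' l →
      (q ≠ q' ∨ k ≠ k') → bt q k ≠ bt q' k')
    (h3 : ∀ k k' l, lkN K1 K2 NV Θ lt 1 k l → lkN K1 K2 NV Θ lt 1 k' l → k ≠ k' →
      (∃ l0, lkN K1 K2 NV Θ lt 0 k l0) → (∃ l0, lkN K1 K2 NV Θ lt 0 k' l0) → bt 0 k ≠ bt 0 k')
    {x o : ℕ} (hx : x < NV) (ho : o < 3 * Θ) (r : ℕ) (hr : r < 2 * K2) :
    bt 0 (nod K1 K2 Θ x o r) = xor (bt 0 (nod K1 K2 Θ x o 0)) (decide (r % 2 = 1)) := by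
  induction r with
  | zero => simp
  | succ r ih =>
    rw [NetS_step hK2 h2 h3 hx ho hr, ih (by omega)]
    rcases Nat.mod_two_eq_zero_or_one r with h0 | h0
    · have h1 : (r + 1) % 2 = 1 := by omega
      simp [h0, h1]
    · have h1 : (r + 1) % 2 = 0 := by omega
      simp [h0, h1]

theorem NetS_all (hK2 : 0 < K2)
    (h2 : ∀ q q' k k' l, q ≠ 1 → q' ≠ 1 → lkN K1 K2 NV Θ lt q k l → lkN K1 K2 NV Θ lt q' k' l →
      (q ≠ q' ∨ k ≠ k') → bt q k ≠ bt q' k')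
    (h3 : ∀ k k' l, lkN K1 K2 NV Θ lt 1 k l → lkN K1 K2 NV Θ lt 1 k' l → k ≠ k' →
      (∃ l0, lkN K1 K2 NV Θ lt 0 k l0) → (∃ l0, lkN K1 K2 NV Θ lt 0 k' l0) → bt 0 k ≠ bt 0 k')
    {x : ℕ} (hx : x < NV) (o : ℕ) (ho : o < 3 * Θ) :
    bt 0 (nod K1 K2 Θ x o 0) = bt 0 (nod K1 K2 Θ x 0 0) := by
  induction o with
  | zero => rfl
  | succ o ih =>
    have hB : Bk K1 K2 = 2 * K2 + K1 := rfl
    have ho' : o < 3 * Θ := by omega
    rw [← ih ho']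
    have hc := NetS_chain hK2 h2 h3 hx ho' (2 * K2 - 1) (by omega)
    have h1 : (2 * K2 - 1) % 2 = 1 := by omega
    have hr1 : 0 < Bk K1 K2 := by omega
    have hr2 : 2 * K2 - 1 < Bk K1 K2 := by omega
    have key : bt 0 (nod K1 K2 Θ x (o + 1) 0) ≠ bt 0 (nod K1 K2 Θ x o (2 * K2 - 1)) := by
      refine h3 _ _ (nod K1 K2 Θ x o (2 * K2 - 1)) ?_ ?_ ?_ ?_ ?_
      · rw [lk1_iff hK2 hx ho hr1]
        refine ⟨by omega, ?_⟩
        right; right; left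
        exact ⟨rfl, by omega, rfl⟩
      · rw [lk1_iff hK2 hx ho' hr2]
        exact ⟨by omega, Or.inl ⟨h1, rfl⟩⟩
      · intro h
        have := (nod_inj ho hr1 ho' hr2 h).2.1
        omega
      · refine ⟨nod K1 K2 Θ x (o + 1) 0, ?_⟩
        rw [lk0_iff hx ho hr1]
        exact Or.inl ⟨by omega, rfl⟩
      · refine ⟨nod K1 K2 Θ x o (2 * K2 - 1 - (2 * K2 - 1) % 2), ?_⟩
        rw [lk0_iff hx ho' hr2]
        exact Or.inl ⟨by omega, rfl⟩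
    rw [hc] at key
    revert key
    cases bt 0 (nod K1 K2 Θ x (o + 1) 0) <;> cases bt 0 (nod K1 K2 Θ x o 0) <;> simp [h1]

theorem NetS_relay (hK1 : 0 < K1) (hK2 : 0 < K2)
    (h1 : ∀ k < KN K1 K2 NV Θ, bt 2 k = !bt 0 k)
    (h2 : ∀ q q' k k' l, q ≠ 1 → q' ≠ 1 → lkN K1 K2 NV Θ lt q k l → lkN K1 K2 NV Θ lt q' k' l →
      (q ≠ q' ∨ k ≠ k') → bt q k ≠ bt q' k')
    (h3 : ∀ k k' l, lkN K1 K2 NV Θ lt 1 k l → lkN K1 K2 NV Θ lt 1 k' l → k ≠ k' →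
      (∃ l0, lkN K1 K2 NV Θ lt 0 k l0) → (∃ l0, lkN K1 K2 NV Θ lt 0 k' l0) → bt 0 k ≠ bt 0 k')
    {x o : ℕ} (hx : x < NV) (ho : o < 3 * Θ) (j : ℕ) (hj : j < K1) :
    ∃ k, lkN K1 K2 NV Θ lt 2 k (nod K1 K2 Θ x o (2 * K2 + j)) ∧
      bt 2 k = !bt 0 (nod K1 K2 Θ x 0 0) := by
  have hB : Bk K1 K2 = 2 * K2 + K1 := rfl
  induction j with
  | zero =>
    refine ⟨nod K1 K2 Θ x o 0, ?_, ?_⟩
    · rw [lk2_iff hx ho (by omega)]
      exact Or.inl ⟨rfl, rfl⟩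
    · rw [h1 _ (nod_lt hx ho (by omega)), NetS_all hK2 h2 h3 hx o ho]
  | succ j ih =>
    obtain ⟨k', hk', hb⟩ := ih (by omega)
    have hr : 2 * K2 + j < Bk K1 K2 := by omega
    refine ⟨nod K1 K2 Θ x o (2 * K2 + j), ?_, ?_⟩
    · rw [lk2_iff hx ho hr]
      exact Or.inr ⟨by omega, by omega, rfl⟩
    · rw [h1 _ (nod_lt hx ho hr)]
      have key : bt 0 (nod K1 K2 Θ x o (2 * K2 + j)) ≠ bt 2 k' := by
        refine h2 0 2 _ _ (nod K1 K2 Θ x o (2 * K2 + j)) (by decide) (by decide) ?_ hk'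
          (Or.inl (by decide))
        rw [lk0_iff hx ho hr]
        exact Or.inr ⟨by omega, by omega, rfl⟩
      rw [hb] at key
      revert key
      cases bt 0 (nod K1 K2 Θ x o (2 * K2 + j)) <;> cases bt 0 (nod K1 K2 Θ x 0 0) <;> simp

end aux

theorem psol_of_bsol {K1 K2 NV Θ : ℕ} {lt : ℕ → ℕ} (hK1 : 0 < K1) (hK2 : 0 < K2)
    (hlt : ∀ o < 3 * Θ, lt o < NV) (h : BSol (lkN K1 K2 NV Θ lt) (KN K1 K2 NV Θ)) :
    PSol Θ lt := by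
  obtain ⟨bt, h1, h2, h3⟩ := h
  have hB : Bk K1 K2 = 2 * K2 + K1 := rfl
  refine ⟨fun x => bt 0 (nod K1 K2 Θ x 0 0), ?_⟩
  intro θ hθ
  have hNV : 0 < NV := lt_of_le_of_lt (Nat.zero_le _) (hlt (3 * θ) (by omega))
  have hk : nod K1 K2 Θ 0 (3 * θ) 0 < KN K1 K2 NV Θ := nod_lt hNV (by omega) (by omega)
  have hm := (h1 _ hk).2
  have key : ∀ i : Fin 3, bt (ca i) (nod K1 K2 Θ 0 (3 * θ) 0) =
      bt 0 (nod K1 K2 Θ (lt (3 * θ + i.1)) 0 0) := by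
    intro i
    have hi := i.2
    have ho : 3 * θ + i.1 < 3 * Θ := by omega
    obtain ⟨k', hk', hb⟩ := NetS_relay hK1 hK2 (fun k hk => (h1 k hk).1) h2 h3
      (hlt _ ho) ho (K1 - 1) (by omega)
    have hr : 2 * K2 + (K1 - 1) = Bk K1 K2 - 1 := by omega
    rw [hr] at hk'
    have hca : ca i ≠ 1 ∧ ca i ≠ 2 := by
      fin_cases i <;> decide
    have hne : bt (ca i) (nod K1 K2 Θ 0 (3 * θ) 0) ≠ bt 2 k' := by
      refine h2 (ca i) 2 _ _ _ hca.1 (by decide) ?_ hk' (Or.inl hca.2)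
      rw [lkc_iff i hNV (by omega) (by omega)]
      exact ⟨rfl, rfl, by omega, rfl⟩
    rw [hb] at hne
    revert hne
    cases bt (ca i) (nod K1 K2 Θ 0 (3 * θ) 0) <;>
      cases bt 0 (nod K1 K2 Θ (lt (3 * θ + i.1)) 0 0) <;> simp
  have he : (fun i : Fin 3 => bt 0 (nod K1 K2 Θ (lt (3 * θ + i.1)) 0 0)) =
      ![bt 3 (nod K1 K2 Θ 0 (3 * θ) 0), bt 4 (nod K1 K2 Θ 0 (3 * θ) 0),
        bt 5 (nod K1 K2 Θ 0 (3 * θ) 0)] := by
    funext i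
    rw [← key i]
    fin_cases i <;> rfl
  show modeOK 0 (fun i : Fin 3 => bt 0 (nod K1 K2 Θ (lt (3 * θ + i.1)) 0 0))
  rw [he]
  exact hm

end Pool.Agent.LHB
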