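import Pool.Agent.LHB.Defs

/-!
# Numbering the graph of a network

The same as `LHA/NumG.lean` (`netG_adj`, `exists_numN`), with `N.K`, `N.lk` replaced by `K`, `lk`.
-/

namespace Pool.Agent.LHB

open Pool.Agent.LIH Pool.Agent.LHA

theorem netG_adj {V : Type} {H : SimpleGraph V} {T : Typ H} (D : Gd T) (K : ℕ)
    (lk : Fin 6 → ℕ → ℕ → Prop) (k l : Fin K) (x y : D.Z) :
    (netG D K lk).Adj (k, x) (l, y) ↔ adjZ D lk k.1 l.1 x y := by
  unfold netG
  rw [glue_adj]
  obtain x | x := x <;> obtain y | y := y <;> simp only [gAdj, adjZ, atN, Fin.ext_iff]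

/-- the numbering -/
noncomputable def NumB_e {V : Type} {H : SimpleGraph V} {T : Typ H} (D : Gd T) (K : ℕ) :
    Fin K × D.Z ≃ Fin (K * D.M) :=
  (Equiv.prodCongr (Equiv.refl (Fin K)) D.num).trans finProdFinEquiv

theorem NumB_e_val {V : Type} {H : SimpleGraph V} {T : Typ H} (D : Gd T) (K : ℕ) (k : Fin K)
    (x : D.Z) : (NumB_e D K (k, x)).1 = (D.num x).1 + D.M * k.1 := by
  simp [NumB_e, finProdFinEquiv]

theorem exists_numN {V : Type} {H : SimpleGraph V} {T : Typ H} (D : Gd T) (K : ℕ)
    (lk : Fin 6 → ℕ → ℕ → Prop) :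
    ∃ G : SimpleGraph (Fin (K * D.M)), (∀ a b, G.Adj a b ↔ adjM D K lk a.1 b.1) ∧
      ((∃ f, LocInj G H f) ↔ ∃ f, LocInj (netG D K lk) H f) := by
  refine ⟨(netG D K lk).comap (NumB_e D K).symm, ?_, ?_⟩
  · intro a b
    obtain ⟨⟨k, s⟩, rfl⟩ := (NumB_e D K).surjective a
    obtain ⟨⟨l, t⟩, rfl⟩ := (NumB_e D K).surjective b
    rw [SimpleGraph.comap_adj, Equiv.symm_apply_apply, Equiv.symm_apply_apply, netG_adj]
    constructor
    · intro hh
      exact ⟨s, t, k.1, k.2, l.1, l.2, NumB_e_val _ _ _ _, NumB_e_val _ _ _ _, hh⟩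
    · rintro ⟨s', t', k', hk', l', hl', h1, h2, h4⟩
      rw [← NumB_e_val D K ⟨k', hk'⟩ s'] at h1
      rw [← NumB_e_val D K ⟨l', hl'⟩ t'] at h2
      have e1 := (NumB_e D K).injective (Fin.ext h1)
      have e2 := (NumB_e D K).injective (Fin.ext h2)
      rw [Prod.mk.injEq] at e1 e2
      obtain ⟨rfl, rfl⟩ := e1
      obtain ⟨rfl, rfl⟩ := e2
      exact h4
  · constructor
    · rintro ⟨f, hf1, hf2⟩
      refine ⟨fun v => f (NumB_e D K v), ?_, ?_⟩
      · intro u v huv
        apply hf1
        rw [SimpleGraph.comap_adj, Equiv.symm_apply_apply, Equiv.symm_apply_apply]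
        exact huv
      · intro v a ha b hb hab
        have := @hf2 (NumB_e D K v) (NumB_e D K a)
          (by
            rw [SimpleGraph.mem_neighborSet, SimpleGraph.comap_adj, Equiv.symm_apply_apply,
              Equiv.symm_apply_apply]
            exact ha) (NumB_e D K b)
          (by
            rw [SimpleGraph.mem_neighborSet, SimpleGraph.comap_adj, Equiv.symm_apply_apply,
              Equiv.symm_apply_apply]
            exact hb) hab
        exact (NumB_e D K).injective this
    · rintro ⟨f, hf1, hf2⟩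
      refine ⟨fun v => f ((NumB_e D K).symm v), ?_, ?_⟩
      · intro u v huv
        exact hf1 _ _ huv
      · intro v a ha b hb hab
        have := @hf2 ((NumB_e D K).symm v) ((NumB_e D K).symm a) ha
          ((NumB_e D K).symm b) hb hab
        exact (NumB_e D K).symm.injective this

end Pool.Agent.LHB
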