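import Pool.Agent.LHB.Defs

/-!
# Positive triples
-/

namespace Pool.Agent.LHB

open Pool.Agent.LIH Pool.Agent.LHA

theorem ltP_lt {Nv L m : ℕ} {lit : ℕ → ℕ}
    (hlt : ∀ o < 3 * (2 * L + 1), lit3 0 Nv L m lit o < 2 * Np Nv L) :
    ∀ o < 3 * Tp Nv L, ltP Nv L m lit o < 2 * Np Nv L + 2 := by
  intro o _
  unfold ltP
  split_ifs with h1 h2 h3 h4
  · have := hlt o (by omega)
    omega
  · omega
  · omega
  · omega
  · omega

theorem PosT_a {Nv L m : ℕ} {lit : ℕ → ℕ} {θ : ℕ} (hθ : θ < 2 * L + 1) (i : Fin 3) :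
    ltP Nv L m lit (3 * θ + i.1) = lit3 0 Nv L m lit (3 * θ + i.1) := by
  unfold ltP
  rw [if_pos]
  have := i.2
  omega

theorem PosT_b {Nv L m : ℕ} {lit : ℕ → ℕ} {v : ℕ} (hv : v < Np Nv L) (i : Fin 3) :
    ltP Nv L m lit (3 * (2 * L + 1 + v) + i.1) = if i.1 = 2 then 2 * Np Nv L else 2 * v + i.1 := by
  have hi := i.2
  have h1 : (3 * (2 * L + 1 + v) + i.1) / 3 = 2 * L + 1 + v := by omega
  have h2 : (3 * (2 * L + 1 + v) + i.1) % 3 = i.1 := by omega
  unfold ltP
  rw [h1, h2, if_neg (by omega), if_pos (by omega)]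
  split_ifs
  · rfl
  · omega

theorem PosT_c {Nv L m : ℕ} {lit : ℕ → ℕ} (i : Fin 3) :
    ltP Nv L m lit (3 * (2 * L + 1 + Np Nv L) + i.1) =
      if i.1 = 2 then 2 * Np Nv L + 1 else 2 * Np Nv L := by
  have hi := i.2
  have h1 : (3 * (2 * L + 1 + Np Nv L) + i.1) / 3 = 2 * L + 1 + Np Nv L := by omega
  have h2 : (3 * (2 * L + 1 + Np Nv L) + i.1) % 3 = i.1 := by omega
  unfold ltP
  rw [h1, h2, if_neg (by omega), if_neg (by omega)]

theorem psol_iff {Nv L m : ℕ} {lit : ℕ → ℕ}
    (hlt : ∀ o < 3 * (2 * L + 1), lit3 0 Nv L m lit o < 2 * Np Nv L) :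
    PSol (Tp Nv L) (ltP Nv L m lit) ↔ TSol (modeOK 0) (2 * L + 1) (lit3 0 Nv L m lit) := by
  constructor
  · rintro ⟨a, ha⟩
    have hN : a (2 * Np Nv L) = false := by
      have h := ha (2 * L + 1 + Np Nv L) (by unfold Tp; omega)
      simp only [PosT_c] at h
      have h' : (a (2 * Np Nv L) = true ∧ a (2 * Np Nv L) = false ∧ a (2 * Np Nv L + 1) = false) ∨
        (a (2 * Np Nv L) = false ∧ a (2 * Np Nv L) = true ∧ a (2 * Np Nv L + 1) = false) ∨
        (a (2 * Np Nv L) = false ∧ a (2 * Np Nv L) = false ∧ a (2 * Np Nv L + 1) = true) := h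
      rcases h' with ⟨h1, h2, -⟩ | ⟨h1, -⟩ | ⟨h1, -⟩
      · exact h2
      · exact h1
      · exact h1
    have hv : ∀ v < Np Nv L, a (2 * v + 1) = !a (2 * v) := by
      intro v hv
      have h := ha (2 * L + 1 + v) (by unfold Tp; omega)
      simp only [PosT_b hv] at h
      have h' : (a (2 * v) = true ∧ a (2 * v + 1) = false ∧ a (2 * Np Nv L) = false) ∨
        (a (2 * v) = false ∧ a (2 * v + 1) = true ∧ a (2 * Np Nv L) = false) ∨
        (a (2 * v) = false ∧ a (2 * v + 1) = false ∧ a (2 * Np Nv L) = true) := h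
      rcases h' with ⟨h1, h2, -⟩ | ⟨h1, h2, -⟩ | ⟨-, -, h3⟩
      · rw [h1, h2]; rfl
      · rw [h1, h2]; rfl
      · rw [hN] at h3
        exact absurd h3 (by decide)
    have hl : ∀ l < 2 * Np Nv L, lval (fun v => a (2 * v)) l = a l := by
      intro l hl
      unfold lval
      rcases Nat.even_or_odd' l with ⟨v, hv' | hv'⟩
      · subst hv'
        have h1 : 2 * v / 2 = v := by omega
        have h2 : ¬ (2 * v % 2 = 1) := by omega
        rw [h1, decide_eq_false h2, Bool.xor_false]
      · subst hv'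
        have h1 : (2 * v + 1) / 2 = v := by omega
        have h2 : (2 * v + 1) % 2 = 1 := by omega
        rw [h1, decide_eq_true h2, Bool.xor_true, hv v (by omega)]
    refine ⟨fun v => a (2 * v), fun θ hθ => ?_⟩
    have h := ha θ (by unfold Tp; omega)
    have h1 : (fun i : Fin 3 => a (ltP Nv L m lit (3 * θ + i.1))) =
        fun i : Fin 3 => lval (fun v => a (2 * v)) (lit3 0 Nv L m lit (3 * θ + i.1)) := by
      funext i
      rw [PosT_a hθ, hl _ (hlt _ (by have := i.2; omega))]
    rw [h1] at h
    exact h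
  · rintro ⟨a', ha'⟩
    refine ⟨fun l => if l < 2 * Np Nv L then lval a' l else decide (l = 2 * Np Nv L + 1),
      fun θ hθ => ?_⟩
    by_cases h1 : θ < 2 * L + 1
    · have h := ha' θ h1
      have h2 : (fun i : Fin 3 => (fun l => if l < 2 * Np Nv L then lval a' l
          else decide (l = 2 * Np Nv L + 1)) (ltP Nv L m lit (3 * θ + i.1))) =
          fun i : Fin 3 => lval a' (lit3 0 Nv L m lit (3 * θ + i.1)) := by
        funext i
        rw [PosT_a h1]
        exact if_pos (hlt _ (by have := i.2; omega))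
      rw [h2]
      exact h
    · by_cases h2 : θ < 2 * L + 1 + Np Nv L
      · obtain ⟨v, hv⟩ : ∃ v, θ = 2 * L + 1 + v := ⟨θ - (2 * L + 1), by omega⟩
        subst hv
        have hv : v < Np Nv L := by omega
        simp only [PosT_b hv]
        have e0 : (if 2 * v < 2 * Np Nv L then lval a' (2 * v)
            else decide (2 * v = 2 * Np Nv L + 1)) = a' v := by
          rw [if_pos (by omega)]
          unfold lval
          have h1 : 2 * v / 2 = v := by omega
          have h2 : ¬ (2 * v % 2 = 1) := by omega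
          rw [h1, decide_eq_false h2, Bool.xor_false]
        have e1 : (if 2 * v + 1 < 2 * Np Nv L then lval a' (2 * v + 1)
            else decide (2 * v + 1 = 2 * Np Nv L + 1)) = !a' v := by
          rw [if_pos (by omega)]
          unfold lval
          have h1 : (2 * v + 1) / 2 = v := by omega
          have h2 : (2 * v + 1) % 2 = 1 := by omega
          rw [h1, decide_eq_true h2, Bool.xor_true]
        have e2 : (if 2 * Np Nv L < 2 * Np Nv L then lval a' (2 * Np Nv L)
            else decide (2 * Np Nv L = 2 * Np Nv L + 1)) = false := by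
          rw [if_neg (by omega)]
          exact decide_eq_false (by omega)
        change ((if 2 * v < 2 * Np Nv L then lval a' (2 * v)
            else decide (2 * v = 2 * Np Nv L + 1)) = true ∧
          (if 2 * v + 1 < 2 * Np Nv L then lval a' (2 * v + 1)
            else decide (2 * v + 1 = 2 * Np Nv L + 1)) = false ∧
          (if 2 * Np Nv L < 2 * Np Nv L then lval a' (2 * Np Nv L)
            else decide (2 * Np Nv L = 2 * Np Nv L + 1)) = false) ∨
          ((if 2 * v < 2 * Np Nv L then lval a' (2 * v)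
            else decide (2 * v = 2 * Np Nv L + 1)) = false ∧
          (if 2 * v + 1 < 2 * Np Nv L then lval a' (2 * v + 1)
            else decide (2 * v + 1 = 2 * Np Nv L + 1)) = true ∧
          (if 2 * Np Nv L < 2 * Np Nv L then lval a' (2 * Np Nv L)
            else decide (2 * Np Nv L = 2 * Np Nv L + 1)) = false) ∨
          ((if 2 * v < 2 * Np Nv L then lval a' (2 * v)
            else decide (2 * v = 2 * Np Nv L + 1)) = false ∧
          (if 2 * v + 1 < 2 * Np Nv L then lval a' (2 * v + 1)
            else decide (2 * v + 1 = 2 * Np Nv L + 1)) = false ∧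
          (if 2 * Np Nv L < 2 * Np Nv L then lval a' (2 * Np Nv L)
            else decide (2 * Np Nv L = 2 * Np Nv L + 1)) = true)
        rw [e0, e1, e2]
        cases a' v
        · right; left; exact ⟨rfl, rfl, rfl⟩
        · left; exact ⟨rfl, rfl, rfl⟩
      · have h3 : θ = 2 * L + 1 + Np Nv L := by unfold Tp at hθ; omega
        subst h3
        simp only [PosT_c]
        have e2 : (if 2 * Np Nv L < 2 * Np Nv L then lval a' (2 * Np Nv L)
            else decide (2 * Np Nv L = 2 * Np Nv L + 1)) = false := by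
          rw [if_neg (by omega)]
          exact decide_eq_false (by omega)
        have e3 : (if 2 * Np Nv L + 1 < 2 * Np Nv L then lval a' (2 * Np Nv L + 1)
            else decide (2 * Np Nv L + 1 = 2 * Np Nv L + 1)) = true := by
          rw [if_neg (by omega)]
          exact decide_eq_true rfl
        exact Or.inr (Or.inr ⟨e2, e2, e3⟩)

end Pool.Agent.LHB
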