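import Pool.Agent.LHB.Defs
import Pool.Agent.LHA.Nb1
import Pool.Agent.LHB.CLx

/-!
# The walks along the arms

As in `LHA/CellS.lean` (`CellS_two`, `CellS_arm0`, ...). `arm_rch`: `q ≠ 1`, so `en q = fv q m1`, `L q = m1 + 1`. The sequence
`g p = c k (fv q p)` (`p ≤ m1`), `g p = x l 1` (`p ≥ m1 + 1`) satisfies `rch_seq` (with `x := c k (fv q 0)`, `y := g 1`, `a := g m1`,
`b := x l 1`): adjacent by `hom`, `B_arm` and `adj` (`(fv q m1)` is attached to the root `sink q = 1` of `l`); `g p ≠ g (p+2)` by `inj` at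
`fv q (p+1)`, and for `p + 2 = m1 + 1` by `ne` at `fv q m1` (with the neighbour `fv q (m1 - 1)`). `z = g 1`. `z ≠ x k i0`: if `0 < m1` by `ne`
(`fv q 0` attached to `(k, i0)`, neighbour `fv q 1`); if `m1 = 0` then `fv q 0 = en q` is attached to `(k, i0)` and to `(l, 1)` and `ne'`
gives `i0 = 1`.
`arm_rch1`: if `m2 = 0` then `en 1 = fv 0 0`, `z = x l 2`, `Rch H 0 ..`; `z ≠ x k 0` by `ne'` (`(k, 0)` and `(l, 2)`). If `0 < m2`: the sequence
`g 0 = c k (fv 0 0)`, `g (p+1) = c k (fv 1 p)` (`p < m2`), `g p = x l 2` for `p ≥ m2 + 1`; `B_01`, `B_arm`.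
`arm_ne`: `z = c k (fv 0 1)` or `x l 1`; `z' = c k (fv 1 0)` or `x l' 2`: `inj` at `fv 0 0`; `ne` (the vertex `fv 0 0` is attached to `(l, 1)` if
`m1 = 0` and to `(l', 2)` if `m2 = 0`); `ne'` if both (`1 = 2` is false).
-/

namespace Pool.Agent.LHB

open Pool.Agent.LIH Pool.Agent.LHA

theorem SArm_walk {V : Type} {H : SimpleGraph V} (n : ℕ) (u : ℕ → V) (w : V)
    (h1 : ∀ p < n, H.Adj (u p) (u (p + 1))) (h2 : ∀ p, p + 1 < n → u p ≠ u (p + 2))
    (h3 : H.Adj (u n) w) (h4 : 0 < n → u (n - 1) ≠ w) :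
    ∃ z, H.Adj (u 0) z ∧ Rch H n (u 0) z (u n) w ∧ (0 < n → z = u 1) ∧ (n = 0 → z = w) := by
  have h5 : ∀ p ≤ n, H.Adj (if p ≤ n then u p else w) (if p + 1 ≤ n then u (p + 1) else w) := by
    intro p hp
    rw [if_pos hp]
    split_ifs with h
    · exact h1 p h
    · obtain rfl : p = n := by omega
      exact h3
  have h6 : H.Adj (u 0) (if 1 ≤ n then u 1 else w) := by
    have := h5 0 (Nat.zero_le _)
    rwa [if_pos (Nat.zero_le _)] at this
  refine ⟨if 1 ≤ n then u 1 else w, h6, (rch_seq h6).2 ⟨fun p => if p ≤ n then u p else w, ?_, rfl,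
    ?_, ?_, h5, ?_⟩, ?_, ?_⟩
  · exact if_pos (Nat.zero_le _)
  · exact if_pos le_rfl
  · exact if_neg (by omega)
  · intro p hp
    show (if p ≤ n then u p else w) ≠ (if p + 2 ≤ n then u (p + 2) else w)
    rw [if_pos hp.le]
    split_ifs with h
    · exact h2 p (by omega)
    · have hp' : p = n - 1 := by omega
      rw [hp']
      exact h4 (by omega)
  · intro h
    exact if_pos h
  · intro h
    exact if_neg (by omega)

variable {V : Type} {H : SimpleGraph V} {T : Typ H} {D : CK T} {K : ℕ}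
  {lk : Fin 6 → ℕ → ℕ → Prop} {c : Fin K → (Fin 6 × Fin D.len) → V} {x : Fin K → Fin 4 → V}

theorem SArm_at {q : Fin 6} (hq : q ≠ 1) {k l : Fin K} (hl : lk q k.1 l.1) :
    atN D K lk k (D.en q) l 1 := by
  refine Or.inr (Or.inr ⟨q, ?_, rfl, hl⟩)
  revert hq
  fin_cases q <;> simp [sink]

theorem SArm_at1 {k l : Fin K} (hl : lk 1 k.1 l.1) : atN D K lk k (D.en 1) l 2 :=
  Or.inr (Or.inr ⟨1, rfl, rfl, hl⟩)

theorem SArm_at0 {k : Fin K} : atN D K lk k (D.fv 0 0) k 0 := Or.inl ⟨rfl, rfl, Or.inl rfl⟩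

theorem SArm_en1 : D.en 1 = if D.m2 = 0 then D.fv 0 0 else D.fv 1 (D.m2 - 1) := rfl

theorem SArm_L0 : D.L 0 = D.m1 + 1 := rfl

theorem SArm_L1 : D.L 1 = D.m2 := rfl

theorem arm_rch (hc : GoodW T D.a D.F D.B (atN D K lk) c x) {q : Fin 6} (hq : q ≠ 1)
    {k l : Fin K} (hl : lk q k.1 l.1) {i0 : Fin 4} (hi0 : i0 ≠ 1)
    (hi : atN D K lk k (D.fv q 0) k i0) :
    H.Adj (x k i0) (c k (D.fv q 0)) ∧ ∃ z, H.Adj (c k (D.fv q 0)) z ∧ z ≠ x k i0 ∧
      Rch H D.m1 (c k (D.fv q 0)) z (c k (D.en q)) (x l 1) ∧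
      (0 < D.m1 → z = c k (D.fv q 1)) ∧ (D.m1 = 0 → z = x l 1) := by
  refine ⟨hc.adj _ _ _ _ hi, ?_⟩
  obtain ⟨hen, hL⟩ := D.en_ne_one q hq
  have hat : atN D K lk k (D.en q) l 1 := SArm_at hq hl
  have hB : ∀ p < D.m1, D.B.Adj (D.fv q p) (D.fv q (p + 1)) := fun p hp =>
    D.B_arm q (by omega)
  obtain ⟨z, hz1, hz2, hz3, hz4⟩ := SArm_walk (H := H) D.m1 (fun p => c k (D.fv q p)) (x l 1)
    (fun p hp => hc.hom _ _ _ (hB p hp)) (by
      intro p hp he
      have h1 := hc.inj k (D.fv q (p + 1)) (D.fv q p) (D.fv q (p + 2)) (hB p (by omega)).symm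
        (hB (p + 1) (by omega)) he
      have h2 := (D.fv_inj (by omega) (by omega) h1).2
      omega) (by
      have := hc.adj _ _ _ _ hat
      rw [hen] at this
      exact this.symm) (by
      intro h0
      rw [hen] at hat
      have h1 := hB (D.m1 - 1) (by omega)
      rw [Nat.sub_add_cancel h0] at h1
      exact hc.ne _ _ _ _ _ h1.symm hat)
  refine ⟨z, hz1, ?_, ?_, hz3, hz4⟩
  · rcases Nat.eq_zero_or_pos D.m1 with h0 | h0
    · rw [hz4 h0]
      intro he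
      rw [hen, h0] at hat
      exact hi0 (hc.ne' _ _ _ _ _ _ hat hi he).2.symm
    · rw [hz3 h0]
      exact hc.ne _ _ _ _ _ (hB 0 h0) hi
  · rw [hen]
    exact hz2

theorem arm_rch1 (hc : GoodW T D.a D.F D.B (atN D K lk) c x) {k l : Fin K} (hl : lk 1 k.1 l.1) :
    ∃ z, H.Adj (c k (D.fv 0 0)) z ∧ z ≠ x k 0 ∧
      Rch H D.m2 (c k (D.fv 0 0)) z (c k (D.en 1)) (x l 2) ∧
      (0 < D.m2 → z = c k (D.fv 1 0)) ∧ (D.m2 = 0 → z = x l 2) := by
  have hat : atN D K lk k (D.en 1) l 2 := SArm_at1 hl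
  have hi : atN D K lk k (D.fv 0 0) k 0 := SArm_at0
  rcases Nat.eq_zero_or_pos D.m2 with h0 | h0
  · have hen : D.en 1 = D.fv 0 0 := by rw [SArm_en1, if_pos h0]
    rw [hen] at hat
    refine ⟨x l 2, (hc.adj _ _ _ _ hat).symm, ?_, ?_, fun h => absurd h (by omega), fun _ => rfl⟩
    · intro he
      have := (hc.ne' _ _ _ _ _ _ hat hi he).2
      exact absurd this (by decide)
    · rw [hen, h0]
      exact ⟨rfl, rfl⟩
  · have hen : D.en 1 = D.fv 1 (D.m2 - 1) := by rw [SArm_en1, if_neg (by omega)]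
    have hL : D.L 1 = D.m2 := SArm_L1
    have hL0 : D.L 0 = D.m1 + 1 := SArm_L0
    have hB : ∀ p, p + 1 < D.m2 → D.B.Adj (D.fv 1 p) (D.fv 1 (p + 1)) := fun p hp =>
      D.B_arm 1 (by omega)
    have hB0 : D.B.Adj (D.fv 0 0) (D.fv 1 0) := D.B_01 h0
    obtain ⟨u, hu0, hu1⟩ : ∃ u : ℕ → (Fin 6 × Fin D.len), u 0 = D.fv 0 0 ∧
        ∀ p, u (p + 1) = D.fv 1 p :=
      ⟨fun p => if p = 0 then D.fv 0 0 else D.fv 1 (p - 1), if_pos rfl, fun p => by simp⟩
    have hBu : ∀ p < D.m2, D.B.Adj (u p) (u (p + 1)) := by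
      intro p hp
      rcases p with _ | p
      · rw [hu0, hu1]; exact hB0
      · rw [hu1, hu1]; exact hB p hp
    have hune : ∀ p, p + 1 < D.m2 → u p ≠ u (p + 2) := by
      intro p hp he
      rcases p with _ | p
      · rw [hu0, hu1] at he
        have := (D.fv_inj (by omega) (by omega) he).1
        exact absurd this (by decide)
      · rw [hu1, hu1] at he
        have := (D.fv_inj (by omega) (by omega) he).2
        omega
    have hum : u D.m2 = D.en 1 := by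
      rw [hen, ← hu1, Nat.sub_add_cancel h0]
    obtain ⟨z, hz1, hz2, hz3, hz4⟩ := SArm_walk (H := H) D.m2 (fun p => c k (u p)) (x l 2)
      (fun p hp => hc.hom _ _ _ (hBu p hp)) (by
        intro p hp he
        exact hune p hp (hc.inj k (u (p + 1)) (u p) (u (p + 2)) (hBu p (by omega)).symm
          (hBu (p + 1) (by omega)) he)) (by
        have := hc.adj _ _ _ _ hat
        show H.Adj (c k (u D.m2)) _
        rw [hum]
        exact this.symm) (by
        intro _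
        have h1 := hBu (D.m2 - 1) (by omega)
        rw [Nat.sub_add_cancel h0, hum] at h1
        exact hc.ne _ _ _ _ _ h1.symm hat)
    have e0 : z = c k (D.fv 1 0) := by
      rw [hz3 h0, ← hu1]
    refine ⟨z, ?_, ?_, ?_, fun _ => e0, hz4⟩
    · rw [← hu0]; exact hz1
    · rw [e0]
      exact hc.ne _ _ _ _ _ hB0 hi
    · rw [← hu0, ← hum]
      exact hz2

theorem arm_ne (hc : GoodW T D.a D.F D.B (atN D K lk) c x) {k l l' : Fin K}
    (hl : lk 0 k.1 l.1) (hl' : lk 1 k.1 l'.1) {z z' : V}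
    (h1 : 0 < D.m1 → z = c k (D.fv 0 1)) (h2 : D.m1 = 0 → z = x l 1)
    (h3 : 0 < D.m2 → z' = c k (D.fv 1 0)) (h4 : D.m2 = 0 → z' = x l' 2) : z ≠ z' := by
  have hL : D.L 1 = D.m2 := SArm_L1
  have hL0 : D.L 0 = D.m1 + 1 := SArm_L0
  have hen0 : D.m1 = 0 → atN D K lk k (D.fv 0 0) l 1 := by
    intro h
    have := SArm_at (D := D) (q := 0) (by decide) hl
    rwa [(D.en_ne_one 0 (by decide)).1, h] at this
  have hen1 : D.m2 = 0 → atN D K lk k (D.fv 0 0) l' 2 := by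
    intro h
    have := SArm_at1 (D := D) hl'
    rwa [SArm_en1, if_pos h] at this
  rcases Nat.eq_zero_or_pos D.m1 with ha | ha <;> rcases Nat.eq_zero_or_pos D.m2 with hb | hb
  · rw [h2 ha, h4 hb]
    intro he
    exact absurd (hc.ne' _ _ _ _ _ _ (hen0 ha) (hen1 hb) he).2 (by decide)
  · rw [h2 ha, h3 hb]
    exact (hc.ne _ _ _ _ _ (D.B_01 hb) (hen0 ha)).symm
  · rw [h1 ha, h4 hb]
    exact hc.ne _ _ _ _ _ (D.B_arm 0 (p := 0) (by omega)) (hen1 hb)
  · rw [h1 ha, h3 hb]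
    intro he
    have := hc.inj _ _ _ _ (D.B_arm 0 (p := 0) (by omega)) (D.B_01 hb) he
    exact absurd (D.fv_inj (by omega) (by omega) this).1 (by decide)

end Pool.Agent.LHB
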