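import Pool.Agent.LHB.Defs
import Pool.Agent.LHB.TBas
import Pool.Agent.LHB.CLx
import Pool.Agent.LHB.CTy
import Pool.Agent.LHB.SArm

/-!
# The bits of the arms

General remark: if `E = {z | ∃ k y, att k y l i ∧ c k y = z}` then `cap` says `T.cp (x l i) E θ ≤ T.cp (a i) (F i) θ`; so for an
attached `(k, y)` the number `T.cp (a i) (F i) θ` with `θ = T.dt (x l i) (c k y)` is positive, and if it is 1, two different attached
`(k, y), (k', y')` (different values by `dis`) do not have the same type `θ`.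
Let `k < K`. Root 0: `fv 0 0` and `fv 2 0` of the cell `k` are attached; by `cp0` `T.dt (x k 0) (c k (fv 0 0)) = T.dt X (w b)` for a `b`, and
`T.dt (x k 0) (c k (fv 2 0)) = T.dt X (w b')` with `b' ≠ b`, i.e. `b' = !b`. Put `bt 0 k = b`, `bt 2 k = !b`. Root 3: the three attached
vertices `fv 3 0, fv 4 0, fv 5 0` have three different values, of types `T.dt X (w b_i)`; by `cp3` at most one of the types is
`T.dt X (w true)` and at most two are `T.dt X (w false)`, so exactly one `b_i` is true: `modeOK 0`. `bt (3 + i) k = b_i`. (`bt 1 = bt 0`.)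
End types: let `q ≠ 1`, `lk q k l` (so `k, l < K` by `hdom`): `en q` is attached to the root 1 of `l`; by `cp1`
`T.dt (x l 1) (c k (en q)) = T.dt (g0 e (m1+1)) (g0 e m1)` for some `e`, and `sound0` with the walk of `arm_rch` (start root
`i0 = 0` for `q = 0, 2`, `3` for `q = 3, 4, 5`) gives `e = bt q k`. So two different linked `(q, k), (q', k')` (different attached
vertices: `en q ≠ en q'` for `q ≠ q'` both `≠ 1`) have `bt q k ≠ bt q' k'`.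
`lk 1 k l`, with `lk 0 k l0`: by `cp2` `T.dt (x l 2) (c k (en 1)) = T.dt (g1 e (m2+1)) (g1 e m2)`, and `sound1` (walks of `arm_rch` for `q = 0`
and `arm_rch1`, `arm_ne`) gives `e = bt 0 k`. So `k ≠ k'` linked to the same `l` have different bits (`cp2`, `dis`).
-/

namespace Pool.Agent.LHB

open Pool.Agent.LIH Pool.Agent.LHA

theorem STyp_pos {V : Type} [Finite V] {H : SimpleGraph V} {T : Typ H} {D : CK T} {K : ℕ}
    {lk : Fin 6 → ℕ → ℕ → Prop} {c : Fin K → (Fin 6 × Fin D.len) → V} {x : Fin K → Fin 4 → V}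
    (hc : GoodW T D.a D.F D.B (atN D K lk) c x) {k l : Fin K} {y : Fin 6 × Fin D.len} {i : Fin 4}
    (h : atN D K lk k y l i) : 0 < T.cp (D.a i) (D.F i) (T.dt (x l i) (c k y)) := by
  refine lt_of_lt_of_le ?_ (hc.cap l i _)
  unfold Typ.cp
  rw [Set.ncard_pos (Set.toFinite _)]
  exact ⟨c k y, ⟨k, y, h, rfl⟩, rfl⟩

theorem STyp_two {V : Type} [Finite V] {H : SimpleGraph V} {T : Typ H} {D : CK T} {K : ℕ}
    {lk : Fin 6 → ℕ → ℕ → Prop} {c : Fin K → (Fin 6 × Fin D.len) → V} {x : Fin K → Fin 4 → V}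
    (hc : GoodW T D.a D.F D.B (atN D K lk) c x) {k k' l : Fin K} {y y' : Fin 6 × Fin D.len}
    {i : Fin 4} (h : atN D K lk k y l i) (h' : atN D K lk k' y' l i) (hne : ¬ (k = k' ∧ y = y'))
    (he : T.dt (x l i) (c k y) = T.dt (x l i) (c k' y')) :
    1 < T.cp (D.a i) (D.F i) (T.dt (x l i) (c k y)) := by
  refine lt_of_lt_of_le ?_ (hc.cap l i _)
  unfold Typ.cp
  rw [Set.one_lt_ncard (Set.toFinite _)]
  exact ⟨c k y, ⟨⟨k, y, h, rfl⟩, rfl⟩, c k' y', ⟨⟨k', y', h', rfl⟩, he.symm⟩,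
    fun e => hne (hc.dis l i k y k' y' h h' e)⟩

theorem STyp_three {V : Type} [Finite V] {H : SimpleGraph V} {T : Typ H} {D : CK T} {K : ℕ}
    {lk : Fin 6 → ℕ → ℕ → Prop} {c : Fin K → (Fin 6 × Fin D.len) → V} {x : Fin K → Fin 4 → V}
    (hc : GoodW T D.a D.F D.B (atN D K lk) c x) {k l : Fin K} {y1 y2 y3 : Fin 6 × Fin D.len}
    {i : Fin 4} {θ : ℕ} (h1 : atN D K lk k y1 l i) (h2 : atN D K lk k y2 l i)
    (h3 : atN D K lk k y3 l i) (n12 : y1 ≠ y2) (n13 : y1 ≠ y3) (n23 : y2 ≠ y3)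
    (e1 : T.dt (x l i) (c k y1) = θ) (e2 : T.dt (x l i) (c k y2) = θ)
    (e3 : T.dt (x l i) (c k y3) = θ) :
    2 < T.cp (D.a i) (D.F i) θ := by
  refine lt_of_lt_of_le ?_ (hc.cap l i _)
  unfold Typ.cp
  rw [Set.two_lt_ncard (Set.toFinite _)]
  exact ⟨c k y1, ⟨⟨k, y1, h1, rfl⟩, e1⟩, c k y2, ⟨⟨k, y2, h2, rfl⟩, e2⟩,
    c k y3, ⟨⟨k, y3, h3, rfl⟩, e3⟩, fun e => n12 (hc.dis l i k _ k _ h1 h2 e).2,
    fun e => n13 (hc.dis l i k _ k _ h1 h3 e).2, fun e => n23 (hc.dis l i k _ k _ h2 h3 e).2⟩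

theorem STyp_mode (a b c : Bool) (h1 : ¬ (a = true ∧ b = true)) (h2 : ¬ (a = true ∧ c = true))
    (h3 : ¬ (b = true ∧ c = true)) (h4 : ¬ (a = false ∧ b = false ∧ c = false)) :
    modeOK 0 ![a, b, c] := by
  revert h1 h2 h3 h4
  cases a <;> cases b <;> cases c <;> simp [modeOK]

theorem bsol_of_good {V : Type} [Finite V] {H : SimpleGraph V} {T : Typ H} (D : CK T) (K : ℕ)
    (lk : Fin 6 → ℕ → ℕ → Prop) (hdom : ∀ q k l, lk q k l → k < K ∧ l < K)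
    (c : Fin K → (Fin 6 × Fin D.len) → V) (x : Fin K → Fin 4 → V)
    (hc : GoodW T D.a D.F D.B (atN D K lk) c x) : BSol lk K := by
  -- starts
  let i0 : Fin 6 → Fin 4 := ![0, 0, 0, 3, 3, 3]
  have hst : ∀ q : Fin 6, q ≠ 1 → ∀ k : Fin K, atN D K lk k (D.fv q 0) k (i0 q) := by
    intro q hq k
    fin_cases q
    · exact Or.inl ⟨rfl, rfl, Or.inl rfl⟩
    · exact absurd rfl hq
    · exact Or.inl ⟨rfl, rfl, Or.inr rfl⟩
    · exact Or.inr (Or.inl ⟨rfl, rfl, Or.inl rfl⟩)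
    · exact Or.inr (Or.inl ⟨rfl, rfl, Or.inr (Or.inl rfl)⟩)
    · exact Or.inr (Or.inl ⟨rfl, rfl, Or.inr (Or.inr rfl)⟩)
  have hi0 : ∀ q, i0 q ≠ 1 := by
    intro q
    fin_cases q <;> simp [i0]
  have hB : ∀ (q : Fin 6) (k : Fin K), ∃ b : Bool, q ≠ 1 →
      T.dt (x k (i0 q)) (c k (D.fv q 0)) = T.dt D.X (D.w b) := by
    intro q k
    by_cases hq : q = 1
    · exact ⟨true, fun h => absurd hq h⟩
    have h1 := STyp_pos hc (hst q hq k)
    have h2 : ∃ b, T.dt (x k (i0 q)) (c k (D.fv q 0)) = T.dt D.X (D.w b) := by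
      have h3 : i0 q = 0 ∨ i0 q = 3 := by
        fin_cases q <;> simp [i0]
      generalize T.dt (x k (i0 q)) (c k (D.fv q 0)) = θ at h1 ⊢
      rcases h3 with h3 | h3
      · rw [h3] at h1
        exact (CK.cp0 D θ).2.1 h1
      · rw [h3] at h1
        exact (CK.cp3 D).2.2 θ h1
    obtain ⟨b, hb⟩ := h2
    exact ⟨b, fun _ => hb⟩
  choose Bf hBf using hB
  have hfne : ∀ q q' : Fin 6, q ≠ q' → D.fv q 0 ≠ D.fv q' 0 := by
    intro q q' h e
    exact h (congrArg Prod.fst e)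
  -- ends
  have hen : ∀ (q : Fin 6) (k l : Fin K), q ≠ 1 → lk q k.1 l.1 →
      atN D K lk k (D.en q) l 1 ∧ T.dt (x l 1) (c k (D.en q)) =
        T.dt (D.g0 (Bf q k) (D.m1 + 1)) (D.g0 (Bf q k) D.m1) := by
    intro q k l hq hl
    have hs : sink q = 1 := by
      revert hq
      fin_cases q <;> simp [sink]
    have hat : atN D K lk k (D.en q) l 1 := Or.inr (Or.inr ⟨q, hs.symm, rfl, hl⟩)
    refine ⟨hat, ?_⟩
    obtain ⟨e, he⟩ := (CK.cp1 D _).2.1 (STyp_pos hc hat)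
    obtain ⟨h1, z, h2, h3, h4, -, -⟩ := arm_rch hc hq hl (hi0 q) (hst q hq k)
    have := D.sound0 (Bf q k) e _ _ _ _ _ h1 (hBf q k hq) h2 h3 h4 he
    rw [he, this]
  have hen1 : ∀ (k l l0 : Fin K), lk 1 k.1 l.1 → lk 0 k.1 l0.1 →
      atN D K lk k (D.en 1) l 2 ∧ T.dt (x l 2) (c k (D.en 1)) =
        T.dt (D.g1 (Bf 0 k) (D.m2 + 1)) (D.g1 (Bf 0 k) D.m2) := by
    intro k l l0 hl hl0
    have hat : atN D K lk k (D.en 1) l 2 := Or.inr (Or.inr ⟨1, rfl, rfl, hl⟩)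
    refine ⟨hat, ?_⟩
    obtain ⟨e, he⟩ := (CK.cp2 D _).2.1 (STyp_pos hc hat)
    have h01 : (0 : Fin 6) ≠ 1 := by decide
    obtain ⟨h1, z, h2, h3, h4, h5, h6⟩ := arm_rch hc h01 hl0 (hi0 0) (hst 0 h01 k)
    obtain ⟨z', h7, h8, h9, h10, h11⟩ := arm_rch1 hc hl
    have hzz := arm_ne hc hl0 hl h5 h6 h10 h11
    have := D.sound1 (Bf 0 k) (Bf 0 k) e _ _ _ _ _ _ _ _ h1 (hBf 0 k h01) h2 h7 h3 h8 hzz h4
      (hen 0 k l0 h01 hl0).2 h9 he
    rw [he, this]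
  refine ⟨fun q k => if h : k < K then Bf q ⟨k, h⟩ else false, ?_, ?_, ?_⟩
  · intro k hk
    simp only [dif_pos hk]
    have hcp0 : Bf 0 ⟨k, hk⟩ ≠ Bf 2 ⟨k, hk⟩ := by
      intro e
      have e0 := hBf 0 ⟨k, hk⟩ (by decide)
      have e2 := hBf 2 ⟨k, hk⟩ (by decide)
      have h1 := STyp_two hc (hst 0 (by decide) ⟨k, hk⟩) (hst 2 (by decide) ⟨k, hk⟩)
        (fun h => hfne 0 2 (by decide) h.2) (by
          show T.dt (x ⟨k, hk⟩ (i0 0)) (c ⟨k, hk⟩ (D.fv 0 0)) =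
            T.dt (x ⟨k, hk⟩ (i0 2)) (c ⟨k, hk⟩ (D.fv 2 0))
          rw [e0, e2, e])
      have h2 := (CK.cp0 D (T.dt (x ⟨k, hk⟩ 0) (c ⟨k, hk⟩ (D.fv 0 0)))).1
      exact absurd h1 (not_lt.2 h2)
    refine ⟨?_, ?_⟩
    · revert hcp0
      cases Bf 0 ⟨k, hk⟩ <;> cases Bf 2 ⟨k, hk⟩ <;> simp
    · have hpair : ∀ q q' : Fin 6, q ≠ 1 → q' ≠ 1 → q ≠ q' → i0 q = 3 → i0 q' = 3 →
          ¬ (Bf q ⟨k, hk⟩ = true ∧ Bf q' ⟨k, hk⟩ = true) := by
        rintro q q' hq hq' hqq h3 h3' ⟨t1, t2⟩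
        have a1 := hst q hq ⟨k, hk⟩
        have a2 := hst q' hq' ⟨k, hk⟩
        have e1 := hBf q ⟨k, hk⟩ hq
        have e2 := hBf q' ⟨k, hk⟩ hq'
        rw [h3] at a1 e1
        rw [h3'] at a2 e2
        rw [t1] at e1
        rw [t2] at e2
        have h1 := STyp_two hc a1 a2 (fun h => hfne q q' hqq h.2) (by rw [e1, e2])
        rw [e1, (CK.cp3 D).1] at h1
        exact lt_irrefl _ h1
      refine STyp_mode _ _ _ (hpair 3 4 (by decide) (by decide) (by decide) rfl rfl)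
        (hpair 3 5 (by decide) (by decide) (by decide) rfl rfl)
        (hpair 4 5 (by decide) (by decide) (by decide) rfl rfl) ?_
      rintro ⟨t1, t2, t3⟩
      have e1 := hBf 3 ⟨k, hk⟩ (by decide)
      have e2 := hBf 4 ⟨k, hk⟩ (by decide)
      have e3 := hBf 5 ⟨k, hk⟩ (by decide)
      rw [t1] at e1
      rw [t2] at e2
      rw [t3] at e3
      have h1 := STyp_three hc (hst 3 (by decide) ⟨k, hk⟩) (hst 4 (by decide) ⟨k, hk⟩)
        (hst 5 (by decide) ⟨k, hk⟩) (hfne 3 4 (by decide)) (hfne 3 5 (by decide))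
        (hfne 4 5 (by decide)) e1 e2 e3
      have h2 : T.cp (D.a (i0 3)) (D.F (i0 3)) (T.dt D.X (D.w false)) = 2 := (CK.cp3 D).2.1
      rw [h2] at h1
      exact lt_irrefl _ h1
  · intro q q' k k' l hq hq' hl hl' hne
    obtain ⟨hk, hl1⟩ := hdom _ _ _ hl
    obtain ⟨hk', -⟩ := hdom _ _ _ hl'
    simp only [dif_pos hk, dif_pos hk']
    intro e
    obtain ⟨a1, e1⟩ := hen q ⟨k, hk⟩ ⟨l, hl1⟩ hq hl
    obtain ⟨a2, e2⟩ := hen q' ⟨k', hk'⟩ ⟨l, hl1⟩ hq' hl'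
    have h1 := STyp_two hc a1 a2 (by
      rintro ⟨u1, u2⟩
      have u1' : k = k' := congrArg Fin.val u1
      rw [(D.en_ne_one q hq).1, (D.en_ne_one q' hq').1] at u2
      have u3 : q = q' := congrArg Prod.fst u2
      rcases hne with hne | hne
      · exact hne u3
      · exact hne u1') (by rw [e1, e2, e])
    exact absurd h1 (not_lt.2 (CK.cp1 D _).1)
  · rintro k k' l hl hl' hne ⟨l0, hl0⟩ ⟨l0', hl0'⟩
    obtain ⟨hk, hl1⟩ := hdom _ _ _ hl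
    obtain ⟨hk', -⟩ := hdom _ _ _ hl'
    obtain ⟨-, hl01⟩ := hdom _ _ _ hl0
    obtain ⟨-, hl01'⟩ := hdom _ _ _ hl0'
    simp only [dif_pos hk, dif_pos hk']
    intro e
    obtain ⟨a1, e1⟩ := hen1 ⟨k, hk⟩ ⟨l, hl1⟩ ⟨l0, hl01⟩ hl hl0
    obtain ⟨a2, e2⟩ := hen1 ⟨k', hk'⟩ ⟨l, hl1⟩ ⟨l0', hl01'⟩ hl' hl0'
    have h1 := STyp_two hc a1 a2 (fun u => hne (congrArg Fin.val u.1)) (by rw [e1, e2, e])
    exact absurd h1 (not_lt.2 (CK.cp2 D _).1)

end Pool.Agent.LHB
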