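import Pool.Agent.LHB.Defs
import Pool.Agent.LHB.CTy

/-!
# The pattern of the relays

Let `e b 0 = X`, `e b (j + 1) = g0 b j` (so `e b 1 = w b`, `e b (m1 + 2)` is the last vertex of `g0 b`): a non-backtracking walk
(`ne_X0`, `nb0`). For `j % L0` (`L0 = 2 (m1 + 2)`):
 * `j = 0`: `x = w false`, `y = X`, `z = w true`;
 * `1 ≤ j ≤ m1 + 1`: `x = e true (j - 1)`, `y = e true j`, `z = e true (j + 1)`;
 * `j = m1 + 2`: `x = g0 true m1`, `y = g0 true (m1 + 1)`, `z = tf`;
 * `j = m1 + 2 + i`, `1 ≤ i ≤ m1 + 1`: `x = e false (m1 + 3 - i)`, `y = e false (m1 + 2 - i)`, `z = e false (m1 + 1 - i)`.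
Types of consecutive positions: inside the segments the darts are the same. From `j = m1 + 2` to `m1 + 3`:
`T.dt u tf = T.dt (g0 false (m1+1)) (g0 false m1) = T.dt (x (m1+3)) (y (m1+3))` (`dt_tf`). From `L0 - 1` (`i = m1 + 1`: `y = w false`,
`z = X`) to `0`: the same dart. `x j ≠ z j` at `m1 + 2`: `tf ≠ g0 true m1` since otherwise
`T.dt (g0 true (m1+1)) (g0 true m1) = T.dt (g0 false (m1+1)) (g0 false m1)`, excluded by `CK.dt_g0` (module `CTy`).
-/

namespace Pool.Agent.LHB

open Pool.Agent.LIH Pool.Agent.LHA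

/-- the walk `X, w b, g0 b 1, ...` -/
def PatG_e {V : Type} {H : SimpleGraph V} {T : Typ H} (D : CK T) (b : Bool) : ℕ → V
  | 0 => D.X
  | j + 1 => D.g0 b j

section

variable {V : Type} {H : SimpleGraph V} {T : Typ H} (D : CK T)

theorem PatG_adj (b : Bool) (j : ℕ) (hj : j ≤ D.m1 + 1) : H.Adj (PatG_e D b j) (PatG_e D b (j + 1)) := by
  cases j with
  | zero =>
    show H.Adj D.X (D.g0 b 0)
    rw [D.g0_0]
    exact D.adj_w b
  | succ j => exact D.adj0 b j (by omega)

theorem PatG_nb (b : Bool) (j : ℕ) (hj : j ≤ D.m1) : PatG_e D b j ≠ PatG_e D b (j + 2) := by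
  cases j with
  | zero => exact (D.ne_X0 b).symm
  | succ j => exact D.nb0 b j (by omega)

theorem PatG_one (b : Bool) : PatG_e D b 1 = D.w b := D.g0_0 b

/-- first vertices -/
def PatG_x (r : ℕ) : V :=
  if r = 0 then D.w false else if r ≤ D.m1 + 2 then PatG_e D true (r - 1)
  else PatG_e D false (2 * D.m1 + 5 - r)

/-- middle vertices -/
def PatG_y (r : ℕ) : V :=
  if r ≤ D.m1 + 2 then PatG_e D true r else PatG_e D false (2 * D.m1 + 4 - r)

/-- last vertices -/
def PatG_z (r : ℕ) : V :=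
  if r ≤ D.m1 + 1 then PatG_e D true (r + 1) else if r = D.m1 + 2 then D.tf
  else PatG_e D false (2 * D.m1 + 3 - r)

theorem PatG_main (r : ℕ) (hr : r < D.L0) :
    H.Adj (PatG_x D r) (PatG_y D r) ∧ H.Adj (PatG_y D r) (PatG_z D r) ∧ PatG_x D r ≠ PatG_z D r := by
  have hL : D.L0 = 2 * (D.m1 + 2) := rfl
  rw [hL] at hr
  rcases Nat.eq_zero_or_pos r with h0 | h0
  · subst h0
    have e1 : PatG_x D 0 = D.w false := by simp [PatG_x]
    have e2 : PatG_y D 0 = D.X := by simp [PatG_y, PatG_e]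
    have e3 : PatG_z D 0 = D.w true := by
      rw [PatG_z, if_pos (by omega)]
      exact PatG_one D true
    rw [e1, e2, e3]
    refine ⟨(D.adj_w false).symm, D.adj_w true, fun h => D.vt_w ?_⟩
    rw [h]
  · rcases Nat.lt_or_ge (D.m1 + 1) r with h1 | h1
    · rcases Nat.lt_or_ge (D.m1 + 2) r with h2 | h2
      · -- last range
        obtain ⟨t, rfl⟩ : ∃ t, r = 2 * D.m1 + 3 - t := ⟨2 * D.m1 + 3 - r, by omega⟩
        have ht : t ≤ D.m1 := by omega
        have e1 : PatG_x D (2 * D.m1 + 3 - t) = PatG_e D false (t + 2) := by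
          rw [PatG_x, if_neg (by omega), if_neg (by omega)]
          congr 1
          omega
        have e2 : PatG_y D (2 * D.m1 + 3 - t) = PatG_e D false (t + 1) := by
          rw [PatG_y, if_neg (by omega)]
          congr 1
          omega
        have e3 : PatG_z D (2 * D.m1 + 3 - t) = PatG_e D false t := by
          rw [PatG_z, if_neg (by omega), if_neg (by omega)]
          congr 1
          omega
        rw [e1, e2, e3]
        exact ⟨(PatG_adj D false (t + 1) (by omega)).symm, (PatG_adj D false t (by omega)).symm,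
          (PatG_nb D false t ht).symm⟩
      · have h3 : r = D.m1 + 2 := by omega
        subst h3
        have e1 : PatG_x D (D.m1 + 2) = PatG_e D true (D.m1 + 1) := by
          rw [PatG_x, if_neg (by omega), if_pos le_rfl]
          rfl
        have e2 : PatG_y D (D.m1 + 2) = PatG_e D true (D.m1 + 2) := by
          rw [PatG_y, if_pos le_rfl]
        have e3 : PatG_z D (D.m1 + 2) = D.tf := by
          rw [PatG_z, if_neg (by omega), if_pos rfl]
        rw [e1, e2, e3]
        refine ⟨PatG_adj D true (D.m1 + 1) le_rfl, D.adj_tf, fun h => ?_⟩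
        have h4 : D.g0 true D.m1 = D.tf := h
        have h5 := D.dt_tf
        rw [← h4] at h5
        exact absurd (D.dt_g0 h5) (by decide)
    · obtain ⟨t, rfl⟩ : ∃ t, r = t + 1 := ⟨r - 1, by omega⟩
      have e1 : PatG_x D (t + 1) = PatG_e D true t := by
        rw [PatG_x, if_neg (by omega), if_pos (by omega)]
        rfl
      have e2 : PatG_y D (t + 1) = PatG_e D true (t + 1) := by
        rw [PatG_y, if_pos (by omega)]
      have e3 : PatG_z D (t + 1) = PatG_e D true (t + 2) := by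
        rw [PatG_z, if_pos h1]
      rw [e1, e2, e3]
      exact ⟨PatG_adj D true t (by omega), PatG_adj D true (t + 1) h1, PatG_nb D true t (by omega)⟩

theorem PatG_dt (r : ℕ) (hr : r + 1 < D.L0) :
    T.dt (PatG_y D r) (PatG_z D r) = T.dt (PatG_x D (r + 1)) (PatG_y D (r + 1)) := by
  have hL : D.L0 = 2 * (D.m1 + 2) := rfl
  rw [hL] at hr
  rcases Nat.lt_or_ge (D.m1 + 1) r with h1 | h1
  · rcases Nat.lt_or_ge (D.m1 + 2) r with h2 | h2
    · have e1 : PatG_x D (r + 1) = PatG_y D r := by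
        rw [PatG_x, PatG_y, if_neg (by omega), if_neg (by omega), if_neg (by omega)]
        congr 1
        omega
      have e2 : PatG_y D (r + 1) = PatG_z D r := by
        rw [PatG_y, PatG_z, if_neg (by omega), if_neg (by omega), if_neg (by omega)]
        congr 1
        omega
      rw [e1, e2]
    · have h3 : r = D.m1 + 2 := by omega
      subst h3
      have e1 : PatG_y D (D.m1 + 2) = D.g0 true (D.m1 + 1) := by
        rw [PatG_y, if_pos le_rfl]
        rfl
      have e2 : PatG_z D (D.m1 + 2) = D.tf := by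
        rw [PatG_z, if_neg (by omega), if_pos rfl]
      have e3 : PatG_x D (D.m1 + 2 + 1) = D.g0 false (D.m1 + 1) := by
        rw [PatG_x, if_neg (by omega), if_neg (by omega),
          show 2 * D.m1 + 5 - (D.m1 + 2 + 1) = D.m1 + 1 + 1 by omega]
        rfl
      have e4 : PatG_y D (D.m1 + 2 + 1) = D.g0 false D.m1 := by
        rw [PatG_y, if_neg (by omega), show 2 * D.m1 + 4 - (D.m1 + 2 + 1) = D.m1 + 1 by omega]
        rfl
      rw [e1, e2, e3, e4]
      exact D.dt_tf
  · have e1 : PatG_x D (r + 1) = PatG_y D r := by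
      rw [PatG_x, PatG_y, if_neg (by omega), if_pos (by omega), if_pos (by omega)]
      rfl
    have e2 : PatG_y D (r + 1) = PatG_z D r := by
      rw [PatG_y, PatG_z, if_pos (by omega), if_pos (by omega)]
    rw [e1, e2]

theorem PatG_last (r : ℕ) (hr : r + 1 = D.L0) :
    T.dt (PatG_y D r) (PatG_z D r) = T.dt (PatG_x D 0) (PatG_y D 0) := by
  have hL : D.L0 = 2 * (D.m1 + 2) := rfl
  rw [hL] at hr
  have h1 : r = 2 * D.m1 + 3 := by omega
  subst h1
  have e1 : PatG_y D (2 * D.m1 + 3) = D.w false := by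
    rw [PatG_y, if_neg (by omega), show 2 * D.m1 + 4 - (2 * D.m1 + 3) = 1 by omega]
    exact PatG_one D false
  have e2 : PatG_z D (2 * D.m1 + 3) = D.X := by
    rw [PatG_z, if_neg (by omega), if_neg (by omega),
      show 2 * D.m1 + 3 - (2 * D.m1 + 3) = 0 by omega]
    rfl
  have e3 : PatG_x D 0 = D.w false := by simp [PatG_x]
  have e4 : PatG_y D 0 = D.X := by simp [PatG_y, PatG_e]
  rw [e1, e2, e3, e4]

end

theorem patG {V : Type} {H : SimpleGraph V} {T : Typ H} (D : CK T) :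
    ∃ x y z : ℕ → V, Pat T D.L0 x y z ∧ x 0 = D.w false ∧ y 0 = D.X ∧ z 0 = D.w true ∧
      T.dt (x (D.m1 + 2)) (y (D.m1 + 2)) = T.dt (D.g0 true D.m1) (D.g0 true (D.m1 + 1)) ∧
      T.dt (y (D.m1 + 2)) (x (D.m1 + 2)) = T.dt (D.g0 true (D.m1 + 1)) (D.g0 true D.m1) ∧
      T.dt (y (D.m1 + 2)) (z (D.m1 + 2)) = T.dt (D.g0 false (D.m1 + 1)) (D.g0 false D.m1) := by
  have hL : D.L0 = 2 * (D.m1 + 2) := rfl
  have hpos : 0 < D.L0 := by rw [hL]; omega
  have e5 : (D.m1 + 2) % D.L0 = D.m1 + 2 := Nat.mod_eq_of_lt (by rw [hL]; omega)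
  have ex : PatG_x D (D.m1 + 2) = D.g0 true D.m1 := by
    rw [PatG_x, if_neg (by omega), if_pos le_rfl]
    rfl
  have ey : PatG_y D (D.m1 + 2) = D.g0 true (D.m1 + 1) := by
    rw [PatG_y, if_pos le_rfl]
    rfl
  have ez : PatG_z D (D.m1 + 2) = D.tf := by
    rw [PatG_z, if_neg (by omega), if_pos rfl]
  refine ⟨fun j => PatG_x D (j % D.L0), fun j => PatG_y D (j % D.L0), fun j => PatG_z D (j % D.L0),
    ⟨hpos, ?_, ?_, ?_, ?_, ?_⟩, ?_, ?_, ?_, ?_, ?_, ?_⟩
  · intro j
    simp only [Nat.add_mod_right, and_self]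
  · intro j
    exact (PatG_main D _ (Nat.mod_lt _ hpos)).1
  · intro j
    exact (PatG_main D _ (Nat.mod_lt _ hpos)).2.1
  · intro j
    exact (PatG_main D _ (Nat.mod_lt _ hpos)).2.2
  · intro j
    show T.dt (PatG_y D (j % D.L0)) (PatG_z D (j % D.L0)) =
      T.dt (PatG_x D ((j + 1) % D.L0)) (PatG_y D ((j + 1) % D.L0))
    have h1 := Nat.mod_lt j hpos
    rcases Nat.lt_or_ge (j % D.L0 + 1) D.L0 with h2 | h2
    · have h3 : (j + 1) % D.L0 = j % D.L0 + 1 := by
        rw [← Nat.mod_add_mod, Nat.mod_eq_of_lt h2]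
      rw [h3]
      exact PatG_dt D _ h2
    · have h4 : j % D.L0 + 1 = D.L0 := by omega
      have h3 : (j + 1) % D.L0 = 0 := by
        rw [← Nat.mod_add_mod, h4, Nat.mod_self]
      rw [h3]
      exact PatG_last D _ h4
  · show PatG_x D (0 % D.L0) = _
    rw [Nat.zero_mod]
    simp [PatG_x]
  · show PatG_y D (0 % D.L0) = _
    rw [Nat.zero_mod]
    simp [PatG_y, PatG_e]
  · show PatG_z D (0 % D.L0) = _
    rw [Nat.zero_mod, PatG_z, if_pos (by omega)]
    exact PatG_one D true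
  · show T.dt (PatG_x D ((D.m1 + 2) % D.L0)) (PatG_y D ((D.m1 + 2) % D.L0)) = _
    rw [e5, ex, ey]
  · show T.dt (PatG_y D ((D.m1 + 2) % D.L0)) (PatG_x D ((D.m1 + 2) % D.L0)) = _
    rw [e5, ex, ey]
  · show T.dt (PatG_y D ((D.m1 + 2) % D.L0)) (PatG_z D ((D.m1 + 2) % D.L0)) = _
    rw [e5, ey, ez]
    exact D.dt_tf

end Pool.Agent.LHB
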