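import Pool.Agent.LHB.Defs

/-!
# Circulations

`circ_closed`: sum the equation `hb` over `x ∈ R` (`Finset.univ.filter (· ∈ R)`, classically). The left side is
`∑_{x ∈ R} ∑_{y ∈ R} c x y` (for `x ∈ R`, `y ∉ R` we have `c x y = 0` by `h0` and `hR`), the right side is
`∑_{x ∈ R} ∑_{y ∈ R} c y x + ∑_{x ∈ R} ∑_{y ∉ R} c y x`. The first sums are equal, so the last one is zero and all its terms
are zero. `circ_path`: `R = {z | ReflTransGen _ y z}`.
-/

namespace Pool.Agent.LHB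

open Pool.Agent.LIH Pool.Agent.LHA

theorem circ_closed {A : Type} [Fintype A] (c : A → A → ℚ) (h0 : ∀ x y, 0 ≤ c x y)
    (hb : ∀ x, ∑ y, c x y = ∑ y, c y x) (R : Set A) (hR : ∀ x ∈ R, ∀ y, 0 < c x y → y ∈ R)
    {x y : A} (hy : y ∈ R) (hxy : 0 < c x y) : x ∈ R := by
  classical
  by_contra hx
  let S : Finset A := Finset.univ.filter (· ∈ R)
  have hS : ∀ z, z ∈ S ↔ z ∈ R := fun z => by simp [S]
  have h1 : ∑ a ∈ S, ∑ b, c a b = ∑ a ∈ S, ∑ b, c b a := Finset.sum_congr rfl (fun a _ => hb a)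
  have h2 : ∀ a ∈ S, ∑ b, c a b = ∑ b ∈ S, c a b := by
    intro a ha
    symm
    apply Finset.sum_subset (Finset.subset_univ S)
    intro b _ hbS
    by_contra hne
    have hpos : 0 < c a b := lt_of_le_of_ne (h0 a b) (Ne.symm hne)
    exact hbS ((hS b).2 (hR a ((hS a).1 ha) b hpos))
  have h3 : ∀ a, ∑ b, c b a = ∑ b ∈ S, c b a + ∑ b ∈ Sᶜ, c b a := fun a =>
    (Finset.sum_add_sum_compl S (fun b => c b a)).symm
  rw [Finset.sum_congr rfl h2, Finset.sum_congr rfl (fun a _ => h3 a), Finset.sum_add_distrib,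
    Finset.sum_comm] at h1
  have h4 : ∑ a ∈ S, ∑ b ∈ Sᶜ, c b a = 0 := by linarith
  have h5 : ∑ b ∈ Sᶜ, c b y = 0 := by
    have h6 : ∀ a ∈ S, 0 ≤ ∑ b ∈ Sᶜ, c b a := fun a _ => Finset.sum_nonneg (fun b _ => h0 b a)
    exact (Finset.sum_eq_zero_iff_of_nonneg h6).1 h4 y ((hS y).2 hy)
  have h7 : c x y = 0 := by
    refine (Finset.sum_eq_zero_iff_of_nonneg (fun b _ => h0 b y)).1 h5 x ?_
    rw [Finset.mem_compl, hS]
    exact hx
  rw [h7] at hxy
  exact lt_irrefl _ hxy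

theorem circ_path {A : Type} [Fintype A] (c : A → A → ℚ) (h0 : ∀ x y, 0 ≤ c x y)
    (hb : ∀ x, ∑ y, c x y = ∑ y, c y x) {x y : A} (hxy : 0 < c x y) :
    Relation.ReflTransGen (fun s t => 0 < c s t) y x :=
  circ_closed c h0 hb {z | Relation.ReflTransGen (fun s t => 0 < c s t) y z}
    (fun _ hz _ hzw => hz.tail hzw) Relation.ReflTransGen.refl hxy

end Pool.Agent.LHB
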