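import Pool.Agent.LHB.Defs
import Pool.Agent.LHB.TBas
import Pool.Agent.LHB.RecA

/-!
# Steps along a pattern can be undone

`A = Fin L × V × V` (`V` a `Fintype` classically). For `j < L` let `D_j` be the set of darts `(p, q)` with `T.dt p q = T.dt (x j) (y j)`.
Let `out j` be the number of `s` with `H.Adj q s`, `s ≠ p`, `T.dt q s = T.dt (y j) (z j)` for `(p, q) ∈ D_j`: it does not depend on
`(p, q)`: `T.vt q = T.vt (y j)` and `T.dt q p = T.dt (y j) (x j)` (`hd`), take a star bijection `N(y j) → N(q)` with `x j ↦ p`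
(`star_equiv`): so it is the number for `(x j, y j)`, and positive (`s = z j`). Similarly for `(q, s) ∈ D_(j+1)` (indices mod `L`; note
`T.dt (x (j+1)) (y (j+1)) = T.dt (y j) (z j)`) the number `inn j` of `p` with `H.Adj p q`, `p ≠ s`, `T.dt p q = T.dt (x j) (y j)` (equivalently, by `rev`,
`T.dt q p = T.dt (y j) (x j)`) does not depend on `(q, s)`, and is positive. Counting the steps `(p, q, s)` at `j` in two
ways: `N_j = |D_j| * out j = |D_(j+1)| * inn j`.
`c ((j, p, q), (j', q', s)) = 1 / N_j` if it is a step (`PStep`), otherwise `0`. At `(j, p, q)` with `(p, q) ∈ D_j` the outgoing sum is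
`out j / N_j = 1 / |D_j|`, the incoming sum is `inn (j-1) / N_(j-1) = 1 / |D_j|`; if `(p, q) ∉ D_j` both are zero. Apply
`circ_path`; the relation `0 < c s t` is `PStep`.
-/

namespace Pool.Agent.LHB

open Pool.Agent.LIH Pool.Agent.LHA

/-- one step along the pattern -/
def PStep {V : Type} {H : SimpleGraph V} (T : Typ H) (L : ℕ) (x y z : ℕ → V)
    (s t : ℕ × V × V) : Prop :=
  s.1 < L ∧ t.1 = (s.1 + 1) % L ∧ t.2.1 = s.2.2 ∧ H.Adj s.2.1 s.2.2 ∧ H.Adj s.2.2 t.2.2 ∧
    t.2.2 ≠ s.2.1 ∧ T.dt s.2.1 s.2.2 = T.dt (x s.1) (y s.1) ∧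
    T.dt s.2.2 t.2.2 = T.dt (y s.1) (z s.1)

section

open Classical in
/-- number of neighbours `s ≠ b` of `a` with `T.dt a s = θ` -/
noncomputable def RecB_cnt {V : Type} [Fintype V] {H : SimpleGraph V} (T : Typ H) (a b : V) (θ : ℕ) : ℕ :=
  (Finset.univ.filter fun s => H.Adj a s ∧ s ≠ b ∧ T.dt a s = θ).card

theorem RecB_cnt_eq {V : Type} [Fintype V] {H : SimpleGraph V} (T : Typ H) {a b a' b' : V} (θ : ℕ)
    (hv : T.vt a = T.vt a') (h : H.Adj a b) (h' : H.Adj a' b') (e : T.dt a b = T.dt a' b') :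
    RecB_cnt T a b θ = RecB_cnt T a' b' θ := by
  classical
  obtain ⟨φ, hφ, hφb⟩ := T.star_equiv hv h h' e
  unfold RecB_cnt
  refine Finset.card_bij (fun s hs => (φ ⟨s, by simpa using (Finset.mem_filter.1 hs).2.1⟩).1) ?_ ?_ ?_
  · intro s hs
    have hs' := (Finset.mem_filter.1 hs).2
    refine Finset.mem_filter.2 ⟨Finset.mem_univ _, ?_, ?_, ?_⟩
    · exact (φ ⟨s, hs'.1⟩).2
    · intro hc
      have h1 : φ ⟨s, hs'.1⟩ = φ ⟨b, h⟩ := Subtype.ext (hc.trans hφb.symm)
      have h2 := φ.injective h1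
      exact hs'.2.1 (congrArg Subtype.val h2)
    · have := hφ ⟨s, hs'.1⟩
      rw [← this]
      exact hs'.2.2
  · intro s hs s' hs' he
    have h2 := φ.injective (Subtype.ext he)
    exact congrArg Subtype.val h2
  · intro s' hs'
    have hs1 := (Finset.mem_filter.1 hs').2
    have hadj : H.Adj a (φ.symm ⟨s', hs1.1⟩).1 := (φ.symm ⟨s', hs1.1⟩).2
    have hap : φ ⟨(φ.symm ⟨s', hs1.1⟩).1, hadj⟩ = ⟨s', hs1.1⟩ := by
      have : (⟨(φ.symm ⟨s', hs1.1⟩).1, hadj⟩ : H.neighborSet a) = φ.symm ⟨s', hs1.1⟩ := rfl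
      rw [this, φ.apply_symm_apply]
    refine ⟨(φ.symm ⟨s', hs1.1⟩).1, ?_, ?_⟩
    · refine Finset.mem_filter.2 ⟨Finset.mem_univ _, hadj, ?_, ?_⟩
      · intro hc
        have h1 : (⟨(φ.symm ⟨s', hs1.1⟩).1, hadj⟩ : H.neighborSet a) = ⟨b, h⟩ := Subtype.ext hc
        rw [h1] at hap
        apply hs1.2.1
        rw [← hφb, hap]
      · have := hφ ⟨(φ.symm ⟨s', hs1.1⟩).1, hadj⟩
        rw [this, hap]
        exact hs1.2.2
    · exact congrArg Subtype.val hap

open Classical in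
/-- the darts of the type `α` -/
noncomputable def RecB_D {V : Type} [Fintype V] {H : SimpleGraph V} (T : Typ H) (α : ℕ) : Finset (V × V) :=
  Finset.univ.filter fun a => H.Adj a.1 a.2 ∧ T.dt a.1 a.2 = α

theorem RecB_D_mem {V : Type} [Fintype V] {H : SimpleGraph V} {T : Typ H} {α : ℕ} {a : V × V} :
    a ∈ RecB_D T α ↔ H.Adj a.1 a.2 ∧ T.dt a.1 a.2 = α := by
  unfold RecB_D
  simp

open Classical in
theorem RecB_out {V : Type} [Fintype V] {H : SimpleGraph V} (T : Typ H) (β : ℕ) (p q : V) :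
    ((RecB_D T β).filter fun b => q = b.1 ∧ b.2 ≠ p).card = RecB_cnt T q p β := by
  unfold RecB_cnt
  refine Finset.card_bij (fun b _ => b.2) ?_ ?_ ?_
  · intro b hb
    obtain ⟨hb1, hb2, hb3⟩ := Finset.mem_filter.1 hb
    have hb4 := RecB_D_mem.1 hb1
    refine Finset.mem_filter.2 ⟨Finset.mem_univ _, ?_, hb3, ?_⟩
    · rw [hb2]; exact hb4.1
    · rw [hb2]; exact hb4.2
  · intro b hb b' hb' he
    obtain ⟨hb1, hb2, hb3⟩ := Finset.mem_filter.1 hb
    obtain ⟨hb1', hb2', hb3'⟩ := Finset.mem_filter.1 hb'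
    exact Prod.ext (hb2.symm.trans hb2') he
  · intro s hs
    have hs' := (Finset.mem_filter.1 hs).2
    exact ⟨(q, s), Finset.mem_filter.2 ⟨RecB_D_mem.2 ⟨hs'.1, hs'.2.2⟩, rfl, hs'.2.1⟩, rfl⟩

open Classical in
theorem RecB_inn {V : Type} [Fintype V] {H : SimpleGraph V} (T : Typ H) {x0 y0 : V} (h0 : H.Adj x0 y0) (q s : V) :
    ((RecB_D T (T.dt x0 y0)).filter fun a => a.2 = q ∧ s ≠ a.1).card = RecB_cnt T q s (T.dt y0 x0) := by
  unfold RecB_cnt
  refine Finset.card_bij (fun b _ => b.1) ?_ ?_ ?_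
  · intro b hb
    obtain ⟨hb1, hb2, hb3⟩ := Finset.mem_filter.1 hb
    have hb4 := RecB_D_mem.1 hb1
    have hd := T.hd hb4.1 h0 hb4.2
    refine Finset.mem_filter.2 ⟨Finset.mem_univ _, ?_, hb3.symm, ?_⟩
    · rw [← hb2]; exact hb4.1.symm
    · rw [← hb2]; exact hd.2.2
  · intro b hb b' hb' he
    obtain ⟨hb1, hb2, hb3⟩ := Finset.mem_filter.1 hb
    obtain ⟨hb1', hb2', hb3'⟩ := Finset.mem_filter.1 hb'
    exact Prod.ext he (hb2.trans hb2'.symm)
  · intro r hr
    have hr' := (Finset.mem_filter.1 hr).2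
    have hd := T.hd hr'.1 h0.symm hr'.2.2
    exact ⟨(r, q), Finset.mem_filter.2 ⟨RecB_D_mem.2 ⟨hr'.1.symm, hd.2.2⟩, rfl, hr'.2.1.symm⟩, rfl⟩

/-- double counting -/
theorem RecB_dc {V : Type} [Fintype V] {H : SimpleGraph V} (T : Typ H) {x0 y0 z0 : V} (h0 : H.Adj x0 y0)
    (h1 : H.Adj y0 z0) :
    (RecB_D T (T.dt x0 y0)).card * RecB_cnt T y0 x0 (T.dt y0 z0) =
      (RecB_D T (T.dt y0 z0)).card * RecB_cnt T y0 z0 (T.dt y0 x0) := by
  classical
  refine Finset.card_mul_eq_card_mul (fun (a b : V × V) => a.2 = b.1 ∧ b.2 ≠ a.1) ?_ ?_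
  · intro a ha
    have ha' := RecB_D_mem.1 ha
    have hd := T.hd ha'.1 h0 ha'.2
    have := RecB_out T (T.dt y0 z0) a.1 a.2
    unfold Finset.bipartiteAbove
    rw [this]
    exact RecB_cnt_eq T _ hd.1 ha'.1.symm h0.symm hd.2.2
  · intro b hb
    have hb' := RecB_D_mem.1 hb
    have hd := T.hd hb'.1 h1 hb'.2
    have := RecB_inn T h0 b.1 b.2
    unfold Finset.bipartiteBelow
    rw [this]
    exact RecB_cnt_eq T _ hd.2.1 hb'.1 h1 hb'.2

/-- per shift -/
theorem RecB_mod {α : Type*} {f : ℕ → α} {L : ℕ} (hf : ∀ j, f (j + L) = f j) (j : ℕ) : f (j % L) = f j := by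
  conv_rhs => rw [← Nat.mod_add_div j L]
  generalize j / L = k
  generalize j % L = r
  induction k with
  | zero => simp
  | succ k ih => rw [Nat.mul_succ, ← Nat.add_assoc, hf, ← ih]

end

theorem rec_path {V : Type} [Finite V] {H : SimpleGraph V} {T : Typ H} {L : ℕ} {x y z : ℕ → V}
    (hP : Pat T L x y z) {s t : ℕ × V × V} (h : PStep T L x y z s t) :
    Relation.ReflTransGen (PStep T L x y z) t s := by
  classical
  have : Fintype V := Fintype.ofFinite V
  have hL := hP.pos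
  have hx : ∀ j, x (j + L) = x j := fun j => (hP.per j).1
  have hy : ∀ j, y (j + L) = y j := fun j => (hP.per j).2.1
  let emb : Fin L × V × V → ℕ × V × V := fun s => (s.1.1, s.2)
  let R : Fin L × V × V → Fin L × V × V → Prop := fun s t => PStep T L x y z (emb s) (emb t)
  let Dj : ℕ → Finset (V × V) := fun j => RecB_D T (T.dt (x j) (y j))
  let o : ℕ → ℕ := fun j => RecB_cnt T (y j) (x j) (T.dt (y j) (z j))
  let i : ℕ → ℕ := fun j => RecB_cnt T (y j) (z j) (T.dt (y j) (x j))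
  let N : ℕ → ℕ := fun j => (Dj j).card * o j
  have hDpos : ∀ j, 0 < (Dj j).card := fun j =>
    Finset.card_pos.2 ⟨(x j, y j), RecB_D_mem.2 ⟨hP.adj1 j, rfl⟩⟩
  have hopos : ∀ j, 0 < o j := fun j => by
    refine Finset.card_pos.2 ⟨z j, Finset.mem_filter.2 ⟨Finset.mem_univ _, hP.adj2 j, (hP.ne j).symm, rfl⟩⟩
  have hNpos : ∀ j, 0 < N j := fun j => Nat.mul_pos (hDpos j) (hopos j)
  have hnext : ∀ j, Dj ((j + 1) % L) = RecB_D T (T.dt (y j) (z j)) := fun j => by
    show RecB_D T (T.dt (x ((j + 1) % L)) (y ((j + 1) % L))) = _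
    rw [RecB_mod hx, RecB_mod hy, ← hP.dt j]
  have hdc : ∀ j, N j = (Dj ((j + 1) % L)).card * i j := fun j => by
    rw [hnext]
    exact RecB_dc T (hP.adj1 j) (hP.adj2 j)
  let c : Fin L × V × V → Fin L × V × V → ℚ := fun s t => if R s t then (1 / (N s.1 : ℚ)) else 0
  have hc0 : ∀ s t, 0 ≤ c s t := fun s t => by
    show 0 ≤ (if R s t then (1 / (N s.1 : ℚ)) else 0)
    split_ifs
    · positivity
    · exact le_rfl
  -- the outgoing sum
  have hout : ∀ s, ∑ t, c s t = if s.2 ∈ Dj s.1 then (1 / ((Dj s.1).card : ℚ)) else 0 := by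
    rintro ⟨j, p, q⟩
    show ∑ t, (if R (j, p, q) t then (1 / (N j : ℚ)) else 0) = _
    rw [← Finset.sum_filter, Finset.sum_const, nsmul_eq_mul]
    by_cases hpq : (p, q) ∈ Dj j
    · rw [if_pos hpq]
      have hpq' := RecB_D_mem.1 hpq
      have hd := T.hd hpq'.1 (hP.adj1 j) hpq'.2
      have hcard : (Finset.univ.filter fun t => R (j, p, q) t).card = o j := by
        have h1 : RecB_cnt T q p (T.dt (y j) (z j)) = o j :=
          RecB_cnt_eq T _ hd.1 hpq'.1.symm (hP.adj1 j).symm hd.2.2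
        rw [← h1]
        unfold RecB_cnt
        refine Finset.card_bij (fun t _ => t.2.2) ?_ ?_ ?_
        · rintro ⟨j', q', s'⟩ ht
          obtain ⟨_, _, h3, _, h5, h6, _, h8⟩ := (Finset.mem_filter.1 ht).2
          exact Finset.mem_filter.2 ⟨Finset.mem_univ _, h5, h6, h8⟩
        · rintro ⟨j1, q1, s1⟩ ht1 ⟨j2, q2, s2⟩ ht2 he
          obtain ⟨_, a2, a3, _⟩ := (Finset.mem_filter.1 ht1).2
          obtain ⟨_, b2, b3, _⟩ := (Finset.mem_filter.1 ht2).2
          have e1 : j1 = j2 := Fin.ext (a2.trans b2.symm)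
          have e2 : q1 = q2 := a3.trans b3.symm
          have e3 : s1 = s2 := he
          rw [e1, e2, e3]
        · intro s' hs'
          have hs1 := (Finset.mem_filter.1 hs').2
          refine ⟨(⟨(j.1 + 1) % L, Nat.mod_lt _ hL⟩, q, s'), Finset.mem_filter.2 ⟨Finset.mem_univ _, ?_⟩, rfl⟩
          exact ⟨j.2, rfl, rfl, hpq'.1, hs1.1, hs1.2.1, hpq'.2, hs1.2.2⟩
      rw [hcard]
      have h1 : ((N j : ℕ) : ℚ) = ((Dj j).card : ℚ) * (o j : ℚ) := by
        show (((Dj j).card * o j : ℕ) : ℚ) = _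
        push_cast; rfl
      rw [h1]
      have h2 : ((Dj j).card : ℚ) ≠ 0 := by exact_mod_cast (hDpos j).ne'
      have h3 : (o j : ℚ) ≠ 0 := by exact_mod_cast (hopos j).ne'
      field_simp
    · rw [if_neg hpq]
      have : (Finset.univ.filter fun t => R (j, p, q) t) = ∅ := by
        apply Finset.filter_false_of_mem
        rintro ⟨j', q', s'⟩ _ hR
        obtain ⟨_, _, _, h4, _, _, h7, _⟩ := hR
        exact hpq (RecB_D_mem.2 ⟨h4, h7⟩)
      rw [this]
      simp
  -- the incoming sum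
  have hinn : ∀ t, ∑ s, c s t = if t.2 ∈ Dj t.1 then (1 / ((Dj t.1).card : ℚ)) else 0 := by
    rintro ⟨j', q, s'⟩
    obtain ⟨j, hj, hjj⟩ : ∃ j < L, (j + 1) % L = j'.1 := by
      rcases Nat.eq_zero_or_pos j'.1 with h0 | h0
      · exact ⟨L - 1, by omega, by rw [Nat.sub_add_cancel hL, Nat.mod_self, h0]⟩
      · exact ⟨j'.1 - 1, by omega, by rw [Nat.sub_add_cancel h0]; exact Nat.mod_eq_of_lt j'.2⟩
    have huniq : ∀ k < L, (k + 1) % L = j'.1 → k = j := by
      intro k hk hkk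
      have h1 : (k + 1) % L = (j + 1) % L := hkk.trans hjj.symm
      rcases Nat.lt_or_ge (k + 1) L with h2 | h2
      · rcases Nat.lt_or_ge (j + 1) L with h3 | h3
        · rw [Nat.mod_eq_of_lt h2, Nat.mod_eq_of_lt h3] at h1; omega
        · have h4 : j + 1 = L := by omega
          rw [h4, Nat.mod_self, Nat.mod_eq_of_lt h2] at h1; omega
      · have h4 : k + 1 = L := by omega
        rcases Nat.lt_or_ge (j + 1) L with h3 | h3
        · rw [h4, Nat.mod_self, Nat.mod_eq_of_lt h3] at h1; omega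
        · omega
    show ∑ s, (if R s (j', q, s') then (1 / (N s.1 : ℚ)) else 0) = _
    rw [← Finset.sum_filter]
    have hconst : ∀ s ∈ Finset.univ.filter (fun s => R s (j', q, s')), (1 / (N s.1 : ℚ)) = 1 / (N j : ℚ) := by
      rintro ⟨k, p, q0⟩ hs
      obtain ⟨h1, h2, _⟩ := (Finset.mem_filter.1 hs).2
      have : k.1 = j := huniq k.1 h1 h2.symm
      show (1 / (N k.1 : ℚ)) = _
      rw [this]
    rw [Finset.sum_congr rfl hconst, Finset.sum_const, nsmul_eq_mul]
    have hDD : Dj j'.1 = RecB_D T (T.dt (y j) (z j)) := by rw [← hjj]; exact hnext j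
    by_cases hqs : (q, s') ∈ Dj j'
    · rw [if_pos hqs]
      have hqs1 := hqs
      rw [hDD] at hqs1
      have hqs' := RecB_D_mem.1 hqs1
      have hd := T.hd hqs'.1 (hP.adj2 j) hqs'.2
      have hcard : (Finset.univ.filter fun s => R s (j', q, s')).card = i j := by
        have h1 : RecB_cnt T q s' (T.dt (y j) (x j)) = i j :=
          RecB_cnt_eq T _ hd.2.1 hqs'.1 (hP.adj2 j) hqs'.2
        rw [← h1, ← RecB_inn T (hP.adj1 j)]
        refine Finset.card_bij (fun t _ => t.2) ?_ ?_ ?_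
        · rintro ⟨k, p, q0⟩ ht
          obtain ⟨h1, h2, h3, h4, h5, h6, h7, h8⟩ := (Finset.mem_filter.1 ht).2
          have hk : k.1 = j := huniq k.1 h1 h2.symm
          refine Finset.mem_filter.2 ⟨RecB_D_mem.2 ⟨h4, ?_⟩, h3.symm, h6⟩
          have h7' : T.dt p q0 = T.dt (x k.1) (y k.1) := h7
          rw [hk] at h7'
          exact h7'
        · rintro ⟨j1, q1, s1⟩ ht1 ⟨j2, q2, s2⟩ ht2 he
          obtain ⟨a1, a2, _⟩ := (Finset.mem_filter.1 ht1).2
          obtain ⟨b1, b2, _⟩ := (Finset.mem_filter.1 ht2).2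
          have e1 : j1 = j2 := Fin.ext ((huniq _ a1 a2.symm).trans (huniq _ b1 b2.symm).symm)
          have e2 : (q1, s1) = (q2, s2) := he
          rw [e1, e2]
        · rintro ⟨p, q0⟩ hb
          obtain ⟨hb1, hb2, hb3⟩ := Finset.mem_filter.1 hb
          have hb4 := RecB_D_mem.1 hb1
          have hb2' : q0 = q := hb2
          subst hb2'
          refine ⟨(⟨j, hj⟩, p, q0), Finset.mem_filter.2 ⟨Finset.mem_univ _, ?_⟩, rfl⟩
          exact ⟨hj, hjj.symm, rfl, hb4.1, hqs'.1, hb3, hb4.2, hqs'.2⟩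
      rw [hcard]
      have hN := hdc j
      rw [hjj] at hN
      have hi : 0 < i j := by
        have := hNpos j
        rw [hN] at this
        exact Nat.pos_of_mul_pos_left this
      have h1 : ((N j : ℕ) : ℚ) = ((Dj j').card : ℚ) * (i j : ℚ) := by
        rw [hN]
        push_cast; rfl
      rw [h1]
      have h2 : ((Dj j').card : ℚ) ≠ 0 := by exact_mod_cast (hDpos j').ne'
      have h3 : (i j : ℚ) ≠ 0 := by exact_mod_cast hi.ne'
      field_simp
    · rw [if_neg hqs]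
      have : (Finset.univ.filter fun s => R s (j', q, s')) = ∅ := by
        apply Finset.filter_false_of_mem
        rintro ⟨k, p, q0⟩ _ hR
        obtain ⟨h1, h2, h3, h4, h5, h6, h7, h8⟩ := hR
        have hk : k.1 = j := huniq k.1 h1 h2.symm
        apply hqs
        rw [hDD]
        have h3' : q = q0 := h3
        subst h3'
        refine RecB_D_mem.2 ⟨h5, ?_⟩
        have h8' : T.dt q s' = T.dt (y k.1) (z k.1) := h8
        rw [hk] at h8'
        exact h8'
      rw [this]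
      simp
  have hb : ∀ s, ∑ t, c s t = ∑ t, c t s := fun s => by rw [hout, hinn]
  -- the final step
  have hs1 : s.1 < L := h.1
  have ht1 : t.1 < L := by
    rw [h.2.1]; exact Nat.mod_lt _ hL
  have hR : R (⟨s.1, hs1⟩, s.2) (⟨t.1, ht1⟩, t.2) := h
  have hcpos : 0 < c (⟨s.1, hs1⟩, s.2) (⟨t.1, ht1⟩, t.2) := by
    show 0 < (if R _ _ then (1 / (N s.1 : ℚ)) else 0)
    rw [if_pos hR]
    have : (0 : ℚ) < N s.1 := by exact_mod_cast hNpos s.1
    positivity
  have hpath := circ_path c hc0 hb hcpos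
  have hstep : ∀ a b, 0 < c a b → PStep T L x y z (emb a) (emb b) := fun a b hab => by
    by_contra hn
    have : c a b = 0 := if_neg hn
    rw [this] at hab
    exact lt_irrefl _ hab
  have key : ∀ a b, Relation.ReflTransGen (fun s t => 0 < c s t) a b →
      Relation.ReflTransGen (PStep T L x y z) (emb a) (emb b) := fun a b hab => by
    induction hab with
    | refl => exact Relation.ReflTransGen.refl
    | tail _ h2 ih => exact ih.tail (hstep _ _ h2)
  exact key _ _ hpath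

end Pool.Agent.LHB
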