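import Pool.Agent.LHB.Defs
import Pool.Agent.LHB.RecB

/-!
# Periodic walks along a pattern

Let `d0 = (0, a, b)`, `d1 = (1 % L, b, c)`: `PStep d0 d1`. By `rec_path` there is a path from `d1` to `d0`, so a sequence
`d : ℕ → ℕ × V × V` and `N ≥ 1` with `d 0 = d0`, `d 1 = d1`, `d N = d0`, `PStep (d i) (d (i+1))` for `i < N`. First components:
`(d i).1 = i % L` for `i ≤ N`, so `L ∣ N`, `N = K L`, `K ≥ 1`. Extend periodically to `ℤ`: `e i = d ((i % N).toNat)`; then
`PStep (e i) (e (i+1))` for all `i : ℤ`, `e (i + N) = e i`, `(e i).1 = i % L`. Put `g i = (e (i+1)).2.1`. Then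
`(e (i+1)).2 = (g i, g (i+1))` (`PStep`: the first vertex of the next dart is the second vertex), `g (-1) = a`, `g 0 = b`,
`g 1 = (e 1).2.2 = c`. `PStep (e (i+1)) (e (i+2))`: adjacency, `g (i+2) ≠ g i`, and
`T.dt (g (i+1)) (g (i+2)) = T.dt (y j) (z j)` with `j = (i+1) % L`; for `i' ≡ i + 1 mod L`, `y i' = y j`, `z i' = z j` (`per`).
-/

namespace Pool.Agent.LHB

open Pool.Agent.LIH Pool.Agent.LHA

theorem RecC_seq {A : Type} {r : A → A → Prop} {a b : A} (h : Relation.ReflTransGen r a b) :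
    ∃ (n : ℕ) (f : ℕ → A), f 0 = a ∧ f n = b ∧ ∀ i < n, r (f i) (f (i + 1)) := by
  induction h with
  | refl => exact ⟨0, fun _ => a, rfl, rfl, fun i hi => absurd hi (Nat.not_lt_zero i)⟩
  | tail _ h2 ih =>
    rename_i b' c' _
    obtain ⟨n, f, h0, hn, hf⟩ := ih
    refine ⟨n + 1, fun i => if i ≤ n then f i else c', ?_, ?_, ?_⟩
    · simp [h0]
    · simp
    · intro i hi
      have h1 : i ≤ n := by omega
      simp only [h1, if_true]
      by_cases h3 : i + 1 ≤ n
      · simp only [h3, if_true]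
        exact hf i (by omega)
      · simp only [h3, if_false]
        have : i = n := by omega
        subst this
        rw [hn]
        exact h2

theorem recur {V : Type} [Finite V] {H : SimpleGraph V} {T : Typ H} {L : ℕ} {x y z : ℕ → V}
    (hP : Pat T L x y z) {a b c : V} (hab : H.Adj a b) (hbc : H.Adj b c) (hac : a ≠ c)
    (h1 : T.dt a b = T.dt (x 0) (y 0)) (h2 : T.dt b c = T.dt (y 0) (z 0)) :
    ∃ K : ℕ, 0 < K ∧ ∃ g : ℤ → V, (∀ j, H.Adj (g j) (g (j + 1))) ∧ (∀ j, g j ≠ g (j + 2)) ∧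
      g (-1) = a ∧ g 0 = b ∧ g 1 = c ∧ (∀ j, g (j + K * L) = g j) ∧
      ∀ (j : ℤ) (i : ℕ), j % L = (i : ℤ) % L →
        T.dt (g j) (g (j + 1)) = T.dt (y i) (z i) ∧ T.dt (g j) (g (j - 1)) = T.dt (y i) (x i) := by
  have hL := hP.pos
  have hx : ∀ j, x (j + L) = x j := fun j => (hP.per j).1
  have hy : ∀ j, y (j + L) = y j := fun j => (hP.per j).2.1
  have hz : ∀ j, z (j + L) = z j := fun j => (hP.per j).2.2
  have hst : PStep T L x y z (0, a, b) (1 % L, b, c) :=
    ⟨hL, by simp, rfl, hab, hbc, hac.symm, h1, h2⟩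
  obtain ⟨n, f, hf0, hfn, hf⟩ := RecC_seq (rec_path hP hst)
  let d : ℕ → ℕ × V × V := fun i => if i = 0 then (0, a, b) else f (i - 1)
  set N : ℕ := n + 1 with hN
  have hNpos : 0 < N := by omega
  have hd0 : d 0 = (0, a, b) := by simp [d]
  have hd1 : d 1 = (1 % L, b, c) := by simp [d, hf0]
  have hdN : d N = d 0 := by
    rw [hd0]
    simp [d, hN, hfn]
  have hdst : ∀ i < N, PStep T L x y z (d i) (d (i + 1)) := by
    intro i hi
    rcases Nat.eq_zero_or_pos i with h0 | h0
    · subst h0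
      rw [hd0, hd1]
      exact hst
    · have e1 : d i = f (i - 1) := by simp [d, h0.ne']
      have e2 : d (i + 1) = f (i - 1 + 1) := by
        simp [d, Nat.sub_add_cancel h0]
      rw [e1, e2]
      exact hf (i - 1) (by omega)
  have hfst : ∀ i ≤ N, (d i).1 = i % L := by
    intro i hi
    induction i with
    | zero => rw [hd0]; simp
    | succ i ih =>
      have h3 := (hdst i (by omega)).2.1
      rw [h3, ih (by omega)]
      simp
  have hLN : L ∣ N := by
    have h3 := hfst N le_rfl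
    rw [hdN, hd0] at h3
    exact Nat.dvd_of_mod_eq_zero h3.symm
  obtain ⟨K, hK⟩ := hLN
  have hKpos : 0 < K := by
    rcases Nat.eq_zero_or_pos K with h0 | h0
    · rw [h0] at hK; omega
    · exact h0
  let e : ℤ → ℕ × V × V := fun i => d (i % (N : ℤ)).toNat
  have hNz : (0 : ℤ) < N := by exact_mod_cast hNpos
  have her : ∀ i : ℤ, ∃ r : ℕ, r < N ∧ (r : ℤ) = i % N ∧ e i = d r ∧ e (i + 1) = d (r + 1) := by
    intro i
    have h3 := Int.emod_nonneg i hNz.ne'
    have h4 := Int.emod_lt_of_pos i hNz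
    refine ⟨(i % (N : ℤ)).toNat, by omega, by omega, rfl, ?_⟩
    show d ((i + 1) % (N : ℤ)).toNat = _
    rcases Int.lt_or_le (i % N + 1) N with h5 | h5
    · have h6 : (i + 1) % (N : ℤ) = i % N + 1 := by
        rw [← Int.emod_add_emod]
        exact Int.emod_eq_of_lt (by omega) h5
      rw [h6]
      congr 1
      omega
    · have h5' : i % N + 1 = N := by omega
      have h6 : (i + 1) % (N : ℤ) = 0 := by
        rw [← Int.emod_add_emod, h5', Int.emod_self]
      rw [h6]
      have h7 : (i % (N : ℤ)).toNat + 1 = N := by omega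
      rw [h7, hdN]
      rfl
  have hes : ∀ i, PStep T L x y z (e i) (e (i + 1)) := by
    intro i
    obtain ⟨r, hr, _, h3, h4⟩ := her i
    rw [h3, h4]
    exact hdst r hr
  have hefst : ∀ i : ℤ, (((e i).1 : ℕ) : ℤ) = i % L := by
    intro i
    obtain ⟨r, hr, hri, h3, _⟩ := her i
    rw [h3, hfst r hr.le]
    push_cast
    rw [hri]
    apply Int.emod_emod_of_dvd
    exact ⟨(K : ℤ), by rw [hK]; push_cast; ring⟩
  have h22 : ∀ i, (e (i + 1)).2.1 = (e i).2.2 := fun i => (hes i).2.2.1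
  have hN0 : e 0 = d 0 := by
    show d ((0 : ℤ) % (N : ℤ)).toNat = d 0
    simp
  have he1 : e 1 = d 1 := by
    obtain ⟨r, hr, hri, h3, h4⟩ := her 0
    have : r = 0 := by
      have : (0 : ℤ) % N = 0 := by simp
      omega
    subst this
    simpa using h4
  refine ⟨K, hKpos, fun j => (e (j + 1)).2.1, ?_, ?_, ?_, ?_, ?_, ?_, ?_⟩
  · intro j
    have h3 := (hes (j + 1)).2.2.2.1
    show H.Adj (e (j + 1)).2.1 (e (j + 1 + 1)).2.1
    rw [h22 (j + 1)]
    exact h3
  · intro j
    have h3 := (hes (j + 1)).2.2.2.2.2.1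
    show (e (j + 1)).2.1 ≠ (e (j + 2 + 1)).2.1
    have h4 : j + 2 + 1 = j + 1 + 1 + 1 := by ring
    rw [h4, h22 (j + 1 + 1)]
    exact h3.symm
  · show (e (-1 + 1)).2.1 = a
    have : (-1 + 1 : ℤ) = 0 := by norm_num
    rw [this, hN0, hd0]
  · show (e (0 + 1)).2.1 = b
    rw [zero_add, he1, hd1]
  · show (e (1 + 1)).2.1 = c
    rw [h22 1, he1, hd1]
  · intro j
    show (e (j + K * L + 1)).2.1 = (e (j + 1)).2.1
    have : e (j + K * L + 1) = e (j + 1) := by
      show d ((j + K * L + 1) % (N : ℤ)).toNat = d ((j + 1) % (N : ℤ)).toNat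
      have h3 : (j + K * L + 1 : ℤ) = j + 1 + N * 1 := by
        rw [hK]; push_cast; ring
      rw [h3, Int.add_mul_emod_self_left]
    rw [this]
  · intro j i hji
    have h3 := hes j
    have hk : (e j).1 = i % L := by
      have := hefst j
      rw [hji] at this
      exact_mod_cast this
    have ex : x (e j).1 = x i := by rw [hk]; exact RecB_mod hx i
    have ey : y (e j).1 = y i := by rw [hk]; exact RecB_mod hy i
    have ez : z (e j).1 = z i := by rw [hk]; exact RecB_mod hz i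
    obtain ⟨_, _, g3, g4, g5, g6, g7, g8⟩ := h3
    have e1 : (e (j + 1)).2.1 = (e j).2.2 := g3
    have e2 : (e (j + 1 + 1)).2.1 = (e (j + 1)).2.2 := h22 (j + 1)
    have e3 : (e (j - 1 + 1)).2.1 = (e j).2.1 := by rw [sub_add_cancel]
    rw [ex, ey] at g7
    rw [ey, ez] at g8
    constructor
    · show T.dt (e (j + 1)).2.1 (e (j + 1 + 1)).2.1 = _
      rw [e1, e2]
      exact g8
    · show T.dt (e (j + 1)).2.1 (e (j - 1 + 1)).2.1 = _
      rw [e1, e3]
      exact (T.hd g4 (hP.adj1 i) g7).2.2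

end Pool.Agent.LHB
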