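import Pool.Agent.LHB.Defs
import Pool.Agent.LHB.TBas
import Pool.Agent.LHB.CTy
import Pool.Agent.LHB.RecC
import Pool.Agent.LHB.PatG

/-!
# The lines of relays

`patG` gives `x, y, z`. `recur` with `(a, b, c) = (w false, X, w true)` gives `K, γ`; with `(wf, X, w true)` gives `K', γ'`
(`T.dt wf X = T.dt (w false) X` by `dt_wf` and `rev`; `wf ≠ w true` by `CK.wf_ne`). `K1 = K K'`: both have the period `K1 L0` (all integer
multiples of the period; `j + K K' L0` by induction or `Function.Periodic`).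
For `δ = γ` or `γ'`: `T.dt (δ j) (δ (j+1)) = T.dt (y i) (z i)`, `T.dt (δ j) (δ (j-1)) = T.dt (y i) (x i)` for `j ≡ i mod L0`.
`b = true` (`wl = w true`): `g j = γ (-j)`. `last`: `γ (-K1 L0) = γ 0`. `slot`: `γ (-K1 L0 + 1) = γ 1 = w true`. `ty0`: `T.dt (γ j) (γ (j+1))` with
`j = -i L0 ≡ 0`: `T.dt X (w true)`. `ty1`: `T.dt (γ j) (γ (j-1)) = T.dt (y 0) (x 0) = T.dt X (w false)`. `ty2`: `j = -i L0 - (m1+2) ≡ m1 + 2`
(`L0 = 2 (m1+2)`): `T.dt (γ j) (γ (j-1)) = T.dt (y (m1+2)) (x (m1+2)) = T.dt (g0 true (m1+1)) (g0 true m1)`. `ty3`: `T.dt (y (m1+2)) (z (m1+2))`.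
`b = false`: `g = γ` if `wl = w false`, `g = γ'` if `wl = wf`. `slot`: `γ (K1 L0 - 1) = γ (-1) = w false` (`wf`). `ty0`: `T.dt (y 0) (x 0) = T.dt X (w false)`
(for both, as `x 0 = w false`). `ty1`: `T.dt (y 0) (z 0)`. `ty2`: `T.dt (y (m1+2)) (z (m1+2)) = T.dt (g0 false (m1+1)) (g0 false m1)`. `ty3`:
`T.dt (y (m1+2)) (x (m1+2))`.
-/

namespace Pool.Agent.LHB

open Pool.Agent.LIH Pool.Agent.LHA

theorem SeqF_L0 {V : Type} {H : SimpleGraph V} {T : Typ H} (D : CK T) :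
    (D.L0 : ℤ) = 2 * ((D.m1 : ℤ) + 2) := by
  unfold CK.L0
  push_cast
  ring

/-- case `b = false` -/
theorem SeqF_false {V : Type} {H : SimpleGraph V} {T : Typ H} (D : CK T) {x y z : ℕ → V} {K1 : ℕ} {wl : V}
    {δ : ℤ → V} (hx0 : x 0 = D.w false) (hy0 : y 0 = D.X) (hz0 : z 0 = D.w true)
    (h2 : T.dt (y (D.m1 + 2)) (x (D.m1 + 2)) = T.dt (D.g0 true (D.m1 + 1)) (D.g0 true D.m1))
    (h3 : T.dt (y (D.m1 + 2)) (z (D.m1 + 2)) = T.dt (D.g0 false (D.m1 + 1)) (D.g0 false D.m1))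
    (adj : ∀ j, H.Adj (δ j) (δ (j + 1))) (nb : ∀ j, δ j ≠ δ (j + 2)) (neg : δ (-1) = wl) (zero : δ 0 = D.X)
    (per : ∀ j, δ (j + K1 * D.L0) = δ j)
    (ty : ∀ (j : ℤ) (i : ℕ), j % D.L0 = (i : ℤ) % D.L0 →
        T.dt (δ j) (δ (j + 1)) = T.dt (y i) (z i) ∧ T.dt (δ j) (δ (j - 1)) = T.dt (y i) (x i)) :
    RD D K1 false wl δ := by
  have m0 : ∀ i : ℤ, (i * D.L0) % D.L0 = ((0 : ℕ) : ℤ) % D.L0 := fun i => by simp
  have m1 : ∀ i : ℤ, (i * D.L0 + (D.m1 + 2)) % D.L0 = ((D.m1 + 2 : ℕ) : ℤ) % D.L0 := fun i => by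
    rw [add_comm (i * (D.L0 : ℤ)), Int.add_mul_emod_self_right]
    push_cast
    rfl
  refine ⟨adj, nb, zero, ?_, ?_, fun i => ?_, fun i => ?_, fun i => ?_, fun i => ?_⟩
  · have h := per 0
    rw [zero_add] at h
    rw [h, zero]
  · have h := per (-1)
    have e : (-1 : ℤ) + K1 * D.L0 = K1 * D.L0 - 1 := by ring
    rw [e] at h
    rw [h, neg]
  · rw [(ty _ 0 (m0 i)).2, hy0, hx0]
  · rw [(ty _ 0 (m0 i)).1, hy0, hz0]
    rfl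
  · rw [(ty _ _ (m1 i)).1, h3]
  · rw [(ty _ _ (m1 i)).2, h2]
    rfl

/-- case `b = true` -/
theorem SeqF_true {V : Type} {H : SimpleGraph V} {T : Typ H} (D : CK T) {x y z : ℕ → V} {K1 : ℕ}
    {δ : ℤ → V} (hx0 : x 0 = D.w false) (hy0 : y 0 = D.X) (hz0 : z 0 = D.w true)
    (h2 : T.dt (y (D.m1 + 2)) (x (D.m1 + 2)) = T.dt (D.g0 true (D.m1 + 1)) (D.g0 true D.m1))
    (h3 : T.dt (y (D.m1 + 2)) (z (D.m1 + 2)) = T.dt (D.g0 false (D.m1 + 1)) (D.g0 false D.m1))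
    (adj : ∀ j, H.Adj (δ j) (δ (j + 1))) (nb : ∀ j, δ j ≠ δ (j + 2)) (one : δ 1 = D.w true)
    (zero : δ 0 = D.X) (per : ∀ j, δ (j + K1 * D.L0) = δ j)
    (ty : ∀ (j : ℤ) (i : ℕ), j % D.L0 = (i : ℤ) % D.L0 →
        T.dt (δ j) (δ (j + 1)) = T.dt (y i) (z i) ∧ T.dt (δ j) (δ (j - 1)) = T.dt (y i) (x i)) :
    RD D K1 true (D.w true) (fun j => δ (-j)) := by
  have m0 : ∀ i : ℤ, (-(i * D.L0)) % D.L0 = ((0 : ℕ) : ℤ) % D.L0 := fun i => by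
    rw [← neg_mul]
    simp
  have m1 : ∀ i : ℤ, (-(i * D.L0 + (D.m1 + 2))) % D.L0 = ((D.m1 + 2 : ℕ) : ℤ) % D.L0 := fun i => by
    have e : -(i * D.L0 + ((D.m1 : ℤ) + 2)) = ((D.m1 + 2 : ℕ) : ℤ) + (-i - 1) * (D.L0 : ℤ) := by
      rw [SeqF_L0]
      push_cast
      ring
    rw [e, Int.add_mul_emod_self_right]
  refine ⟨fun j => ?_, fun j => ?_, ?_, ?_, ?_, fun i => ?_, fun i => ?_, fun i => ?_, fun i => ?_⟩
  · have h := (adj (-(j + 1))).symm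
    have e : -(j + 1) + 1 = -j := by ring
    rw [e] at h
    exact h
  · have h := (nb (-(j + 2))).symm
    have e : -(j + 2) + 2 = -j := by ring
    rw [e] at h
    exact h
  · simp only [neg_zero]
    exact zero
  · have h := per (-(K1 * D.L0))
    rw [neg_add_cancel] at h
    rw [← h, zero]
  · have h := per (-(K1 * D.L0 - 1))
    have e : -((K1 : ℤ) * D.L0 - 1) + K1 * D.L0 = 1 := by ring
    rw [e] at h
    rw [← h, one]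
  · have e : -(i * (D.L0 : ℤ) - 1) = -(i * D.L0) + 1 := by ring
    rw [e, (ty _ 0 (m0 i)).1, hy0, hz0]
  · have e : -(i * (D.L0 : ℤ) + 1) = -(i * D.L0) - 1 := by ring
    rw [e, (ty _ 0 (m0 i)).2, hy0, hx0]
    rfl
  · have e : -(i * (D.L0 : ℤ) + (D.m1 + 2) + 1) = -(i * D.L0 + (D.m1 + 2)) - 1 := by ring
    rw [e, (ty _ _ (m1 i)).2, h2]
  · have e : -(i * (D.L0 : ℤ) + (D.m1 + 2) - 1) = -(i * D.L0 + (D.m1 + 2)) + 1 := by ring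
    rw [e, (ty _ _ (m1 i)).1, h3]
    rfl

theorem SeqF_per {V : Type} {δ : ℤ → V} {K K1 L : ℕ} {t : ℕ} (ht : K1 = t * K)
    (per : ∀ j, δ (j + K * L) = δ j) (j : ℤ) : δ (j + K1 * L) = δ j := by
  have h : Function.Periodic δ ((K : ℤ) * L) := per
  have h1 := h.nat_mul t j
  have e : j + (t : ℤ) * ((K : ℤ) * L) = j + (K1 : ℤ) * L := by
    rw [ht]
    push_cast
    ring
  rw [e] at h1
  exact h1

theorem seqF {V : Type} [Finite V] {H : SimpleGraph V} {T : Typ H} (D : CK T) :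
    ∃ K1 : ℕ, 0 < K1 ∧ ∀ b wl, OKs D b wl → ∃ g, RD D K1 b wl g := by
  obtain ⟨x, y, z, hP, hx0, hy0, hz0, _, h2, h3⟩ := patG D
  have hd : T.dt D.X (D.w true) = T.dt (y 0) (z 0) := by rw [hy0, hz0]
  obtain ⟨K, hK, γ, a1, a2, a3, a4, a5, a6, a7⟩ := recur hP (a := D.w false) (b := D.X) (c := D.w true)
    (D.adj_w false).symm (D.adj_w true) D.wf_ne.2.symm (by rw [hx0, hy0]) hd
  obtain ⟨K', hK', γ', b1, b2, b3, b4, b5, b6, b7⟩ := recur hP (a := D.wf) (b := D.X) (c := D.w true)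
    D.adj_wf.symm (D.adj_w true) D.wf_ne.1 (by
      rw [hx0, hy0]
      exact (T.rev _ _ _ _ D.adj_wf (D.adj_w false) D.dt_wf).2) hd
  refine ⟨K * K', Nat.mul_pos hK hK', ?_⟩
  rintro b wl (⟨rfl, rfl⟩ | ⟨rfl, rfl | rfl⟩)
  · exact ⟨_, SeqF_true D hx0 hy0 hz0 h2 h3 a1 a2 a5 a4 (SeqF_per (t := K') (mul_comm _ _) a6) a7⟩
  · exact ⟨_, SeqF_false D hx0 hy0 hz0 h2 h3 a1 a2 a3 a4 (SeqF_per (t := K') (mul_comm _ _) a6) a7⟩
  · exact ⟨_, SeqF_false D hx0 hy0 hz0 h2 h3 b1 b2 b3 b4 (SeqF_per (t := K) rfl b6) b7⟩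

end Pool.Agent.LHB
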