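import Pool.Agent.LHB.Defs
import Pool.Agent.LHB.TBas
import Pool.Agent.LHB.CTy

/-!
# The pattern of the chains

Let `nf` be a neighbour of `g0 b (m1+1)` with `T.dt (g0 b (m1+1)) nf = T.dt (g0 (!b) (m1+1)) (g0 (!b) m1)` (`Typ.ext0`, `vt_u`), `nf'` a neighbour of
`g1 (!b) (m2+1)` with `T.dt (g1 (!b) (m2+1)) nf' = T.dt (g1 b (m2+1)) (g1 b m2)` (`vt_U`). For `j % Lc` (`Lc = 2 (m1 + m2 + 2)`; `c = !b`):
 * `j = 0`: `x = g1 b 1`, `y = w b`, `z = g0 b 1`;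
 * `1 ≤ j ≤ m1`: `x = g0 b (j-1)`, `y = g0 b j`, `z = g0 b (j+1)`;
 * `j = m1 + 1`: `x = g0 b m1`, `y = g0 b (m1+1)`, `z = nf`;
 * `j = m1 + 1 + i`, `1 ≤ i ≤ m1`: `x = g0 c (m1+2-i)`, `y = g0 c (m1+1-i)`, `z = g0 c (m1-i)`;
 * `j = 2 m1 + 2`: `x = g0 c 1`, `y = w c`, `z = g1 c 1`;
 * `j = 2 m1 + 2 + i`, `1 ≤ i ≤ m2`: `x = g1 c (i-1)`, `y = g1 c i`, `z = g1 c (i+1)`;
 * `j = 2 m1 + m2 + 3`: `x = g1 c m2`, `y = g1 c (m2+1)`, `z = nf'`;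
 * `j = 2 m1 + m2 + 3 + i`, `1 ≤ i ≤ m2`: `x = g1 b (m2+2-i)`, `y = g1 b (m2+1-i)`, `z = g1 b (m2-i)`.
`x j ≠ z j`: `ne_01`, `nb0`, `nb1`, and at the two turning points `CK.dt_g0`, `CK.dt_g1`. Consecutive positions: same darts inside
the segments (e.g. from `j = 2 m1 + 1`, i.e. `i = m1`, with `y = g0 c 1`, `z = g0 c 0 = w c`, to `2 m1 + 2`; if `m1 = 0` from `j = 1` with
`T.dt y z = T.dt (g0 c 1) (g0 c 0)` to `j = 2`), the definition of `nf`, `nf'` at the turning points, and from `Lc - 1` to `0`: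
`T.dt (g1 b 1) (g1 b 0) = T.dt (x 0) (y 0)`.
-/

namespace Pool.Agent.LHB

open Pool.Agent.LIH Pool.Agent.LHA

theorem PatL_vt0 {V : Type} {H : SimpleGraph V} {T : Typ H} (D : CK T) (b c : Bool) :
    T.vt (D.g0 c (D.m1 + 1)) = T.vt (D.g0 b (D.m1 + 1)) := by
  cases b <;> cases c <;> first | rfl | exact D.vt_u | exact D.vt_u.symm

theorem PatL_vt1 {V : Type} {H : SimpleGraph V} {T : Typ H} (D : CK T) (b c : Bool) :
    T.vt (D.g1 c (D.m2 + 1)) = T.vt (D.g1 b (D.m2 + 1)) := by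
  cases b <;> cases c <;> first | rfl | exact D.vt_U | exact D.vt_U.symm

section PatL

variable {V : Type} {H : SimpleGraph V} {T : Typ H} (D : CK T) (b : Bool) (nf ng : V)

/-- the first vertices -/
def PatL_X (i : ℕ) : V :=
  if i = 0 then D.g1 b 1 else if i ≤ D.m1 + 1 then D.g0 b (i - 1)
  else if i ≤ 2 * D.m1 + 2 then D.g0 (!b) (2 * D.m1 + 3 - i)
  else if i ≤ 2 * D.m1 + D.m2 + 3 then D.g1 (!b) (i - (2 * D.m1 + 3))
  else D.g1 b (2 * (D.m1 + D.m2 + 2) + 1 - i)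

/-- the middle vertices -/
def PatL_Y (i : ℕ) : V :=
  if i ≤ D.m1 + 1 then D.g0 b i
  else if i ≤ 2 * D.m1 + 2 then D.g0 (!b) (2 * D.m1 + 2 - i)
  else if i ≤ 2 * D.m1 + D.m2 + 3 then D.g1 (!b) (i - (2 * D.m1 + 2))
  else D.g1 b (2 * (D.m1 + D.m2 + 2) - i)

/-- the last vertices -/
def PatL_Z (i : ℕ) : V :=
  if i ≤ D.m1 then D.g0 b (i + 1) else if i = D.m1 + 1 then nf
  else if i ≤ 2 * D.m1 + 1 then D.g0 (!b) (2 * D.m1 + 1 - i)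
  else if i ≤ 2 * D.m1 + D.m2 + 2 then D.g1 (!b) (i - (2 * D.m1 + 1))
  else if i = 2 * D.m1 + D.m2 + 3 then ng
  else D.g1 b (2 * (D.m1 + D.m2 + 2) - 1 - i)

theorem PatL_X0 : PatL_X D b 0 = D.g1 b 1 := by
  unfold PatL_X
  rw [if_pos rfl]

theorem PatL_X1 (i : ℕ) (h0 : i ≠ 0) (h : i ≤ D.m1 + 1) : PatL_X D b i = D.g0 b (i - 1) := by
  unfold PatL_X
  rw [if_neg h0, if_pos h]

theorem PatL_X2 (i : ℕ) (h0 : D.m1 + 1 < i) (h : i ≤ 2 * D.m1 + 2) :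
    PatL_X D b i = D.g0 (!b) (2 * D.m1 + 3 - i) := by
  unfold PatL_X
  rw [if_neg (by omega), if_neg (by omega), if_pos h]

theorem PatL_X3 (i : ℕ) (h0 : 2 * D.m1 + 2 < i) (h : i ≤ 2 * D.m1 + D.m2 + 3) :
    PatL_X D b i = D.g1 (!b) (i - (2 * D.m1 + 3)) := by
  unfold PatL_X
  rw [if_neg (by omega), if_neg (by omega), if_neg (by omega), if_pos h]

theorem PatL_X4 (i : ℕ) (h0 : 2 * D.m1 + D.m2 + 3 < i) :
    PatL_X D b i = D.g1 b (2 * (D.m1 + D.m2 + 2) + 1 - i) := by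
  unfold PatL_X
  rw [if_neg (by omega), if_neg (by omega), if_neg (by omega), if_neg (by omega)]

theorem PatL_Y1 (i : ℕ) (h : i ≤ D.m1 + 1) : PatL_Y D b i = D.g0 b i := by
  unfold PatL_Y
  rw [if_pos h]

theorem PatL_Y2 (i : ℕ) (h0 : D.m1 + 1 < i) (h : i ≤ 2 * D.m1 + 2) :
    PatL_Y D b i = D.g0 (!b) (2 * D.m1 + 2 - i) := by
  unfold PatL_Y
  rw [if_neg (by omega), if_pos h]

theorem PatL_Y2' : PatL_Y D b (2 * D.m1 + 2) = D.g1 (!b) 0 := by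
  rw [PatL_Y2 D b _ (by omega) le_rfl, Nat.sub_self, D.g0_0, D.g1_0]

theorem PatL_Y0' : PatL_Y D b 0 = D.g1 b 0 := by
  rw [PatL_Y1 D b 0 (by omega), D.g0_0, D.g1_0]

theorem PatL_Y3 (i : ℕ) (h0 : 2 * D.m1 + 2 < i) (h : i ≤ 2 * D.m1 + D.m2 + 3) :
    PatL_Y D b i = D.g1 (!b) (i - (2 * D.m1 + 2)) := by
  unfold PatL_Y
  rw [if_neg (by omega), if_neg (by omega), if_pos h]

theorem PatL_Y4 (i : ℕ) (h0 : 2 * D.m1 + D.m2 + 3 < i) :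
    PatL_Y D b i = D.g1 b (2 * (D.m1 + D.m2 + 2) - i) := by
  unfold PatL_Y
  rw [if_neg (by omega), if_neg (by omega), if_neg (by omega)]

theorem PatL_Z1 (i : ℕ) (h : i ≤ D.m1) : PatL_Z D b nf ng i = D.g0 b (i + 1) := by
  unfold PatL_Z
  rw [if_pos h]

theorem PatL_Zf : PatL_Z D b nf ng (D.m1 + 1) = nf := by
  unfold PatL_Z
  rw [if_neg (by omega), if_pos rfl]

theorem PatL_Z2 (i : ℕ) (h0 : D.m1 + 1 < i) (h : i ≤ 2 * D.m1 + 1) :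
    PatL_Z D b nf ng i = D.g0 (!b) (2 * D.m1 + 1 - i) := by
  unfold PatL_Z
  rw [if_neg (by omega), if_neg (by omega), if_pos h]

theorem PatL_Z3 (i : ℕ) (h0 : 2 * D.m1 + 1 < i) (h : i ≤ 2 * D.m1 + D.m2 + 2) :
    PatL_Z D b nf ng i = D.g1 (!b) (i - (2 * D.m1 + 1)) := by
  unfold PatL_Z
  rw [if_neg (by omega), if_neg (by omega), if_neg (by omega), if_pos h]

theorem PatL_Zg : PatL_Z D b nf ng (2 * D.m1 + D.m2 + 3) = ng := by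
  unfold PatL_Z
  rw [if_neg (by omega), if_neg (by omega), if_neg (by omega), if_neg (by omega), if_pos rfl]

theorem PatL_Z4 (i : ℕ) (h0 : 2 * D.m1 + D.m2 + 3 < i) :
    PatL_Z D b nf ng i = D.g1 b (2 * (D.m1 + D.m2 + 2) - 1 - i) := by
  unfold PatL_Z
  rw [if_neg (by omega), if_neg (by omega), if_neg (by omega), if_neg (by omega),
    if_neg (by omega)]

theorem PatL_adj1 (i : ℕ) (h : i < 2 * (D.m1 + D.m2 + 2)) :
    H.Adj (PatL_X D b i) (PatL_Y D b i) := by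
  rcases Nat.eq_zero_or_pos i with rfl | h0
  · rw [PatL_X0, PatL_Y0']
    exact (D.adj1 b 0 (by omega)).symm
  by_cases h1 : i ≤ D.m1 + 1
  · obtain ⟨t, rfl⟩ : ∃ t, i = t + 1 := ⟨i - 1, by omega⟩
    rw [PatL_X1 D b _ (by omega) h1, PatL_Y1 D b _ h1, Nat.add_sub_cancel]
    exact D.adj0 b t (by omega)
  by_cases h2 : i ≤ 2 * D.m1 + 2
  · obtain ⟨t, ht⟩ : ∃ t, t = 2 * D.m1 + 2 - i := ⟨_, rfl⟩
    rw [PatL_X2 D b _ (by omega) h2, PatL_Y2 D b _ (by omega) h2,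
      show 2 * D.m1 + 3 - i = t + 1 by omega, ← ht]
    exact (D.adj0 (!b) t (by omega)).symm
  by_cases h3 : i ≤ 2 * D.m1 + D.m2 + 3
  · obtain ⟨t, ht⟩ : ∃ t, t = i - (2 * D.m1 + 3) := ⟨_, rfl⟩
    rw [PatL_X3 D b _ (by omega) h3, PatL_Y3 D b _ (by omega) h3,
      show i - (2 * D.m1 + 2) = t + 1 by omega, ← ht]
    exact D.adj1 (!b) t (by omega)
  · obtain ⟨t, ht⟩ : ∃ t, t = 2 * (D.m1 + D.m2 + 2) - i := ⟨_, rfl⟩
    rw [PatL_X4 D b _ (by omega), PatL_Y4 D b _ (by omega),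
      show 2 * (D.m1 + D.m2 + 2) + 1 - i = t + 1 by omega, ← ht]
    exact (D.adj1 b t (by omega)).symm

theorem PatL_adj2 (hnf : H.Adj (D.g0 b (D.m1 + 1)) nf) (hng : H.Adj (D.g1 (!b) (D.m2 + 1)) ng)
    (i : ℕ) (h : i < 2 * (D.m1 + D.m2 + 2)) :
    H.Adj (PatL_Y D b i) (PatL_Z D b nf ng i) := by
  by_cases h0 : i ≤ D.m1
  · rw [PatL_Y1 D b _ (by omega), PatL_Z1 D b nf ng _ h0]
    exact D.adj0 b i h0
  by_cases h1 : i = D.m1 + 1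
  · subst h1
    rw [PatL_Y1 D b _ (by omega), PatL_Zf]
    exact hnf
  by_cases h2 : i ≤ 2 * D.m1 + 1
  · obtain ⟨t, ht⟩ : ∃ t, t = 2 * D.m1 + 1 - i := ⟨_, rfl⟩
    rw [PatL_Y2 D b _ (by omega) (by omega), PatL_Z2 D b nf ng _ (by omega) h2,
      show 2 * D.m1 + 2 - i = t + 1 by omega, ← ht]
    exact (D.adj0 (!b) t (by omega)).symm
  by_cases h3 : i = 2 * D.m1 + 2
  · subst h3
    rw [PatL_Y2', PatL_Z3 D b nf ng _ (by omega) (by omega),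
      show 2 * D.m1 + 2 - (2 * D.m1 + 1) = 0 + 1 by omega]
    exact D.adj1 (!b) 0 (by omega)
  by_cases h4 : i ≤ 2 * D.m1 + D.m2 + 2
  · obtain ⟨t, ht⟩ : ∃ t, t = i - (2 * D.m1 + 2) := ⟨_, rfl⟩
    rw [PatL_Y3 D b _ (by omega) (by omega), PatL_Z3 D b nf ng _ (by omega) h4,
      show i - (2 * D.m1 + 1) = t + 1 by omega, ← ht]
    exact D.adj1 (!b) t (by omega)
  by_cases h5 : i = 2 * D.m1 + D.m2 + 3
  · subst h5
    rw [PatL_Y3 D b _ (by omega) (by omega), PatL_Zg,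
      show 2 * D.m1 + D.m2 + 3 - (2 * D.m1 + 2) = D.m2 + 1 by omega]
    exact hng
  · obtain ⟨t, ht⟩ : ∃ t, t = 2 * (D.m1 + D.m2 + 2) - 1 - i := ⟨_, rfl⟩
    rw [PatL_Y4 D b _ (by omega), PatL_Z4 D b nf ng _ (by omega),
      show 2 * (D.m1 + D.m2 + 2) - i = t + 1 by omega, ← ht]
    exact (D.adj1 b t (by omega)).symm

theorem PatL_ne (hnf1 : D.g0 b D.m1 ≠ nf) (hng1 : D.g1 (!b) D.m2 ≠ ng) (i : ℕ)
    (h : i < 2 * (D.m1 + D.m2 + 2)) : PatL_X D b i ≠ PatL_Z D b nf ng i := by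
  rcases Nat.eq_zero_or_pos i with rfl | h0
  · rw [PatL_X0, PatL_Z1 D b nf ng _ (by omega)]
    exact (D.ne_01 b).symm
  by_cases h1 : i ≤ D.m1
  · obtain ⟨t, rfl⟩ : ∃ t, i = t + 1 := ⟨i - 1, by omega⟩
    rw [PatL_X1 D b _ (by omega) (by omega), PatL_Z1 D b nf ng _ h1, Nat.add_sub_cancel]
    exact D.nb0 b t (by omega)
  by_cases h2 : i = D.m1 + 1
  · subst h2
    rw [PatL_X1 D b _ (by omega) (by omega), PatL_Zf, Nat.add_sub_cancel]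
    exact hnf1
  by_cases h3 : i ≤ 2 * D.m1 + 1
  · obtain ⟨t, ht⟩ : ∃ t, t = 2 * D.m1 + 1 - i := ⟨_, rfl⟩
    rw [PatL_X2 D b _ (by omega) (by omega), PatL_Z2 D b nf ng _ (by omega) h3,
      show 2 * D.m1 + 3 - i = t + 2 by omega, ← ht]
    exact (D.nb0 (!b) t (by omega)).symm
  by_cases h4 : i = 2 * D.m1 + 2
  · subst h4
    rw [PatL_X2 D b _ (by omega) (by omega), PatL_Z3 D b nf ng _ (by omega) (by omega),
      show 2 * D.m1 + 3 - (2 * D.m1 + 2) = 1 by omega,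
      show 2 * D.m1 + 2 - (2 * D.m1 + 1) = 1 by omega]
    exact D.ne_01 (!b)
  by_cases h5 : i ≤ 2 * D.m1 + D.m2 + 2
  · obtain ⟨t, ht⟩ : ∃ t, t = i - (2 * D.m1 + 3) := ⟨_, rfl⟩
    rw [PatL_X3 D b _ (by omega) (by omega), PatL_Z3 D b nf ng _ (by omega) h5,
      show i - (2 * D.m1 + 1) = t + 2 by omega, ← ht]
    exact D.nb1 (!b) t (by omega)
  by_cases h6 : i = 2 * D.m1 + D.m2 + 3
  · subst h6
    rw [PatL_X3 D b _ (by omega) (by omega), PatL_Zg,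
      show 2 * D.m1 + D.m2 + 3 - (2 * D.m1 + 3) = D.m2 by omega]
    exact hng1
  · obtain ⟨t, ht⟩ : ∃ t, t = 2 * (D.m1 + D.m2 + 2) - 1 - i := ⟨_, rfl⟩
    rw [PatL_X4 D b _ (by omega), PatL_Z4 D b nf ng _ (by omega),
      show 2 * (D.m1 + D.m2 + 2) + 1 - i = t + 2 by omega, ← ht]
    exact (D.nb1 b t (by omega)).symm

theorem PatL_dt (hnf' : T.dt (D.g0 b (D.m1 + 1)) nf = T.dt (D.g0 (!b) (D.m1 + 1)) (D.g0 (!b) D.m1))
    (hng' : T.dt (D.g1 (!b) (D.m2 + 1)) ng = T.dt (D.g1 b (D.m2 + 1)) (D.g1 b D.m2))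
    (i : ℕ) (h : i + 1 < 2 * (D.m1 + D.m2 + 2)) :
    T.dt (PatL_Y D b i) (PatL_Z D b nf ng i) = T.dt (PatL_X D b (i + 1)) (PatL_Y D b (i + 1)) := by
  by_cases h0 : i ≤ D.m1
  · rw [PatL_Y1 D b _ (by omega), PatL_Z1 D b nf ng _ h0, PatL_X1 D b _ (by omega) (by omega),
      PatL_Y1 D b (i + 1) (by omega), Nat.add_sub_cancel]
  by_cases h1 : i = D.m1 + 1
  · subst h1
    rw [PatL_Y1 D b _ (by omega), PatL_Zf, hnf', PatL_X2 D b _ (by omega) (by omega),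
      PatL_Y2 D b _ (by omega) (by omega), show 2 * D.m1 + 3 - (D.m1 + 1 + 1) = D.m1 + 1 by omega,
      show 2 * D.m1 + 2 - (D.m1 + 1 + 1) = D.m1 by omega]
  by_cases h2 : i ≤ 2 * D.m1 + 1
  · rw [PatL_Y2 D b _ (by omega) (by omega), PatL_Z2 D b nf ng _ (by omega) h2,
      PatL_X2 D b _ (by omega) (by omega), PatL_Y2 D b _ (by omega) (by omega),
      show 2 * D.m1 + 3 - (i + 1) = 2 * D.m1 + 2 - i by omega,
      show 2 * D.m1 + 2 - (i + 1) = 2 * D.m1 + 1 - i by omega]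
  by_cases h3 : i = 2 * D.m1 + 2
  · subst h3
    rw [PatL_Y2', PatL_Z3 D b nf ng _ (by omega) (by omega), PatL_X3 D b _ (by omega) (by omega),
      PatL_Y3 D b _ (by omega) (by omega),
      show 2 * D.m1 + 2 - (2 * D.m1 + 1) = 1 by omega,
      show 2 * D.m1 + 2 + 1 - (2 * D.m1 + 3) = 0 by omega,
      show 2 * D.m1 + 2 + 1 - (2 * D.m1 + 2) = 1 by omega]
  by_cases h4 : i ≤ 2 * D.m1 + D.m2 + 2
  · rw [PatL_Y3 D b _ (by omega) (by omega), PatL_Z3 D b nf ng _ (by omega) h4,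
      PatL_X3 D b _ (by omega) (by omega), PatL_Y3 D b _ (by omega) (by omega),
      show i + 1 - (2 * D.m1 + 3) = i - (2 * D.m1 + 2) by omega,
      show i + 1 - (2 * D.m1 + 2) = i - (2 * D.m1 + 1) by omega]
  by_cases h5 : i = 2 * D.m1 + D.m2 + 3
  · subst h5
    rw [PatL_Y3 D b _ (by omega) (by omega), PatL_Zg,
      show 2 * D.m1 + D.m2 + 3 - (2 * D.m1 + 2) = D.m2 + 1 by omega, hng',
      PatL_X4 D b _ (by omega), PatL_Y4 D b _ (by omega),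
      show 2 * (D.m1 + D.m2 + 2) + 1 - (2 * D.m1 + D.m2 + 3 + 1) = D.m2 + 1 by omega,
      show 2 * (D.m1 + D.m2 + 2) - (2 * D.m1 + D.m2 + 3 + 1) = D.m2 by omega]
  · rw [PatL_Y4 D b _ (by omega), PatL_Z4 D b nf ng _ (by omega), PatL_X4 D b _ (by omega),
      PatL_Y4 D b _ (by omega),
      show 2 * (D.m1 + D.m2 + 2) + 1 - (i + 1) = 2 * (D.m1 + D.m2 + 2) - i by omega,
      show 2 * (D.m1 + D.m2 + 2) - (i + 1) = 2 * (D.m1 + D.m2 + 2) - 1 - i by omega]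

theorem PatL_dt' (hng' : T.dt (D.g1 (!b) (D.m2 + 1)) ng = T.dt (D.g1 b (D.m2 + 1)) (D.g1 b D.m2))
    (i : ℕ) (h : i + 1 = 2 * (D.m1 + D.m2 + 2)) :
    T.dt (PatL_Y D b i) (PatL_Z D b nf ng i) = T.dt (PatL_X D b 0) (PatL_Y D b 0) := by
  rw [PatL_X0, PatL_Y0']
  by_cases h5 : i = 2 * D.m1 + D.m2 + 3
  · have h6 : D.m2 = 0 := by omega
    subst h5
    rw [PatL_Y3 D b _ (by omega) (by omega), PatL_Zg,
      show 2 * D.m1 + D.m2 + 3 - (2 * D.m1 + 2) = D.m2 + 1 by omega, hng', h6]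
  · rw [PatL_Y4 D b _ (by omega), PatL_Z4 D b nf ng _ (by omega),
      show 2 * (D.m1 + D.m2 + 2) - i = 1 by omega,
      show 2 * (D.m1 + D.m2 + 2) - 1 - i = 0 by omega]

theorem PatL_main (hnf : H.Adj (D.g0 b (D.m1 + 1)) nf)
    (hnf' : T.dt (D.g0 b (D.m1 + 1)) nf = T.dt (D.g0 (!b) (D.m1 + 1)) (D.g0 (!b) D.m1))
    (hnf1 : D.g0 b D.m1 ≠ nf) (hng : H.Adj (D.g1 (!b) (D.m2 + 1)) ng)
    (hng' : T.dt (D.g1 (!b) (D.m2 + 1)) ng = T.dt (D.g1 b (D.m2 + 1)) (D.g1 b D.m2))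
    (hng1 : D.g1 (!b) D.m2 ≠ ng) :
    ∃ x y z : ℕ → V, Pat T D.Lc x y z ∧ x 0 = D.g1 b 1 ∧ y 0 = D.w b ∧ z 0 = D.g0 b 1 ∧
      T.dt (y (D.m1 + 1)) (x (D.m1 + 1)) = T.dt (D.g0 b (D.m1 + 1)) (D.g0 b D.m1) ∧
      T.dt (y (D.m1 + 1)) (z (D.m1 + 1)) = T.dt (D.g0 (!b) (D.m1 + 1)) (D.g0 (!b) D.m1) ∧
      T.dt (y (2 * D.m1 + 2)) (x (2 * D.m1 + 2)) = T.dt (D.w (!b)) (D.g0 (!b) 1) ∧
      T.dt (y (2 * D.m1 + 2)) (z (2 * D.m1 + 2)) = T.dt (D.w (!b)) (D.g1 (!b) 1) ∧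
      T.dt (y (2 * D.m1 + D.m2 + 3)) (x (2 * D.m1 + D.m2 + 3)) =
        T.dt (D.g1 (!b) (D.m2 + 1)) (D.g1 (!b) D.m2) ∧
      T.dt (y (2 * D.m1 + D.m2 + 3)) (z (2 * D.m1 + D.m2 + 3)) =
        T.dt (D.g1 b (D.m2 + 1)) (D.g1 b D.m2) := by
  have hL : D.Lc = 2 * (D.m1 + D.m2 + 2) := rfl
  have hpos : 0 < 2 * (D.m1 + D.m2 + 2) := by omega
  refine ⟨fun j => PatL_X D b (j % D.Lc), fun j => PatL_Y D b (j % D.Lc),
    fun j => PatL_Z D b nf ng (j % D.Lc), ⟨by rw [hL]; exact hpos, ?_, ?_, ?_, ?_, ?_⟩,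
    ?_, ?_, ?_, ?_, ?_, ?_, ?_, ?_, ?_⟩
  · intro j
    simp only [Nat.add_mod_right, and_self]
  · intro j
    exact PatL_adj1 D b _ (Nat.mod_lt _ hpos)
  · intro j
    exact PatL_adj2 D b nf ng hnf hng _ (Nat.mod_lt _ hpos)
  · intro j
    exact PatL_ne D b nf ng hnf1 hng1 _ (Nat.mod_lt _ hpos)
  · intro j
    simp only [hL]
    have h1 : j % (2 * (D.m1 + D.m2 + 2)) < 2 * (D.m1 + D.m2 + 2) := Nat.mod_lt _ hpos
    rcases Nat.lt_or_ge (j % (2 * (D.m1 + D.m2 + 2)) + 1) (2 * (D.m1 + D.m2 + 2)) with h2 | h2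
    · have h3 : (j + 1) % (2 * (D.m1 + D.m2 + 2)) = j % (2 * (D.m1 + D.m2 + 2)) + 1 := by
        rw [Nat.add_mod, Nat.mod_eq_of_lt (show 1 < 2 * (D.m1 + D.m2 + 2) by omega),
          Nat.mod_eq_of_lt h2]
      rw [h3]
      exact PatL_dt D b nf ng hnf' hng' _ h2
    · have h3 : j % (2 * (D.m1 + D.m2 + 2)) + 1 = 2 * (D.m1 + D.m2 + 2) := by omega
      have h4 : (j + 1) % (2 * (D.m1 + D.m2 + 2)) = 0 := by
        rw [Nat.add_mod, Nat.mod_eq_of_lt (show 1 < 2 * (D.m1 + D.m2 + 2) by omega), h3,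
          Nat.mod_self]
      rw [h4]
      exact PatL_dt' D b nf ng hng' _ h3
  · show PatL_X D b (0 % D.Lc) = _
    rw [Nat.zero_mod, PatL_X0]
  · show PatL_Y D b (0 % D.Lc) = _
    rw [Nat.zero_mod, PatL_Y0', D.g1_0]
  · show PatL_Z D b nf ng (0 % D.Lc) = _
    rw [Nat.zero_mod, PatL_Z1 D b nf ng _ (by omega)]
  · simp only [hL]
    rw [Nat.mod_eq_of_lt (show D.m1 + 1 < 2 * (D.m1 + D.m2 + 2) by omega),
      PatL_Y1 D b _ le_rfl, PatL_X1 D b _ (by omega) le_rfl, Nat.add_sub_cancel]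
  · simp only [hL]
    rw [Nat.mod_eq_of_lt (show D.m1 + 1 < 2 * (D.m1 + D.m2 + 2) by omega),
      PatL_Y1 D b _ le_rfl, PatL_Zf, hnf']
  · simp only [hL]
    rw [Nat.mod_eq_of_lt (show 2 * D.m1 + 2 < 2 * (D.m1 + D.m2 + 2) by omega), PatL_Y2', D.g1_0,
      PatL_X2 D b _ (by omega) le_rfl, show 2 * D.m1 + 3 - (2 * D.m1 + 2) = 1 by omega]
  · simp only [hL]
    rw [Nat.mod_eq_of_lt (show 2 * D.m1 + 2 < 2 * (D.m1 + D.m2 + 2) by omega), PatL_Y2', D.g1_0,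
      PatL_Z3 D b nf ng _ (by omega) (by omega),
      show 2 * D.m1 + 2 - (2 * D.m1 + 1) = 1 by omega]
  · simp only [hL]
    rw [Nat.mod_eq_of_lt (show 2 * D.m1 + D.m2 + 3 < 2 * (D.m1 + D.m2 + 2) by omega),
      PatL_Y3 D b _ (by omega) le_rfl, PatL_X3 D b _ (by omega) le_rfl,
      show 2 * D.m1 + D.m2 + 3 - (2 * D.m1 + 2) = D.m2 + 1 by omega,
      show 2 * D.m1 + D.m2 + 3 - (2 * D.m1 + 3) = D.m2 by omega]
  · simp only [hL]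
    rw [Nat.mod_eq_of_lt (show 2 * D.m1 + D.m2 + 3 < 2 * (D.m1 + D.m2 + 2) by omega),
      PatL_Y3 D b _ (by omega) le_rfl, PatL_Zg,
      show 2 * D.m1 + D.m2 + 3 - (2 * D.m1 + 2) = D.m2 + 1 by omega, hng']

end PatL

theorem patL {V : Type} [Finite V] {H : SimpleGraph V} {T : Typ H} (D : CK T) (b : Bool) :
    ∃ x y z : ℕ → V, Pat T D.Lc x y z ∧ x 0 = D.g1 b 1 ∧ y 0 = D.w b ∧ z 0 = D.g0 b 1 ∧
      T.dt (y (D.m1 + 1)) (x (D.m1 + 1)) = T.dt (D.g0 b (D.m1 + 1)) (D.g0 b D.m1) ∧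
      T.dt (y (D.m1 + 1)) (z (D.m1 + 1)) = T.dt (D.g0 (!b) (D.m1 + 1)) (D.g0 (!b) D.m1) ∧
      T.dt (y (2 * D.m1 + 2)) (x (2 * D.m1 + 2)) = T.dt (D.w (!b)) (D.g0 (!b) 1) ∧
      T.dt (y (2 * D.m1 + 2)) (z (2 * D.m1 + 2)) = T.dt (D.w (!b)) (D.g1 (!b) 1) ∧
      T.dt (y (2 * D.m1 + D.m2 + 3)) (x (2 * D.m1 + D.m2 + 3)) =
        T.dt (D.g1 (!b) (D.m2 + 1)) (D.g1 (!b) D.m2) ∧
      T.dt (y (2 * D.m1 + D.m2 + 3)) (z (2 * D.m1 + D.m2 + 3)) =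
        T.dt (D.g1 b (D.m2 + 1)) (D.g1 b D.m2) := by
  obtain ⟨nf, hnf, hnf'⟩ := T.ext0 (PatL_vt0 D b (!b)) (D.adj0 (!b) D.m1 le_rfl).symm
  obtain ⟨ng, hng, hng'⟩ := T.ext0 (PatL_vt1 D (!b) b) (D.adj1 b D.m2 le_rfl).symm
  have hnf1 : D.g0 b D.m1 ≠ nf := by
    rintro rfl
    have := D.dt_g0 hnf'
    revert this
    cases b <;> decide
  have hng1 : D.g1 (!b) D.m2 ≠ ng := by
    rintro rfl
    have := D.dt_g1 hng'
    revert this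
    cases b <;> decide
  exact PatL_main D b nf ng hnf hnf' hnf1 hng hng' hng1

end Pool.Agent.LHB
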