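import Pool.Agent.LHB.Defs
import Pool.Agent.LHB.RecC
import Pool.Agent.LHB.PatL

/-!
# The chains

For `b : Bool` `patL` and `recur` with `(a, b, c) = (g1 b 1, w b, g0 b 1)` (adjacent by `adj0 b 0`, `adj1 b 0`, `g0_0`, `g1_0`; `ne_01`) give
`K b, g b`. `K2 = K true * K false`; the period `K2 Lc` is a multiple of both periods. The types: for `j = i Lc + p` (`p` a natural
number) `j ≡ p mod Lc` (`Int.add_mul_emod_self` or similar) and `recur` gives `T.dt (g j) (g (j+1)) = T.dt (y p) (z p)`,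
`T.dt (g j) (g (j-1)) = T.dt (y p) (x p)`.
-/

namespace Pool.Agent.LHB

open Pool.Agent.LIH Pool.Agent.LHA

theorem SeqL_mod (i : ℤ) (L p : ℕ) {j : ℤ} (h : j = i * L + p) : j % (L : ℤ) = (p : ℤ) % (L : ℤ) := by
  rw [h, add_comm, Int.add_mul_emod_self_right]

theorem SeqL_per {V : Type} {g : ℤ → V} {N : ℤ} (h : ∀ j, g (j + N) = g j) (n : ℕ) (j : ℤ) :
    g (j + n * N) = g j := by
  induction n generalizing j with
  | zero =>
    have e : j + ((0 : ℕ) : ℤ) * N = j := by push_cast; ring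
    rw [e]
  | succ n ih =>
    have e : j + ((n + 1 : ℕ) : ℤ) * N = (j + n * N) + N := by push_cast; ring
    rw [e, h, ih]

theorem SeqL_one {V : Type} [Finite V] {H : SimpleGraph V} {T : Typ H} (D : CK T) (b : Bool) :
    ∃ K : ℕ, 0 < K ∧ ∃ g : ℤ → V, ∀ n : ℕ, LD D (n * K) b g := by
  obtain ⟨x, y, z, hP, hx, hy, hz, e1, e2, e3, e4, e5, e6⟩ := patL D b
  have h1 : H.Adj (D.g1 b 1) (D.w b) := by
    have := D.adj1 b 0 (Nat.zero_le _)
    rw [D.g1_0] at this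
    exact this.symm
  have h2 : H.Adj (D.w b) (D.g0 b 1) := by
    have := D.adj0 b 0 (Nat.zero_le _)
    rw [D.g0_0] at this
    exact this
  obtain ⟨K, hK, g, hadj, hnb, hm1, h0, hp1, hper, hty⟩ := recur hP h1 h2 (D.ne_01 b).symm
    (by rw [hx, hy]) (by rw [hy, hz])
  refine ⟨K, hK, g, fun n => ?_⟩
  refine ⟨hadj, hnb, ?_, h0, hp1, hm1, ?_, ?_, ?_, ?_, ?_, ?_, ?_, ?_⟩
  · intro j
    have e := SeqL_per (g := g) (N := (K : ℤ) * D.Lc) hper n j
    rw [← e]
    congr 1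
    push_cast
    ring
  · intro i
    have e := (hty (i * D.Lc) 0 (SeqL_mod i D.Lc 0 (by push_cast; ring))).1
    rw [e, hy, hz]
  · intro i
    have e := (hty (i * D.Lc) 0 (SeqL_mod i D.Lc 0 (by push_cast; ring))).2
    rw [e, hy, hx]
  · intro i
    have e := (hty (i * D.Lc + (D.m1 + 1)) (D.m1 + 1) (SeqL_mod i D.Lc (D.m1 + 1) (by push_cast; ring))).2
    rw [e, e1]
  · intro i
    have e := (hty (i * D.Lc + (D.m1 + 1)) (D.m1 + 1) (SeqL_mod i D.Lc (D.m1 + 1) (by push_cast; ring))).1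
    rw [e, e2]
  · intro i
    have e := (hty (i * D.Lc + (2 * D.m1 + 2)) (2 * D.m1 + 2) (SeqL_mod i D.Lc (2 * D.m1 + 2) (by push_cast; ring))).2
    rw [e, e3]
  · intro i
    have e := (hty (i * D.Lc + (2 * D.m1 + 2)) (2 * D.m1 + 2) (SeqL_mod i D.Lc (2 * D.m1 + 2) (by push_cast; ring))).1
    rw [e, e4]
  · intro i
    have e := (hty (i * D.Lc + (2 * D.m1 + D.m2 + 3)) (2 * D.m1 + D.m2 + 3)
      (SeqL_mod i D.Lc (2 * D.m1 + D.m2 + 3) (by push_cast; ring))).2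
    rw [e, e5]
  · intro i
    have e := (hty (i * D.Lc + (2 * D.m1 + D.m2 + 3)) (2 * D.m1 + D.m2 + 3)
      (SeqL_mod i D.Lc (2 * D.m1 + D.m2 + 3) (by push_cast; ring))).1
    rw [e, e6]

theorem seqL {V : Type} [Finite V] {H : SimpleGraph V} {T : Typ H} (D : CK T) :
    ∃ K2 : ℕ, 0 < K2 ∧ ∀ b, ∃ g, LD D K2 b g := by
  choose K hK g hg using fun b => SeqL_one D b
  refine ⟨K true * K false, Nat.mul_pos (hK true) (hK false), fun b => ?_⟩
  cases b with
  | true =>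
    refine ⟨g true, ?_⟩
    rw [mul_comm]
    exact hg true (K false)
  | false =>
    exact ⟨g false, hg false (K true)⟩

end Pool.Agent.LHB
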