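import Pool.Agent.LHB.Defs
import Pool.Agent.LHB.CLx
import Pool.Agent.LHB.GlueW
import Pool.Agent.LHB.SArm
import Pool.Agent.LHB.STyp
import Pool.Agent.LHB.Idx
import Pool.Agent.LHB.NetS
import Pool.Agent.LHB.SeqF
import Pool.Agent.LHB.SeqL
import Pool.Agent.LHB.NcAll
import Pool.Agent.LHB.PosT
import Pool.Agent.LHB.NumB
import Pool.Agent.LHB.DefAdjB
import Pool.Agent.LHA.SatL
import Pool.Agent.LHA.Sat
import Pool.Agent.LIH.Grid
import Pool.Agent.LIH.Emit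
import Pool.Agent.LIH.Hard

/-!
# The reduction

Compare `reduces_of_gad` in `LHA/HardG.lean` (same structure). `np_sat` gives `m, Nv, J, lit`; `seqF`, `seqL` give `K1, K2`.
`exists_print` with `def_adjM` and the polynomial `KN * M` as a polynomial in `n0`
(`(2 * (Nv + 3 * (J * C m) + 1) + 2) * (3 * (2 * (J * C m) + 1 + (Nv + 3 * (J * C m) + 1) + 1)) * C (Bk K1 K2) * C D.M`). For an
input `z`, `n0 = |z| + 1`, `NV`, `Θ`, `lt` as in `def_adjM`; `exists_numN`, `matrix_eq`, `mem_lihom`; the graph has a locally injective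
homomorphism iff `∃ c x, GoodW ..` (`glueW_iff`) iff `PSol Θ lt` (`bsol_of_good` with `lk_dom`, `psol_of_bsol`; `nc_all`; the bound
`ltP_lt` with `lit3_lt` of `LHA/SatL.lean`, `μ = 0`) iff `TSol (modeOK 0) ..` (`psol_iff`) iff `SatOK` (`LHA.tsol_iff_sat`, `μ = 0`).
-/

namespace Pool.Agent.LHB

open Pool.Agent.LIH Pool.Agent.LHA

open NPC Polynomial in
theorem reduces_of_gd {V : Type} [Finite V] {H : SimpleGraph V} {T : Typ H}
    (h3 : ∀ v, 3 ≤ (H.neighborSet v).ncard) (D : Gd T) {L : Set (List Bool)} (hL : L ∈ NP) :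
    Reduces L (LIHOM H) := by
  classical
  obtain ⟨m, Nv, J, lit, hm, hNv, hlt, hsat, hdef⟩ := np_sat hL
  obtain ⟨K1, hK1, hRD⟩ := seqF D.toCK
  obtain ⟨K2, hK2, hLD⟩ := seqL D.toCK
  obtain ⟨e, he⟩ := exists_print
    ((2 * (Nv + 3 * (J * C m) + 1) + 2) *
      (3 * (2 * (J * C m) + 1 + (Nv + 3 * (J * C m) + 1) + 1)) * C (Bk K1 K2) * C D.M)
    (def_adjM D (K2 := K2) hK1 Nv J hm hdef)
  refine ⟨e.fn, polyTime_em e, fun z => ?_⟩
  set n0 := z.length + 1 with hn0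
  obtain ⟨NV, hNV⟩ : ∃ NV, NV = 2 * Np (Nv.eval n0) (J.eval n0 * m) + 2 := ⟨_, rfl⟩
  obtain ⟨Θ, hΘ⟩ : ∃ Θ, Θ = Tp (Nv.eval n0) (J.eval n0 * m) := ⟨_, rfl⟩
  obtain ⟨lt, hltd⟩ : ∃ lt, lt = ltP (Nv.eval n0) (J.eval n0 * m) m (lit (prep z) n0) := ⟨_, rfl⟩
  obtain ⟨G, hG1, hG2⟩ := exists_numN D (KN K1 K2 NV Θ) (lkN K1 K2 NV Θ lt)
  have hM : ((2 * (Nv + 3 * (J * C m) + 1) + 2) *
      (3 * (2 * (J * C m) + 1 + (Nv + 3 * (J * C m) + 1) + 1)) * C (Bk K1 K2) * C D.M).eval n0 =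
      KN K1 K2 NV Θ * D.M := by
    simp only [hNV, hΘ, KN, Np, Tp, Polynomial.eval_mul, Polynomial.eval_add, Polynomial.eval_one,
      Polynomial.eval_C, Polynomial.eval_ofNat]
  have h1 : e.fn z = matrix G := by
    rw [he z, matrix_eq G (fun a b => adjM D (KN K1 K2 NV Θ) (lkN K1 K2 NV Θ lt) a b) hG1, printed, hM]
    simp only [Matrix.cons_val_zero, Matrix.cons_val_one]
    rw [hNV, hΘ, hltd]
    rfl
  have hlt3 := lit3_lt 0 (Nv.eval n0) (J.eval n0) m hm (lit (prep z) n0) (hlt z)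
  have hltP : ∀ o < 3 * Θ, lt o < NV := by
    rw [hΘ, hNV, hltd]
    exact ltP_lt hlt3
  have hT : PSol Θ lt ↔ SatOK (J.eval n0) m (lit (prep z) n0) := by
    rw [← tsol_iff_sat 0 (Nv.eval n0) (J.eval n0) m hm (lit (prep z) n0) (hlt z), hΘ, hltd]
    exact psol_iff hlt3
  have hgl : (∃ f, LocInj (netG D (KN K1 K2 NV Θ) (lkN K1 K2 NV Θ lt)) H f) ↔
      ∃ (c : Fin (KN K1 K2 NV Θ) → (Fin 6 × Fin D.toCK.len) → V)
        (x : Fin (KN K1 K2 NV Θ) → Fin 4 → V),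
        GoodW T D.toCK.a D.toCK.F D.toCK.B (atN D.toCK (KN K1 K2 NV Θ) (lkN K1 K2 NV Θ lt)) c x :=
    glueW_iff D D.toCK.B (atN D.toCK (KN K1 K2 NV Θ) (lkN K1 K2 NV Θ lt))
  rw [h1, mem_lihom, hG2, hsat z, hgl, ← hT]
  constructor
  · intro hs
    exact nc_all h3 D.toCK hK1 hK2 hRD hLD hltP hs
  · rintro ⟨c, x, hc⟩
    exact psol_of_bsol hK1 hK2 hltP (bsol_of_good D.toCK _ _
      (fun q k l h => lk_dom hK1 hK2 hltP q k l h) c x hc)

end Pool.Agent.LHB
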