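import Pool.Agent.LHB.Defs
import Pool.Agent.LHB.CRK
import Pool.Agent.LHA.CRDeep

/-!
# The types given by colour refinement

`κ, k` from `crk`; `vt = κ`, `dt x y = Nat.pair (κ x) (κ y)` (`Nat.pair_eq_pair`). `rev`: clear. `star`: if `κ x = κ x'` then for
`θ = Nat.pair a b` (`Nat.pair_surjective`/`Nat.pair_unpair`) the set `N(x) ∩ {y | Nat.pair (κ x) (κ y) = θ}` is
`N(x) ∩ {κ = b}` if `κ x = a` and empty otherwise; same for `x'`; `Equit`.
`TOut`: `N` from `crel_deep`, `R0 = N + k + 1`. If `R0 ≤ δ u` then `crel H k (f u) (p u)`, and for `v` adjacent to `u`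
`δ v ≥ δ u - 1 ≥ N + k` (`Dp.lip`), so `crel H k (f v) (p v)`: both `κ` are preserved.
-/

namespace Pool.Agent.LHB

open Pool.Agent.LIH Pool.Agent.LHA

theorem ktyp {V : Type} [Finite V] {H : SimpleGraph V} (hc : H.Connected) :
    ∃ T : Typ H, TOut T ∧ Equit H T.vt ∧
      (∀ κ : V → ℕ, Equit H κ → ∀ x y, κ x = κ y → T.vt x = T.vt y) ∧
      ∀ x y x' y', T.dt x y = T.dt x' y' ↔ T.vt x = T.vt x' ∧ T.vt y = T.vt y' := by
  classical
  obtain ⟨k, κ, h1, h2, h3⟩ := crk H
  obtain ⟨N, hN⟩ := crel_deep hc
  let T : Typ H :=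
    { vt := κ
      dt := fun x y => Nat.pair (κ x) (κ y)
      rev := by
        intro x y x' y' _ _ h
        rw [Nat.pair_eq_pair] at h
        exact ⟨h.1, by rw [h.1, h.2]⟩
      star := by
        intro x x' hx θ
        have e : ∀ w, κ w = κ x → (H.neighborSet w ∩ {y | Nat.pair (κ w) (κ y) = θ}) =
            if κ x = (Nat.unpair θ).1 then H.neighborSet w ∩ {y | κ y = (Nat.unpair θ).2}
            else ∅ := by
          intro w hw
          ext y
          split_ifs with hc
          · constructor
            · rintro ⟨ha, hb⟩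
              have hb' : Nat.pair (κ w) (κ y) = θ := hb
              refine ⟨ha, ?_⟩
              change κ y = (Nat.unpair θ).2
              rw [← hb', Nat.unpair_pair]
            · rintro ⟨ha, hb⟩
              have hb' : κ y = (Nat.unpair θ).2 := hb
              refine ⟨ha, ?_⟩
              change Nat.pair (κ w) (κ y) = θ
              rw [hw, hc, hb', Nat.pair_unpair]
          · constructor
            · rintro ⟨_, hb⟩
              have hb' : Nat.pair (κ w) (κ y) = θ := hb
              exfalso
              apply hc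
              rw [← hb', Nat.unpair_pair, hw]
            · intro h
              exact h.elim
        rw [e x rfl, e x' hx.symm]
        split_ifs
        · exact h2 x x' hx _
        · rfl }
  refine ⟨T, ⟨N + k + 1, ?_⟩, h2, h3, ?_⟩
  · intro W hW P p δ hD f hf u hu
    have a1 := hN W hW P p δ hD f hf k u (by omega)
    have a2 : κ (f u) = κ (p u) := (h1 _ _).2 a1
    refine ⟨a2, fun v hv => ?_⟩
    have a3 := hD.lip u v hv
    have a4 := hN W hW P p δ hD f hf k v (by omega)
    have a5 : κ (f v) = κ (p v) := (h1 _ _).2 a4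
    change Nat.pair (κ (f u)) (κ (f v)) = Nat.pair (κ (p u)) (κ (p v))
    rw [a2, a5]
  · intro x y x' y'
    change Nat.pair (κ x) (κ y) = Nat.pair (κ x') (κ y') ↔ _
    rw [Nat.pair_eq_pair]

end Pool.Agent.LHB
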