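import Pool.Agent.LHB.Defs
import Pool.Agent.LHB.TBas

/-!
# Numbers of type preserving bijections of stars

`se_card`: composition with a fixed element of `SE T y x` (`star_equiv0`) is a bijection `SE T y y ≃ SE T y x`.
`se_pos`: the identity.
`ss_card`: let `M` be the set `N(y) ∩ {dt y = dt y y'}`, `M'` the set `N(x) ∩ {dt x = dt x x'}` (same cardinality by `star`,
as the two types are equal). The map `SE T y x → M'`, `σ ↦ σ y'`, is well defined, and its fibres all have the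
same number of elements (composition with the transposition of `x1, x2 ∈ M'`, a bijection between the fibres over
`x1` and `x2`). So `|SE T y x| = |M'| * |fibre over x'|`; and `|SE T y x| = |SE T y y|`.
`dart_card`: let `D` be the set of all pairs `(s, t)`, `H.Adj s t`, `T.dt s t = T.dt y y'`. By `rev` its first components
have the type of `y` and every vertex `z` with `T.vt z = T.vt y` is the first component of exactly `|M|` pairs (`star`).
So `|D| = |{vt = vt y}| * |M|`. By `rev` `(s, t) ↦ (t, s)` is a bijection from `D` to the analogous set for `(y', y)`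
(`T.dt s t = T.dt y y' ↔ T.dt t s = T.dt y' y` for edges, `rev` in both directions).
-/

namespace Pool.Agent.LHB

open Pool.Agent.LIH Pool.Agent.LHA

variable {V : Type} {H : SimpleGraph V} (T : Typ H)

/-- type preserving bijections `N(y) → N(x)` -/
abbrev SE {V : Type} {H : SimpleGraph V} (T : Typ H) (y x : V) : Type :=
  {σ : H.neighborSet y ≃ H.neighborSet x // T.St y x σ}

/-- those which map `y'` to `x'` -/
abbrev SS {V : Type} {H : SimpleGraph V} (T : Typ H) (y x y' x' : V) : Type :=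
  {σ : SE T y x // ∃ h : H.Adj y y', (σ.1 ⟨y', h⟩).1 = x'}

theorem se_card [Finite V] {y x : V} (hv : T.vt y = T.vt x) :
    Nat.card (SE T y x) = Nat.card (SE T y y) := by
  obtain ⟨φ, hφ⟩ := T.star_equiv0 hv
  refine (Nat.card_congr ?_).symm
  refine
    { toFun := fun σ => ⟨σ.1.trans φ, fun z => ?_⟩
      invFun := fun τ => ⟨τ.1.trans φ.symm, fun z => ?_⟩
      left_inv := fun σ => ?_
      right_inv := fun τ => ?_ }
  · show T.dt y z.1 = T.dt x (φ (σ.1 z)).1
    rw [← hφ (σ.1 z)]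
    exact σ.2 z
  · show T.dt y z.1 = T.dt y (φ.symm (τ.1 z)).1
    rw [hφ (φ.symm (τ.1 z)), φ.apply_symm_apply]
    exact τ.2 z
  · apply Subtype.ext
    apply Equiv.ext
    intro z
    exact φ.symm_apply_apply _
  · apply Subtype.ext
    apply Equiv.ext
    intro z
    exact φ.apply_symm_apply _

theorem se_pos [Finite V] (y : V) : 0 < Nat.card (SE T y y) := by
  haveI : Nonempty (SE T y y) := ⟨⟨Equiv.refl _, fun _ => rfl⟩⟩
  exact Nat.card_pos

theorem ss_card [Finite V] {y x y' x' : V} (h : H.Adj y y') (h' : H.Adj x x')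
    (e : T.dt y y' = T.dt x x') :
    Nat.card (SS T y x y' x') * (H.neighborSet y ∩ {z | T.dt y z = T.dt y y'}).ncard =
      Nat.card (SE T y y) := by
  classical
  have hv : T.vt y = T.vt x := (T.hd h h' e).2.1
  rw [← se_card T hv, T.star y x hv (T.dt y y')]
  set Y : H.neighborSet y := ⟨y', h⟩ with hY
  set X : H.neighborSet x := ⟨x', h'⟩ with hX
  change Nat.card (SS T y x y' x') *
    Nat.card ↥(H.neighborSet x ∩ {z | T.dt x z = T.dt y y'}) = Nat.card (SE T y x)
  rw [← Nat.card_prod]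
  refine Nat.card_congr ?_
  refine
    { toFun := fun q => ⟨q.1.1.1.trans (Equiv.swap X ⟨q.2.1, q.2.2.1⟩),
        T.TBas_swap q.1.1.2 X ⟨q.2.1, q.2.2.1⟩ (e.symm.trans q.2.2.2.symm)⟩
      invFun := fun σ => (⟨⟨σ.1.trans (Equiv.swap (σ.1 Y) X),
          T.TBas_swap σ.2 (σ.1 Y) X ((σ.2 Y).symm.trans e)⟩, h, ?_⟩,
        ⟨(σ.1 Y).1, (σ.1 Y).2, (σ.2 Y).symm⟩)
      left_inv := ?_
      right_inv := ?_ }
  · show ((Equiv.swap (σ.1 Y) X) (σ.1 Y)).1 = x'
    rw [Equiv.swap_apply_left]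
  · rintro ⟨⟨⟨τ, hτ⟩, ⟨hy, hτ2⟩⟩, ⟨m, hm⟩⟩
    have hτY : τ Y = X := Subtype.ext hτ2
    have hσ : (τ.trans (Equiv.swap X ⟨m, hm.1⟩)) Y = ⟨m, hm.1⟩ := by
      show (Equiv.swap X ⟨m, hm.1⟩) (τ Y) = _
      rw [hτY, Equiv.swap_apply_left]
    refine Prod.ext ?_ ?_
    · apply Subtype.ext
      apply Subtype.ext
      show (τ.trans (Equiv.swap X ⟨m, hm.1⟩)).trans
        (Equiv.swap ((τ.trans (Equiv.swap X ⟨m, hm.1⟩)) Y) X) = τ
      rw [hσ]
      apply Equiv.ext
      intro z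
      show (Equiv.swap ⟨m, hm.1⟩ X) ((Equiv.swap X ⟨m, hm.1⟩) (τ z)) = τ z
      rw [Equiv.swap_comm, Equiv.swap_apply_self]
    · apply Subtype.ext
      show ((τ.trans (Equiv.swap X ⟨m, hm.1⟩)) Y).1 = m
      rw [hσ]
  · rintro ⟨σ, hσ⟩
    apply Subtype.ext
    apply Equiv.ext
    intro z
    show (Equiv.swap X ⟨(σ Y).1, (σ Y).2⟩) ((Equiv.swap (σ Y) X) (σ z)) = σ z
    rw [Equiv.swap_comm]
    exact Equiv.swap_apply_self _ _ _

theorem McA_D [Finite V] {y y' : V} (h : H.Adj y y') :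
    Nat.card {p : V × V // H.Adj p.1 p.2 ∧ T.dt p.1 p.2 = T.dt y y'} =
      {z | T.vt z = T.vt y}.ncard * (H.neighborSet y ∩ {z | T.dt y z = T.dt y y'}).ncard := by
  classical
  haveI := Fintype.ofFinite V
  have e1 : {p : V × V // H.Adj p.1 p.2 ∧ T.dt p.1 p.2 = T.dt y y'} ≃
      (Σ z : ↥{z | T.vt z = T.vt y}, ↥(H.neighborSet z.1 ∩ {w | T.dt z.1 w = T.dt y y'})) :=
    { toFun := fun p => ⟨⟨p.1.1, (T.hd p.2.1 h p.2.2).2.1⟩, ⟨p.1.2, p.2⟩⟩
      invFun := fun q => ⟨(q.1.1, q.2.1), q.2.2⟩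
      left_inv := fun _ => rfl
      right_inv := fun _ => rfl }
  rw [Nat.card_congr e1, Nat.card_sigma]
  have h1 : ∀ z : ↥{z | T.vt z = T.vt y},
      Nat.card ↥(H.neighborSet z.1 ∩ {w | T.dt z.1 w = T.dt y y'}) =
        (H.neighborSet y ∩ {z | T.dt y z = T.dt y y'}).ncard := fun z => T.star z.1 y z.2 _
  rw [Finset.sum_congr rfl (fun z _ => h1 z), Finset.sum_const, smul_eq_mul, Finset.card_univ,
    ← Nat.card_eq_fintype_card]
  rfl

theorem dart_card [Finite V] {y y' : V} (h : H.Adj y y') :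
    {z | T.vt z = T.vt y}.ncard * (H.neighborSet y ∩ {z | T.dt y z = T.dt y y'}).ncard =
      {z | T.vt z = T.vt y'}.ncard * (H.neighborSet y' ∩ {z | T.dt y' z = T.dt y' y}).ncard := by
  rw [← McA_D T h, ← McA_D T h.symm]
  refine Nat.card_congr ?_
  exact
    { toFun := fun p => ⟨(p.1.2, p.1.1), p.2.1.symm, (T.hd p.2.1 h p.2.2).2.2⟩
      invFun := fun p => ⟨(p.1.2, p.1.1), p.2.1.symm, (T.hd p.2.1 h.symm p.2.2).2.2⟩
      left_inv := fun _ => rfl
      right_inv := fun _ => rfl }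

end Pool.Agent.LHB
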