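import Pool.Agent.LHB.Defs
import Pool.Agent.LHB.TBas
import Pool.Agent.LHB.McA

/-!
# Weights

`A y = Nat.card (SE T y y) > 0`, `C y = {z | T.vt z = T.vt y}.ncard > 0`, `c = ∏ z, A z * C z` (a `Fintype` instance of `V`
classically), `n y = c / (A y * C y)`, so `n y * (A y * C y) = c`, `n y > 0`. For `y, y', x, x'` as in the theorem let
`S = Nat.card (SS T y x y' x')`, `S' = Nat.card (SS T y' x' y x)`, `M = (N(y) ∩ ..).ncard`, `M'` the one for `(y', y)`. `ss_card` gives
`S * M = A y`, and (`rev`: `T.dt y' y = T.dt x' x`) `S' * M' = A y'`; `dart_card`: `C y * M = C y' * M'`, a positive number `N`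
(`y' ∈ N(y) ∩ ..`). So `S * n y * N = A y * n y * C y = c = S' * n y' * N`, hence `S * n y = S' * n y'`: the two finite
types have the same cardinality (`Nat.card_prod`, `Nat.card_fin`, `Nat.card_congr`, `Finite.equivOfCardEq` ).
-/

namespace Pool.Agent.LHB

open Pool.Agent.LIH Pool.Agent.LHA

theorem mc_weights {V : Type} [Finite V] {H : SimpleGraph V} (T : Typ H) :
    ∃ n : V → ℕ, (∀ y, 0 < n y) ∧ ∀ y x y' x', H.Adj y y' → H.Adj x x' → T.dt y y' = T.dt x x' →
      Nonempty (SS T y x y' x' × Fin (n y) ≃ SS T y' x' y x × Fin (n y')) := by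
  classical
  have := Fintype.ofFinite V
  let A : V → ℕ := fun y => Nat.card (SE T y y)
  let C : V → ℕ := fun y => {z | T.vt z = T.vt y}.ncard
  have hA : ∀ y, 0 < A y := fun y => se_pos T y
  have hC : ∀ y, 0 < C y := fun y => (Set.ncard_pos (Set.toFinite _)).2 ⟨y, rfl⟩
  let c := ∏ z, A z * C z
  have hdvd : ∀ y, A y * C y ∣ c := fun y =>
    Finset.dvd_prod_of_mem (fun z => A z * C z) (Finset.mem_univ y)
  have hc : 0 < c := Finset.prod_pos (fun z _ => Nat.mul_pos (hA z) (hC z))
  refine ⟨fun y => c / (A y * C y), ?_, ?_⟩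
  · intro y
    exact Nat.div_pos (Nat.le_of_dvd hc (hdvd y)) (Nat.mul_pos (hA y) (hC y))
  · intro y x y' x' h h' e
    have e' : T.dt y' y = T.dt x' x := (T.rev _ _ _ _ h h' e).2
    have s1 : Nat.card (SS T y x y' x') * (H.neighborSet y ∩ {z | T.dt y z = T.dt y y'}).ncard
      = A y := ss_card T h h' e
    have s2 : Nat.card (SS T y' x' y x) * (H.neighborSet y' ∩ {z | T.dt y' z = T.dt y' y}).ncard
      = A y' := ss_card T h.symm h'.symm e'
    have d : C y * (H.neighborSet y ∩ {z | T.dt y z = T.dt y y'}).ncard =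
      C y' * (H.neighborSet y' ∩ {z | T.dt y' z = T.dt y' y}).ncard := dart_card T h
    have hM : 0 < (H.neighborSet y ∩ {z | T.dt y z = T.dt y y'}).ncard :=
      (Set.ncard_pos (Set.toFinite _)).2 ⟨y', h, rfl⟩
    have n1 : c / (A y * C y) * (A y * C y) = c := Nat.div_mul_cancel (hdvd y)
    have n2 : c / (A y' * C y') * (A y' * C y') = c := Nat.div_mul_cancel (hdvd y')
    have key : Nat.card (SS T y x y' x') * (c / (A y * C y)) =
        Nat.card (SS T y' x' y x) * (c / (A y' * C y')) := by
      generalize c / (A y * C y) = a1 at *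
      generalize c / (A y' * C y') = a2 at *
      generalize Nat.card (SS T y x y' x') = S1 at *
      generalize Nat.card (SS T y' x' y x) = S2 at *
      generalize (H.neighborSet y ∩ {z | T.dt y z = T.dt y y'}).ncard = M1 at *
      generalize (H.neighborSet y' ∩ {z | T.dt y' z = T.dt y' y}).ncard = M2 at *
      have hN : 0 < C y * M1 := Nat.mul_pos (hC y) hM
      apply Nat.eq_of_mul_eq_mul_right hN
      calc S1 * a1 * (C y * M1) = a1 * ((S1 * M1) * C y) := by ring
        _ = a1 * (A y * C y) := by rw [s1]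
        _ = a2 * (A y' * C y') := by rw [n1, n2]
        _ = a2 * ((S2 * M2) * C y') := by rw [s2]
        _ = S2 * a2 * (C y' * M2) := by ring
        _ = S2 * a2 * (C y * M1) := by rw [d]
    have hcard : Nat.card (SS T y x y' x' × Fin (c / (A y * C y))) =
        Nat.card (SS T y' x' y x × Fin (c / (A y' * C y'))) := by
      rw [Nat.card_prod, Nat.card_prod, Nat.card_fin, Nat.card_fin]
      exact key
    exact Finite.card_eq.1 hcard

end Pool.Agent.LHB
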