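import Pool.Agent.LHB.Defs
import Pool.Agent.LHB.TBas
import Pool.Agent.LHB.McA
import Pool.Agent.LHB.McB

/-!
# A covering for one bijection

Let `n` be as in `mc_weights`, `e : V → ℕ` injective (`Finite.equivFin`). For `H.Adj y y'`, `H.Adj x x'`, `T.dt y y' = T.dt x x'`
choose `β(y,x,y',x')` and put `γ(y,x,y',x') = β(y,x,y',x')` if `e y < e y'` and `(β(y',x',y,x)).symm` otherwise; then
`γ(y',x',y,x) = γ(y,x,y',x').symm` (`e y ≠ e y'`). Vertices: `W = {(y, x, σ, i) | T.vt y = T.vt x, σ ∈ SE T y x, i < n y}` (a finite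
type: a sigma type). For `s = (y, x, σ, i)` and `H.Adj y y'` put `x' = σ y'` (adjacent to `x`, `T.dt y y' = T.dt x x'`),
`(σ', i') = γ(y,x,y',x') (σ, i)` and `nb s y' = (y', x', σ', i')` (`T.vt y' = T.vt x'` by `hd`). Then `σ' y = x`, and
`nb (nb s y') y = s`. Adjacency: `H.Adj s.y s'.y ∧ nb s s'.y = s'` (symmetric by the last equation; irreflexive).
`p s = y`: edges are mapped to edges; two neighbours `v, v'` of `u` with `p v = p v'` are equal (`v = nb u (p v)`); every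
`y' ∈ N(y)` is `p (nb s y')`. `f s = x`: `f (nb s y') = σ y'`, and `σ` is a bijection `N(y) → N(x)`. Root `r = (a, x, σ, 0)`:
neighbours `q = nb r y'`, `p q = y'`, `f q = σ y'`. Transport to `Fin n` with `Finite.equivFin`/`Finite.exists_equiv_fin`.
-/

namespace Pool.Agent.LHB

open Pool.Agent.LIH Pool.Agent.LHA

theorem mcc_cov_fin {V W : Type} [Finite W] {H : SimpleGraph V} (G : SimpleGraph W) :
    ∃ (n : ℕ) (e : W ≃ Fin n), ∀ f : W → V, Cov G H f →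
      Cov (G.comap e.symm) H (f ∘ e.symm) := by
  obtain ⟨n, ⟨e⟩⟩ := Finite.exists_equiv_fin W
  refine ⟨n, e, fun f hf => ⟨⟨?_, ?_⟩, ?_⟩⟩
  · intro u v huv
    exact hf.1.1 _ _ huv
  · intro v a ha b hb hab
    exact e.symm.injective (hf.1.2 (e.symm v) (by exact ha) (by exact hb) hab)
  · intro u y hy
    obtain ⟨v, hv, rfl⟩ := hf.2 (e.symm u) y hy
    refine ⟨e v, ?_, ?_⟩
    · show G.Adj (e.symm u) (e.symm (e v))
      rw [e.symm_apply_apply]; exact hv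
    · show f (e.symm (e v)) = f v
      rw [e.symm_apply_apply]

/-- the edges which are used -/
def mccP {V : Type} {H : SimpleGraph V} (T : Typ H) (y x y' x' : V) : Prop :=
  H.Adj y y' ∧ H.Adj x x' ∧ T.dt y y' = T.dt x x'

theorem mccP_symm {V : Type} {H : SimpleGraph V} {T : Typ H} {y x y' x' : V}
    (h : mccP T y x y' x') : mccP T y' x' y x :=
  ⟨h.1.symm, h.2.1.symm, (T.rev _ _ _ _ h.1 h.2.1 h.2.2).2⟩

/-- symmetric choice -/
theorem mcc_gamma {V : Type} [Finite V] {H : SimpleGraph V} (T : Typ H) :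
    ∃ n : V → ℕ, (∀ y, 0 < n y) ∧ ∃ γ : ∀ y x y' x', mccP T y x y' x' →
      (SS T y x y' x' × Fin (n y) ≃ SS T y' x' y x × Fin (n y')),
      ∀ y x y' x' (h : mccP T y x y' x'), γ y' x' y x (mccP_symm h) = (γ y x y' x' h).symm := by
  classical
  obtain ⟨n, hn, hne⟩ := mc_weights T
  obtain ⟨m, ⟨e⟩⟩ := Finite.exists_equiv_fin V
  let β : ∀ y x y' x', mccP T y x y' x' →
      (SS T y x y' x' × Fin (n y) ≃ SS T y' x' y x × Fin (n y')) :=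
    fun y x y' x' h => (hne y x y' x' h.1 h.2.1 h.2.2).some
  refine ⟨n, hn, fun y x y' x' h => if e y < e y' then β y x y' x' h
    else (β y' x' y x (mccP_symm h)).symm, ?_⟩
  intro y x y' x' h
  have hne : e y ≠ e y' := fun hh => h.1.ne (e.injective hh)
  rcases lt_or_gt_of_ne hne with h1 | h1
  · simp only [h1, not_lt.2 h1.le, if_true, if_false]
  · simp only [h1, not_lt.2 h1.le, if_true, if_false, Equiv.symm_symm]

section

variable {V : Type} {H : SimpleGraph V} (T : Typ H) (n : V → ℕ)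

/-- vertices -/
abbrev MccW {V : Type} {H : SimpleGraph V} (T : Typ H) (n : V → ℕ) : Type :=
  Σ q : V × V, ({_σ : SE T q.1 q.2 // T.vt q.1 = T.vt q.2} × Fin (n q.1))

/-- adjacency -/
def mccAdj {V : Type} {H : SimpleGraph V} (T : Typ H) (n : V → ℕ)
    (γ : ∀ y x y' x', mccP T y x y' x' →
      (SS T y x y' x' × Fin (n y) ≃ SS T y' x' y x × Fin (n y')))
    (s t : MccW T n) : Prop :=
  ∃ (h : mccP T s.1.1 s.1.2 t.1.1 t.1.2) (h1 : (s.2.1.1.1 ⟨t.1.1, h.1⟩).1 = t.1.2)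
    (h2 : (t.2.1.1.1 ⟨s.1.1, h.1.symm⟩).1 = s.1.2),
    γ _ _ _ _ h (⟨s.2.1.1, ⟨h.1, h1⟩⟩, s.2.2) = (⟨t.2.1.1, ⟨h.1.symm, h2⟩⟩, t.2.2)

end

theorem mc_one {V : Type} [Finite V] {H : SimpleGraph V} (T : Typ H) (a x : V)
    (σ : H.neighborSet a ≃ H.neighborSet x) (hv : T.vt a = T.vt x) (hσ : T.St a x σ) :
    ∃ (n : ℕ) (G : SimpleGraph (Fin n)) (r : Fin n) (p f : Fin n → V), Cov G H p ∧ p r = a ∧
      Cov G H f ∧ f r = x ∧ ∀ q (h : H.Adj a (p q)), G.Adj r q → f q = (σ ⟨p q, h⟩).1 := by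
  classical
  obtain ⟨n, hn, γ, hγ⟩ := mcc_gamma T
  have hsymm : ∀ s t, mccAdj T n γ s t → mccAdj T n γ t s := by
    rintro s t ⟨h, h1, h2, h3⟩
    refine ⟨mccP_symm h, h2, h1, ?_⟩
    rw [hγ, Equiv.symm_apply_eq]
    exact h3.symm
  let G : SimpleGraph (MccW T n) :=
    { Adj := mccAdj T n γ
      symm := ⟨hsymm⟩
      loopless := ⟨fun s hs => by
        obtain ⟨h, -⟩ := hs
        exact h.1.ne rfl⟩ }
  have hadj : ∀ s t, G.Adj s t ↔ mccAdj T n γ s t := fun s t => Iff.rfl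
  -- existence of neighbours
  have hex : ∀ (s : MccW T n) (y' : V) (hy : H.Adj s.1.1 y'),
      ∃ t, G.Adj s t ∧ t.1.1 = y' ∧ t.1.2 = (s.2.1.1.1 ⟨y', hy⟩).1 := by
    rintro ⟨⟨y, x⟩, ⟨⟨σ, hσ⟩, hvt⟩, i⟩ y' hy
    dsimp only at hσ hvt hy
    have hP : mccP T y x y' (σ ⟨y', hy⟩).1 := ⟨hy, (σ ⟨y', hy⟩).2, hσ ⟨y', hy⟩⟩
    obtain ⟨⟨⟨τ, hτ⟩, j⟩, hj⟩ : ∃ w, w = γ _ _ _ _ hP (⟨⟨σ, hσ⟩, ⟨hy, rfl⟩⟩, i) := ⟨_, rfl⟩
    obtain ⟨hτ1, hτ2⟩ := hτ
    refine ⟨⟨⟨y', (σ ⟨y', hy⟩).1⟩, ⟨⟨τ, (T.hd hP.1 hP.2.1 hP.2.2).1⟩, j⟩⟩, ?_, rfl, rfl⟩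
    exact ⟨hP, rfl, hτ2, hj.symm⟩
  -- uniqueness of neighbours
  have huniq : ∀ s t t' : MccW T n, G.Adj s t → G.Adj s t' → t.1.1 = t'.1.1 → t = t' := by
    rintro ⟨⟨y, x⟩, ⟨⟨σ, hσ⟩, hvt⟩, i⟩ ⟨⟨y1, x1⟩, ⟨⟨σ1, hσ1⟩, hvt1⟩, i1⟩
      ⟨⟨y2, x2⟩, ⟨⟨σ2, hσ2⟩, hvt2⟩, i2⟩ ⟨h, h1, h2, h3⟩ ⟨h', h1', h2', h3'⟩ he
    dsimp only at h h1 h2 h3 h' h1' h2' h3' he
    subst he
    have hx : x1 = x2 := h1.symm.trans h1'
    subst hx
    have := h3.symm.trans h3'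
    simp only [Prod.mk.injEq, Subtype.mk.injEq] at this
    obtain ⟨e1, e2⟩ := this
    subst e1
    subst e2
    rfl
  have hp : Cov G H (fun s => s.1.1) := by
    refine ⟨⟨?_, ?_⟩, ?_⟩
    · rintro s t ⟨h, -⟩
      exact h.1
    · intro s t ht t' ht' he
      exact huniq s t t' ht ht' he
    · intro s y' hy'
      obtain ⟨t, ht, e, -⟩ := hex s y' hy'
      exact ⟨t, ht, e⟩
  have hf : Cov G H (fun s => s.1.2) := by
    refine ⟨⟨?_, ?_⟩, ?_⟩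
    · rintro s t ⟨h, -⟩
      exact h.2.1
    · intro s t ht t' ht' he
      refine huniq s t t' ht ht' ?_
      obtain ⟨h, h1, -⟩ := ht
      obtain ⟨h', h1', -⟩ := ht'
      have he' : t.1.2 = t'.1.2 := he
      have : (s.2.1.1.1 ⟨t.1.1, h.1⟩) = (s.2.1.1.1 ⟨t'.1.1, h'.1⟩) :=
        Subtype.ext ((h1.trans he').trans h1'.symm)
      have := s.2.1.1.1.injective this
      exact congrArg Subtype.val this
    · intro s x' hx'
      have hx'' : H.Adj s.1.2 x' := hx'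
      obtain ⟨⟨y', hy'⟩, e⟩ := s.2.1.1.1.surjective ⟨x', hx''⟩
      obtain ⟨t, ht, -, e2⟩ := hex s y' hy'
      refine ⟨t, ht, ?_⟩
      show t.1.2 = x'
      rw [e2, e]
  obtain ⟨N, e, hcov⟩ := mcc_cov_fin (V := V) (H := H) G
  let r : MccW T n := ⟨⟨a, x⟩, ⟨⟨⟨σ, hσ⟩, hv⟩, ⟨0, hn a⟩⟩⟩
  refine ⟨N, G.comap e.symm, e r, _, _, hcov _ hp, ?_, hcov _ hf, ?_, ?_⟩
  · show (e.symm (e r)).1.1 = a
    rw [e.symm_apply_apply]
  · show (e.symm (e r)).1.2 = x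
    rw [e.symm_apply_apply]
  · intro q hq hadjq
    have hadj' : G.Adj (e.symm (e r)) (e.symm q) := hadjq
    rw [e.symm_apply_apply] at hadj'
    obtain ⟨h, h1, -⟩ := hadj'
    exact h1.symm

end Pool.Agent.LHB
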