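import Pool.Agent.LHB.Defs
import Pool.Agent.LHB.McA
import Pool.Agent.LHB.McC

/-!
# A covering for all bijections

Fibre products, by induction on a finite set of pairs `(x, σ)`.
-/

namespace Pool.Agent.LHB

open Pool.Agent.LIH Pool.Agent.LHA

theorem McD_comp {A B V : Type} {G1 : SimpleGraph A} {G2 : SimpleGraph B} {H : SimpleGraph V}
    {g : A → B} {f : B → V} (hg : Cov G1 G2 g) (hf : Cov G2 H f) : Cov G1 H (fun z => f (g z)) := by
  refine ⟨⟨fun u v h => hf.1.1 _ _ (hg.1.1 _ _ h), ?_⟩, ?_⟩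
  · intro v a ha b hb hab
    exact hg.1.2 v ha hb (hf.1.2 (g v) (hg.1.1 _ _ ha) (hg.1.1 _ _ hb) hab)
  · intro u y hy
    obtain ⟨v, hv, rfl⟩ := hf.2 (g u) y hy
    obtain ⟨w, hw, rfl⟩ := hg.2 u v hv
    exact ⟨w, hw, rfl⟩

section

variable {A B V : Type} {G1 : SimpleGraph A} {G2 : SimpleGraph B} {H : SimpleGraph V}
  {p1 : A → V} {p2 : B → V}

/-- the fibre product -/
def McD_fp (G1 : SimpleGraph A) (G2 : SimpleGraph B) (p1 : A → V) (p2 : B → V) :
    SimpleGraph {z : A × B // p1 z.1 = p2 z.2} where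
  Adj z z' := G1.Adj z.1.1 z'.1.1 ∧ G2.Adj z.1.2 z'.1.2
  symm := ⟨fun _ _ h => ⟨h.1.symm, h.2.symm⟩⟩
  loopless := ⟨fun _ h => G1.irrefl h.1⟩

theorem McD_fst (h1 : Cov G1 H p1) (h2 : Cov G2 H p2) :
    Cov (McD_fp G1 G2 p1 p2) G1 (fun z => z.1.1) := by
  refine ⟨⟨fun u v h => h.1, ?_⟩, ?_⟩
  · intro z a ha b hb hab
    have hab' : a.1.1 = b.1.1 := hab
    have e : a.1.2 = b.1.2 := by
      apply h2.1.2 z.1.2 ha.2 hb.2
      rw [← a.2, ← b.2, hab']
    exact Subtype.ext (Prod.ext hab' e)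
  · intro z u hu
    have h3 : H.Adj (p2 z.1.2) (p1 u) := by
      rw [← z.2]; exact h1.1.1 _ _ hu
    obtain ⟨v, hv, hv2⟩ := h2.2 z.1.2 (p1 u) h3
    exact ⟨⟨(u, v), hv2.symm⟩, ⟨hu, hv⟩, rfl⟩

theorem McD_snd (h1 : Cov G1 H p1) (h2 : Cov G2 H p2) :
    Cov (McD_fp G1 G2 p1 p2) G2 (fun z => z.1.2) := by
  refine ⟨⟨fun u v h => h.2, ?_⟩, ?_⟩
  · intro z a ha b hb hab
    have hab' : a.1.2 = b.1.2 := hab
    have e : a.1.1 = b.1.1 := by
      apply h1.1.2 z.1.1 ha.1 hb.1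
      rw [a.2, b.2, hab']
    exact Subtype.ext (Prod.ext e hab')
  · intro z v hv
    have h3 : H.Adj (p1 z.1.1) (p2 v) := by
      rw [z.2]; exact h2.1.1 _ _ hv
    obtain ⟨u, hu, hu2⟩ := h1.2 z.1.1 (p2 v) h3
    exact ⟨⟨(u, v), hu2⟩, ⟨hu, hv⟩, rfl⟩

end

theorem McD_id {V : Type} (H : SimpleGraph V) : Cov H H (fun v => v) :=
  ⟨⟨fun _ _ h => h, fun _ _ _ _ _ h => h⟩, fun _ y hy => ⟨y, hy, rfl⟩⟩

/-- the version for a finite set of pairs and an arbitrary finite type -/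
theorem McD_ind {V : Type} [Finite V] {H : SimpleGraph V} (T : Typ H) (a : V)
    (S : Finset (Σ x : V, (H.neighborSet a ≃ H.neighborSet x))) :
    ∃ (W : Type) (_ : Finite W) (G : SimpleGraph W) (r : W) (p : W → V), Cov G H p ∧ p r = a ∧
      ∀ t ∈ S, T.vt a = T.vt t.1 → T.St a t.1 t.2 → ∃ f : W → V, Cov G H f ∧ f r = t.1 ∧
        ∀ q (h : H.Adj a (p q)), G.Adj r q → f q = (t.2 ⟨p q, h⟩).1 := by
  classical
  induction S using Finset.induction_on with
  | empty => exact ⟨V, inferInstance, H, a, fun v => v, McD_id H, rfl, by simp⟩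
  | insert t S ht ih =>
    obtain ⟨W, hW, G, r, p, hp, hr, hS⟩ := ih
    by_cases hc : T.vt a = T.vt t.1 ∧ T.St a t.1 t.2
    · obtain ⟨n, G2, r2, p2, f2, hp2, hr2, hf2, hfr2, hq2⟩ := mc_one T a t.1 t.2 hc.1 hc.2
      have c1 := McD_fst hp hp2
      have c2 := McD_snd hp hp2
      refine ⟨{z : W × Fin n // p z.1 = p2 z.2}, inferInstance, McD_fp G G2 p p2,
        ⟨(r, r2), by rw [hr, hr2]⟩, fun z => p z.1.1, McD_comp c1 hp, hr, ?_⟩
      intro t' ht' hv hst
      rcases Finset.mem_insert.1 ht' with rfl | ht'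
      · refine ⟨fun z => f2 z.1.2, McD_comp c2 hf2, hfr2, ?_⟩
        rintro ⟨⟨u, v⟩, huv⟩ h hadj
        change f2 v = _
        have h' : H.Adj a (p2 v) := by
          have := huv
          simp only at this
          rw [← this]; exact h
        rw [hq2 v h' hadj.2]
        have huv' : p u = p2 v := huv
        congr 2
        exact Subtype.ext huv'.symm
      · obtain ⟨f, hf, hfr, hq⟩ := hS t' ht' hv hst
        refine ⟨fun z => f z.1.1, McD_comp c1 hf, hfr, ?_⟩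
        rintro ⟨⟨u, v⟩, huv⟩ h hadj
        exact hq u h hadj.1
    · refine ⟨W, hW, G, r, p, hp, hr, ?_⟩
      intro t' ht' hv hst
      rcases Finset.mem_insert.1 ht' with rfl | ht'
      · exact absurd ⟨hv, hst⟩ hc
      · exact hS t' ht' hv hst

theorem mcov_exists {V : Type} [Finite V] {H : SimpleGraph V} (T : Typ H) (a : V) :
    MCov T a := by
  classical
  have hfin : Finite (Σ x : V, (H.neighborSet a ≃ H.neighborSet x)) := inferInstance
  cases nonempty_fintype (Σ x : V, (H.neighborSet a ≃ H.neighborSet x))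
  obtain ⟨W, hW, G, r, p, hp, hr, hS⟩ := McD_ind T a Finset.univ
  obtain ⟨n, ⟨e⟩⟩ := Finite.exists_equiv_fin W
  have key : ∀ f : W → V, Cov G H f → Cov (G.comap e.symm) H (fun q => f (e.symm q)) := by
    intro f hf
    refine ⟨⟨fun u v h => hf.1.1 _ _ h, ?_⟩, ?_⟩
    · intro v x hx y hy hxy
      exact e.symm.injective (hf.1.2 (e.symm v) hx hy hxy)
    · intro u y hy
      obtain ⟨w, hw, hw2⟩ := hf.2 (e.symm u) y hy
      refine ⟨e w, ?_, ?_⟩
      · show G.Adj (e.symm u) (e.symm (e w))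
        rw [Equiv.symm_apply_apply]; exact hw
      · show f (e.symm (e w)) = y
        rw [Equiv.symm_apply_apply]; exact hw2
  refine ⟨n, G.comap e.symm, e r, fun q => p (e.symm q), key p hp, ?_, ?_⟩
  · show p (e.symm (e r)) = a
    rw [Equiv.symm_apply_apply]; exact hr
  · intro x σ hv hst
    obtain ⟨f, hf, hfr, hq⟩ := hS ⟨x, σ⟩ (Finset.mem_univ _) hv hst
    refine ⟨fun q => f (e.symm q), key f hf, ?_, ?_⟩
    · show f (e.symm (e r)) = x
      rw [Equiv.symm_apply_apply]; exact hfr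
    · intro q h hadj
      refine hq (e.symm q) h ?_
      have h2 : G.Adj (e.symm (e r)) (e.symm q) := hadj
      rwa [Equiv.symm_apply_apply] at h2

end Pool.Agent.LHB
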