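import Pool.Agent.LHB.Defs
import Pool.Agent.LHB.TBas
import Pool.Agent.LHB.McD
import Pool.Agent.LHB.FPinM
import Pool.Agent.LHB.KTyp
import Pool.Agent.LHB.CKex
import Pool.Agent.LHB.GdEx
import Pool.Agent.LHB.HardB
import Pool.Agent.LIH.Member

/-!
# The theorem
-/

namespace Pool.Agent.LHB

open Pool.Agent.LIH Pool.Agent.LHA

open NPC in
theorem npc_mixed {n : ℕ} {H : SimpleGraph (Fin n)} (hc : H.Connected)
    (h3 : ∀ v, 3 ≤ (H.neighborSet v).ncard) {X P1 P2 Q : Fin n}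
    (h4 : 4 ≤ (H.neighborSet X).ncard) (h1 : H.Adj X P1) (h2 : H.Adj X P2) (hQ : H.Adj X Q)
    (hne : P1 ≠ P2) (hs : SameCol H P1 P2) (hd : ¬ SameCol H P1 Q) : NPComplete (LIHOM H) := by
  have h2' : ∀ v, 2 ≤ (H.neighborSet v).ncard := fun v => le_trans (by norm_num) (h3 v)
  obtain ⟨T, ho, he, hco, hdt⟩ := ktyp hc
  obtain ⟨κ, hκ, hκ'⟩ := hs
  have hP : T.dt X P2 = T.dt X P1 := (hdt _ _ _ _).2 ⟨rfl, (hco κ hκ _ _ hκ').symm⟩
  have hv : T.vt Q ≠ T.vt P1 := fun h => hd ⟨T.vt, he, h.symm⟩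
  obtain ⟨D⟩ := ck_exists T h3 h4 h1 h2 hQ hne hP hv
  obtain ⟨D⟩ := gd_exists h3 D (fun a F hF => fpin_exists h2' T ho (mcov_exists T a) hF)
  exact ⟨lihom_mem_np H, fun _ hL => reduces_of_gd h3 D hL⟩

end Pool.Agent.LHB
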